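import Mathlib

/-!
CY-S2-BL. The Brezis-Lieb lemma.

For every `ε > 0` there is `C_ε` with `||a + b|^r - |a|^r| ≤ ε |a|^r + C_ε |b|^r` (`r > 1`).  With
`a = u_k - w`, `b = w`: the functions `W_k = (||u_k|^r - |u_k - w|^r - |w|^r| - ε |u_k - w|^r)^+` are bounded
by `(1 + C_ε) |w|^r` and tend to `0` a.e.; dominated convergence.
-/

set_option autoImplicit false

open scoped ENNReal ContDiff
open MeasureTheory Set Filter Topology

namespace Pool.Agent.CY

variable {Z : Type} [MeasurableSpace Z]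

private theorem bl_aux (r : ℝ) (hr : 1 < r) (δ : ℝ) (hδ : 0 < δ) :
    ∃ C : ℝ, 0 ≤ C ∧ ∀ A B : ℝ, 0 ≤ A → 0 ≤ B → (A + B) ^ r ≤ (1 + δ) * A ^ r + C * B ^ r := by
  have hr0 : 0 < r := by linarith
  obtain ⟨η, hη⟩ : ∃ η : ℝ, η = (1 + δ) ^ (1 / r) - 1 := ⟨_, rfl⟩
  have hη0 : 0 < η := by
    have : 1 < (1 + δ) ^ (1 / r) := Real.one_lt_rpow (by linarith) (by positivity)
    linarith
  have hη1 : (1 + η) ^ r = 1 + δ := by
    rw [hη, add_sub_cancel, ← Real.rpow_mul (by linarith), one_div, inv_mul_cancel₀ hr0.ne',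
      Real.rpow_one]
  refine ⟨(1 / η + 1) ^ r, by positivity, fun A B hA hB => ?_⟩
  have hAr : 0 ≤ A ^ r := Real.rpow_nonneg hA r
  have hBr : 0 ≤ B ^ r := Real.rpow_nonneg hB r
  have hC : 0 ≤ (1 / η + 1) ^ r := by positivity
  rcases le_total B (η * A) with h | h
  · have h1 : (A + B) ^ r ≤ ((1 + η) * A) ^ r :=
      Real.rpow_le_rpow (by linarith) (by linarith) hr0.le
    rw [Real.mul_rpow (by linarith) hA, hη1] at h1
    have h2 : 0 ≤ (1 / η + 1) ^ r * B ^ r := mul_nonneg hC hBr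
    linarith
  · have h0 : A ≤ 1 / η * B := by
      rw [one_div, ← div_eq_inv_mul, le_div_iff₀ hη0]
      linarith
    have h1 : (A + B) ^ r ≤ ((1 / η + 1) * B) ^ r :=
      Real.rpow_le_rpow (by linarith) (by linarith) hr0.le
    rw [Real.mul_rpow (by positivity) hB] at h1
    have h2 : 0 ≤ (1 + δ) * A ^ r := mul_nonneg (by linarith) hAr
    linarith

/-- The elementary inequality. -/
theorem bl_elem (r : ℝ) (hr : 1 < r) (ε : ℝ) (hε : 0 < ε) :
    ∃ C : ℝ, 0 ≤ C ∧ ∀ a b : ℝ, |(|a + b|) ^ r - |a| ^ r| ≤ ε * |a| ^ r + C * |b| ^ r := by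
  have hr0 : 0 < r := by linarith
  obtain ⟨δ, hδ⟩ : ∃ δ : ℝ, δ = min 1 (ε / 2) := ⟨_, rfl⟩
  have hδ0 : 0 < δ := by rw [hδ]; exact lt_min one_pos (by linarith)
  have hδ1 : δ ≤ 1 := by rw [hδ]; exact min_le_left _ _
  have hδ2 : δ ≤ ε / 2 := by rw [hδ]; exact min_le_right _ _
  obtain ⟨C, hC0, hC⟩ := bl_aux r hr δ hδ0
  refine ⟨2 * C, by linarith, fun a b => ?_⟩
  have h1 := hC |a| |b| (abs_nonneg a) (abs_nonneg b)
  have h2 := hC |a + b| |b| (abs_nonneg _) (abs_nonneg b)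
  have h3 : |a + b| ^ r ≤ (|a| + |b|) ^ r :=
    Real.rpow_le_rpow (abs_nonneg _) (abs_add_le a b) hr0.le
  have h4 : |a| ^ r ≤ (|a + b| + |b|) ^ r := by
    refine Real.rpow_le_rpow (abs_nonneg _) ?_ hr0.le
    have := abs_sub (a + b) b
    rw [add_sub_cancel_right] at this
    exact this
  have hx : 0 ≤ |a + b| ^ r := by positivity
  have hA : 0 ≤ |a| ^ r := by positivity
  have hB : 0 ≤ |b| ^ r := by positivity
  rw [abs_le]
  constructor
  · -- |a|^r - x ≤ δ x + C B, x ≤ (1 + δ) A + C B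
    have h5 : |a| ^ r - |a + b| ^ r ≤ δ * |a + b| ^ r + C * |b| ^ r := by linarith
    have h6 : |a + b| ^ r ≤ (1 + δ) * |a| ^ r + C * |b| ^ r := by linarith
    have h7 : δ * |a + b| ^ r ≤ δ * ((1 + δ) * |a| ^ r + C * |b| ^ r) :=
      mul_le_mul_of_nonneg_left h6 hδ0.le
    have h8 : δ * (1 + δ) ≤ ε := by nlinarith
    have h9 : δ * (1 + δ) * |a| ^ r ≤ ε * |a| ^ r := mul_le_mul_of_nonneg_right h8 hA
    have h10 : δ * (C * |b| ^ r) ≤ 1 * (C * |b| ^ r) :=
      mul_le_mul_of_nonneg_right hδ1 (mul_nonneg hC0 hB)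
    nlinarith
  · have h5 : δ * |a| ^ r ≤ ε * |a| ^ r := mul_le_mul_of_nonneg_right (by linarith) hA
    have h6 : 0 ≤ C * |b| ^ r := mul_nonneg hC0 hB
    nlinarith

private theorem bl_int (ν : Measure Z) (r : ℝ) (hr : 1 < r) (f : Z → ℝ)
    (hf : MemLp f (ENNReal.ofReal r) ν) : Integrable (fun x => |f x| ^ r) ν := by
  have h := hf.integrable_norm_rpow (by
    simp only [ne_eq, ENNReal.ofReal_eq_zero, not_le]; linarith) ENNReal.ofReal_ne_top
  rw [ENNReal.toReal_ofReal (by linarith)] at h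
  exact h

theorem brezis_lieb (ν : Measure Z) (r : ℝ) (hr : 1 < r) (u : ℕ → Z → ℝ) (w : Z → ℝ)
    (hu : ∀ k, MemLp (u k) (ENNReal.ofReal r) ν) (hw : MemLp w (ENNReal.ofReal r) ν) (C : ℝ)
    (hC : ∀ k, ∫ x, |u k x| ^ r ∂ν ≤ C) (hae : ∀ᵐ x ∂ν, Tendsto (fun k => u k x) atTop (𝓝 (w x))) :
    Tendsto (fun k => ∫ x, |u k x| ^ r ∂ν - ∫ x, |u k x - w x| ^ r ∂ν) atTop (𝓝 (∫ x, |w x| ^ r ∂ν)) := by
  have hr0 : 0 < r := by linarith
  have iu : ∀ k, Integrable (fun x => |u k x| ^ r) ν := fun k => bl_int ν r hr _ (hu k)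
  have iw : Integrable (fun x => |w x| ^ r) ν := bl_int ν r hr _ hw
  have ig : ∀ k, Integrable (fun x => |u k x - w x| ^ r) ν :=
    fun k => bl_int ν r hr _ ((hu k).sub hw)
  -- bound for the integrals of `|u_k - w|^r`
  obtain ⟨C₁, hC₁0, hC₁⟩ := bl_elem r hr 1 one_pos
  have hH0 : 0 ≤ ∫ x, |w x| ^ r ∂ν := integral_nonneg fun x => by positivity
  have hg : ∀ k, ∫ x, |u k x - w x| ^ r ∂ν ≤ 2 * C + C₁ * ∫ x, |w x| ^ r ∂ν := by
    intro k
    have h1 : ∫ x, |u k x - w x| ^ r ∂ν ≤ ∫ x, (2 * |u k x| ^ r + C₁ * |w x| ^ r) ∂ν := by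
      refine integral_mono (ig k) (((iu k).const_mul 2).add (iw.const_mul C₁)) fun x => ?_
      have h := (abs_le.mp (hC₁ (u k x) (-w x))).2
      rw [abs_neg, ← sub_eq_add_neg] at h
      show |u k x - w x| ^ r ≤ 2 * |u k x| ^ r + C₁ * |w x| ^ r
      linarith
    rw [integral_add ((iu k).const_mul 2) (iw.const_mul C₁), integral_const_mul,
      integral_const_mul] at h1
    linarith [hC k]
  obtain ⟨M, hM⟩ : ∃ M : ℝ, M = 2 * C + C₁ * ∫ x, |w x| ^ r ∂ν := ⟨_, rfl⟩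
  rw [← hM] at hg
  have hM0 : 0 ≤ M := le_trans (integral_nonneg fun x => by positivity) (hg 0)
  -- the defect
  have key : Tendsto (fun k => ∫ x, |(|u k x| ^ r - |u k x - w x| ^ r - |w x| ^ r)| ∂ν) atTop
      (𝓝 0) := by
    rw [Metric.tendsto_atTop]
    intro ε' hε'
    obtain ⟨ε, hε⟩ : ∃ ε : ℝ, ε = ε' / (2 * (M + 1)) := ⟨_, rfl⟩
    have hε0 : 0 < ε := by rw [hε]; positivity
    obtain ⟨K, hK0, hK⟩ := bl_elem r hr ε hε0
    have hW : Tendsto (fun k => ∫ x, max (|(|u k x| ^ r - |u k x - w x| ^ r - |w x| ^ r)| -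
        ε * |u k x - w x| ^ r) 0 ∂ν) atTop (𝓝 (∫ _x, (0 : ℝ) ∂ν)) := by
      refine tendsto_integral_of_dominated_convergence (fun x => (K + 1) * |w x| ^ r) ?_
        (iw.const_mul _) ?_ ?_
      · intro k
        exact ((((iu k).sub (ig k)).sub iw).abs.sub ((ig k).const_mul ε)).pos_part.aestronglyMeasurable
      · intro k
        refine Eventually.of_forall fun x => ?_
        rw [Real.norm_of_nonneg (le_max_right _ _)]
        have hw0 : 0 ≤ |w x| ^ r := by positivity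
        refine max_le ?_ (by positivity)
        have h := hK (u k x - w x) (w x)
        rw [sub_add_cancel] at h
        have h2 : |(|u k x| ^ r - |u k x - w x| ^ r - |w x| ^ r)| ≤
            |(|u k x| ^ r - |u k x - w x| ^ r)| + |w x| ^ r := by
          have := abs_sub (|u k x| ^ r - |u k x - w x| ^ r) (|w x| ^ r)
          rwa [abs_of_nonneg hw0] at this
        linarith
      · filter_upwards [hae] with x hx
        have h1 : Tendsto (fun k => |u k x| ^ r) atTop (𝓝 (|w x| ^ r)) :=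
          hx.abs.rpow_const (Or.inr hr0.le)
        have h2 : Tendsto (fun k => |u k x - w x| ^ r) atTop (𝓝 0) := by
          have h3 : Tendsto (fun k => |u k x - w x| ^ r) atTop (𝓝 (|w x - w x| ^ r)) :=
            (hx.sub_const (w x)).abs.rpow_const (Or.inr hr0.le)
          rwa [sub_self, abs_zero, Real.zero_rpow hr0.ne'] at h3
        have h4 := (((h1.sub h2).sub_const (|w x| ^ r)).abs.sub (h2.const_mul ε)).max
          (tendsto_const_nhds (x := (0 : ℝ)))
        simpa using h4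
    rw [integral_zero, Metric.tendsto_atTop] at hW
    obtain ⟨N, hN⟩ := hW (ε' / 2) (by linarith)
    refine ⟨N, fun k hk => ?_⟩
    have hNk := hN k hk
    rw [Real.dist_eq, sub_zero] at hNk ⊢
    have hD0 : 0 ≤ ∫ x, |(|u k x| ^ r - |u k x - w x| ^ r - |w x| ^ r)| ∂ν :=
      integral_nonneg fun x => abs_nonneg _
    rw [abs_of_nonneg hD0]
    have iD : Integrable (fun x => |(|u k x| ^ r - |u k x - w x| ^ r - |w x| ^ r)|) ν :=
      (((iu k).sub (ig k)).sub iw).abs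
    have iW : Integrable (fun x => max (|(|u k x| ^ r - |u k x - w x| ^ r - |w x| ^ r)| -
        ε * |u k x - w x| ^ r) 0) ν := (iD.sub ((ig k).const_mul ε)).pos_part
    have h1 : ∫ x, |(|u k x| ^ r - |u k x - w x| ^ r - |w x| ^ r)| ∂ν ≤
        ∫ x, (max (|(|u k x| ^ r - |u k x - w x| ^ r - |w x| ^ r)| -
        ε * |u k x - w x| ^ r) 0 + ε * |u k x - w x| ^ r) ∂ν := by
      refine integral_mono iD (iW.add ((ig k).const_mul ε)) fun x => ?_
      have := le_max_left (|(|u k x| ^ r - |u k x - w x| ^ r - |w x| ^ r)| -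
        ε * |u k x - w x| ^ r) 0
      show |(|u k x| ^ r - |u k x - w x| ^ r - |w x| ^ r)| ≤ _ + ε * |u k x - w x| ^ r
      linarith
    rw [integral_add iW ((ig k).const_mul ε), integral_const_mul] at h1
    have h2 : ε * ∫ x, |u k x - w x| ^ r ∂ν ≤ ε * M := mul_le_mul_of_nonneg_left (hg k) hε0.le
    have h3 : ε * M < ε' / 2 := by
      have h5 : ε * (2 * (M + 1)) = ε' := by
        rw [hε]; field_simp
      nlinarith
    have h4 := (abs_lt.mp hNk).2
    linarith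
  -- conclusion
  have h5 : Tendsto (fun k => ∫ x, (|u k x| ^ r - |u k x - w x| ^ r - |w x| ^ r) ∂ν) atTop (𝓝 0) := by
    refine squeeze_zero_norm (fun k => ?_) key
    exact norm_integral_le_integral_norm _
  have h6 := h5.add_const (∫ x, |w x| ^ r ∂ν)
  rw [zero_add] at h6
  refine h6.congr fun k => ?_
  have e1 : ∫ x, (|u k x| ^ r - |u k x - w x| ^ r - |w x| ^ r) ∂ν =
      ∫ x, |u k x| ^ r ∂ν - ∫ x, |u k x - w x| ^ r ∂ν - ∫ x, |w x| ^ r ∂ν := by
    have i1 : Integrable (fun x => |u k x| ^ r - |u k x - w x| ^ r) ν := (iu k).sub (ig k)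
    rw [integral_sub i1 iw, integral_sub (iu k) (ig k)]
  rw [e1]
  ring

end Pool.Agent.CY
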