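import Pool.Agent.CY.Sob

/-!
CY-S2-Basic. Elementary consequences of `IsSob`.

Everything in `A` is continuous on the compact space `X`, hence bounded and (finite Borel measures) in every
`L^r`.  `BorelSpace X` gives measurability of continuous functions; `F` is finite dimensional, so `D u` is
(strongly) measurable.
-/

set_option autoImplicit false

open scoped ENNReal ContDiff
open MeasureTheory Set Filter Topology

namespace Pool.Agent.CY

variable {X : Type} [TopologicalSpace X] [CompactSpace X] [MeasurableSpace X] [BorelSpace X]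
  {F : Type} [NormedAddCommGroup F] [InnerProductSpace ℝ F] [FiniteDimensional ℝ F]
  {n : ℕ} {μ σ : Measure X} {A : Set (X → ℝ)} {D : (X → ℝ) → X → F}

/-- Continuous functions on the compact space are in every `L^r` of a finite measure. -/
theorem memLp_of_continuous {E : Type} [NormedAddCommGroup E] [NormedSpace ℝ E] [FiniteDimensional ℝ E]
    (ν : Measure X) (hν : ν univ < ⊤) (f : X → E) (hf : Continuous f) (r : ℝ≥0∞) : MemLp f r ν := by
  have : IsFiniteMeasure ν := ⟨hν⟩
  have : ProperSpace E := FiniteDimensional.proper_real E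
  have : SecondCountableTopology E := secondCountable_of_proper
  obtain ⟨C, hC⟩ := (isCompact_range hf).isBounded.exists_norm_le
  refine MemLp.of_bound hf.aestronglyMeasurable C (Filter.Eventually.of_forall fun x => ?_)
  exact hC _ ⟨x, rfl⟩

theorem IsSob.neg (hS : IsSob n μ σ A D) {u : X → ℝ} (hu : u ∈ A) :
    (fun x => -u x) ∈ A ∧ D (fun x => -u x) = -D u := by
  have h1 : (fun x => -u x) = fun x => (-1 : ℝ) * u x := by
    funext x; ring
  rw [h1]
  refine ⟨hS.smul _ u hu, ?_⟩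
  rw [hS.D_smul _ u hu, neg_one_smul]

theorem IsSob.sub (hS : IsSob n μ σ A D) {u v : X → ℝ} (hu : u ∈ A) (hv : v ∈ A) :
    (fun x => u x - v x) ∈ A ∧ D (fun x => u x - v x) = D u - D v := by
  have h1 : (fun x => u x - v x) = fun x => u x + (fun y => -v y) x := by
    funext x; ring
  rw [h1]
  refine ⟨hS.add u hu _ (hS.neg hv).1, ?_⟩
  rw [hS.D_add u hu _ (hS.neg hv).1, (hS.neg hv).2, sub_eq_add_neg]

private theorem cast_facts (hn : 3 ≤ n) : (3 : ℝ) ≤ n := by exact_mod_cast hn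

/-- `pp n > 2`, `qq n > 2`, and the exponents which occur. -/
theorem pp_facts (hn : 3 ≤ n) : 2 < pp n ∧ 2 / pp n = ((n : ℝ) - 1) / ((n : ℝ) + 1) ∧
    2 / pp n - 1 = -2 / ((n : ℝ) + 1) ∧ 0 < 2 / pp n ∧ 2 / pp n < 1 := by
  have h := cast_facts hn
  have h1 : (0 : ℝ) < n - 1 := by linarith
  have h2 : (0 : ℝ) < n + 1 := by linarith
  have e : 2 / pp n = ((n : ℝ) - 1) / ((n : ℝ) + 1) := by
    unfold pp
    field_simp
  refine ⟨?_, e, ?_, ?_, ?_⟩
  · unfold pp
    rw [lt_div_iff₀ h1]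
    linarith
  · rw [e]
    field_simp
    ring
  · rw [e]; positivity
  · rw [e, div_lt_one h2]; linarith

theorem qq_facts (hn : 3 ≤ n) : 2 < qq n ∧ 2 / qq n = ((n : ℝ) - 1) / (n : ℝ) ∧
    2 / qq n - 1 = -1 / (n : ℝ) ∧ 0 < 2 / qq n ∧ 2 / qq n < 1 := by
  have h := cast_facts hn
  have h1 : (0 : ℝ) < n - 1 := by linarith
  have h2 : (0 : ℝ) < n := by linarith
  have e : 2 / qq n = ((n : ℝ) - 1) / (n : ℝ) := by
    unfold qq
    field_simp
  refine ⟨?_, e, ?_, ?_, ?_⟩
  · unfold qq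
    rw [lt_div_iff₀ h1]
    linarith
  · rw [e]
    field_simp
    ring
  · rw [e]; positivity
  · rw [e, div_lt_one h2]; linarith

theorem cn_pos (hn : 3 ≤ n) : 0 < cn n := by
  have h := cast_facts hn
  have h1 : (0 : ℝ) < n - 1 := by linarith
  unfold cn
  positivity

theorem PP_nonneg (w : X → ℝ) : 0 ≤ PP n μ w := by
  unfold PP
  exact Real.rpow_nonneg (integral_nonneg fun x => Real.rpow_nonneg (abs_nonneg _) _) _

theorem QQ_nonneg (w : X → ℝ) : 0 ≤ QQ n σ w := by
  unfold QQ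
  exact Real.rpow_nonneg (integral_nonneg fun x => Real.rpow_nonneg (abs_nonneg _) _) _

theorem DD_nonneg (ζ : X → F) : 0 ≤ DD μ ζ := by
  unfold DD
  exact integral_nonneg fun x => by positivity

private theorem norm_smul_aux (ν : Measure X) (p : ℝ) (hp : 2 < p) (c : ℝ) (w : X → ℝ) :
    (∫ x, |c * w x| ^ p ∂ν) ^ (2 / p) = c ^ 2 * (∫ x, |w x| ^ p ∂ν) ^ (2 / p) := by
  have h1 : ∀ x, |c * w x| ^ p = |c| ^ p * |w x| ^ p := fun x => by
    rw [abs_mul, Real.mul_rpow (abs_nonneg _) (abs_nonneg _)]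
  simp_rw [h1]
  rw [integral_const_mul, Real.mul_rpow (Real.rpow_nonneg (abs_nonneg _) _)
    (integral_nonneg fun x => Real.rpow_nonneg (abs_nonneg _) _), ← Real.rpow_mul (abs_nonneg _)]
  have h2 : p * (2 / p) = ((2 : ℕ) : ℝ) := by
    push_cast
    field_simp
  rw [h2, Real.rpow_natCast, sq_abs]

/-- `P(c w) = c² P(w)`. -/
theorem PP_smul (hn : 3 ≤ n) (c : ℝ) (w : X → ℝ) : PP n μ (fun x => c * w x) = c ^ 2 * PP n μ w := by
  unfold PP
  exact norm_smul_aux μ (pp n) (pp_facts hn).1 c w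

theorem QQ_smul (hn : 3 ≤ n) (c : ℝ) (w : X → ℝ) : QQ n σ (fun x => c * w x) = c ^ 2 * QQ n σ w := by
  unfold QQ
  exact norm_smul_aux σ (qq n) (qq_facts hn).1 c w

end Pool.Agent.CY
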