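import Pool.Agent.CY.S2.SobH

/-!
CY-S2-Comp. Chain rule in `H^1` for Lipschitz functions which are primitives of pointwise limits of
continuous functions.

Step 1 (`f` of class `C^1` with `|f'| ≤ K`): take `u_k ∈ A` with `u_k → (w, ζ, τ)`; along a subsequence
`u_k → w` μ-a.e., `u_k → τ` σ-a.e.  `|f(u_k) - f(w)| ≤ K |u_k - w|`, so `f(u_k) → f(w)` in `L²`;
`D(f(u_k)) = f'(u_k) D u_k`, `‖f'(u_k) D u_k - f'(w) ζ‖ ≤ K ‖D u_k - ζ‖ + |f'(u_k) - f'(w)| ‖ζ‖`, the second
term tends to `0` in `L²` by dominated convergence (`|.| ≤ 2K ‖ζ‖`).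
Step 2: `f_j(t) = f(0) + ∫_0^t g_j` is `C^1`; `f_j → f` pointwise (dominated convergence),
`|f_j(t)| ≤ |f 0| + K |t|`; so `f_j(w) → f(w)` in `L²`, `g_j(w) ζ → f'(w) ζ` in `L²`, same for `τ`; use
`InH.closed`.
-/

set_option autoImplicit false

open scoped ENNReal ContDiff
open MeasureTheory Set Filter Topology

namespace Pool.Agent.CY

variable {X : Type} [TopologicalSpace X] [CompactSpace X] [MeasurableSpace X] [BorelSpace X]
  {F : Type} [NormedAddCommGroup F] [InnerProductSpace ℝ F] [FiniteDimensional ℝ F]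
  {n : ℕ} {μ σ : Measure X} {A : Set (X → ℝ)} {D : (X → ℝ) → X → F}

section aux

variable {Y : Type} [MeasurableSpace Y] {ν : Measure Y}

private theorem ae_subseq (g : ℕ → Y → ℝ) (w : Y → ℝ) (hg : ∀ k, MemLp (g k) 2 ν)
    (hw : MemLp w 2 ν) (h : Tendsto (fun k => ∫ x, (g k x - w x) ^ 2 ∂ν) atTop (𝓝 0)) :
    ∃ φ : ℕ → ℕ, StrictMono φ ∧ ∀ᵐ x ∂ν, Tendsto (fun k => g (φ k) x) atTop (𝓝 (w x)) := by
  have h1 : Tendsto (fun k => eLpNorm (g k - w) 2 ν) atTop (𝓝 0) := by
    have e : ∀ k, eLpNorm (g k - w) 2 ν =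
        ENNReal.ofReal ((∫ x, (g k x - w x) ^ 2 ∂ν) ^ ((2 : ℝ)⁻¹)) := by
      intro k
      rw [((hg k).sub hw).eLpNorm_eq_integral_rpow_norm (by norm_num) (by norm_num)]
      congr 2
      · refine integral_congr_ae (Filter.Eventually.of_forall fun x => ?_)
        simp
    simp_rw [e]
    have h2 : Tendsto (fun k => (∫ x, (g k x - w x) ^ 2 ∂ν) ^ ((2 : ℝ)⁻¹)) atTop (𝓝 0) := by
      have h3 := h.rpow_const (p := (2 : ℝ)⁻¹) (Or.inr (by norm_num))
      rwa [Real.zero_rpow (by norm_num)] at h3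
    have h4 := ENNReal.tendsto_ofReal h2
    rwa [ENNReal.ofReal_zero] at h4
  exact (tendstoInMeasure_of_tendsto_eLpNorm (by norm_num) (fun k => (hg k).1) hw.1 h1).exists_seq_tendsto_ae

private theorem memLp_lip (hν : ν univ < ⊤) {f : ℝ → ℝ} {K : ℝ} (hf : ∀ s t, |f s - f t| ≤ K * |s - t|)
    (hfc : Continuous f) {w : Y → ℝ} (hw : MemLp w 2 ν) : MemLp (fun x => f (w x)) 2 ν := by
  have : IsFiniteMeasure ν := ⟨hν⟩
  have h1 : MemLp (fun x => f (w x) - f 0) 2 ν := by
    refine MemLp.of_le_mul (c := K) hw ?_ (Filter.Eventually.of_forall fun x => ?_)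
    · exact (hfc.comp_aestronglyMeasurable hw.1).sub aestronglyMeasurable_const
    · have := hf (w x) 0
      rw [sub_zero] at this
      simpa using this
  have h2 := h1.add (memLp_const (f 0) (μ := ν) (p := 2))
  refine h2.ae_eq (Filter.Eventually.of_forall fun x => ?_)
  simp

private theorem tendsto_lip {f : ℝ → ℝ} {K : ℝ} (hf : ∀ s t, |f s - f t| ≤ K * |s - t|)
    {g : ℕ → Y → ℝ} {w : Y → ℝ} (hg : ∀ k, MemLp (g k) 2 ν) (hw : MemLp w 2 ν)
    (h : Tendsto (fun k => ∫ x, (g k x - w x) ^ 2 ∂ν) atTop (𝓝 0)) :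
    Tendsto (fun k => ∫ x, (f (g k x) - f (w x)) ^ 2 ∂ν) atTop (𝓝 0) := by
  have h0 := h.const_mul (K ^ 2)
  rw [mul_zero] at h0
  refine squeeze_zero (fun k => integral_nonneg fun x => sq_nonneg _) (fun k => ?_) h0
  rw [← integral_const_mul]
  refine integral_mono_of_nonneg (Filter.Eventually.of_forall fun x => sq_nonneg _)
    (((hg k).sub hw).integrable_sq.const_mul _) (Filter.Eventually.of_forall fun x => ?_)
  have h1 := hf (g k x) (w x)
  have h2 : (f (g k x) - f (w x)) ^ 2 = |f (g k x) - f (w x)| ^ 2 := (sq_abs _).symm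
  have h3 : K ^ 2 * (g k x - w x) ^ 2 = (K * |g k x - w x|) ^ 2 := by rw [mul_pow, sq_abs]
  change (f (g k x) - f (w x)) ^ 2 ≤ K ^ 2 * (g k x - w x) ^ 2
  rw [h2, h3]
  exact pow_le_pow_left₀ (abs_nonneg _) h1 2

private theorem lip_of_deriv {f : ℝ → ℝ} (hf : ContDiff ℝ 1 f) {K : ℝ} (hK : ∀ t, |deriv f t| ≤ K) :
    ∀ s t, |f s - f t| ≤ K * |s - t| := by
  intro s t
  have h := convex_univ.norm_image_sub_le_of_norm_deriv_le (f := f) (C := K) (x := t) (y := s)
    (fun x _ => (hf.differentiable (by norm_num)) x) (fun x _ => by simpa using hK x)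
    (mem_univ _) (mem_univ _)
  simpa using h

/-- coefficients converging a.e. and bounded: convergence of the products -/
private theorem tendsto_coef {G : Type} [NormedAddCommGroup G] [InnerProductSpace ℝ G]
    {ζ : Y → G} (hζ : MemLp ζ 2 ν) {a : ℕ → Y → ℝ} {b : Y → ℝ} {K : ℝ}
    (ha : ∀ k, AEStronglyMeasurable (a k) ν) (hb : AEStronglyMeasurable b ν)
    (haK : ∀ k x, |a k x| ≤ K) (hbK : ∀ x, |b x| ≤ K)
    (h : ∀ᵐ x ∂ν, Tendsto (fun k => a k x) atTop (𝓝 (b x))) :
    Tendsto (fun k => ∫ x, ‖a k x • ζ x - b x • ζ x‖ ^ 2 ∂ν) atTop (𝓝 0) := by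
  have h1 : Tendsto (fun k => ∫ x, ‖a k x • ζ x - b x • ζ x‖ ^ 2 ∂ν) atTop (𝓝 (∫ _, (0 : ℝ) ∂ν)) := by
    refine tendsto_integral_of_dominated_convergence (fun x => (2 * K) ^ 2 * ‖ζ x‖ ^ 2) ?_ ?_ ?_ ?_
    · intro k
      exact ((((ha k).smul hζ.1).sub (hb.smul hζ.1)).norm.pow 2)
    · exact (hζ.integrable_norm_pow (by norm_num)).const_mul _
    · intro k
      refine Filter.Eventually.of_forall fun x => ?_
      rw [← sub_smul, norm_smul, norm_pow, norm_mul, mul_pow, norm_norm, norm_norm,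
        Real.norm_eq_abs]
      refine mul_le_mul_of_nonneg_right (pow_le_pow_left₀ (abs_nonneg _) ?_ 2) (by positivity)
      have h2 := abs_sub (a k x) (b x)
      linarith [haK k x, hbK x]
    · filter_upwards [h] with x hx
      have h2 : Tendsto (fun k => a k x • ζ x - b x • ζ x) atTop (𝓝 (b x • ζ x - b x • ζ x)) :=
        (hx.smul_const _).sub_const _
      rw [sub_self] at h2
      have h3 := (h2.norm).pow 2
      simpa using h3
  simpa using h1

end aux

/-- Chain rule, `C^1` case. -/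
theorem InH.comp_C1 (hS : IsSob n μ σ A D) {w τ : X → ℝ} {ζ : X → F} (h : InH μ σ A D w ζ τ) (f : ℝ → ℝ)
    (hf : ContDiff ℝ 1 f) (K : ℝ) (hK : ∀ t, |deriv f t| ≤ K) :
    InH μ σ A D (fun x => f (w x)) (fun x => deriv f (w x) • ζ x) (fun x => f (τ x)) := by
  have hlip := lip_of_deriv hf hK
  have hdc : Continuous (deriv f) := hf.continuous_deriv (le_refl _)
  obtain ⟨u, hu, hw, hz, ht⟩ := h.ex
  have hm : ∀ k, MemLp (u k) 2 μ := fun k => memLp_of_continuous μ hS.fin_μ _ (hS.cont _ (hu k)) 2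
  have hmD : ∀ k, MemLp (D (u k)) 2 μ := fun k =>
    memLp_of_continuous μ hS.fin_μ _ (hS.contD _ (hu k)) 2
  have hmσ : ∀ k, MemLp (u k) 2 σ := fun k => memLp_of_continuous σ hS.fin_σ _ (hS.cont _ (hu k)) 2
  obtain ⟨φ, hφ, hae⟩ := ae_subseq u w hm h.memw hw
  have hw' := hw.comp hφ.tendsto_atTop
  have hz' := hz.comp hφ.tendsto_atTop
  have ht' := ht.comp hφ.tendsto_atTop
  have hmemz : MemLp (fun x => deriv f (w x) • ζ x) 2 μ := by
    refine MemLp.of_le_mul (c := K) h.memz ((hdc.comp_aestronglyMeasurable h.memw.1).smul h.memz.1)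
      (Filter.Eventually.of_forall fun x => ?_)
    rw [norm_smul]
    exact mul_le_mul_of_nonneg_right (hK _) (norm_nonneg _)
  refine ⟨memLp_lip hS.fin_μ hlip hf.continuous h.memw, hmemz,
    memLp_lip hS.fin_σ hlip hf.continuous h.memt, fun k x => f (u (φ k) x),
    fun k => hS.comp f hf _ (hu _), tendsto_lip hlip (fun k => hm (φ k)) h.memw hw', ?_,
    tendsto_lip hlip (fun k => hmσ (φ k)) h.memt ht'⟩
  have hK0 : 0 ≤ K := (abs_nonneg _).trans (hK 0)
  have h1 := tendsto_coef h.memz (a := fun k x => deriv f (u (φ k) x)) (b := fun x => deriv f (w x))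
    (K := K) (fun k => hdc.comp_aestronglyMeasurable (hm (φ k)).1)
    (hdc.comp_aestronglyMeasurable h.memw.1) (fun k x => hK _) (fun x => hK _) (by
      filter_upwards [hae] with x hx
      exact (hdc.tendsto _).comp hx)
  have h2 : Tendsto (fun k => 2 * (K ^ 2 * ∫ x, ‖D (u (φ k)) x - ζ x‖ ^ 2 ∂μ) +
      2 * ∫ x, ‖deriv f (u (φ k) x) • ζ x - deriv f (w x) • ζ x‖ ^ 2 ∂μ) atTop (𝓝 0) := by
    have h3 := ((hz'.const_mul (K ^ 2)).const_mul 2).add (h1.const_mul 2)
    simpa using h3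
  refine squeeze_zero (fun k => integral_nonneg fun x => by positivity) (fun k => ?_) h2
  have hi1 : Integrable (fun x => ‖D (u (φ k)) x - ζ x‖ ^ 2) μ :=
    ((hmD (φ k)).sub h.memz).integrable_norm_pow (by norm_num)
  have hm2 : MemLp (fun x => deriv f (u (φ k) x) • ζ x) 2 μ := by
    refine MemLp.of_le_mul (c := K) h.memz
      ((hdc.comp_aestronglyMeasurable (hm (φ k)).1).smul h.memz.1)
      (Filter.Eventually.of_forall fun x => ?_)
    rw [norm_smul]
    exact mul_le_mul_of_nonneg_right (hK _) (norm_nonneg _)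
  have hi2 : Integrable (fun x => ‖deriv f (u (φ k) x) • ζ x - deriv f (w x) • ζ x‖ ^ 2) μ :=
    (hm2.sub hmemz).integrable_norm_pow (by norm_num)
  rw [← integral_const_mul, ← integral_const_mul, ← integral_const_mul,
    ← integral_add ((hi1.const_mul _).const_mul _) (hi2.const_mul _)]
  refine integral_mono_of_nonneg (Filter.Eventually.of_forall fun x => by positivity)
    (((hi1.const_mul _).const_mul _).add (hi2.const_mul _)) (Filter.Eventually.of_forall fun x => ?_)
  rw [hS.D_comp f hf _ (hu _)]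
  change ‖deriv f (u (φ k) x) • D (u (φ k)) x - deriv f (w x) • ζ x‖ ^ 2 ≤
    2 * (K ^ 2 * ‖D (u (φ k)) x - ζ x‖ ^ 2) +
      2 * ‖deriv f (u (φ k) x) • ζ x - deriv f (w x) • ζ x‖ ^ 2
  have e1 : deriv f (u (φ k) x) • D (u (φ k)) x - deriv f (w x) • ζ x =
      deriv f (u (φ k) x) • (D (u (φ k)) x - ζ x) +
        (deriv f (u (φ k) x) • ζ x - deriv f (w x) • ζ x) := by
    rw [smul_sub]; abel
  have e2 : ‖deriv f (u (φ k) x) • (D (u (φ k)) x - ζ x)‖ ≤ K * ‖D (u (φ k)) x - ζ x‖ := by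
    rw [norm_smul]
    exact mul_le_mul_of_nonneg_right (hK _) (norm_nonneg _)
  have e3 := norm_add_le (deriv f (u (φ k) x) • (D (u (φ k)) x - ζ x))
    (deriv f (u (φ k) x) • ζ x - deriv f (w x) • ζ x)
  rw [← e1] at e3
  have e4 : ‖deriv f (u (φ k) x) • D (u (φ k)) x - deriv f (w x) • ζ x‖ ≤
      K * ‖D (u (φ k)) x - ζ x‖ + ‖deriv f (u (φ k) x) • ζ x - deriv f (w x) • ζ x‖ := by
    linarith
  have e5 := pow_le_pow_left₀ (norm_nonneg _) e4 2
  nlinarith [sq_nonneg (K * ‖D (u (φ k)) x - ζ x‖ -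
    ‖deriv f (u (φ k) x) • ζ x - deriv f (w x) • ζ x‖)]

/-- Chain rule, general case. -/
theorem InH.comp (hS : IsSob n μ σ A D) {w τ : X → ℝ} {ζ : X → F} (h : InH μ σ A D w ζ τ) (f f' : ℝ → ℝ)
    (K : ℝ) (g : ℕ → ℝ → ℝ) (hg : ∀ j, Continuous (g j)) (hgK : ∀ j t, |g j t| ≤ K)
    (hlim : ∀ t, Tendsto (fun j => g j t) atTop (𝓝 (f' t)))
    (hf : ∀ t, f t = f 0 + ∫ s in (0 : ℝ)..t, f' s) :
    InH μ σ A D (fun x => f (w x)) (fun x => f' (w x) • ζ x) (fun x => f (τ x)) := by
  have hf'K : ∀ t, |f' t| ≤ K := fun t =>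
    le_of_tendsto ((hlim t).abs) (Filter.Eventually.of_forall fun j => hgK j t)
  have hf'm : Measurable f' := measurable_of_tendsto_metrizable (fun j => (hg j).measurable)
    (tendsto_pi_nhds.2 hlim)
  have hK0 : 0 ≤ K := (abs_nonneg _).trans (hf'K 0)
  set fj : ℕ → ℝ → ℝ := fun j t => f 0 + ∫ s in (0 : ℝ)..t, g j s with hfj
  have hder : ∀ j t, HasDerivAt (fj j) (g j t) t := fun j t =>
    (intervalIntegral.integral_hasDerivAt_right ((hg j).intervalIntegrable _ _)
      ((hg j).stronglyMeasurableAtFilter _ _) (hg j).continuousAt).const_add _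
  have hderiv : ∀ j, deriv (fj j) = g j := fun j => funext fun t => (hder j t).deriv
  have hC1 : ∀ j, ContDiff ℝ 1 (fj j) := fun j => by
    rw [contDiff_one_iff_deriv, hderiv]
    exact ⟨fun t => (hder j t).differentiableAt, hg j⟩
  have hjlip : ∀ j s t, |fj j s - fj j t| ≤ K * |s - t| := fun j =>
    lip_of_deriv (hC1 j) (fun t => by rw [hderiv]; exact hgK j t)
  have hjlim : ∀ t, Tendsto (fun j => fj j t) atTop (𝓝 (f t)) := by
    intro t
    rw [hf t]
    refine Tendsto.const_add _ ?_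
    refine intervalIntegral.tendsto_integral_filter_of_dominated_convergence (fun _ => K) ?_ ?_ ?_ ?_
    · exact Filter.Eventually.of_forall fun j => (hg j).aestronglyMeasurable
    · exact Filter.Eventually.of_forall fun j => Filter.Eventually.of_forall fun x _ => hgK j x
    · exact intervalIntegrable_const
    · exact Filter.Eventually.of_forall fun x _ => hlim x
  have hflip : ∀ s t, |f s - f t| ≤ K * |s - t| := fun s t =>
    le_of_tendsto (((hjlim s).sub (hjlim t)).abs) (Filter.Eventually.of_forall fun j => hjlip j s t)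
  have hfc : Continuous f := by
    have hl : LipschitzWith (Real.toNNReal K) f := LipschitzWith.of_dist_le_mul fun s t => by
      rw [Real.dist_eq, Real.dist_eq, Real.coe_toNNReal K hK0]
      exact hflip s t
    exact hl.continuous
  have hconv : ∀ (ν : Measure X), ν univ < ⊤ → ∀ v : X → ℝ, MemLp v 2 ν →
      Tendsto (fun j => ∫ x, (fj j (v x) - f (v x)) ^ 2 ∂ν) atTop (𝓝 0) := by
    intro ν hν v hv
    have h1 : Tendsto (fun j => ∫ x, (fj j (v x) - f (v x)) ^ 2 ∂ν) atTop
        (𝓝 (∫ _, (0 : ℝ) ∂ν)) := by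
      refine tendsto_integral_of_dominated_convergence (fun x => (2 * K) ^ 2 * v x ^ 2) ?_ ?_ ?_ ?_
      · intro j
        exact ((((hC1 j).continuous.comp_aestronglyMeasurable hv.1).sub
          (hfc.comp_aestronglyMeasurable hv.1)).pow 2)
      · exact hv.integrable_sq.const_mul _
      · intro j
        refine Filter.Eventually.of_forall fun x => ?_
        have h0 : fj j 0 = f 0 := by simp [hfj]
        have h2 := hjlip j (v x) 0
        have h3 := hflip (v x) 0
        rw [h0, sub_zero] at h2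
        rw [sub_zero] at h3
        have h4 : |fj j (v x) - f (v x)| ≤ 2 * K * |v x| := by
          have h5 := abs_sub (fj j (v x) - f 0) (f (v x) - f 0)
          rw [sub_sub_sub_cancel_right] at h5
          linarith
        rw [Real.norm_eq_abs, abs_of_nonneg (sq_nonneg _), ← sq_abs, ← sq_abs (v x), ← mul_pow]
        exact pow_le_pow_left₀ (abs_nonneg _) h4 2
      · refine Filter.Eventually.of_forall fun x => ?_
        have h2 := ((hjlim (v x)).sub_const (f (v x))).pow 2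
        simpa using h2
    simpa using h1
  have hb : AEStronglyMeasurable (fun x => f' (w x)) μ :=
    (hf'm.comp_aemeasurable h.memw.1.aemeasurable).aestronglyMeasurable
  have ha : ∀ j, AEStronglyMeasurable (fun x => g j (w x)) μ := fun j =>
    (hg j).comp_aestronglyMeasurable h.memw.1
  refine InH.closed hS (fun j x => fj j (w x)) (fun j x => g j (w x) • ζ x)
    (fun j x => fj j (τ x)) _ _ _ (fun j => ?_) (memLp_lip hS.fin_μ hflip hfc h.memw) ?_
    (memLp_lip hS.fin_σ hflip hfc h.memt) (hconv μ hS.fin_μ w h.memw) ?_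
    (hconv σ hS.fin_σ τ h.memt)
  · have h1 := h.comp_C1 hS (fj j) (hC1 j) K (fun t => by rw [hderiv]; exact hgK j t)
    rw [hderiv] at h1
    exact h1
  · refine MemLp.of_le_mul (c := K) h.memz (hb.smul h.memz.1)
      (Filter.Eventually.of_forall fun x => ?_)
    rw [norm_smul]
    exact mul_le_mul_of_nonneg_right (hf'K _) (norm_nonneg _)
  · exact tendsto_coef h.memz ha hb (fun k x => hgK _ _) (fun x => hf'K _)
      (Filter.Eventually.of_forall fun x => hlim (w x))

end Pool.Agent.CY
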