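import Pool.Agent.CY.S2.Comp

/-!
CY-S2-Comp2. Chain rule for clamped `C^1` functions.

Apply `InH.comp` (or `InH.comp_C1` + `InH.closed`).  For `comp_right`: the function is `t ↦ f (max t k)`, its
derivative is `f'(t)` for `t > k` and `0` for `t ≤ k`; take `g_j(t) = θ_j(t) * f'(max t k)` with
`θ_j(t) = min 1 (max 0 (j (t - k)))` continuous, `θ_j → 1_{t > k}`.  `comp_mid` is similar.
-/

set_option autoImplicit false

open scoped ENNReal ContDiff
open MeasureTheory Set Filter Topology

namespace Pool.Agent.CY

variable {X : Type} [TopologicalSpace X] [CompactSpace X] [MeasurableSpace X] [BorelSpace X]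
  {F : Type} [NormedAddCommGroup F] [InnerProductSpace ℝ F] [FiniteDimensional ℝ F]
  {n : ℕ} {μ σ : Measure X} {A : Set (X → ℝ)} {D : (X → ℝ) → X → F}

/-- FTC for a continuous function differentiable off a countable set, the derivative being a bounded
pointwise limit of continuous functions. -/
private theorem ftc_aux (G G' : ℝ → ℝ) (s : Set ℝ) (hs : s.Countable) (K : ℝ) (g : ℕ → ℝ → ℝ)
    (hG : Continuous G) (hg : ∀ j, Continuous (g j)) (hgK : ∀ j t, |g j t| ≤ K)
    (hlim : ∀ t, Tendsto (fun j => g j t) atTop (𝓝 (G' t)))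
    (hd : ∀ t, t ∉ s → HasDerivAt G (G' t) t) (t : ℝ) : G t = G 0 + ∫ u in (0 : ℝ)..t, G' u := by
  have hm : Measurable G' :=
    measurable_of_tendsto_metrizable (fun j => (hg j).measurable) (tendsto_pi_nhds.mpr hlim)
  have hb : ∀ t, ‖G' t‖ ≤ K := by
    intro t
    have h1 : Tendsto (fun j => |g j t|) atTop (𝓝 |G' t|) := (hlim t).abs
    exact le_of_tendsto' h1 (fun j => hgK j t)
  have hi : IntervalIntegrable G' volume 0 t := by
    have h1 : IntervalIntegrable (fun _ : ℝ => K) volume 0 t := intervalIntegrable_const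
    refine h1.mono_fun hm.aestronglyMeasurable (Eventually.of_forall fun u => ?_)
    exact (hb u).trans (le_abs_self K)
  have h2 := MeasureTheory.integral_eq_of_hasDerivAt_off_countable G G' hs hG.continuousOn
    (fun x hx => hd x hx.2) hi
  rw [h2]; ring

private def th (j : ℕ) (t : ℝ) : ℝ := min 1 (max 0 ((j : ℝ) * t))

private theorem th_cont (j : ℕ) : Continuous (th j) := by
  unfold th; fun_prop

private theorem th_nn (j : ℕ) (t : ℝ) : 0 ≤ th j t := le_min zero_le_one (le_max_left _ _)

private theorem th_le (j : ℕ) (t : ℝ) : th j t ≤ 1 := min_le_left _ _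

private theorem th_lim_pos {t : ℝ} (ht : 0 < t) : Tendsto (fun j : ℕ => th j t) atTop (𝓝 1) := by
  have h1 : ∀ᶠ j : ℕ in atTop, th j t = 1 := by
    have h2 : Tendsto (fun j : ℕ => (j : ℝ) * t) atTop atTop :=
      tendsto_natCast_atTop_atTop.atTop_mul_const ht
    filter_upwards [h2.eventually_ge_atTop 1] with j hj
    unfold th
    rw [min_eq_left]
    exact hj.trans (le_max_right _ _)
  exact (tendsto_congr' h1).mpr tendsto_const_nhds

private theorem th_zero {t : ℝ} (ht : t ≤ 0) (j : ℕ) : th j t = 0 := by
  unfold th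
  rw [max_eq_left (mul_nonpos_of_nonneg_of_nonpos (Nat.cast_nonneg j) ht)]
  exact min_eq_right zero_le_one

/-- `f` is `C^1` on `[k, ∞)` with bounded derivative; the function is `f (max w k)`. -/
theorem InH.comp_right (hS : IsSob n μ σ A D) {w τ : X → ℝ} {ζ : X → F} (h : InH μ σ A D w ζ τ) (k : ℝ)
    (f : ℝ → ℝ) (hf : ContDiffOn ℝ 1 f (Ici k)) (K : ℝ) (hK : ∀ t ∈ Ici k, |derivWithin f (Ici k) t| ≤ K) :
    InH μ σ A D (fun x => f (max (w x) k))
      (fun x => (if k < w x then derivWithin f (Ici k) (w x) else 0) • ζ x) (fun x => f (max (τ x) k)) := by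
  have hc : ContinuousOn (derivWithin f (Ici k)) (Ici k) :=
    hf.continuousOn_derivWithin (uniqueDiffOn_Ici k) le_rfl
  have hc1 : Continuous (fun t : ℝ => derivWithin f (Ici k) (max t k)) :=
    hc.comp_continuous (continuous_id.max continuous_const) (fun t => le_max_right t k)
  set g : ℕ → ℝ → ℝ := fun j t => th j (t - k) * derivWithin f (Ici k) (max t k) with hgdef
  set G' : ℝ → ℝ := fun t => if k < t then derivWithin f (Ici k) t else 0 with hG'def
  have hg : ∀ j, Continuous (g j) := fun j =>
    ((th_cont j).comp (continuous_id.sub continuous_const)).mul hc1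
  have hgK : ∀ j t, |g j t| ≤ K := by
    intro j t
    simp only [hgdef]
    rw [abs_mul, abs_of_nonneg (th_nn _ _)]
    have h1 := hK (max t k) (le_max_right t k)
    calc th j (t - k) * |derivWithin f (Ici k) (max t k)|
        ≤ 1 * |derivWithin f (Ici k) (max t k)| :=
          mul_le_mul_of_nonneg_right (th_le _ _) (abs_nonneg _)
      _ ≤ K := by rw [one_mul]; exact h1
  have hlim : ∀ t, Tendsto (fun j => g j t) atTop (𝓝 (G' t)) := by
    intro t
    by_cases ht : k < t
    · simp only [hgdef, hG'def, if_pos ht, max_eq_left ht.le]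
      have h1 := (th_lim_pos (sub_pos.mpr ht)).mul_const (derivWithin f (Ici k) t)
      rwa [one_mul] at h1
    · have ht' : t - k ≤ 0 := by linarith [not_lt.mp ht]
      simp only [hgdef, hG'def, if_neg ht, th_zero ht', zero_mul]
      exact tendsto_const_nhds
  have hGc : Continuous (fun t : ℝ => f (max t k)) :=
    hf.continuousOn.comp_continuous (continuous_id.max continuous_const) (fun t => le_max_right t k)
  have hd : ∀ t, t ∉ ({k} : Set ℝ) → HasDerivAt (fun t : ℝ => f (max t k)) (G' t) t := by
    intro t ht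
    rcases lt_or_gt_of_ne ht with h1 | h1
    · have h2 : (fun t : ℝ => f (max t k)) =ᶠ[𝓝 t] fun _ => f k := by
        filter_upwards [Iio_mem_nhds h1] with u hu
        rw [max_eq_right (le_of_lt hu)]
      simp only [hG'def, if_neg (not_lt.mpr h1.le)]
      exact (hasDerivAt_const t (f k)).congr_of_eventuallyEq h2
    · have h2 : (fun t : ℝ => f (max t k)) =ᶠ[𝓝 t] f := by
        filter_upwards [Ioi_mem_nhds h1] with u hu
        rw [max_eq_left (le_of_lt hu)]
      simp only [hG'def, if_pos h1]
      have h3 : HasDerivWithinAt f (derivWithin f (Ici k) t) (Ici k) t :=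
        ((hf.differentiableOn one_ne_zero) t (le_of_lt h1)).hasDerivWithinAt
      exact (h3.hasDerivAt (Ici_mem_nhds h1)).congr_of_eventuallyEq h2
  exact InH.comp hS h (fun t => f (max t k)) G' K g hg hgK hlim
    (ftc_aux _ _ {k} (countable_singleton k) K g hGc hg hgK hlim hd)

/-- `f` is `C^1` on `[a, b]`; the function is `f (max a (min w b))`. -/
theorem InH.comp_mid (hS : IsSob n μ σ A D) {w τ : X → ℝ} {ζ : X → F} (h : InH μ σ A D w ζ τ) (a b : ℝ)
    (hab : a < b) (f : ℝ → ℝ) (hf : ContDiffOn ℝ 1 f (Icc a b)) :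
    InH μ σ A D (fun x => f (max a (min (w x) b)))
      (fun x => (if a < w x ∧ w x < b then derivWithin f (Icc a b) (w x) else 0) • ζ x)
      (fun x => f (max a (min (τ x) b))) := by
  have hc : ContinuousOn (derivWithin f (Icc a b)) (Icc a b) :=
    hf.continuousOn_derivWithin (uniqueDiffOn_Icc hab) le_rfl
  have hcl : Continuous (fun t : ℝ => max a (min t b)) := by fun_prop
  have hmem : ∀ t : ℝ, max a (min t b) ∈ Icc a b := fun t =>
    ⟨le_max_left _ _, max_le hab.le (min_le_right _ _)⟩
  have hc1 : Continuous (fun t : ℝ => derivWithin f (Icc a b) (max a (min t b))) :=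
    hc.comp_continuous hcl hmem
  obtain ⟨K, hK⟩ := isCompact_Icc.exists_bound_of_continuousOn hc
  set g : ℕ → ℝ → ℝ := fun j t =>
    th j (t - a) * th j (b - t) * derivWithin f (Icc a b) (max a (min t b)) with hgdef
  set G' : ℝ → ℝ := fun t => if a < t ∧ t < b then derivWithin f (Icc a b) t else 0 with hG'def
  have hg : ∀ j, Continuous (g j) := fun j =>
    (((th_cont j).comp (continuous_id.sub continuous_const)).mul
      ((th_cont j).comp (continuous_const.sub continuous_id))).mul hc1
  have hgK : ∀ j t, |g j t| ≤ K := by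
    intro j t
    simp only [hgdef]
    rw [abs_mul, abs_of_nonneg (mul_nonneg (th_nn _ _) (th_nn _ _))]
    have h1 := hK (max a (min t b)) (hmem t)
    rw [Real.norm_eq_abs] at h1
    calc th j (t - a) * th j (b - t) * |derivWithin f (Icc a b) (max a (min t b))|
        ≤ 1 * |derivWithin f (Icc a b) (max a (min t b))| :=
          mul_le_mul_of_nonneg_right (mul_le_one₀ (th_le _ _) (th_nn _ _) (th_le _ _))
            (abs_nonneg _)
      _ ≤ K := by rw [one_mul]; exact h1
  have hlim : ∀ t, Tendsto (fun j => g j t) atTop (𝓝 (G' t)) := by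
    intro t
    by_cases ht : a < t ∧ t < b
    · simp only [hgdef, hG'def, if_pos ht, min_eq_left ht.2.le, max_eq_right ht.1.le]
      have h1 := ((th_lim_pos (sub_pos.mpr ht.1)).mul (th_lim_pos (sub_pos.mpr ht.2))).mul_const
        (derivWithin f (Icc a b) t)
      rwa [one_mul, one_mul] at h1
    · simp only [hgdef, hG'def, if_neg ht]
      have h0 : ∀ j, th j (t - a) * th j (b - t) = 0 := by
        intro j
        by_cases h1 : a < t
        · have h2 : b - t ≤ 0 := by
            have : ¬ t < b := fun h => ht ⟨h1, h⟩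
            linarith [not_lt.mp this]
          rw [th_zero h2, mul_zero]
        · have h2 : t - a ≤ 0 := by linarith [not_lt.mp h1]
          rw [th_zero h2, zero_mul]
      simp only [h0, zero_mul]
      exact tendsto_const_nhds
  have hGc : Continuous (fun t : ℝ => f (max a (min t b))) :=
    hf.continuousOn.comp_continuous hcl hmem
  have hd : ∀ t, t ∉ ({a, b} : Set ℝ) →
      HasDerivAt (fun t : ℝ => f (max a (min t b))) (G' t) t := by
    intro t ht
    have hta : t ≠ a := fun h => ht (by simp [h])
    have htb : t ≠ b := fun h => ht (by simp [h])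
    rcases lt_or_gt_of_ne hta with h1 | h1
    · have h2 : (fun t : ℝ => f (max a (min t b))) =ᶠ[𝓝 t] fun _ => f a := by
        filter_upwards [Iio_mem_nhds h1] with u hu
        rw [max_eq_left ((min_le_left _ _).trans (le_of_lt hu))]
      have h3 : ¬ (a < t ∧ t < b) := fun h => absurd h.1 (not_lt.mpr h1.le)
      simp only [hG'def, if_neg h3]
      exact (hasDerivAt_const t (f a)).congr_of_eventuallyEq h2
    rcases lt_or_gt_of_ne htb with h1' | h1'
    · have h2 : (fun t : ℝ => f (max a (min t b))) =ᶠ[𝓝 t] f := by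
        filter_upwards [Ioo_mem_nhds h1 h1'] with u hu
        rw [min_eq_left hu.2.le, max_eq_right hu.1.le]
      simp only [hG'def, if_pos (And.intro h1 h1')]
      have h3 : HasDerivWithinAt f (derivWithin f (Icc a b) t) (Icc a b) t :=
        ((hf.differentiableOn one_ne_zero) t ⟨le_of_lt h1, le_of_lt h1'⟩).hasDerivWithinAt
      exact (h3.hasDerivAt (Icc_mem_nhds h1 h1')).congr_of_eventuallyEq h2
    · have h2 : (fun t : ℝ => f (max a (min t b))) =ᶠ[𝓝 t] fun _ => f b := by
        filter_upwards [Ioi_mem_nhds h1'] with u hu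
        rw [min_eq_right (le_of_lt hu), max_eq_right hab.le]
      have h3 : ¬ (a < t ∧ t < b) := fun h => absurd h.2 (not_lt.mpr h1'.le)
      simp only [hG'def, if_neg h3]
      exact (hasDerivAt_const t (f b)).congr_of_eventuallyEq h2
  exact InH.comp hS h (fun t => f (max a (min t b))) G' K g hg hgK hlim
    (ftc_aux _ _ {a, b} ((Set.finite_singleton b).insert a).countable K g hGc hg hgK hlim hd)

end Pool.Agent.CY
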