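import Pool.Agent.CY.S2.ConvH

/-!
CY-S2-Cone. The cone `K` of admissible pairs.

`nonneg_reduction`: for `u ∈ A` and `δ > 0` the function `f_δ(u) = sqrt(u² + δ²) - δ` belongs to `A`, is
nonnegative, `f_δ(t) ≤ |t|`, `|f_δ(t) - |t|| ≤ δ`, `|f_δ'| ≤ 1`.  So `DD (D f_δ(u)) ≤ DD (D u)` and
`P(f_δ(u)) → P(u)`, `Q(f_δ(u)) → Q(u)`, `∫ R f_δ(u)² → ∫ R u²`, ... (uniform convergence, finite measures)
as `δ → 0`.  Hence the inequality for nonnegative members of `A` gives it for all members of `A`, then by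
`tendH_fun` for `H^1`.
-/

set_option autoImplicit false

open scoped ENNReal ContDiff
open MeasureTheory Set Filter Topology

namespace Pool.Agent.CY

variable {X : Type} [TopologicalSpace X] [CompactSpace X] [MeasurableSpace X] [BorelSpace X]
  {F : Type} [NormedAddCommGroup F] [InnerProductSpace ℝ F] [FiniteDimensional ℝ F]
  {n : ℕ} {μ σ : Measure X} {A : Set (X → ℝ)} {D : (X → ℝ) → X → F}

/-- The pair `(a, b)` is admissible: `a P(u) + b Q(u) ≤ E(u)` for all nonnegative `u ∈ A`. -/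
def InK (n : ℕ) (μ σ : Measure X) (R H : X → ℝ) (A : Set (X → ℝ)) (D : (X → ℝ) → X → F) (a b : ℝ) : Prop :=
  ∀ u ∈ A, (∀ x, 0 ≤ u x) → a * PP n μ u + b * QQ n σ u ≤ EE n μ σ R H u (D u) u

namespace ConeAux

/-- the smooth approximation of the absolute value -/
noncomputable def fd (δ t : ℝ) : ℝ := Real.sqrt (t ^ 2 + δ ^ 2) - δ

theorem fd_contDiff {δ : ℝ} (hδ : 0 < δ) : ContDiff ℝ 1 (fd δ) := by
  unfold fd
  refine ContDiff.sub (ContDiff.sqrt ?_ fun t => ?_) contDiff_const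
  · exact (contDiff_id.pow 2).add contDiff_const
  · positivity

theorem fd_nonneg {δ : ℝ} (hδ : 0 < δ) (t : ℝ) : 0 ≤ fd δ t := by
  unfold fd
  have : δ ≤ Real.sqrt (t ^ 2 + δ ^ 2) := Real.le_sqrt_of_sq_le (by nlinarith [sq_nonneg t])
  linarith

theorem fd_le {δ : ℝ} (hδ : 0 < δ) (t : ℝ) : fd δ t ≤ |t| := by
  unfold fd
  have h : Real.sqrt (t ^ 2 + δ ^ 2) ≤ |t| + δ := by
    rw [Real.sqrt_le_left (by positivity)]
    nlinarith [abs_nonneg t, sq_abs t]
  linarith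

theorem le_fd {δ : ℝ} (hδ : 0 < δ) (t : ℝ) : |t| - δ ≤ fd δ t := by
  unfold fd
  have h : |t| ≤ Real.sqrt (t ^ 2 + δ ^ 2) := by
    apply Real.le_sqrt_of_sq_le
    rw [sq_abs]
    nlinarith [sq_nonneg δ]
  linarith

theorem fd_deriv {δ : ℝ} (hδ : 0 < δ) (t : ℝ) : |deriv (fd δ) t| ≤ 1 := by
  have hpos : 0 < t ^ 2 + δ ^ 2 := by positivity
  have h1 : HasDerivAt (fun t : ℝ => t ^ 2 + δ ^ 2) (2 * t) t := by
    simpa using ((hasDerivAt_pow 2 t).add_const (δ ^ 2))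
  have h2 : HasDerivAt (fd δ) (2 * t / (2 * Real.sqrt (t ^ 2 + δ ^ 2))) t :=
    (h1.sqrt hpos.ne').sub_const δ
  rw [h2.deriv, mul_div_mul_left _ _ two_ne_zero, abs_div, abs_of_pos (Real.sqrt_pos.2 hpos),
    div_le_one (Real.sqrt_pos.2 hpos)]
  apply Real.le_sqrt_of_sq_le
  rw [sq_abs]
  nlinarith [sq_nonneg δ]

/-- bounded on a compact space -/
theorem exists_bound {u : X → ℝ} (hu : Continuous u) : ∃ B : ℝ, 0 ≤ B ∧ ∀ x, |u x| ≤ B := by
  obtain ⟨B, hB⟩ := (isCompact_range hu).isBounded.exists_norm_le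
  refine ⟨max B 0, le_max_right _ _, fun x => ?_⟩
  exact (hB (u x) ⟨x, rfl⟩).trans (le_max_left _ _)

/-- the abstract limit statement -/
theorem tendsto_int (ν : Measure X) (hν : ν univ < ⊤) {u : X → ℝ} (hu : Continuous u) (v : ℕ → X → ℝ)
    (hv : ∀ k, Continuous (v k)) (δ : ℕ → ℝ) (hδ : Tendsto δ atTop (𝓝 0))
    (h0 : ∀ k x, 0 ≤ v k x) (h1 : ∀ k x, v k x ≤ |u x|) (h2 : ∀ k x, |u x| - δ k ≤ v k x)
    (g : ℝ → ℝ) (hg : Continuous g) (S : X → ℝ) (hS : Measurable S) {M : ℝ} (hM : ∀ x, |S x| ≤ M) :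
    Tendsto (fun k => ∫ x, S x * g (v k x) ∂ν) atTop (𝓝 (∫ x, S x * g |u x| ∂ν)) := by
  haveI : IsFiniteMeasure ν := ⟨hν⟩
  obtain ⟨B, hB0, hB⟩ := exists_bound hu
  obtain ⟨G, hG⟩ := (isCompact_Icc (a := (0 : ℝ)) (b := B)).exists_bound_of_continuousOn
    hg.continuousOn
  refine tendsto_integral_of_dominated_convergence (fun _ => M * G) (fun k => ?_)
    (integrable_const _) (fun k => ?_) ?_
  · exact (hS.mul (hg.comp (hv k)).measurable).aestronglyMeasurable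
  · refine ae_of_all _ fun x => ?_
    rw [norm_mul]
    exact mul_le_mul (hM x) (hG _ ⟨h0 k x, (h1 k x).trans (hB x)⟩) (norm_nonneg _)
      ((abs_nonneg _).trans (hM x))
  · refine ae_of_all _ fun x => ?_
    refine Tendsto.const_mul _ ((hg.tendsto _).comp ?_)
    refine tendsto_of_tendsto_of_tendsto_of_le_of_le (g := fun k => |u x| - δ k)
      (h := fun _ => |u x|) ?_ tendsto_const_nhds (fun k => h2 k x) (fun k => h1 k x)
    simpa using (tendsto_const_nhds (x := |u x|)).sub hδ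

end ConeAux

open ConeAux

/-- the inequality for all members of `A` -/
theorem nonneg_reduction_A (hn : 3 ≤ n) (hS : IsSob n μ σ A D) {R H : X → ℝ} (hR : Measurable R)
    (hH : Measurable H) {M : ℝ} (hRM : ∀ x, |R x| ≤ M) (hHM : ∀ x, |H x| ≤ M) {a b : ℝ}
    (hK : InK n μ σ R H A D a b) {u : X → ℝ} (hu : u ∈ A) :
    a * PP n μ u + b * QQ n σ u ≤ EE n μ σ R H u (D u) u := by
  haveI : IsFiniteMeasure μ := ⟨hS.fin_μ⟩
  haveI : IsFiniteMeasure σ := ⟨hS.fin_σ⟩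
  obtain ⟨hp2, -, -, hp0, -⟩ := pp_facts (n := n) hn
  obtain ⟨hq2, -, -, hq0, -⟩ := qq_facts (n := n) hn
  set δ : ℕ → ℝ := fun k => 1 / ((k : ℝ) + 1) with hδdef
  have hδpos : ∀ k, 0 < δ k := fun k => Nat.one_div_pos_of_nat
  have hδ0 : Tendsto δ atTop (𝓝 0) := tendsto_one_div_add_atTop_nhds_zero_nat
  set v : ℕ → X → ℝ := fun k x => fd (δ k) (u x) with hvdef
  have hvA : ∀ k, v k ∈ A := fun k => hS.comp _ (fd_contDiff (hδpos k)) u hu
  have hcont := hS.cont u hu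
  have h0 : ∀ k x, 0 ≤ v k x := fun k x => fd_nonneg (hδpos k) _
  have h1 : ∀ k x, v k x ≤ |u x| := fun k x => fd_le (hδpos k) _
  have h2 : ∀ k x, |u x| - δ k ≤ v k x := fun k x => le_fd (hδpos k) _
  -- limits
  have key := fun (ν : Measure X) (hν : ν univ < ⊤) (g : ℝ → ℝ) (hg : Continuous g) (S : X → ℝ)
    (hSm : Measurable S) (M' : ℝ) (hM : ∀ x, |S x| ≤ M') =>
    tendsto_int ν hν hcont v (fun k => hS.cont _ (hvA k)) δ hδ0 h0 h1 h2 g hg S hSm hM
  have limP : Tendsto (fun k => PP n μ (v k)) atTop (𝓝 (PP n μ u)) := by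
    have hk := key μ hS.fin_μ (fun t => |t| ^ pp n)
      (continuous_abs.rpow_const fun _ => Or.inr (by linarith)) (fun _ => 1) measurable_const 1
      (fun x => by simp)
    simp only [one_mul, abs_abs] at hk
    exact (Real.continuousAt_rpow_const _ _ (Or.inr hp0.le)).tendsto.comp hk
  have limQ : Tendsto (fun k => QQ n σ (v k)) atTop (𝓝 (QQ n σ u)) := by
    have hk := key σ hS.fin_σ (fun t => |t| ^ qq n)
      (continuous_abs.rpow_const fun _ => Or.inr (by linarith)) (fun _ => 1) measurable_const 1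
      (fun x => by simp)
    simp only [one_mul, abs_abs] at hk
    exact (Real.continuousAt_rpow_const _ _ (Or.inr hq0.le)).tendsto.comp hk
  have limR : Tendsto (fun k => ∫ x, R x * v k x ^ 2 ∂μ) atTop (𝓝 (∫ x, R x * u x ^ 2 ∂μ)) := by
    have hk := key μ hS.fin_μ (fun t => t ^ 2) (continuous_pow 2) R hR M hRM
    simpa only [sq_abs] using hk
  have limH : Tendsto (fun k => ∫ x, H x * v k x ^ 2 ∂σ) atTop (𝓝 (∫ x, H x * u x ^ 2 ∂σ)) := by
    have hk := key σ hS.fin_σ (fun t => t ^ 2) (continuous_pow 2) H hH M hHM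
    simpa only [sq_abs] using hk
  have hDD : ∀ k, DD μ (D (v k)) ≤ DD μ (D u) := by
    intro k
    unfold DD
    have e1 : D (v k) = fun x => deriv (fd (δ k)) (u x) • D u x :=
      hS.D_comp _ (fd_contDiff (hδpos k)) u hu
    refine integral_mono ?_ ?_ fun x => ?_
    · have := memLp_of_continuous μ hS.fin_μ _ (hS.contD _ (hvA k)) 2
      exact this.integrable_norm_pow two_ne_zero
    · have := memLp_of_continuous μ hS.fin_μ _ (hS.contD _ hu) 2
      exact this.integrable_norm_pow two_ne_zero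
    · simp only [e1]
      rw [norm_smul]
      have := fd_deriv (hδpos k) (u x)
      have h5 : ‖deriv (fd (δ k)) (u x)‖ * ‖D u x‖ ≤ 1 * ‖D u x‖ :=
        mul_le_mul_of_nonneg_right this (norm_nonneg _)
      rw [one_mul] at h5
      exact pow_le_pow_left₀ (by positivity) h5 2
  have hcn := cn_pos (n := n) hn
  have hle : ∀ k, a * PP n μ (v k) + b * QQ n σ (v k) ≤
      cn n * DD μ (D u) + ∫ x, R x * v k x ^ 2 ∂μ + 2 * ∫ x, H x * v k x ^ 2 ∂σ := by
    intro k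
    have := hK (v k) (hvA k) (h0 k)
    unfold EE at this
    have h6 := mul_le_mul_of_nonneg_left (hDD k) hcn.le
    linarith
  refine le_of_tendsto_of_tendsto' ((limP.const_mul a).add (limQ.const_mul b)) ?_ hle
  unfold EE
  exact (tendsto_const_nhds.add limR).add (limH.const_mul 2)

theorem nonneg_reduction (hn : 3 ≤ n) (hS : IsSob n μ σ A D) {R H : X → ℝ} (hR : Measurable R)
    (hH : Measurable H) {M : ℝ} (hRM : ∀ x, |R x| ≤ M) (hHM : ∀ x, |H x| ≤ M) {a b : ℝ}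
    (hK : InK n μ σ R H A D a b) {w τ : X → ℝ} {ζ : X → F} (h : InH μ σ A D w ζ τ) :
    a * PP n μ w + b * QQ n σ τ ≤ EE n μ σ R H w ζ τ := by
  obtain ⟨u, hu, ht⟩ := h.ex
  obtain ⟨t1, t2, -, -, -, t6⟩ := tendH_fun hn hS hR hH hRM hHM h u hu ht
  exact le_of_tendsto_of_tendsto' ((t1.const_mul a).add (t2.const_mul b)) t6
    fun k => nonneg_reduction_A hn hS hR hH hRM hHM hK (hu k)

/-- `K` is closed. -/
theorem InK.closed {R H : X → ℝ} (a b : ℕ → ℝ) (a' b' : ℝ) (h : ∀ k, InK n μ σ R H A D (a k) (b k))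
    (ha : Tendsto a atTop (𝓝 a')) (hb : Tendsto b atTop (𝓝 b')) : InK n μ σ R H A D a' b' := by
  intro u hu h0
  exact le_of_tendsto' ((ha.mul_const _).add (hb.mul_const _)) fun k => h k u hu h0

/-- `∫ u² ≤ μ(X)^{1-2/p} P(u)`. -/
theorem int_sq_le_PP (hn : 3 ≤ n) (hS : IsSob n μ σ A D) : ∃ L : ℝ, 0 ≤ L ∧
    ∀ u ∈ A, ∫ x, u x ^ 2 ∂μ ≤ L * PP n μ u := by
  haveI : IsFiniteMeasure μ := ⟨hS.fin_μ⟩
  obtain ⟨hp2, -, -, hp0, hp1⟩ := pp_facts (n := n) hn
  have hpos : 0 < pp n := by linarith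
  have hconj : (pp n / 2).HolderConjugate (pp n / (pp n - 2)) := by
    rw [Real.holderConjugate_iff]
    refine ⟨by linarith, ?_⟩
    rw [inv_div, inv_div]
    field_simp
    ring
  refine ⟨(∫ _x : X, (1 : ℝ) ^ (pp n / (pp n - 2)) ∂μ) ^ (1 / (pp n / (pp n - 2))),
    Real.rpow_nonneg (integral_nonneg fun _ => by positivity) _, fun u hu => ?_⟩
  have hc := hS.cont u hu
  have hf : MemLp (fun x => u x ^ 2) (ENNReal.ofReal (pp n / 2)) μ :=
    memLp_of_continuous μ hS.fin_μ _ (hc.pow 2) _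
  have hg : MemLp (fun _ : X => (1 : ℝ)) (ENNReal.ofReal (pp n / (pp n - 2))) μ :=
    memLp_of_continuous μ hS.fin_μ _ continuous_const _
  have h := integral_mul_le_Lp_mul_Lq_of_nonneg hconj
    (ae_of_all μ fun x => sq_nonneg (u x)) (ae_of_all μ fun _ => zero_le_one) hf hg
  have e1 : ∀ x, (u x ^ 2) ^ (pp n / 2) = |u x| ^ pp n := by
    intro x
    rw [← sq_abs, ← Real.rpow_natCast, ← Real.rpow_mul (abs_nonneg _)]
    congr 1
    push_cast
    ring
  simp only [mul_one, e1] at h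
  have e2 : (1 : ℝ) / (pp n / 2) = 2 / pp n := by
    rw [one_div_div]
  rw [e2] at h
  rw [mul_comm]
  exact h

/-- The starting point: `(-A₀, 0)` is admissible for some `A₀ ≥ 0`.
(`E(u) ≥ c_n DD - M ∫ u² - 2M ∫_σ u²`, trace interpolation with small `ε`, then
`∫ u² ≤ μ(X)^{1-2/p} P(u)` by Hölder.) -/
theorem InK.start (hn : 3 ≤ n) (hS : IsSob n μ σ A D) {R H : X → ℝ} (hR : Measurable R)
    (hH : Measurable H) {M : ℝ} (hRM : ∀ x, |R x| ≤ M) (hHM : ∀ x, |H x| ≤ M) :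
    ∃ A₀ : ℝ, 0 ≤ A₀ ∧ InK n μ σ R H A D (-A₀) 0 := by
  haveI : IsFiniteMeasure μ := ⟨hS.fin_μ⟩
  haveI : IsFiniteMeasure σ := ⟨hS.fin_σ⟩
  obtain ⟨L, hL0, hL⟩ := int_sq_le_PP hn hS
  set N : ℝ := max M 0 with hN
  have hN0 : 0 ≤ N := le_max_right _ _
  have hRN : ∀ x, |R x| ≤ N := fun x => (hRM x).trans (le_max_left _ _)
  have hHN : ∀ x, |H x| ≤ N := fun x => (hHM x).trans (le_max_left _ _)
  have hcn := cn_pos (n := n) hn
  have hε : 0 < cn n / (2 * N + 1) := by positivity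
  obtain ⟨C, hC⟩ := hS.tr _ hε
  refine ⟨(N + 2 * N * |C|) * L, by positivity, fun u hu _ => ?_⟩
  have hc := hS.cont u hu
  have hu2 : ∀ ν : Measure X, ν univ < ⊤ → Integrable (fun x => u x ^ 2) ν := by
    intro ν hν
    have := memLp_of_continuous ν hν _ (hc.pow 2) 1
    exact memLp_one_iff_integrable.1 this
  have hlow : ∀ (ν : Measure X) (_ : ν univ < ⊤) (S : X → ℝ) (_ : Measurable S)
      (_ : ∀ x, |S x| ≤ N), -(N * ∫ x, u x ^ 2 ∂ν) ≤ ∫ x, S x * u x ^ 2 ∂ν := by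
    intro ν hν S hSm hSN
    rw [← integral_const_mul, ← integral_neg]
    refine integral_mono ((hu2 ν hν).const_mul N).neg ?_ fun x => ?_
    · exact (hu2 ν hν).bdd_mul hSm.aestronglyMeasurable (ae_of_all _ hSN)
    · have h1 := (abs_le.1 (hSN x)).1
      have h2 := sq_nonneg (u x)
      show -(N * u x ^ 2) ≤ S x * u x ^ 2
      nlinarith
  have l1 := hlow μ hS.fin_μ R hR hRN
  have l2 := hlow σ hS.fin_σ H hH hHN
  have l3 := hC u hu
  have l4 := hL u hu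
  have l5 : 0 ≤ ∫ x, u x ^ 2 ∂μ := integral_nonneg fun x => sq_nonneg _
  have l6 : 0 ≤ DD μ (D u) := DD_nonneg _
  have l7 : (2 * N) * (cn n / (2 * N + 1)) ≤ cn n := by
    rw [mul_div_assoc', div_le_iff₀ (by positivity)]
    nlinarith
  have l8 : C ≤ |C| := le_abs_self C
  unfold EE
  have l9 : 2 * N * ∫ x, u x ^ 2 ∂σ ≤ cn n * DD μ (D u) + 2 * N * |C| * ∫ x, u x ^ 2 ∂μ := by
    calc 2 * N * ∫ x, u x ^ 2 ∂σ ≤ 2 * N * (cn n / (2 * N + 1) * DD μ (D u) + C * ∫ x, u x ^ 2 ∂μ) :=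
          mul_le_mul_of_nonneg_left l3 (by positivity)
      _ = 2 * N * (cn n / (2 * N + 1)) * DD μ (D u) + 2 * N * (C * ∫ x, u x ^ 2 ∂μ) := by ring
      _ ≤ cn n * DD μ (D u) + 2 * N * (|C| * ∫ x, u x ^ 2 ∂μ) := by
          refine add_le_add (mul_le_mul_of_nonneg_right l7 l6) ?_
          exact mul_le_mul_of_nonneg_left (mul_le_mul_of_nonneg_right l8 l5) (by positivity)
      _ = _ := by ring
  have l10 : (N + 2 * N * |C|) * ∫ x, u x ^ 2 ∂μ ≤ (N + 2 * N * |C|) * (L * PP n μ u) :=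
    mul_le_mul_of_nonneg_left l4 (by positivity)
  nlinarith [l1, l2, l9, l10]

end Pool.Agent.CY
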