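import Pool.Agent.CY.S2.SubAdd
import Pool.Agent.CY.S2.Cone

/-!
CY-S2-Compact. The compactness lemma.

Proof. `weak_compact` gives a subsequence and `(w, ζ, τ)`.  Put `d_k = c_n ∫ ‖D u_k - ζ‖²`.  Since
`∫ ‖D u_k‖² = ∫ ‖ζ‖² + ∫ ‖D u_k - ζ‖² + 2 ∫ ⟨D u_k - ζ, ζ⟩` and the last term tends to `0`,
`E(u_k) = E(w, ζ, τ) + d_k + o(1)` (the lower order terms converge by the strong `L²` convergence).
`v_k = (u_k - w, D u_k - ζ, u_k - τ)` is in `H^1` and `∫ (u_k - w)² → 0`.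
Case `0 ≤ a, 0 ≤ b`: by `InH.ai` (`hAI`, with `ε` such that `(1 + ε)/(1 + δ) < 1`)
`a P(v_k) + b Q(v_k) ≤ θ d_k + o(1)` with `θ < 1`; by `PP_subadd`, `QQ_subadd`,
`0 ≥ E(u_k) - a'_k P(u_k) - b'_k Q(u_k) ≥ [E(w) - a P(w) - b Q(w)] + d_k - a P(v_k) - b Q(v_k) - o(1)
≥ (1 - θ) d_k - o(1)` (the bracket is `≥ 0` by `nonneg_reduction`; `P(u_k)`, `Q(u_k)` are bounded, so `a'_k`
may be replaced by `a`).  Case `a ≤ 0, b = 0`: use `P(w) ≤ P(u_k) + o(1)` instead.
So `d_k → 0`: strong convergence (`TendH`), and everything passes to the limit by `tendH_fun`.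
-/

set_option autoImplicit false

open scoped ENNReal ContDiff
open MeasureTheory Set Filter Topology

namespace Pool.Agent.CY

variable {X : Type} [TopologicalSpace X] [CompactSpace X] [MeasurableSpace X] [BorelSpace X]
  {F : Type} [NormedAddCommGroup F] [InnerProductSpace ℝ F] [FiniteDimensional ℝ F]
  {n : ℕ} {μ σ : Measure X} {A : Set (X → ℝ)} {D : (X → ℝ) → X → F}

/-- The pairs for which the compactness lemma holds. -/
def Sub (n : ℕ) (a b : ℝ) : Prop :=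
  (a ≤ 0 ∧ b = 0) ∨ (0 ≤ a ∧ 0 ≤ b ∧ ∃ t ∈ Icc (0 : ℝ) (Real.pi / 2), ∃ δ > 0,
    (1 + δ) * a ≤ amod n t ∧ (1 + δ) * b ≤ bmod n t)

/-- A minimiser at the admissible pair `(a, b)`. -/
structure IsMin (n : ℕ) (μ σ : Measure X) (R H : X → ℝ) (A : Set (X → ℝ)) (D : (X → ℝ) → X → F)
    (a b : ℝ) (w : X → ℝ) (ζ : X → F) (τ : X → ℝ) : Prop where
  inH : InH μ σ A D w ζ τ
  nonneg_w : ∀ᵐ x ∂μ, 0 ≤ w x
  nonneg_t : ∀ᵐ x ∂σ, 0 ≤ τ x
  norm : DD μ ζ + ∫ x, w x ^ 2 ∂μ = 1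
  eq : EE n μ σ R H w ζ τ = a * PP n μ w + b * QQ n σ τ


/-- Convergence of `∫ R f²` along `L²` convergent sequences. -/
private theorem conv_quad {Z : Type} [MeasurableSpace Z] (ν : Measure Z) (f : ℕ → Z → ℝ) (g : Z → ℝ)
    (hf : ∀ k, MemLp (f k) 2 ν) (hg : MemLp g 2 ν) {R : Z → ℝ} (hR : Measurable R) {M : ℝ}
    (hRM : ∀ x, |R x| ≤ M) (h : Tendsto (fun k => ∫ x, (f k x - g x) ^ 2 ∂ν) atTop (𝓝 0)) :
    Tendsto (fun k => ∫ x, R x * f k x ^ 2 ∂ν) atTop (𝓝 (∫ x, R x * g x ^ 2 ∂ν)) := by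
  have hM : 0 ≤ M ∨ IsEmpty Z := by
    rcases isEmpty_or_nonempty Z with hZ | ⟨⟨z⟩⟩
    · exact Or.inr hZ
    · exact Or.inl ((abs_nonneg _).trans (hRM z))
  rcases hM with hM | hZ
  swap
  · have h1 : ∀ F : Z → ℝ, ∫ x, F x ∂ν = 0 := by
      intro F
      have : ν = 0 := Measure.eq_zero_of_isEmpty ν
      rw [this, integral_zero_measure]
    simp only [h1]
    exact tendsto_const_nhds
  have hRs : AEStronglyMeasurable R ν := hR.aestronglyMeasurable
  have hmulR : ∀ F : Z → ℝ, Integrable F ν → Integrable (fun x => R x * F x) ν := by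
    intro F hF
    exact hF.bdd_mul hRs (Eventually.of_forall fun x => by simpa using hRM x)
  have hf2 : ∀ k, Integrable (fun x => f k x ^ 2) ν := fun k => (hf k).integrable_sq
  have hg2 : Integrable (fun x => g x ^ 2) ν := hg.integrable_sq
  have hd2 : ∀ k, Integrable (fun x => (f k x - g x) ^ 2) ν := fun k => ((hf k).sub hg).integrable_sq
  have hi1 : ∀ k, Integrable (fun x => R x * f k x ^ 2) ν := fun k => hmulR _ (hf2 k)
  have hi2 : Integrable (fun x => R x * g x ^ 2) ν := hmulR _ hg2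
  set G : ℝ := ∫ x, g x ^ 2 ∂ν with hG
  have hG0 : 0 ≤ G := integral_nonneg fun x => sq_nonneg _
  have key : ∀ s : ℝ, 0 < s → ∀ k, |∫ x, R x * f k x ^ 2 ∂ν - ∫ x, R x * g x ^ 2 ∂ν| ≤
      M * (1 + s) * ∫ x, (f k x - g x) ^ 2 ∂ν + M / s * G := by
    intro s hs k
    rw [← integral_sub (hi1 k) hi2]
    have h1 : |∫ x, (R x * f k x ^ 2 - R x * g x ^ 2) ∂ν| ≤
        ∫ x, |R x * f k x ^ 2 - R x * g x ^ 2| ∂ν := abs_integral_le_integral_abs
    have h2 : ∫ x, |R x * f k x ^ 2 - R x * g x ^ 2| ∂ν ≤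
        ∫ x, (M * (1 + s) * (f k x - g x) ^ 2 + M / s * g x ^ 2) ∂ν := by
      refine integral_mono ((hi1 k).sub hi2).abs
        (((hd2 k).const_mul _).add (hg2.const_mul _)) fun x => ?_
      have e1 : R x * f k x ^ 2 - R x * g x ^ 2 = R x * (f k x ^ 2 - g x ^ 2) := by ring
      have e2 : |f k x ^ 2 - g x ^ 2| ≤ (1 + s) * (f k x - g x) ^ 2 + 1 / s * g x ^ 2 := by
        have e3 : f k x ^ 2 - g x ^ 2 = (f k x - g x) ^ 2 + 2 * ((f k x - g x) * g x) := by ring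
        have e4 : |(f k x - g x) ^ 2 + 2 * ((f k x - g x) * g x)| ≤
            (f k x - g x) ^ 2 + 2 * |(f k x - g x) * g x| := by
          refine (abs_add_le _ _).trans ?_
          rw [abs_of_nonneg (sq_nonneg (f k x - g x)), abs_mul, abs_two]
        have e5 : 2 * |(f k x - g x) * g x| ≤ s * (f k x - g x) ^ 2 + 1 / s * g x ^ 2 := by
          have e6 := sq_nonneg (Real.sqrt s * |f k x - g x| - 1 / Real.sqrt s * |g x|)
          have hs' : Real.sqrt s ≠ 0 := (Real.sqrt_pos.2 hs).ne'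
          have e7 : (Real.sqrt s * |f k x - g x| - 1 / Real.sqrt s * |g x|) ^ 2 =
              Real.sqrt s ^ 2 * |f k x - g x| ^ 2 - 2 * (|f k x - g x| * |g x|) +
              1 / Real.sqrt s ^ 2 * |g x| ^ 2 := by
            field_simp
            ring
          rw [e7, Real.sq_sqrt hs.le, sq_abs, sq_abs] at e6
          rw [abs_mul]
          linarith
        rw [e3]
        linarith
      change |R x * f k x ^ 2 - R x * g x ^ 2| ≤ M * (1 + s) * (f k x - g x) ^ 2 + M / s * g x ^ 2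
      rw [e1, abs_mul]
      calc |R x| * |f k x ^ 2 - g x ^ 2| ≤ M * ((1 + s) * (f k x - g x) ^ 2 + 1 / s * g x ^ 2) :=
            mul_le_mul (hRM x) e2 (abs_nonneg _) hM
        _ = _ := by ring
    have h3 : ∫ x, (M * (1 + s) * (f k x - g x) ^ 2 + M / s * g x ^ 2) ∂ν =
        M * (1 + s) * ∫ x, (f k x - g x) ^ 2 ∂ν + M / s * G := by
      rw [integral_add ((hd2 k).const_mul _) (hg2.const_mul _), integral_const_mul, integral_const_mul]
    linarith
  rw [Metric.tendsto_atTop]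
  intro ε hε
  -- choose `s`
  set s : ℝ := 2 * (M * G + 1) / ε with hsdef
  have hMG : 0 ≤ M * G := mul_nonneg hM hG0
  have hs : 0 < s := by positivity
  have hs2 : M / s * G < ε / 2 := by
    have : M / s * G = M * G / s := by ring
    rw [this, div_lt_iff₀ hs, hsdef]
    have e1 : ε / 2 * (2 * (M * G + 1) / ε) = M * G + 1 := by
      field_simp
    rw [e1]
    linarith
  have h4 : Tendsto (fun k => M * (1 + s) * ∫ x, (f k x - g x) ^ 2 ∂ν) atTop (𝓝 0) := by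
    simpa using h.const_mul (M * (1 + s))
  rw [Metric.tendsto_atTop] at h4
  obtain ⟨N, hN⟩ := h4 (ε / 2) (by linarith)
  refine ⟨N, fun k hk => ?_⟩
  rw [Real.dist_eq]
  have h5 := hN k hk
  rw [Real.dist_eq, sub_zero] at h5
  have h6 := (abs_lt.1 h5).2
  have h7 := key s hs k
  linarith

private theorem conv_inner {Z : Type} [MeasurableSpace Z] {F : Type} [NormedAddCommGroup F]
    [InnerProductSpace ℝ F] (ν : Measure Z) (f g : Z → F) (hf : MemLp f 2 ν) (hg : MemLp g 2 ν) :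
    Integrable (fun x => inner ℝ (f x) (g x)) ν := by
  have h1 := hf.norm
  have h2 := hg.norm
  have h3 : Integrable (fun x => ‖f x‖ * ‖g x‖) ν := h1.integrable_mul h2
  exact h3.mono (hf.1.inner hg.1) (Eventually.of_forall fun x => by
    rw [Real.norm_eq_abs, Real.norm_eq_abs, abs_of_nonneg (by positivity : (0:ℝ) ≤ ‖f x‖ * ‖g x‖)]
    exact abs_real_inner_le_norm _ _)

private theorem DD_expand {Z : Type} [MeasurableSpace Z] {F : Type} [NormedAddCommGroup F]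
    [InnerProductSpace ℝ F] (ν : Measure Z) (f g : Z → F) (hf : MemLp f 2 ν) (hg : MemLp g 2 ν) :
    ∫ x, ‖f x‖ ^ 2 ∂ν = ∫ x, ‖g x‖ ^ 2 ∂ν + ∫ x, ‖f x - g x‖ ^ 2 ∂ν +
      2 * (∫ x, inner ℝ (f x) (g x) ∂ν - ∫ x, inner ℝ (g x) (g x) ∂ν) := by
  have i1 : Integrable (fun x => ‖g x‖ ^ 2) ν := hg.norm.integrable_sq
  have i2 : Integrable (fun x => ‖f x - g x‖ ^ 2) ν := (hf.sub hg).norm.integrable_sq
  have i3 := conv_inner ν f g hf hg
  have i4 := conv_inner ν g g hg hg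
  have i5 : Integrable (fun x => ‖g x‖ ^ 2 + ‖f x - g x‖ ^ 2) ν := i1.add i2
  have i6 : Integrable (fun x => 2 * (inner ℝ (f x) (g x) - inner ℝ (g x) (g x))) ν :=
    (i3.sub i4).const_mul 2
  rw [← integral_sub i3 i4, ← integral_const_mul, ← integral_add i1 i2, ← integral_add i5 i6]
  refine integral_congr_ae (Eventually.of_forall fun x => ?_)
  change ‖f x‖ ^ 2 = ‖g x‖ ^ 2 + ‖f x - g x‖ ^ 2 + 2 * (inner ℝ (f x) (g x) - inner ℝ (g x) (g x))
  rw [real_inner_self_eq_norm_sq, norm_sub_sq_real]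
  ring

theorem compactness (hn : 3 ≤ n) (hS : IsSob n μ σ A D) (hAI : HasAI n μ σ A D) {R H : X → ℝ}
    (hR : Measurable R) (hH : Measurable H) {M : ℝ} (hRM : ∀ x, |R x| ≤ M) (hHM : ∀ x, |H x| ≤ M) {a b : ℝ}
    (hK : InK n μ σ R H A D a b) (hsub : Sub n a b) (a' b' : ℕ → ℝ) (ha : Tendsto a' atTop (𝓝 a))
    (hb : Tendsto b' atTop (𝓝 b)) (u : ℕ → X → ℝ) (hu : ∀ k, u k ∈ A) (hu0 : ∀ k x, 0 ≤ u k x)
    (hnorm : ∀ k, DD μ (D (u k)) + ∫ x, u k x ^ 2 ∂μ = 1)
    (hE : ∀ k, EE n μ σ R H (u k) (D (u k)) (u k) ≤ a' k * PP n μ (u k) + b' k * QQ n σ (u k)) :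
    ∃ φ : ℕ → ℕ, StrictMono φ ∧ ∃ (w : X → ℝ) (ζ : X → F) (τ : X → ℝ),
      IsMin n μ σ R H A D a b w ζ τ ∧
      Tendsto (fun k => PP n μ (u (φ k))) atTop (𝓝 (PP n μ w)) ∧
      Tendsto (fun k => QQ n σ (u (φ k))) atTop (𝓝 (QQ n σ τ)) := by
  obtain ⟨φ, hφ, w, ζ, τ, hI, hw2, ht2, haw, hat, hwk⟩ :=
    weak_compact hn hS u hu 1 (fun k => (hnorm k).le)
  set U : ℕ → X → ℝ := fun k => u (φ k) with hU
  have hUA : ∀ k, U k ∈ A := fun k => hu _
  have hU0 : ∀ k x, 0 ≤ U k x := fun k x => hu0 _ x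
  have hUn : ∀ k, DD μ (D (U k)) + ∫ x, U k x ^ 2 ∂μ = 1 := fun k => hnorm _
  have hUL : ∀ k, MemLp (U k) 2 μ := fun k => memLp_of_continuous μ hS.fin_μ _ (hS.cont _ (hUA k)) 2
  have hULσ : ∀ k, MemLp (U k) 2 σ := fun k => memLp_of_continuous σ hS.fin_σ _ (hS.cont _ (hUA k)) 2
  have hDL : ∀ k, MemLp (D (U k)) 2 μ := fun k =>
    memLp_of_continuous μ hS.fin_μ _ (hS.contD _ (hUA k)) 2
  set d : ℕ → ℝ := fun k => ∫ x, ‖D (U k) x - ζ x‖ ^ 2 ∂μ with hd
  have hd0 : ∀ k, 0 ≤ d k := fun k => integral_nonneg fun x => by positivity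
  have hcn := cn_pos hn
  -- expansion of the Dirichlet energy
  set r : ℕ → ℝ := fun k => 2 * (∫ x, inner ℝ (D (U k) x) (ζ x) ∂μ - ∫ x, inner ℝ (ζ x) (ζ x) ∂μ)
    with hr
  have hr0 : Tendsto r atTop (𝓝 0) := by
    have h1 := (hwk ζ hI.memz).sub_const (∫ x, inner ℝ (ζ x) (ζ x) ∂μ)
    have h2 := h1.const_mul 2
    rw [sub_self, mul_zero] at h2
    exact h2
  have hDD : ∀ k, DD μ (D (U k)) = DD μ ζ + d k + r k := fun k =>
    DD_expand μ (D (U k)) ζ (hDL k) hI.memz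
  -- lower order terms
  have hR2 := conv_quad μ U w hUL hI.memw hR hRM hw2
  have hH2 := conv_quad σ U τ hULσ hI.memt hH hHM ht2
  set s : ℕ → ℝ := fun k => EE n μ σ R H (U k) (D (U k)) (U k) - (EE n μ σ R H w ζ τ + cn n * d k)
    with hs
  have hs0 : Tendsto s atTop (𝓝 0) := by
    have h1 : ∀ k, s k = cn n * r k + (∫ x, R x * U k x ^ 2 ∂μ - ∫ x, R x * w x ^ 2 ∂μ) +
        2 * (∫ x, H x * U k x ^ 2 ∂σ - ∫ x, H x * τ x ^ 2 ∂σ) := by
      intro k
      simp only [hs, EE]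
      rw [hDD k]
      ring
    have h2 := ((hr0.const_mul (cn n)).add (hR2.sub_const (∫ x, R x * w x ^ 2 ∂μ))).add
      ((hH2.sub_const (∫ x, H x * τ x ^ 2 ∂σ)).const_mul 2)
    simp only [mul_zero, sub_self, add_zero] at h2
    exact h2.congr fun k => (h1 k).symm
  -- boundedness of `P`, `Q`
  obtain ⟨C, hC⟩ := hS.sob
  have hPb : ∀ k, PP n μ (U k) ≤ C ∧ QQ n σ (U k) ≤ C := by
    intro k
    have h1 := hC _ (hUA k)
    rw [hUn k, mul_one] at h1
    exact ⟨by linarith [QQ_nonneg (n := n) (σ := σ) (U k)],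
      by linarith [PP_nonneg (n := n) (μ := μ) (U k)]⟩
  set t0 : ℕ → ℝ := fun k => (a' (φ k) - a) * PP n μ (U k) + (b' (φ k) - b) * QQ n σ (U k) with ht0
  have ht00 : Tendsto t0 atTop (𝓝 0) := by
    have h1 : Tendsto (fun k => |a' (φ k) - a| * C + |b' (φ k) - b| * C) atTop (𝓝 0) := by
      have h2 : Tendsto (fun k => a' (φ k) - a) atTop (𝓝 0) := by
        simpa using (ha.comp hφ.tendsto_atTop).sub_const a
      have h3 : Tendsto (fun k => b' (φ k) - b) atTop (𝓝 0) := by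
        simpa using (hb.comp hφ.tendsto_atTop).sub_const b
      simpa using (h2.abs.mul_const C).add (h3.abs.mul_const C)
    refine squeeze_zero_norm (fun k => ?_) h1
    rw [Real.norm_eq_abs]
    refine (abs_add_le _ _).trans ?_
    rw [abs_mul, abs_mul, abs_of_nonneg (PP_nonneg (n := n) (μ := μ) (U k)),
      abs_of_nonneg (QQ_nonneg (n := n) (σ := σ) (U k))]
    exact add_le_add (mul_le_mul_of_nonneg_left (hPb k).1 (abs_nonneg _))
      (mul_le_mul_of_nonneg_left (hPb k).2 (abs_nonneg _))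
  have hEU : ∀ k, EE n μ σ R H (U k) (D (U k)) (U k) ≤ a * PP n μ (U k) + b * QQ n σ (U k) + t0 k := by
    intro k
    have h1 := hE (φ k)
    simp only [ht0]
    have h2 : a' (φ k) * PP n μ (u (φ k)) + b' (φ k) * QQ n σ (u (φ k)) =
      a * PP n μ (U k) + b * QQ n σ (U k) +
        ((a' (φ k) - a) * PP n μ (U k) + (b' (φ k) - b) * QQ n σ (U k)) := by
      simp only [hU]; ring
    rw [← h2]
    exact h1
  have hlow := nonneg_reduction hn hS hR hH hRM hHM hK hI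
  -- the key estimate
  have hkey : ∃ θ : ℝ, θ < 1 ∧ ∃ o : ℕ → ℝ, Tendsto o atTop (𝓝 0) ∧ ∀ k,
      a * PP n μ (U k) + b * QQ n σ (U k) ≤ a * PP n μ w + b * QQ n σ τ + θ * (cn n * d k) + o k := by
    have hUC : ∀ k, DD μ (D (U k)) + ∫ x, U k x ^ 2 ∂μ ≤ 1 := fun k => (hUn k).le
    obtain ⟨o1, ho1, hP1, hP2⟩ := PP_subadd hn hS U hUA 1 hUC hI haw
    rcases hsub with ⟨ha0, hb0⟩ | ⟨ha0, hb0, t, ht, δ, hδ, hδa, hδb⟩
    · refine ⟨0, zero_lt_one, fun k => -a * o1 k, by simpa using ho1.const_mul (-a), fun k => ?_⟩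
      subst hb0
      have h1 := mul_le_mul_of_nonpos_left (hP2 k) ha0
      nlinarith [h1]
    · obtain ⟨o2, ho2, hQ1⟩ := QQ_subadd hn hS U hUA 1 hUC hI hat
      obtain ⟨C1, hC1⟩ := hAI t ht (δ / 2) (by linarith)
      have hv : ∀ k, InH μ σ A D (fun x => U k x - w x) (fun x => D (U k) x - ζ x)
          (fun x => U k x - τ x) := by
        intro k
        have h1 := InH.add hS (InH.of_mem hS (hUA k)) (InH.smul hS (-1) hI)
        have e1 : (fun x => U k x + -1 * w x) = fun x => U k x - w x := by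
          funext x; ring
        have e2 : (fun x => D (U k) x + (-1 : ℝ) • ζ x) = fun x => D (U k) x - ζ x := by
          funext x; rw [neg_one_smul, sub_eq_add_neg]
        have e3 : (fun x => U k x + -1 * τ x) = fun x => U k x - τ x := by
          funext x; ring
        rw [e1, e2, e3] at h1
        exact h1
      have hai : ∀ k, amod n t * PP n μ (fun x => U k x - w x) + bmod n t * QQ n σ (fun x => U k x - τ x) ≤
          (1 + δ / 2) * cn n * d k + C1 * ∫ x, (U k x - w x) ^ 2 ∂μ := by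
        intro k
        refine InH.ai hn hS (fun v hv => ?_) (hv k)
        have h1 := hC1 v hv
        linarith
      refine ⟨(1 + δ / 2) / (1 + δ), ?_, fun k => a * o1 k + b * o2 k +
        C1 / (1 + δ) * ∫ x, (U k x - w x) ^ 2 ∂μ, ?_, fun k => ?_⟩
      · rw [div_lt_one (by linarith)]; linarith
      · simpa using ((ho1.const_mul a).add (ho2.const_mul b)).add (hw2.const_mul (C1 / (1 + δ)))
      · have h1 := mul_le_mul_of_nonneg_left (hP1 k) ha0
        have h2 := mul_le_mul_of_nonneg_left (hQ1 k) hb0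
        have hP0 := PP_nonneg (n := n) (μ := μ) (fun x => U k x - w x)
        have hQ0 := QQ_nonneg (n := n) (σ := σ) (fun x => U k x - τ x)
        have h3 := mul_le_mul_of_nonneg_right hδa hP0
        have h4 := mul_le_mul_of_nonneg_right hδb hQ0
        have h5 := hai k
        have h6 : (1 + δ) * (a * PP n μ (fun x => U k x - w x) + b * QQ n σ (fun x => U k x - τ x)) ≤
            (1 + δ / 2) * cn n * d k + C1 * ∫ x, (U k x - w x) ^ 2 ∂μ := by
          nlinarith [h3, h4, h5]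
        have hδ1 : 0 < 1 + δ := by linarith
        have h7 : a * PP n μ (fun x => U k x - w x) + b * QQ n σ (fun x => U k x - τ x) ≤
            (1 + δ / 2) / (1 + δ) * (cn n * d k) + C1 / (1 + δ) * ∫ x, (U k x - w x) ^ 2 ∂μ := by
          have e1 : (1 + δ / 2) / (1 + δ) * (cn n * d k) + C1 / (1 + δ) * ∫ x, (U k x - w x) ^ 2 ∂μ =
              ((1 + δ / 2) * cn n * d k + C1 * ∫ x, (U k x - w x) ^ 2 ∂μ) / (1 + δ) := by
            field_simp
          rw [e1, le_div_iff₀ hδ1]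
          linarith
        linarith
  obtain ⟨θ, hθ, o, ho, hkey⟩ := hkey
  have hdlim : Tendsto d atTop (𝓝 0) := by
    have h1 : ∀ k, (1 - θ) * cn n * d k ≤ t0 k + o k - s k := by
      intro k
      have e1 : EE n μ σ R H (U k) (D (U k)) (U k) = EE n μ σ R H w ζ τ + cn n * d k + s k := by
        simp only [hs]; ring
      have h2 := hEU k
      have h3 := hkey k
      rw [e1] at h2
      nlinarith [h2, h3, hlow]
    have hc : 0 < (1 - θ) * cn n := mul_pos (by linarith) hcn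
    have h2 : Tendsto (fun k => (t0 k + o k - s k) / ((1 - θ) * cn n)) atTop (𝓝 0) := by
      simpa using ((ht00.add ho).sub hs0).div_const ((1 - θ) * cn n)
    refine squeeze_zero hd0 (fun k => ?_) h2
    rw [le_div_iff₀ hc]
    linarith [h1 k]
  have hT : TendH μ σ D U w ζ τ := ⟨hw2, hdlim, ht2⟩
  obtain ⟨hPl, hQl, hDl, hml, _, hEl⟩ := tendH_fun hn hS hR hH hRM hHM hI U hUA hT
  refine ⟨φ, hφ, w, ζ, τ, ⟨hI, ?_, ?_, ?_, ?_⟩, hPl, hQl⟩
  · filter_upwards [haw] with x hx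
    exact ge_of_tendsto' hx fun k => hU0 k x
  · filter_upwards [hat] with x hx
    exact ge_of_tendsto' hx fun k => hU0 k x
  · have h1 := hDl.add hml
    have h2 : Tendsto (fun k => DD μ (D (U k)) + ∫ x, U k x ^ 2 ∂μ) atTop (𝓝 1) :=
      tendsto_const_nhds.congr fun k => (hUn k).symm
    exact tendsto_nhds_unique h1 h2
  · refine le_antisymm ?_ hlow
    have h1 : Tendsto (fun k => a * PP n μ (U k) + b * QQ n σ (U k) + t0 k) atTop
        (𝓝 (a * PP n μ w + b * QQ n σ τ + 0)) := ((hPl.const_mul a).add (hQl.const_mul b)).add ht00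
    rw [add_zero] at h1
    exact le_of_tendsto_of_tendsto' hEl h1 hEU

end Pool.Agent.CY
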