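import Pool.Agent.CY.S2.SobH

/-!
CY-S2-ConvH. Continuity of `P`, `Q`, `DD`, `E` along sequences converging in `H^1`, and the inequalities of
`IsSob`, `HasAI` for members of `H^1`.

`P(u_k) → P(w)` follows from `∫ |u_k - w|^p → 0` (Minkowski for `eLpNorm`, continuity of the power).
`∫ R u_k² → ∫ R w²` since `R` is bounded and measurable and `u_k → w` in `L²`.
-/

set_option autoImplicit false

open scoped ENNReal ContDiff
open MeasureTheory Set Filter Topology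

namespace Pool.Agent.CY

variable {X : Type} [TopologicalSpace X] [CompactSpace X] [MeasurableSpace X] [BorelSpace X]
  {F : Type} [NormedAddCommGroup F] [InnerProductSpace ℝ F] [FiniteDimensional ℝ F]
  {n : ℕ} {μ σ : Measure X} {A : Set (X → ℝ)} {D : (X → ℝ) → X → F}

private theorem norm_rpow {Y : Type} [MeasurableSpace Y] {ν : Measure Y} {E : Type}
    [NormedAddCommGroup E] {r : ℝ} (hr : 1 ≤ r) {f : Y → E} (hf : MemLp f (ENNReal.ofReal r) ν) :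
    ‖hf.toLp f‖ ^ r = ∫ x, ‖f x‖ ^ r ∂ν := by
  have hr0 : 0 < r := by linarith
  have h0 : 0 ≤ ∫ x, ‖f x‖ ^ r ∂ν :=
    integral_nonneg fun x => Real.rpow_nonneg (norm_nonneg _) _
  rw [Lp.norm_toLp, hf.eLpNorm_eq_integral_rpow_norm (by simpa using hr0) ENNReal.ofReal_ne_top,
    ENNReal.toReal_ofReal hr0.le, ENNReal.toReal_ofReal (Real.rpow_nonneg h0 _),
    Real.rpow_inv_rpow h0 hr0.ne']

/-- Convergence in `L^r` implies convergence of the norms. -/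
private theorem tend_rpow {Y : Type} [MeasurableSpace Y] {ν : Measure Y} {E : Type}
    [NormedAddCommGroup E] {r : ℝ} (hr : 1 ≤ r) {f : ℕ → Y → E} {g : Y → E}
    (hf : ∀ k, MemLp (f k) (ENNReal.ofReal r) ν) (hg : MemLp g (ENNReal.ofReal r) ν)
    (h : Tendsto (fun k => ∫ x, ‖f k x - g x‖ ^ r ∂ν) atTop (𝓝 0)) :
    Tendsto (fun k => ∫ x, ‖f k x‖ ^ r ∂ν) atTop (𝓝 (∫ x, ‖g x‖ ^ r ∂ν)) := by
  have hr0 : 0 < r := by linarith
  have : Fact (1 ≤ ENNReal.ofReal r) := ⟨by simpa using hr⟩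
  have e1 : ∀ k, ‖(hf k).toLp (f k) - hg.toLp g‖ ^ r = ∫ x, ‖f k x - g x‖ ^ r ∂ν := by
    intro k
    rw [← MemLp.toLp_sub (hf k) hg, norm_rpow hr]
    rfl
  have h1 : Tendsto (fun k => ‖(hf k).toLp (f k) - hg.toLp g‖ ^ r) atTop (𝓝 0) := by
    simp_rw [e1]; exact h
  have h2 : Tendsto (fun k => (‖(hf k).toLp (f k) - hg.toLp g‖ ^ r) ^ r⁻¹) atTop (𝓝 (0 ^ r⁻¹)) :=
    ((Real.continuous_rpow_const (by positivity)).tendsto 0).comp h1
  rw [Real.zero_rpow (inv_ne_zero hr0.ne')] at h2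
  have h3 : Tendsto (fun k => ‖(hf k).toLp (f k) - hg.toLp g‖) atTop (𝓝 0) := by
    refine h2.congr fun k => ?_
    exact Real.rpow_rpow_inv (norm_nonneg _) hr0.ne'
  have h4 : Tendsto (fun k => (hf k).toLp (f k)) atTop (𝓝 (hg.toLp g)) :=
    tendsto_iff_norm_sub_tendsto_zero.mpr h3
  have h5 : Tendsto (fun k => ‖(hf k).toLp (f k)‖ ^ r) atTop (𝓝 (‖hg.toLp g‖ ^ r)) :=
    ((Real.continuous_rpow_const hr0.le).tendsto _).comp h4.norm
  rw [norm_rpow hr] at h5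
  refine h5.congr fun k => ?_
  exact norm_rpow hr (hf k)

private theorem two_eq : ENNReal.ofReal 2 = 2 := by
  rw [← ENNReal.ofReal_ofNat]

private theorem tend_sq {Y : Type} [MeasurableSpace Y] {ν : Measure Y} {E : Type}
    [NormedAddCommGroup E] {f : ℕ → Y → E} {g : Y → E}
    (hf : ∀ k, MemLp (f k) 2 ν) (hg : MemLp g 2 ν)
    (h : Tendsto (fun k => ∫ x, ‖f k x - g x‖ ^ 2 ∂ν) atTop (𝓝 0)) :
    Tendsto (fun k => ∫ x, ‖f k x‖ ^ 2 ∂ν) atTop (𝓝 (∫ x, ‖g x‖ ^ 2 ∂ν)) := by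
  have h1 := tend_rpow (ν := ν) (r := 2) (by norm_num) (f := f) (g := g)
    (fun k => by rw [two_eq]; exact hf k) (by rw [two_eq]; exact hg)
    (by simpa only [Real.rpow_two] using h)
  simpa only [Real.rpow_two] using h1

private theorem tend_sq_real {Y : Type} [MeasurableSpace Y] {ν : Measure Y}
    {f : ℕ → Y → ℝ} {g : Y → ℝ} (hf : ∀ k, MemLp (f k) 2 ν) (hg : MemLp g 2 ν)
    (h : Tendsto (fun k => ∫ x, (f k x - g x) ^ 2 ∂ν) atTop (𝓝 0)) :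
    Tendsto (fun k => ∫ x, f k x ^ 2 ∂ν) atTop (𝓝 (∫ x, g x ^ 2 ∂ν)) := by
  have h1 := tend_sq hf hg (by simpa only [Real.norm_eq_abs, sq_abs] using h)
  simpa only [Real.norm_eq_abs, sq_abs] using h1

private theorem tend_weight {Y : Type} [MeasurableSpace Y] {ν : Measure Y} {R : Y → ℝ}
    (hR : Measurable R) {M : ℝ} (hRM : ∀ x, |R x| ≤ M)
    {f : ℕ → Y → ℝ} {g : Y → ℝ} (hf : ∀ k, MemLp (f k) 2 ν) (hg : MemLp g 2 ν)
    (h : Tendsto (fun k => ∫ x, (f k x - g x) ^ 2 ∂ν) atTop (𝓝 0)) :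
    Tendsto (fun k => ∫ x, R x * f k x ^ 2 ∂ν) atTop (𝓝 (∫ x, R x * g x ^ 2 ∂ν)) := by
  have hpos : ∀ x, 0 ≤ R x + M := fun x => by linarith [(abs_le.mp (hRM x)).1]
  have hle : ∀ x, R x + M ≤ 2 * M := fun x => by linarith [(abs_le.mp (hRM x)).2]
  have hsq : ∀ x, Real.sqrt (R x + M) ^ 2 = R x + M := fun x => Real.sq_sqrt (hpos x)
  have hmeas : Measurable fun x => Real.sqrt (R x + M) := (hR.add_const M).sqrt
  have hmul : ∀ φ : Y → ℝ, MemLp φ 2 ν → MemLp (fun x => Real.sqrt (R x + M) * φ x) 2 ν := by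
    intro φ hφ
    refine hφ.of_le_mul (c := Real.sqrt (2 * M)) (hmeas.aestronglyMeasurable.mul hφ.1)
      (Filter.Eventually.of_forall fun x => ?_)
    rw [norm_mul, Real.norm_of_nonneg (Real.sqrt_nonneg _)]
    exact mul_le_mul_of_nonneg_right (Real.sqrt_le_sqrt (hle x)) (norm_nonneg _)
  have hint : ∀ φ : Y → ℝ, MemLp φ 2 ν → Integrable (fun x => φ x ^ 2) ν := fun φ hφ =>
    hφ.integrable_sq
  have h1 : Tendsto (fun k => ∫ x, (Real.sqrt (R x + M) * f k x - Real.sqrt (R x + M) * g x) ^ 2 ∂ν)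
      atTop (𝓝 0) := by
    refine squeeze_zero (fun k => integral_nonneg fun x => sq_nonneg _) (fun k => ?_)
      (g := fun k => (2 * M) * ∫ x, (f k x - g x) ^ 2 ∂ν) ?_
    · rw [← integral_const_mul]
      refine integral_mono_of_nonneg (Filter.Eventually.of_forall fun x => sq_nonneg _)
        ((hint _ ((hf k).sub hg)).const_mul _) (Filter.Eventually.of_forall fun x => ?_)
      change (Real.sqrt (R x + M) * f k x - Real.sqrt (R x + M) * g x) ^ 2 ≤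
        (2 * M) * (f k x - g x) ^ 2
      rw [← mul_sub, mul_pow, hsq]
      exact mul_le_mul_of_nonneg_right (hle x) (sq_nonneg _)
    · simpa using h.const_mul (2 * M)
  have h2 := tend_sq_real (fun k => hmul _ (hf k)) (hmul _ hg) h1
  have h3 := tend_sq_real hf hg h
  have key : ∀ φ : Y → ℝ, MemLp φ 2 ν → ∫ x, R x * φ x ^ 2 ∂ν =
      (∫ x, (Real.sqrt (R x + M) * φ x) ^ 2 ∂ν) - M * ∫ x, φ x ^ 2 ∂ν := by
    intro φ hφ
    rw [← integral_const_mul, ← integral_sub (hint _ (hmul _ hφ)) ((hint _ hφ).const_mul _)]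
    refine integral_congr_ae (Filter.Eventually.of_forall fun x => ?_)
    change R x * φ x ^ 2 = (Real.sqrt (R x + M) * φ x) ^ 2 - M * φ x ^ 2
    rw [mul_pow, hsq]; ring
  rw [key g hg]
  refine (h2.sub (h3.const_mul M)).congr fun k => ?_
  exact (key _ (hf k)).symm

private theorem tend_int {Y : Type} [MeasurableSpace Y] {ν : Measure Y} [IsFiniteMeasure ν]
    {f : ℕ → Y → ℝ} {g : Y → ℝ} (hf : ∀ k, MemLp (f k) 2 ν) (hg : MemLp g 2 ν)
    (h : Tendsto (fun k => ∫ x, (f k x - g x) ^ 2 ∂ν) atTop (𝓝 0)) :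
    Tendsto (fun k => ∫ x, f k x ∂ν) atTop (𝓝 (∫ x, g x ∂ν)) := by
  have hc : MemLp (fun _ : Y => (1 : ℝ)) 2 ν := memLp_const 1
  have h1 := tend_sq_real (f := fun k x => f k x + 1) (g := fun x => g x + 1)
    (fun k => (hf k).add hc) (hg.add hc) (by
      refine h.congr fun k => ?_
      refine integral_congr_ae (Filter.Eventually.of_forall fun x => ?_)
      change (f k x - g x) ^ 2 = (f k x + 1 - (g x + 1)) ^ 2
      ring)
  have h2 := tend_sq_real hf hg h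
  have key : ∀ φ : Y → ℝ, MemLp φ 2 ν → ∫ x, φ x ∂ν =
      ((∫ x, (φ x + 1) ^ 2 ∂ν) - (∫ x, φ x ^ 2 ∂ν) - ∫ _x, (1 : ℝ) ∂ν) / 2 := by
    intro φ hφ
    have i1 : Integrable (fun x => (φ x + 1) ^ 2) ν := (hφ.add hc).integrable_sq
    have i2 : Integrable (fun x => φ x ^ 2) ν := hφ.integrable_sq
    have i3 : Integrable (fun x => (φ x + 1) ^ 2 - φ x ^ 2) ν := i1.sub i2
    rw [← integral_sub i1 i2, ← integral_sub i3 (integrable_const 1), eq_div_iff (by norm_num),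
      ← integral_mul_const]
    refine integral_congr_ae (Filter.Eventually.of_forall fun x => ?_)
    change φ x * 2 = (φ x + 1) ^ 2 - φ x ^ 2 - 1
    ring
  rw [key g hg]
  refine (((h1.sub h2).sub_const _).div_const 2).congr fun k => ?_
  exact (key _ (hf k)).symm

/-- Convergence of the functionals. -/
theorem tendH_fun (hn : 3 ≤ n) (hS : IsSob n μ σ A D) {R H : X → ℝ} (hR : Measurable R) (hH : Measurable H)
    {M : ℝ} (hRM : ∀ x, |R x| ≤ M) (hHM : ∀ x, |H x| ≤ M) {w τ : X → ℝ} {ζ : X → F}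
    (h : InH μ σ A D w ζ τ) (u : ℕ → X → ℝ) (hu : ∀ k, u k ∈ A) (ht : TendH μ σ D u w ζ τ) :
    Tendsto (fun k => PP n μ (u k)) atTop (𝓝 (PP n μ w)) ∧
    Tendsto (fun k => QQ n σ (u k)) atTop (𝓝 (QQ n σ τ)) ∧
    Tendsto (fun k => DD μ (D (u k))) atTop (𝓝 (DD μ ζ)) ∧
    Tendsto (fun k => ∫ x, u k x ^ 2 ∂μ) atTop (𝓝 (∫ x, w x ^ 2 ∂μ)) ∧
    Tendsto (fun k => ∫ x, u k x ^ 2 ∂σ) atTop (𝓝 (∫ x, τ x ^ 2 ∂σ)) ∧
    Tendsto (fun k => EE n μ σ R H (u k) (D (u k)) (u k)) atTop (𝓝 (EE n μ σ R H w ζ τ)) := by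
  obtain ⟨m1, m2⟩ := h.memLp hn hS
  obtain ⟨c1, c2⟩ := tendH_crit hn hS h u hu ht
  obtain ⟨t1, t2, t3⟩ := ht
  have hp := pp_facts hn
  have hq := qq_facts hn
  have mu : ∀ r k, MemLp (u k) r μ := fun r k => memLp_of_continuous μ hS.fin_μ _ (hS.cont _ (hu k)) r
  have mσ : ∀ r k, MemLp (u k) r σ := fun r k => memLp_of_continuous σ hS.fin_σ _ (hS.cont _ (hu k)) r
  have mD : ∀ k, MemLp (D (u k)) 2 μ := fun k =>
    memLp_of_continuous μ hS.fin_μ _ (hS.contD _ (hu k)) 2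
  have a1 : Tendsto (fun k => PP n μ (u k)) atTop (𝓝 (PP n μ w)) := by
    have h1 := tend_rpow (ν := μ) (r := pp n) (by linarith [hp.1]) (fun k => mu _ k) m1
      (by simpa only [Real.norm_eq_abs] using c1)
    simp only [Real.norm_eq_abs] at h1
    exact ((Real.continuous_rpow_const hp.2.2.2.1.le).tendsto _).comp h1
  have a2 : Tendsto (fun k => QQ n σ (u k)) atTop (𝓝 (QQ n σ τ)) := by
    have h1 := tend_rpow (ν := σ) (r := qq n) (by linarith [hq.1]) (fun k => mσ _ k) m2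
      (by simpa only [Real.norm_eq_abs] using c2)
    simp only [Real.norm_eq_abs] at h1
    exact ((Real.continuous_rpow_const hq.2.2.2.1.le).tendsto _).comp h1
  have a3 : Tendsto (fun k => DD μ (D (u k))) atTop (𝓝 (DD μ ζ)) := tend_sq mD h.memz t2
  have a4 := tend_sq_real (fun k => mu 2 k) h.memw t1
  have a5 := tend_sq_real (fun k => mσ 2 k) h.memt t3
  have a6 := tend_weight hR hRM (fun k => mu 2 k) h.memw t1
  have a7 := tend_weight hH hHM (fun k => mσ 2 k) h.memt t3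
  exact ⟨a1, a2, a3, a4, a5, ((a3.const_mul (cn n)).add a6).add (a7.const_mul 2)⟩

private theorem tend6 (hn : 3 ≤ n) (hS : IsSob n μ σ A D) {w τ : X → ℝ} {ζ : X → F}
    (h : InH μ σ A D w ζ τ) : ∃ u : ℕ → X → ℝ, (∀ k, u k ∈ A) ∧ TendH μ σ D u w ζ τ ∧
    Tendsto (fun k => PP n μ (u k)) atTop (𝓝 (PP n μ w)) ∧
    Tendsto (fun k => QQ n σ (u k)) atTop (𝓝 (QQ n σ τ)) ∧
    Tendsto (fun k => DD μ (D (u k))) atTop (𝓝 (DD μ ζ)) ∧
    Tendsto (fun k => ∫ x, u k x ^ 2 ∂μ) atTop (𝓝 (∫ x, w x ^ 2 ∂μ)) ∧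
    Tendsto (fun k => ∫ x, u k x ^ 2 ∂σ) atTop (𝓝 (∫ x, τ x ^ 2 ∂σ)) := by
  obtain ⟨u, hu, ht⟩ := h.ex
  obtain ⟨b1, b2, b3, b4, b5, -⟩ := tendH_fun (R := fun _ => 0) (H := fun _ => 0) (M := 0) hn hS
    measurable_const measurable_const (fun x => by simp) (fun x => by simp) h u hu ht
  exact ⟨u, hu, ht, b1, b2, b3, b4, b5⟩

/-- Sobolev inequality in `H^1`. -/
theorem InH.sob (hn : 3 ≤ n) (hS : IsSob n μ σ A D) {C : ℝ}
    (hC : ∀ u ∈ A, PP n μ u + QQ n σ u ≤ C * (DD μ (D u) + ∫ x, u x ^ 2 ∂μ)) {w τ : X → ℝ} {ζ : X → F}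
    (h : InH μ σ A D w ζ τ) : PP n μ w + QQ n σ τ ≤ C * (DD μ ζ + ∫ x, w x ^ 2 ∂μ) := by
  obtain ⟨u, hu, -, b1, b2, b3, b4, -⟩ := tend6 hn hS h
  exact le_of_tendsto_of_tendsto' (b1.add b2) ((b3.add b4).const_mul C) fun k => hC _ (hu k)

/-- Trace interpolation in `H^1`. -/
theorem InH.tr (hn : 3 ≤ n) (hS : IsSob n μ σ A D) {ε C : ℝ}
    (hC : ∀ u ∈ A, ∫ x, u x ^ 2 ∂σ ≤ ε * DD μ (D u) + C * ∫ x, u x ^ 2 ∂μ) {w τ : X → ℝ} {ζ : X → F}
    (h : InH μ σ A D w ζ τ) : ∫ x, τ x ^ 2 ∂σ ≤ ε * DD μ ζ + C * ∫ x, w x ^ 2 ∂μ := by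
  obtain ⟨u, hu, -, -, -, b3, b4, b5⟩ := tend6 hn hS h
  exact le_of_tendsto_of_tendsto' b5 ((b3.const_mul ε).add (b4.const_mul C)) fun k => hC _ (hu k)

/-- Poincaré's inequality in `H^1`. -/
theorem InH.poin (hn : 3 ≤ n) (hS : IsSob n μ σ A D) {C : ℝ}
    (hC : ∀ u ∈ A, ∫ x, u x ^ 2 ∂μ ≤ C * (DD μ (D u) + (∫ x, u x ∂μ) ^ 2)) {w τ : X → ℝ} {ζ : X → F}
    (h : InH μ σ A D w ζ τ) : ∫ x, w x ^ 2 ∂μ ≤ C * (DD μ ζ + (∫ x, w x ∂μ) ^ 2) := by
  obtain ⟨u, hu, ht, -, -, b3, b4, -⟩ := tend6 hn hS h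
  have : IsFiniteMeasure μ := ⟨hS.fin_μ⟩
  have b6 : Tendsto (fun k => ∫ x, u k x ∂μ) atTop (𝓝 (∫ x, w x ∂μ)) :=
    tend_int (fun k => memLp_of_continuous μ hS.fin_μ _ (hS.cont _ (hu k)) 2) h.memw ht.1
  exact le_of_tendsto_of_tendsto' b4 ((b3.add (b6.pow 2)).const_mul C) fun k => hC _ (hu k)

/-- A general closedness principle: inequalities between the functionals pass to `H^1`. -/
theorem InH.ai (hn : 3 ≤ n) (hS : IsSob n μ σ A D) {a b c C : ℝ}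
    (hC : ∀ u ∈ A, a * PP n μ u + b * QQ n σ u ≤ c * DD μ (D u) + C * ∫ x, u x ^ 2 ∂μ) {w τ : X → ℝ}
    {ζ : X → F} (h : InH μ σ A D w ζ τ) :
    a * PP n μ w + b * QQ n σ τ ≤ c * DD μ ζ + C * ∫ x, w x ^ 2 ∂μ := by
  obtain ⟨u, hu, -, b1, b2, b3, b4, -⟩ := tend6 hn hS h
  exact le_of_tendsto_of_tendsto' ((b1.const_mul a).add (b2.const_mul b))
    ((b3.const_mul c).add (b4.const_mul C)) fun k => hC _ (hu k)

end Pool.Agent.CY
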