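import Pool.Agent.CY.S2.Curve

/-!
CY-S2-CurveY. The scaled curve for `0 < Y' < Y`, `Y' < Y_n`.

`a(t) = (Y'/Y_n)^{n/(n+1)} amod t`, `b(t) = (Y'/Y_n)^{1/2} bmod t`.  From `curve_deriv`,
`-b'/a' = (Y'/Y_n)^{1/2 - n/(n+1)} (...)^{(n-1)/2} = ((n-1) a(t) / ((n+1) Y' sin² t))^{(n-1)/2}` (the exponents
agree: `1/2 - n/(n+1) = ((n-1)/2)(n/(n+1) - 1)`).  `((n-1)/(4n)) b² = Y' cos² t`.  If
`Y ≤ ((n-1)/(4n)) b² + ((n-1)/(n+1)) a (Q/P)^{2/(n-1)}` and `Y > Y'` then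
`Y' sin² t < ((n-1)/(n+1)) a (Q/P)^{2/(n-1)}`, so `P/Q < ((n-1) a/((n+1) Y' sin² t))^{(n-1)/2} = -b'/a'`, i.e.
`a' P + b' Q < 0`.
-/

set_option autoImplicit false

open scoped ENNReal ContDiff
open MeasureTheory Set Filter Topology

namespace Pool.Agent.CY

/-- The first coordinate of the scaled curve. -/
noncomputable def aY (n : ℕ) (Y' t : ℝ) : ℝ := (Y' / Yn n) ^ ((n : ℝ) / ((n : ℝ) + 1)) * amod n t

/-- The second coordinate of the scaled curve. -/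
noncomputable def bY (n : ℕ) (Y' t : ℝ) : ℝ := (Y' / Yn n) ^ ((1 : ℝ) / 2) * bmod n t

private theorem ncast {n : ℕ} (hn : 3 ≤ n) : (3 : ℝ) ≤ n := by exact_mod_cast hn

theorem bY_sq (n : ℕ) (hn : 3 ≤ n) (Y' : ℝ) (hY' : 0 < Y') (t : ℝ) :
    ((n : ℝ) - 1) / (4 * (n : ℝ)) * bY n Y' t ^ 2 = Y' * Real.cos t ^ 2 := by
  have hYn := Yn_pos n hn
  have h := bmod_sq n hn t
  have hr : 0 < Y' / Yn n := div_pos hY' hYn
  have e : ((Y' / Yn n) ^ ((1 : ℝ) / 2)) ^ 2 = Y' / Yn n := by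
    rw [← Real.sqrt_eq_rpow, Real.sq_sqrt hr.le]
  unfold bY
  rw [mul_pow, e]
  calc ((n : ℝ) - 1) / (4 * (n : ℝ)) * (Y' / Yn n * bmod n t ^ 2)
      = Y' / Yn n * (((n : ℝ) - 1) / (4 * (n : ℝ)) * bmod n t ^ 2) := by ring
    _ = Y' / Yn n * (Yn n * Real.cos t ^ 2) := by rw [h]
    _ = Y' * Real.cos t ^ 2 := by field_simp

/-- There is a uniform gap to the model curve. -/
theorem curve_gap (n : ℕ) (hn : 3 ≤ n) (Y' : ℝ) (hY' : 0 < Y') (h : Y' < Yn n) :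
    ∃ δ > 0, ∀ t ∈ Icc (0 : ℝ) (Real.pi / 2), (1 + δ) * aY n Y' t ≤ amod n t ∧
      (1 + δ) * bY n Y' t ≤ bmod n t := by
  have hYn := Yn_pos n hn
  have h3 := ncast hn
  have hr : 0 < Y' / Yn n := div_pos hY' hYn
  have hr1 : Y' / Yn n < 1 := (div_lt_one hYn).2 h
  set r := Y' / Yn n with hrdef
  have hα : 0 < (n : ℝ) / ((n : ℝ) + 1) := by positivity
  have p1 : 0 < r ^ ((n : ℝ) / ((n : ℝ) + 1)) := Real.rpow_pos_of_pos hr _
  have p2 : 0 < r ^ ((1 : ℝ) / 2) := Real.rpow_pos_of_pos hr _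
  have q1 : r ^ ((n : ℝ) / ((n : ℝ) + 1)) < 1 := Real.rpow_lt_one hr.le hr1 hα
  have q2 : r ^ ((1 : ℝ) / 2) < 1 := Real.rpow_lt_one hr.le hr1 (by norm_num)
  refine ⟨min (1 / r ^ ((n : ℝ) / ((n : ℝ) + 1)) - 1) (1 / r ^ ((1 : ℝ) / 2) - 1), ?_, ?_⟩
  · refine lt_min ?_ ?_
    · have := one_lt_one_div p1 q1; linarith
    · have := one_lt_one_div p2 q2; linarith
  · intro t ht
    have ha := amod_nonneg n t ht
    have hb := bmod_nonneg n t ht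
    constructor
    · unfold aY
      rw [← hrdef, ← mul_assoc]
      have h5 : (1 + min (1 / r ^ ((n : ℝ) / ((n : ℝ) + 1)) - 1) (1 / r ^ ((1 : ℝ) / 2) - 1)) *
          r ^ ((n : ℝ) / ((n : ℝ) + 1)) ≤ 1 := by
        have h6 := min_le_left (1 / r ^ ((n : ℝ) / ((n : ℝ) + 1)) - 1) (1 / r ^ ((1 : ℝ) / 2) - 1)
        calc _ ≤ (1 / r ^ ((n : ℝ) / ((n : ℝ) + 1))) * r ^ ((n : ℝ) / ((n : ℝ) + 1)) :=
              mul_le_mul_of_nonneg_right (by linarith) p1.le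
          _ = 1 := by field_simp
      calc _ ≤ 1 * amod n t := mul_le_mul_of_nonneg_right h5 ha
        _ = amod n t := one_mul _
    · unfold bY
      rw [← hrdef, ← mul_assoc]
      have h5 : (1 + min (1 / r ^ ((n : ℝ) / ((n : ℝ) + 1)) - 1) (1 / r ^ ((1 : ℝ) / 2) - 1)) *
          r ^ ((1 : ℝ) / 2) ≤ 1 := by
        have h6 := min_le_right (1 / r ^ ((n : ℝ) / ((n : ℝ) + 1)) - 1) (1 / r ^ ((1 : ℝ) / 2) - 1)
        calc _ ≤ (1 / r ^ ((1 : ℝ) / 2)) * r ^ ((1 : ℝ) / 2) :=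
              mul_le_mul_of_nonneg_right (by linarith) p2.le
          _ = 1 := by field_simp
      calc _ ≤ 1 * bmod n t := mul_le_mul_of_nonneg_right h5 hb
        _ = bmod n t := one_mul _

theorem curve_strict (n : ℕ) (hn : 3 ≤ n) (Y' Y : ℝ) (hY' : 0 < Y') (hY : Y' < Y) (t : ℝ)
    (ht : t ∈ Ioo (0 : ℝ) (Real.pi / 2)) (P Q : ℝ) (hP : 0 < P) (hQ : 0 < Q)
    (h : Y ≤ ((n : ℝ) - 1) / (4 * (n : ℝ)) * bY n Y' t ^ 2 +
      ((n : ℝ) - 1) / ((n : ℝ) + 1) * aY n Y' t * (Q / P) ^ (2 / ((n : ℝ) - 1))) :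
    ∃ a' b' : ℝ, HasDerivAt (aY n Y') a' t ∧ HasDerivAt (bY n Y') b' t ∧ a' * P + b' * Q < 0 := by
  have hYn := Yn_pos n hn
  have h3 := ncast hn
  have hn1 : (0 : ℝ) < (n : ℝ) - 1 := by linarith
  have hn2 : (0 : ℝ) < (n : ℝ) + 1 := by linarith
  obtain ⟨a', b', da, db, ha', hb'⟩ := curve_deriv n hn t ht
  have hr : 0 < Y' / Yn n := div_pos hY' hYn
  have hr0 : Y' / Yn n * Yn n = Y' := by field_simp
  have hapos := amod_pos n hn t ⟨ht.1, ht.2.le⟩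
  have hsin : 0 < Real.sin t := Real.sin_pos_of_pos_of_lt_pi ht.1 (by
    have := Real.pi_pos
    linarith [ht.2])
  rw [bY_sq n hn Y' hY' t] at h
  refine ⟨_, _, da.const_mul ((Y' / Yn n) ^ ((n : ℝ) / ((n : ℝ) + 1))),
    db.const_mul ((Y' / Yn n) ^ ((1 : ℝ) / 2)), ?_⟩
  set r := Y' / Yn n with hrdef
  have hcos : Real.cos t ^ 2 = 1 - Real.sin t ^ 2 := by
    have := Real.sin_sq_add_cos_sq t; linarith
  have hlt : Y' * Real.sin t ^ 2 <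
      ((n : ℝ) - 1) / ((n : ℝ) + 1) * aY n Y' t * (Q / P) ^ (2 / ((n : ℝ) - 1)) := by
    rw [hcos] at h; nlinarith
  have haY : 0 < aY n Y' t := by
    unfold aY; positivity
  -- `X = (n-1) aY / ((n+1) Y' sin²)`
  set X : ℝ := ((n : ℝ) - 1) * aY n Y' t / (((n : ℝ) + 1) * (Y' * Real.sin t ^ 2)) with hX
  have hXpos : 0 < X := by rw [hX]; positivity
  have hPQ : (P / Q) ^ (2 / ((n : ℝ) - 1)) < X := by
    have e1 : (P / Q) ^ (2 / ((n : ℝ) - 1)) * (Q / P) ^ (2 / ((n : ℝ) - 1)) = 1 := by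
      rw [← Real.mul_rpow (by positivity) (by positivity)]
      have : P / Q * (Q / P) = 1 := by field_simp
      rw [this, Real.one_rpow]
    have e2 : 0 < (Q / P) ^ (2 / ((n : ℝ) - 1)) := by positivity
    have e3 : 0 < (P / Q) ^ (2 / ((n : ℝ) - 1)) := by positivity
    have e4 : (P / Q) ^ (2 / ((n : ℝ) - 1)) * (Y' * Real.sin t ^ 2) <
        ((n : ℝ) - 1) / ((n : ℝ) + 1) * aY n Y' t := by
      calc (P / Q) ^ (2 / ((n : ℝ) - 1)) * (Y' * Real.sin t ^ 2)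
          < (P / Q) ^ (2 / ((n : ℝ) - 1)) *
              (((n : ℝ) - 1) / ((n : ℝ) + 1) * aY n Y' t * (Q / P) ^ (2 / ((n : ℝ) - 1))) :=
            mul_lt_mul_of_pos_left hlt e3
        _ = ((n : ℝ) - 1) / ((n : ℝ) + 1) * aY n Y' t *
              ((P / Q) ^ (2 / ((n : ℝ) - 1)) * (Q / P) ^ (2 / ((n : ℝ) - 1))) := by ring
        _ = ((n : ℝ) - 1) / ((n : ℝ) + 1) * aY n Y' t := by rw [e1, mul_one]
    rw [hX, lt_div_iff₀ (by positivity)]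
    calc (P / Q) ^ (2 / ((n : ℝ) - 1)) * (((n : ℝ) + 1) * (Y' * Real.sin t ^ 2))
        = ((n : ℝ) + 1) * ((P / Q) ^ (2 / ((n : ℝ) - 1)) * (Y' * Real.sin t ^ 2)) := by ring
      _ < ((n : ℝ) + 1) * (((n : ℝ) - 1) / ((n : ℝ) + 1) * aY n Y' t) :=
          mul_lt_mul_of_pos_left e4 hn2
      _ = ((n : ℝ) - 1) * aY n Y' t := by field_simp
  have hPQ2 : P / Q < X ^ (((n : ℝ) - 1) / 2) := by
    have h5 := Real.rpow_lt_rpow (by positivity) hPQ (by positivity : (0 : ℝ) < ((n : ℝ) - 1) / 2)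
    rw [← Real.rpow_mul (by positivity)] at h5
    have e5 : 2 / ((n : ℝ) - 1) * (((n : ℝ) - 1) / 2) = 1 := by field_simp
    rwa [e5, Real.rpow_one] at h5
  -- relation to the unscaled curve
  have hXrel : r ^ ((n : ℝ) / ((n : ℝ) + 1)) * X ^ (((n : ℝ) - 1) / 2) = r ^ ((1 : ℝ) / 2) *
      (((n : ℝ) - 1) * amod n t / (((n : ℝ) + 1) * Yn n * Real.sin t ^ 2)) ^ (((n : ℝ) - 1) / 2) := by
    have e6 : X = r ^ ((n : ℝ) / ((n : ℝ) + 1) - 1) *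
        (((n : ℝ) - 1) * amod n t / (((n : ℝ) + 1) * Yn n * Real.sin t ^ 2)) := by
      have hs : Real.sin t ≠ 0 := hsin.ne'
      have haY' : aY n Y' t = r ^ ((n : ℝ) / ((n : ℝ) + 1)) * amod n t := rfl
      rw [Real.rpow_sub_one hr.ne', hX, haY', ← hr0]
      have hrn := hr.ne'
      have hYnn := hYn.ne'
      clear_value r
      field_simp
    rw [e6, Real.mul_rpow (by positivity) (by positivity), ← Real.rpow_mul hr.le, ← mul_assoc,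
      ← Real.rpow_add hr]
    congr 2
    field_simp
    ring
  have hfin : r ^ ((n : ℝ) / ((n : ℝ) + 1)) * P < r ^ ((1 : ℝ) / 2) *
      (((n : ℝ) - 1) * amod n t / (((n : ℝ) + 1) * Yn n * Real.sin t ^ 2)) ^ (((n : ℝ) - 1) / 2) * Q := by
    rw [← hXrel]
    have h6 : P < X ^ (((n : ℝ) - 1) / 2) * Q := (div_lt_iff₀ hQ).1 hPQ2
    calc r ^ ((n : ℝ) / ((n : ℝ) + 1)) * P
        < r ^ ((n : ℝ) / ((n : ℝ) + 1)) * (X ^ (((n : ℝ) - 1) / 2) * Q) :=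
          mul_lt_mul_of_pos_left h6 (Real.rpow_pos_of_pos hr _)
      _ = _ := by ring
  have hb2 : b' = -(a' * (((n : ℝ) - 1) * amod n t / (((n : ℝ) + 1) * Yn n * Real.sin t ^ 2)) ^
      (((n : ℝ) - 1) / 2)) := by linarith
  rw [hb2]
  have h7 := mul_lt_mul_of_pos_left hfin ha'
  nlinarith

end Pool.Agent.CY
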