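import Pool.Agent.CY.S2.ConvH

/-!
CY-S2-Poin. Poincaré's inequality for functions vanishing on a set of positive measure.

Let `m = ∫ ψ / μ(X)`.  From `hS.poin` applied to `ψ - m` (constants are in `A`; `InH.add`):
`∫ (ψ - m)² ≤ C DD ξ`.  On the set `{ψ = 0}` of measure `≥ m0` the integrand is `m²`, so `m² ≤ C DD ξ / m0`,
and `∫ ψ² ≤ 2 ∫ (ψ - m)² + 2 m² μ(X)`.
-/

set_option autoImplicit false

open scoped ENNReal ContDiff
open MeasureTheory Set Filter Topology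

namespace Pool.Agent.CY

variable {X : Type} [TopologicalSpace X] [CompactSpace X] [MeasurableSpace X] [BorelSpace X]
  {F : Type} [NormedAddCommGroup F] [InnerProductSpace ℝ F] [FiniteDimensional ℝ F]
  {n : ℕ} {μ σ : Measure X} {A : Set (X → ℝ)} {D : (X → ℝ) → X → F}

theorem poin_vanish (hn : 3 ≤ n) (hS : IsSob n μ σ A D) (m0 : ℝ) (hm : 0 < m0) :
    ∃ C : ℝ, 0 ≤ C ∧ ∀ (ψ θ : X → ℝ) (ξ : X → F), InH μ σ A D ψ ξ θ → m0 ≤ (μ {x | ψ x = 0}).toReal →
      ∫ x, ψ x ^ 2 ∂μ ≤ C * DD μ ξ := by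
  obtain ⟨C, hC⟩ := hS.poin
  haveI : IsFiniteMeasure μ := ⟨hS.fin_μ⟩
  obtain ⟨ν, hν⟩ : ∃ ν, ν = (μ univ).toReal := ⟨_, rfl⟩
  have hν0 : 0 ≤ ν := by rw [hν]; exact ENNReal.toReal_nonneg
  refine ⟨2 * |C| * (1 + ν / m0), by positivity, fun ψ θ ξ hH hz => ?_⟩
  have hνpos : 0 < ν := by
    refine lt_of_lt_of_le hm (hz.trans ?_)
    rw [hν]
    exact ENNReal.toReal_mono (measure_ne_top μ _) (measure_mono (subset_univ _))
  obtain ⟨m, hmdef⟩ : ∃ m, m = (∫ x, ψ x ∂μ) / ν := ⟨_, rfl⟩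
  have h1 : InH μ σ A D (fun x => ψ x + -m) (fun x => ξ x + D (fun _ => -m) x)
      (fun x => θ x + -m) := hH.add hS (InH.of_mem hS (hS.const (-m)))
  have hψ1 : Integrable ψ μ := hH.memw.integrable (by norm_num)
  have h2 : ∫ x, (ψ x + -m) ∂μ = 0 := by
    rw [integral_add hψ1 (integrable_const _), integral_const, smul_eq_mul]
    have h3 : μ.real univ = ν := by rw [hν]; rfl
    rw [h3, hmdef]
    field_simp
    ring
  have h3 : DD μ (fun x => ξ x + D (fun _ => -m) x) = DD μ ξ := by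
    rw [hS.D_const]
    simp [DD]
  have h4 := h1.poin hn hS hC
  rw [h2, h3] at h4
  have hDD : 0 ≤ DD μ ξ := DD_nonneg ξ
  have h5 : ∫ x, (ψ x + -m) ^ 2 ∂μ ≤ |C| * DD μ ξ := by
    refine h4.trans ?_
    rw [zero_pow two_ne_zero, add_zero]
    exact mul_le_mul_of_nonneg_right (le_abs_self C) hDD
  have hi1 : Integrable (fun x => (ψ x + -m) ^ 2) μ := h1.memw.integrable_sq
  have hi2 : Integrable (fun x => ψ x ^ 2) μ := hH.memw.integrable_sq
  -- the part on the zero set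
  have hs : NullMeasurableSet {x | ψ x = 0} μ :=
    nullMeasurableSet_eq_fun hH.memw.1.aemeasurable aemeasurable_const
  have h6 : m ^ 2 * m0 ≤ ∫ x, (ψ x + -m) ^ 2 ∂μ := by
    have e1 : ∫ x in {x | ψ x = 0}, (ψ x + -m) ^ 2 ∂μ = ∫ x in {x | ψ x = 0}, m ^ 2 ∂μ := by
      refine integral_congr_ae ?_
      filter_upwards [ae_restrict_mem₀ hs] with x hx
      have hx' : ψ x = 0 := hx
      rw [hx']
      ring
    have e2 := setIntegral_le_integral (s := {x | ψ x = 0}) hi1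
      (Eventually.of_forall fun x => sq_nonneg (ψ x + -m))
    rw [e1, setIntegral_const, smul_eq_mul] at e2
    refine le_trans ?_ e2
    rw [mul_comm]
    exact mul_le_mul_of_nonneg_right hz (sq_nonneg m)
  -- the total
  have h7 : ∫ x, ψ x ^ 2 ∂μ ≤ 2 * ∫ x, (ψ x + -m) ^ 2 ∂μ + 2 * m ^ 2 * ν := by
    have e1 : ∫ x, (2 * (ψ x + -m) ^ 2 + 2 * m ^ 2) ∂μ =
        2 * ∫ x, (ψ x + -m) ^ 2 ∂μ + 2 * m ^ 2 * ν := by
      rw [integral_add (hi1.const_mul 2) (integrable_const _), integral_const_mul, integral_const,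
        smul_eq_mul, hν]
      have h3 : μ.real univ = (μ univ).toReal := rfl
      rw [h3]
      ring
    rw [← e1]
    refine integral_mono hi2 ((hi1.const_mul 2).add (integrable_const _)) fun x => ?_
    change ψ x ^ 2 ≤ 2 * (ψ x + -m) ^ 2 + 2 * m ^ 2
    nlinarith [sq_nonneg (ψ x + -m - m)]
  have h8 : m ^ 2 ≤ |C| * DD μ ξ / m0 := by
    rw [le_div_iff₀ hm]
    exact h6.trans h5
  calc ∫ x, ψ x ^ 2 ∂μ ≤ 2 * ∫ x, (ψ x + -m) ^ 2 ∂μ + 2 * m ^ 2 * ν := h7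
    _ ≤ 2 * (|C| * DD μ ξ) + 2 * (|C| * DD μ ξ / m0) * ν := by
      have := mul_le_mul_of_nonneg_right h8 hνpos.le
      linarith
    _ = 2 * |C| * (1 + ν / m0) * DD μ ξ := by
      field_simp

end Pool.Agent.CY
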