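import Pool.Agent.CY.S2.M2
import Pool.Agent.CY.S2.Poin

/-!
CY-S2-M3. The lower bound.

Let `C` be the upper bound of `w, τ`, and `c1 > 0` with `m0 = μ{w ≥ c1} > 0` (`w` is not `0` a.e.).  For
`0 < ε < 1` let `v = -log(w + ε)`, `t = -log(τ + ε)` (for `w ≥ 0`).  For `k ≥ k0 = -log c1` put
`b = e^{-k} - ε` (if `b ≤ 0` then `(v - k)^+ = 0` and there is nothing to prove).  On `[0, b]` consider
`f(s) = -log(s + ε) - k` and `g(s) = f(s) / (s + ε)`; `f(b) = g(b) = 0`.  `InH.comp_mid` with `a = 0`: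
`(v - k)^+ = f(max 0 (min w b))` with gradient `-1_{0 < w < b} ζ/(w + ε)`, and the test function
`φ = g(max 0 (min w b)) = (v - k)^+/(w + ε)` with gradient
`-1_{0<w<b} (1 + (v - k)^+) ζ/(w + ε)²`.  The weak equation gives
`c_n DD(grad (v-k)^+) ≤ -c_n ∫ ⟨ζ, grad φ⟩ = ∫ R w φ + 2 ∫_σ H τ φ - lam ∫ w^{p-1} φ - kap ∫_σ τ^{q-1} φ
≤ K' (∫ (v - k)^+ + ∫_σ (t - k)^+)` because `w/(w + ε) ≤ 1`, `w^{p-1}/(w + ε) ≤ C^{p-2}`.  As `(v - k)^+ = 0`
on `{w ≥ c1}`, `poin_vanish` bounds `∫ ((v - k)^+)²`, so `level_lemma` applies with constant functions `f, g`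
(independent of `ε`): `v ≤ k0 + d`, i.e. `w + ε ≥ e^{-(k0+d)}`; let `ε → 0`.
-/

set_option autoImplicit false

open scoped ENNReal ContDiff
open MeasureTheory Set Filter Topology

namespace Pool.Agent.CY

variable {X : Type} [TopologicalSpace X] [CompactSpace X] [MeasurableSpace X] [BorelSpace X]
  {F : Type} [NormedAddCommGroup F] [InnerProductSpace ℝ F] [FiniteDimensional ℝ F]
  {n : ℕ} {μ σ : Measure X} {A : Set (X → ℝ)} {D : (X → ℝ) → X → F}

/-- The calculus of the two functions `f(s) = -log(s+ε) - k`, `g = f/(s+ε)` on `[0, e^{-k} - ε]`. -/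
theorem m3_calc (ε k : ℝ) (hε : 0 < ε) (hb : 0 < Real.exp (-k) - ε) :
    ContDiffOn ℝ 1 (fun s => -Real.log (s + ε) - k) (Icc 0 (Real.exp (-k) - ε)) ∧
    ContDiffOn ℝ 1 (fun s => (-Real.log (s + ε) - k) / (s + ε)) (Icc 0 (Real.exp (-k) - ε)) ∧
    ∀ s, 0 < s ∧ s < Real.exp (-k) - ε →
      (derivWithin (fun s => -Real.log (s + ε) - k) (Icc 0 (Real.exp (-k) - ε)) s) ^ 2 ≤
        - derivWithin (fun s => (-Real.log (s + ε) - k) / (s + ε)) (Icc 0 (Real.exp (-k) - ε)) s := by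
  have hne : ∀ s ∈ Icc 0 (Real.exp (-k) - ε), s + ε ≠ 0 := by
    intro s hs
    have := hs.1
    positivity
  have hadd : ContDiffOn ℝ 1 (fun s : ℝ => s + ε) (Icc 0 (Real.exp (-k) - ε)) :=
    (contDiff_id.add contDiff_const).contDiffOn
  have hf : ContDiffOn ℝ 1 (fun s => -Real.log (s + ε) - k) (Icc 0 (Real.exp (-k) - ε)) :=
    ((hadd.log hne).neg).sub contDiffOn_const
  refine ⟨hf, hf.div hadd hne, ?_⟩
  rintro s ⟨hs0, hs1⟩
  have hpos : 0 < s + ε := by linarith
  have hmem : s ∈ Icc 0 (Real.exp (-k) - ε) := ⟨hs0.le, hs1.le⟩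
  have hu : UniqueDiffWithinAt ℝ (Icc 0 (Real.exp (-k) - ε)) s := uniqueDiffOn_Icc hb s hmem
  have d0 : HasDerivAt (fun s : ℝ => s + ε) 1 s := (hasDerivAt_id s).add_const ε
  have d1 : HasDerivAt (fun s => -Real.log (s + ε) - k) (-(1 / (s + ε))) s :=
    ((d0.log hpos.ne').neg).sub_const k
  have d2 := d1.div d0 hpos.ne'
  have e1 := d1.hasDerivWithinAt.derivWithin hu
  have e2 := d2.hasDerivWithinAt.derivWithin hu
  rw [e1]
  have e2' : derivWithin (fun s => (-Real.log (s + ε) - k) / (s + ε)) (Icc 0 (Real.exp (-k) - ε)) s =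
    (-(1 / (s + ε)) * (s + ε) - (-Real.log (s + ε) - k) * 1) / (s + ε) ^ 2 := e2
  rw [e2']
  have hlog : Real.log (s + ε) ≤ -k := by
    have : s + ε ≤ Real.exp (-k) := by linarith
    calc Real.log (s + ε) ≤ Real.log (Real.exp (-k)) := Real.log_le_log hpos this
      _ = -k := Real.log_exp _
  have : -((-(1 / (s + ε)) * (s + ε) - (-Real.log (s + ε) - k) * 1) / (s + ε) ^ 2) =
      (1 + (-Real.log (s + ε) - k)) / (s + ε) ^ 2 := by
    have := hpos.ne'
    field_simp
    ring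
  rw [this]
  have h3 : (-(1 / (s + ε))) ^ 2 = 1 / (s + ε) ^ 2 := by
    rw [neg_sq, div_pow, one_pow]
  rw [h3]
  apply div_le_div_of_nonneg_right _ (by positivity)
  linarith

/-- Pointwise facts. -/
theorem m3_pt (ε k : ℝ) (hε : 0 < ε) (hb : 0 < Real.exp (-k) - ε) (w : ℝ) (hw : 0 ≤ w) :
    -Real.log (max 0 (min w (Real.exp (-k) - ε)) + ε) - k = max (-Real.log (w + ε) - k) 0 ∧
    0 ≤ (-Real.log (max 0 (min w (Real.exp (-k) - ε)) + ε) - k) /
      (max 0 (min w (Real.exp (-k) - ε)) + ε) ∧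
    w * ((-Real.log (max 0 (min w (Real.exp (-k) - ε)) + ε) - k) /
      (max 0 (min w (Real.exp (-k) - ε)) + ε)) ≤ max (-Real.log (w + ε) - k) 0 := by
  rcases lt_or_ge w (Real.exp (-k) - ε) with h | h
  · have e1 : max 0 (min w (Real.exp (-k) - ε)) = w := by
      rw [min_eq_left h.le, max_eq_right hw]
    rw [e1]
    have hpos : 0 < w + ε := by linarith
    have hlog : Real.log (w + ε) ≤ -k := by
      have : w + ε ≤ Real.exp (-k) := by linarith
      calc Real.log (w + ε) ≤ Real.log (Real.exp (-k)) := Real.log_le_log hpos this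
        _ = -k := Real.log_exp _
    have h0 : 0 ≤ -Real.log (w + ε) - k := by linarith
    refine ⟨(max_eq_left h0).symm, div_nonneg h0 hpos.le, ?_⟩
    rw [max_eq_left h0]
    rw [mul_div_assoc', div_le_iff₀ hpos]
    nlinarith
  · have e1 : max 0 (min w (Real.exp (-k) - ε)) = Real.exp (-k) - ε := by
      rw [min_eq_right h, max_eq_right hb.le]
    rw [e1]
    have e2 : -Real.log (Real.exp (-k) - ε + ε) - k = 0 := by
      rw [sub_add_cancel, Real.log_exp]; ring
    rw [e2]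
    have hpos : 0 < w + ε := by linarith
    have hlog : -k ≤ Real.log (w + ε) := by
      have : Real.exp (-k) ≤ w + ε := by linarith
      calc -k = Real.log (Real.exp (-k)) := (Real.log_exp _).symm
        _ ≤ Real.log (w + ε) := Real.log_le_log (Real.exp_pos _) this
    have h0 : -Real.log (w + ε) - k ≤ 0 := by linarith
    rw [max_eq_right h0]
    simp

/-- Energy inequality for `(-log (w + ε) - k)^+`. -/
theorem m3_energy (hn : 3 ≤ n) (hS : IsSob n μ σ A D) {R H : X → ℝ} (hR : Measurable R)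
    (hH : Measurable H) {M : ℝ} (hM : 0 ≤ M) (hRM : ∀ x, |R x| ≤ M) (hHM : ∀ x, |H x| ≤ M)
    {lam kap : ℝ} {w τ : X → ℝ} {ζ : X → F} (h : InH μ σ A D w ζ τ)
    (hE : WeakEq n μ σ R H A D lam kap w ζ τ) (hw : ∀ᵐ x ∂μ, 0 ≤ w x) (hτ : ∀ᵐ x ∂σ, 0 ≤ τ x) (C : ℝ)
    (hC : 0 ≤ C) (hwC : ∀ᵐ x ∂μ, w x ≤ C) (hτC : ∀ᵐ x ∂σ, τ x ≤ C) (ε : ℝ) (hε : 0 < ε) (k : ℝ) :
    ∃ ξ : X → F, InH μ σ A D (fun x => max (-Real.log (w x + ε) - k) 0) ξ
        (fun x => max (-Real.log (τ x + ε) - k) 0) ∧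
      cn n * DD μ ξ ≤ (M + |lam| * C ^ (pp n - 2)) * ∫ x, max (-Real.log (w x + ε) - k) 0 ∂μ +
        (2 * M + |kap| * C ^ (qq n - 2)) * ∫ x, max (-Real.log (τ x + ε) - k) 0 ∂σ := by
  have : IsFiniteMeasure μ := ⟨hS.fin_μ⟩
  have : IsFiniteMeasure σ := ⟨hS.fin_σ⟩
  have hcp : 0 ≤ C ^ (pp n - 2) := Real.rpow_nonneg hC _
  have hcq : 0 ≤ C ^ (qq n - 2) := Real.rpow_nonneg hC _
  have hK1 : 0 ≤ M + |lam| * C ^ (pp n - 2) := by positivity
  have hK2 : 0 ≤ 2 * M + |kap| * C ^ (qq n - 2) := by positivity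
  rcases le_or_gt (Real.exp (-k) - ε) 0 with hb | hb
  · -- trivial case
    have key : ∀ t : ℝ, 0 ≤ t → max (-Real.log (t + ε) - k) 0 = 0 := by
      intro t ht
      have hpos : 0 < t + ε := by linarith
      have hlog : -k ≤ Real.log (t + ε) := by
        have : Real.exp (-k) ≤ t + ε := by linarith
        calc -k = Real.log (Real.exp (-k)) := (Real.log_exp _).symm
          _ ≤ Real.log (t + ε) := Real.log_le_log (Real.exp_pos _) this
      exact max_eq_right (by linarith)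
    refine ⟨fun _ => 0, ?_, ?_⟩
    · have h0 := InH.of_mem hS (hS.const 0)
      rw [hS.D_const 0] at h0
      refine h0.congr ?_ ?_ ?_
      · filter_upwards [hw] with x hx
        exact (key _ hx).symm
      · exact Filter.Eventually.of_forall (fun x => rfl)
      · filter_upwards [hτ] with x hx
        exact (key _ hx).symm
    · have : DD μ (fun _ : X => (0 : F)) = 0 := by simp [DD]
      rw [this, mul_zero]
      have i1 : 0 ≤ ∫ x, max (-Real.log (w x + ε) - k) 0 ∂μ := integral_nonneg (fun x => le_max_right _ _)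
      have i2 : 0 ≤ ∫ x, max (-Real.log (τ x + ε) - k) 0 ∂σ := integral_nonneg (fun x => le_max_right _ _)
      positivity
  · obtain ⟨cf, cg, hder⟩ := m3_calc ε k hε hb
    have h1 := h.comp_mid hS 0 (Real.exp (-k) - ε) hb _ cf
    have h2 := h.comp_mid hS 0 (Real.exp (-k) - ε) hb _ cg
    have h1' := h1.congr (w' := fun x => max (-Real.log (w x + ε) - k) 0)
      (τ' := fun x => max (-Real.log (τ x + ε) - k) 0)
      (by filter_upwards [hw] with x hx using (m3_pt ε k hε hb _ hx).1) (ae_eq_refl _)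
      (by filter_upwards [hτ] with x hx using (m3_pt ε k hε hb _ hx).1)
    refine ⟨_, h1', ?_⟩
    have heq := weakEq_ext hn hS hR hH hRM hHM h hE h2
    have iψ : Integrable (fun x => max (-Real.log (w x + ε) - k) 0) μ := h1'.memw.integrable one_le_two
    have iθ : Integrable (fun x => max (-Real.log (τ x + ε) - k) 0) σ := h1'.memt.integrable one_le_two
    -- gradient part
    have hgrad : DD μ (fun x => (if 0 < w x ∧ w x < Real.exp (-k) - ε then
        derivWithin (fun s => -Real.log (s + ε) - k) (Icc 0 (Real.exp (-k) - ε)) (w x) else 0) • ζ x) ≤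
        - ∫ x, inner ℝ (ζ x) ((if 0 < w x ∧ w x < Real.exp (-k) - ε then
        derivWithin (fun s => (-Real.log (s + ε) - k) / (s + ε)) (Icc 0 (Real.exp (-k) - ε)) (w x)
          else 0) • ζ x) ∂μ := by
      unfold DD
      rw [← integral_neg]
      apply integral_mono_ae
      · exact h1.memz.integrable_norm_pow (by norm_num)
      · apply Integrable.neg
        have hm := MemLp.integrable_mul h.memz.norm h2.memz.norm
        refine hm.mono' (h.memz.1.inner h2.memz.1) ?_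
        exact Filter.Eventually.of_forall (fun x => norm_inner_le_norm _ _)
      · refine Filter.Eventually.of_forall (fun x => ?_)
        simp only
        split_ifs with hx
        · rw [norm_smul, mul_pow, inner_smul_right, real_inner_self_eq_norm_sq, Real.norm_eq_abs, sq_abs,
            ← neg_mul]
          exact mul_le_mul_of_nonneg_right (hder _ hx) (by positivity)
        · simp
    have hp1 : 2 < pp n := (pp_facts hn).1
    have hq1 : 2 < qq n := (qq_facts hn).1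
    have ptw : ∀ (e t : ℝ), 2 < e → 0 ≤ t → t ≤ C →
        |t| ^ (e - 1) * ((-Real.log (max 0 (min t (Real.exp (-k) - ε)) + ε) - k) /
      (max 0 (min t (Real.exp (-k) - ε)) + ε)) ≤ C ^ (e - 2) * max (-Real.log (t + ε) - k) 0 ∧
        0 ≤ |t| ^ (e - 1) * ((-Real.log (max 0 (min t (Real.exp (-k) - ε)) + ε) - k) /
      (max 0 (min t (Real.exp (-k) - ε)) + ε)) := by
      intro e t he ht htC
      obtain ⟨_, a2, a3⟩ := m3_pt ε k hε hb t ht
      refine ⟨?_, mul_nonneg (Real.rpow_nonneg (abs_nonneg _) _) a2⟩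
      rw [abs_of_nonneg ht]
      have : e - 1 = (e - 2) + 1 := by ring
      rw [this, Real.rpow_add_one' ht (by linarith), mul_assoc]
      exact mul_le_mul (Real.rpow_le_rpow ht htC (by linarith)) a3 (mul_nonneg ht a2)
        (Real.rpow_nonneg hC _)
    -- four integral bounds
    have b1 : ∫ x, R x * w x * ((-Real.log (max 0 (min (w x) (Real.exp (-k) - ε)) + ε) - k) /
      (max 0 (min (w x) (Real.exp (-k) - ε)) + ε)) ∂μ ≤
        M * ∫ x, max (-Real.log (w x + ε) - k) 0 ∂μ := by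
      rw [← integral_const_mul]
      refine (Real.le_norm_self _).trans ?_
      refine norm_integral_le_of_norm_le (iψ.const_mul M) ?_
      filter_upwards [hw] with x hx
      obtain ⟨_, a2, a3⟩ := m3_pt ε k hε hb (w x) hx
      rw [Real.norm_eq_abs, mul_assoc, abs_mul, abs_of_nonneg (mul_nonneg hx a2)]
      exact mul_le_mul (hRM x) a3 (mul_nonneg hx a2) hM
    have b2 : ∫ x, H x * τ x * ((-Real.log (max 0 (min (τ x) (Real.exp (-k) - ε)) + ε) - k) /
      (max 0 (min (τ x) (Real.exp (-k) - ε)) + ε)) ∂σ ≤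
        M * ∫ x, max (-Real.log (τ x + ε) - k) 0 ∂σ := by
      rw [← integral_const_mul]
      refine (Real.le_norm_self _).trans ?_
      refine norm_integral_le_of_norm_le (iθ.const_mul M) ?_
      filter_upwards [hτ] with x hx
      obtain ⟨_, a2, a3⟩ := m3_pt ε k hε hb (τ x) hx
      rw [Real.norm_eq_abs, mul_assoc, abs_mul, abs_of_nonneg (mul_nonneg hx a2)]
      exact mul_le_mul (hHM x) a3 (mul_nonneg hx a2) hM
    have b3 : |∫ x, |w x| ^ (pp n - 1) * ((-Real.log (max 0 (min (w x) (Real.exp (-k) - ε)) + ε) - k) /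
      (max 0 (min (w x) (Real.exp (-k) - ε)) + ε)) ∂μ| ≤
        C ^ (pp n - 2) * ∫ x, max (-Real.log (w x + ε) - k) 0 ∂μ := by
      rw [← integral_const_mul, ← Real.norm_eq_abs]
      refine norm_integral_le_of_norm_le (iψ.const_mul _) ?_
      filter_upwards [hw, hwC] with x hx hx2
      obtain ⟨a1, a2⟩ := ptw (pp n) (w x) hp1 hx hx2
      rw [Real.norm_eq_abs, abs_of_nonneg a2]
      exact a1
    have b4 : |∫ x, |τ x| ^ (qq n - 1) * ((-Real.log (max 0 (min (τ x) (Real.exp (-k) - ε)) + ε) - k) /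
      (max 0 (min (τ x) (Real.exp (-k) - ε)) + ε)) ∂σ| ≤
        C ^ (qq n - 2) * ∫ x, max (-Real.log (τ x + ε) - k) 0 ∂σ := by
      rw [← integral_const_mul, ← Real.norm_eq_abs]
      refine norm_integral_le_of_norm_le (iθ.const_mul _) ?_
      filter_upwards [hτ, hτC] with x hx hx2
      obtain ⟨a1, a2⟩ := ptw (qq n) (τ x) hq1 hx hx2
      rw [Real.norm_eq_abs, abs_of_nonneg a2]
      exact a1
    have hcn := cn_pos hn
    set I1 := ∫ x, inner ℝ (ζ x) ((if 0 < w x ∧ w x < Real.exp (-k) - ε then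
        derivWithin (fun s => (-Real.log (s + ε) - k) / (s + ε)) (Icc 0 (Real.exp (-k) - ε)) (w x)
          else 0) • ζ x) ∂μ with hI1
    set I2 := ∫ x, R x * w x * ((-Real.log (max 0 (min (w x) (Real.exp (-k) - ε)) + ε) - k) /
      (max 0 (min (w x) (Real.exp (-k) - ε)) + ε)) ∂μ with hI2
    set I3 := ∫ x, H x * τ x * ((-Real.log (max 0 (min (τ x) (Real.exp (-k) - ε)) + ε) - k) /
      (max 0 (min (τ x) (Real.exp (-k) - ε)) + ε)) ∂σ with hI3
    set I4 := ∫ x, |w x| ^ (pp n - 1) * ((-Real.log (max 0 (min (w x) (Real.exp (-k) - ε)) + ε) - k) /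
      (max 0 (min (w x) (Real.exp (-k) - ε)) + ε)) ∂μ with hI4
    set I5 := ∫ x, |τ x| ^ (qq n - 1) * ((-Real.log (max 0 (min (τ x) (Real.exp (-k) - ε)) + ε) - k) /
      (max 0 (min (τ x) (Real.exp (-k) - ε)) + ε)) ∂σ with hI5
    have heq' : cn n * I1 + I2 + 2 * I3 = lam * I4 + kap * I5 := heq
    have c1 : cn n * DD μ (fun x => (if 0 < w x ∧ w x < Real.exp (-k) - ε then
        derivWithin (fun s => -Real.log (s + ε) - k) (Icc 0 (Real.exp (-k) - ε)) (w x) else 0) • ζ x) ≤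
        cn n * (-I1) := mul_le_mul_of_nonneg_left hgrad hcn.le
    have c4 : -(lam * I4) ≤ |lam| * (C ^ (pp n - 2) * ∫ x, max (-Real.log (w x + ε) - k) 0 ∂μ) := by
      calc -(lam * I4) ≤ |lam * I4| := neg_le_abs _
        _ = |lam| * |I4| := abs_mul _ _
        _ ≤ _ := mul_le_mul_of_nonneg_left b3 (abs_nonneg _)
    have c5 : -(kap * I5) ≤ |kap| * (C ^ (qq n - 2) * ∫ x, max (-Real.log (τ x + ε) - k) 0 ∂σ) := by
      calc -(kap * I5) ≤ |kap * I5| := neg_le_abs _
        _ = |kap| * |I5| := abs_mul _ _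
        _ ≤ _ := mul_le_mul_of_nonneg_left b4 (abs_nonneg _)
    nlinarith [c1, c4, c5, b1, b2, heq']

theorem lower_bound_w (hn : 3 ≤ n) (hS : IsSob n μ σ A D) {R H : X → ℝ} (hR : Measurable R)
    (hH : Measurable H) {M : ℝ} (hRM : ∀ x, |R x| ≤ M) (hHM : ∀ x, |H x| ≤ M)
    {lam kap : ℝ} {w τ : X → ℝ} {ζ : X → F} (h : InH μ σ A D w ζ τ)
    (hE : WeakEq n μ σ R H A D lam kap w ζ τ) (hw : ∀ᵐ x ∂μ, 0 ≤ w x) (hτ : ∀ᵐ x ∂σ, 0 ≤ τ x) (C : ℝ)
    (hwC : ∀ᵐ x ∂μ, w x ≤ C) (hτC : ∀ᵐ x ∂σ, τ x ≤ C) (hne : ¬ w =ᵐ[μ] 0) :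
    ∃ c : ℝ, 0 < c ∧ (∀ᵐ x ∂μ, c ≤ w x) ∧ (∀ᵐ x ∂σ, c ≤ τ x) := by
  have : IsFiniteMeasure μ := ⟨hS.fin_μ⟩
  have : IsFiniteMeasure σ := ⟨hS.fin_σ⟩
  -- `C ≥ 0`, `M ≥ 0`
  have hwC' : ∀ᵐ x ∂μ, w x ≤ max C 0 := by filter_upwards [hwC] with x hx using hx.trans (le_max_left _ _)
  have hτC' : ∀ᵐ x ∂σ, τ x ≤ max C 0 := by filter_upwards [hτC] with x hx using hx.trans (le_max_left _ _)
  have hC' : 0 ≤ max C 0 := le_max_right _ _
  have hX : Nonempty X := by
    by_contra hX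
    rw [not_nonempty_iff] at hX
    exact hne (Filter.Eventually.of_forall (fun x => hX.elim x))
  have hM : 0 ≤ M := (abs_nonneg _).trans (hRM hX.some)
  -- the level `c1`
  obtain ⟨c1, hc1, hm1⟩ : ∃ c1 : ℝ, 0 < c1 ∧ 0 < μ {x | c1 ≤ w x} := by
    by_contra hcon
    push Not at hcon
    apply hne
    have hall : ∀ j : ℕ, ∀ᵐ x ∂μ, w x < 1 / ((j : ℝ) + 1) := by
      intro j
      have := hcon (1 / ((j : ℝ) + 1)) (by positivity)
      rw [ae_iff]
      simpa using le_antisymm this zero_le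
    rw [← ae_all_iff] at hall
    filter_upwards [hall, hw] with x hx hx0
    refine le_antisymm ?_ hx0
    by_contra hlt
    push Not at hlt
    obtain ⟨j, hj⟩ := exists_nat_one_div_lt hlt
    exact absurd (hx j) (not_lt.mpr hj.le)
  set m0 := (μ {x | c1 ≤ w x}).toReal with hm0
  have hm0pos : 0 < m0 := ENNReal.toReal_pos hm1.ne' (measure_ne_top _ _)
  obtain ⟨CP, hCP0, hCP⟩ := poin_vanish hn hS m0 hm0pos
  have hcn := cn_pos hn
  set K1 := M + |lam| * (max C 0) ^ (pp n - 2) with hK1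
  set K2 := 2 * M + |kap| * (max C 0) ^ (qq n - 2) with hK2
  have hK1' : 0 ≤ K1 := by
    have := Real.rpow_nonneg hC' (pp n - 2)
    positivity
  have hK2' : 0 ≤ K2 := by
    have := Real.rpow_nonneg hC' (qq n - 2)
    positivity
  set L1 := (1 + CP) / cn n * K1 with hL1
  set L2 := (1 + CP) / cn n * K2 with hL2
  have hL1' : 0 ≤ L1 := by positivity
  have hL2' : 0 ≤ L2 := by positivity
  set K := L1 ^ (2 * (n : ℝ)) * μ.real univ + L2 ^ (2 * (n : ℝ)) * σ.real univ with hK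
  have hK0 : 0 ≤ K := by positivity
  obtain ⟨d, hd0, hd⟩ := level_lemma (A := A) (D := D) hn hS K hK0
  set k0 := -Real.log c1 with hk0
  have main : ∀ ε : ℝ, 0 < ε → (∀ᵐ x ∂μ, -Real.log (w x + ε) ≤ k0 + d) ∧
      (∀ᵐ x ∂σ, -Real.log (τ x + ε) ≤ k0 + d) := by
    intro ε hε
    refine hd (fun x => -Real.log (w x + ε)) (fun x => -Real.log (τ x + ε)) (fun _ => L1) (fun _ => L2) k0
      ?_ ?_ (fun _ => hL1') (fun _ => hL2') (memLp_const _) (memLp_const _) ?_ ?_ ?_
    · exact ((Real.measurable_log.comp_aemeasurable (h.memw.1.aemeasurable.add_const ε)).neg).aestronglyMeasurable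
    · exact ((Real.measurable_log.comp_aemeasurable (h.memt.1.aemeasurable.add_const ε)).neg).aestronglyMeasurable
    · rw [integral_const, abs_of_nonneg hL1', smul_eq_mul, mul_comm]
      have : 0 ≤ L2 ^ (2 * (n : ℝ)) * σ.real univ := by positivity
      linarith
    · rw [integral_const, abs_of_nonneg hL2', smul_eq_mul, mul_comm]
      have : 0 ≤ L1 ^ (2 * (n : ℝ)) * μ.real univ := by positivity
      linarith
    · intro k hk
      obtain ⟨ξ, hξ, hen⟩ := m3_energy hn hS hR hH hM hRM hHM h hE hw hτ (max C 0) hC' hwC' hτC' ε hε k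
      refine ⟨ξ, hξ, ?_⟩
      have hvan : m0 ≤ (μ {x | max (-Real.log (w x + ε) - k) 0 = 0}).toReal := by
        refine ENNReal.toReal_mono (measure_ne_top _ _) (measure_mono ?_)
        intro x hx
        have hx' : c1 ≤ w x := hx
        have h1 : -k ≤ Real.log c1 := by linarith
        have h2 : Real.log c1 ≤ Real.log (w x + ε) := Real.log_le_log hc1 (by linarith)
        exact max_eq_right (by linarith)
      have hP := hCP _ _ _ hξ hvan
      have hDD : DD μ ξ ≤ (K1 * ∫ x, max (-Real.log (w x + ε) - k) 0 ∂μ +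
        K2 * ∫ x, max (-Real.log (τ x + ε) - k) 0 ∂σ) / cn n := by
        rw [le_div_iff₀ hcn, mul_comm]
        exact hen
      rw [integral_const_mul, integral_const_mul]
      calc DD μ ξ + ∫ x, (max (-Real.log (w x + ε) - k) 0) ^ 2 ∂μ ≤ DD μ ξ + CP * DD μ ξ := by linarith
        _ = (1 + CP) * DD μ ξ := by ring
        _ ≤ (1 + CP) * ((K1 * ∫ x, max (-Real.log (w x + ε) - k) 0 ∂μ +
        K2 * ∫ x, max (-Real.log (τ x + ε) - k) 0 ∂σ) / cn n) :=
            mul_le_mul_of_nonneg_left hDD (by positivity)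
        _ = _ := by rw [hL1, hL2]; ring
  refine ⟨Real.exp (-(k0 + d)), Real.exp_pos _, ?_, ?_⟩
  · have hall : ∀ j : ℕ, ∀ᵐ x ∂μ, -Real.log (w x + 1 / ((j : ℝ) + 1)) ≤ k0 + d :=
      fun j => (main (1 / ((j : ℝ) + 1)) (by positivity)).1
    rw [← ae_all_iff] at hall
    filter_upwards [hall, hw] with x hx hx0
    by_contra hlt
    push Not at hlt
    obtain ⟨j, hj⟩ := exists_nat_one_div_lt (sub_pos.mpr hlt)
    have hpos : 0 < w x + 1 / ((j : ℝ) + 1) := by positivity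
    have h1 : -(k0 + d) ≤ Real.log (w x + 1 / ((j : ℝ) + 1)) := by linarith [hx j]
    have h2 : Real.exp (-(k0 + d)) ≤ w x + 1 / ((j : ℝ) + 1) := (Real.le_log_iff_exp_le hpos).mp h1
    linarith
  · have hall : ∀ j : ℕ, ∀ᵐ x ∂σ, -Real.log (τ x + 1 / ((j : ℝ) + 1)) ≤ k0 + d :=
      fun j => (main (1 / ((j : ℝ) + 1)) (by positivity)).2
    rw [← ae_all_iff] at hall
    filter_upwards [hall, hτ] with x hx hx0
    by_contra hlt
    push Not at hlt
    obtain ⟨j, hj⟩ := exists_nat_one_div_lt (sub_pos.mpr hlt)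
    have hpos : 0 < τ x + 1 / ((j : ℝ) + 1) := by positivity
    have h1 : -(k0 + d) ≤ Real.log (τ x + 1 / ((j : ℝ) + 1)) := by linarith [hx j]
    have h2 : Real.exp (-(k0 + d)) ≤ τ x + 1 / ((j : ℝ) + 1) := (Real.le_log_iff_exp_le hpos).mp h1
    linarith

end Pool.Agent.CY
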