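import Pool.Agent.CY.S2.Euler
import Pool.Agent.CY.S2.M3

/-!
CY-S2-MinIneq. The inequality (II) at a minimiser.

`w` is not `0` a.e.: otherwise `τ = 0` a.e. (trace interpolation `InH.tr` for every `ε`), and `eq` gives
`c_n DD ζ = 0`, contradiction to `norm`.  `euler`, `upper_bound`, `lower_bound_w`; so `τ ≥ c > 0` and
`∫ τ^q > 0` (`σ(X) > 0`), `∫ w^p > 0`.  Apply `RegIneq` with `V = ∫ |w|^p`, `S = ∫ |τ|^q`,
`lam = a V^{-2/(n+1)}`, `kap = b S^{-1/n}`: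
`Y S^{(n-2)/n} ≤ (n-1)/(4n) b² S^{-2/n} S + (n-1)/(n+1) a V^{-2/(n+1)} S`; divide by `S^{(n-2)/n}`;
`(Q/P)^{2/(n-1)} = S^{2/n} V^{-2/(n+1)}`.
-/

set_option autoImplicit false

open scoped ENNReal ContDiff
open MeasureTheory Set Filter Topology

namespace Pool.Agent.CY

variable {X : Type} [TopologicalSpace X] [CompactSpace X] [MeasurableSpace X] [BorelSpace X]
  {F : Type} [NormedAddCommGroup F] [InnerProductSpace ℝ F] [FiniteDimensional ℝ F]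
  {n : ℕ} {μ σ : Measure X} {A : Set (X → ℝ)} {D : (X → ℝ) → X → F}

private theorem mi_pos {Z : Type} [MeasurableSpace Z] {ν : Measure Z} (hfin : ν univ < ⊤)
    (hν : ν univ ≠ 0) {f : Z → ℝ} {r c : ℝ} (hr : 1 < r) (hc : 0 < c)
    (hf : MemLp f (ENNReal.ofReal r) ν) (hcf : ∀ᵐ x ∂ν, c ≤ f x) : 0 < ∫ x, |f x| ^ r ∂ν := by
  have : IsFiniteMeasure ν := ⟨hfin⟩
  have hr0 : 0 < r := by linarith
  have hint : Integrable (fun x => |f x| ^ r) ν := by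
    have h := hf.integrable_norm_rpow (by
      simp only [ne_eq, ENNReal.ofReal_eq_zero, not_le]; linarith) ENNReal.ofReal_ne_top
    rw [ENNReal.toReal_ofReal hr0.le] at h
    exact h
  have h1 : ∫ _x, c ^ r ∂ν ≤ ∫ x, |f x| ^ r ∂ν := by
    refine integral_mono_ae (integrable_const _) hint ?_
    filter_upwards [hcf] with x hx
    exact Real.rpow_le_rpow hc.le (hx.trans (le_abs_self _)) hr0.le
  rw [integral_const, smul_eq_mul] at h1
  have h2 : 0 < ν.real univ := ENNReal.toReal_pos hν hfin.ne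
  have h3 : 0 < c ^ r := Real.rpow_pos_of_pos hc r
  have h4 : 0 < ν.real univ * c ^ r := mul_pos h2 h3
  linarith

private theorem mi_ne (hn : 3 ≤ n) (hS : IsSob n μ σ A D) {R H : X → ℝ} {a b : ℝ} {w τ : X → ℝ}
    {ζ : X → F} (h : IsMin n μ σ R H A D a b w ζ τ) : ¬ w =ᵐ[μ] 0 := by
  intro hw0
  have e1 : ∫ x, w x ^ 2 ∂μ = 0 := by
    rw [integral_eq_zero_of_ae]
    filter_upwards [hw0] with x hx
    rw [hx]; simp
  have hnorm := h.norm
  rw [e1, add_zero] at hnorm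
  -- the trace vanishes
  have ht : ∀ ε : ℝ, 0 < ε → ∫ x, τ x ^ 2 ∂σ ≤ ε := by
    intro ε hε
    obtain ⟨C, hC⟩ := hS.tr ε hε
    have := InH.tr hn hS hC h.inH
    rw [e1, mul_zero, add_zero, hnorm, mul_one] at this
    exact this
  have ht0 : ∫ x, τ x ^ 2 ∂σ = 0 :=
    le_antisymm (le_of_forall_pos_le_add fun ε hε => by linarith [ht ε hε])
      (integral_nonneg fun x => sq_nonneg _)
  have hτ0 : τ =ᵐ[σ] 0 := by
    have h1 := (integral_eq_zero_iff_of_nonneg (fun x => sq_nonneg (τ x))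
      h.inH.memt.integrable_sq).mp ht0
    filter_upwards [h1] with x hx
    have hx' : τ x ^ 2 = 0 := hx
    exact pow_eq_zero_iff (two_ne_zero) |>.mp hx'
  obtain ⟨hp2, -, -, hp4, -⟩ := pp_facts (n := n) hn
  obtain ⟨hq2, -, -, hq4, -⟩ := qq_facts (n := n) hn
  have eP : PP n μ w = 0 := by
    unfold PP
    have : ∫ x, |w x| ^ pp n ∂μ = 0 := by
      rw [integral_eq_zero_of_ae]
      filter_upwards [hw0] with x hx
      rw [hx]
      show |(0 : ℝ)| ^ pp n = 0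
      rw [abs_zero, Real.zero_rpow (by linarith)]
    rw [this, Real.zero_rpow hp4.ne']
  have eQ : QQ n σ τ = 0 := by
    unfold QQ
    have : ∫ x, |τ x| ^ qq n ∂σ = 0 := by
      rw [integral_eq_zero_of_ae]
      filter_upwards [hτ0] with x hx
      rw [hx]
      show |(0 : ℝ)| ^ qq n = 0
      rw [abs_zero, Real.zero_rpow (by linarith)]
    rw [this, Real.zero_rpow hq4.ne']
  have e2 : ∫ x, R x * w x ^ 2 ∂μ = 0 := by
    rw [integral_eq_zero_of_ae]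
    filter_upwards [hw0] with x hx
    rw [hx]; simp
  have e3 : ∫ x, H x * τ x ^ 2 ∂σ = 0 := by
    rw [integral_eq_zero_of_ae]
    filter_upwards [hτ0] with x hx
    rw [hx]; simp
  have heq := h.eq
  unfold EE at heq
  rw [eP, eQ, e2, e3, hnorm] at heq
  have := cn_pos (n := n) hn
  linarith

private theorem mi_alg (hn : 3 ≤ n) (Y S V a b : ℝ) (hS : 0 < S) (hV : 0 < V)
    (h : Y * S ^ (((n : ℝ) - 2) / (n : ℝ)) ≤
      ((n : ℝ) - 1) / (4 * (n : ℝ)) * (b * S ^ (2 / qq n - 1)) ^ 2 * S +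
      ((n : ℝ) - 1) / ((n : ℝ) + 1) * (a * V ^ (2 / pp n - 1)) * S) :
    Y ≤ ((n : ℝ) - 1) / (4 * (n : ℝ)) * b ^ 2 +
      ((n : ℝ) - 1) / ((n : ℝ) + 1) * a * (S ^ (2 / qq n) / V ^ (2 / pp n)) ^ (2 / ((n : ℝ) - 1)) := by
  have hn3 : (3 : ℝ) ≤ n := by exact_mod_cast hn
  have h0 : (0 : ℝ) < n := by linarith
  have h1 : (0 : ℝ) < n - 1 := by linarith
  have h2 : (0 : ℝ) < n + 1 := by linarith
  obtain ⟨-, p1, p2, -, -⟩ := pp_facts (n := n) hn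
  obtain ⟨-, q1, q2, -, -⟩ := qq_facts (n := n) hn
  have e1 : (S ^ (2 / qq n) / V ^ (2 / pp n)) ^ (2 / ((n : ℝ) - 1)) =
      S ^ (2 / (n : ℝ)) * V ^ (-2 / ((n : ℝ) + 1)) := by
    rw [Real.div_rpow (Real.rpow_nonneg hS.le _) (Real.rpow_nonneg hV.le _), ← Real.rpow_mul hS.le,
      ← Real.rpow_mul hV.le, q1, p1, div_eq_mul_inv, ← Real.rpow_neg hV.le]
    congr 1
    · congr 1
      field_simp
    · congr 1
      field_simp
  have hSp : 0 < S ^ (((n : ℝ) - 2) / (n : ℝ)) := Real.rpow_pos_of_pos hS _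
  have e2 : (S ^ (2 / qq n - 1)) ^ 2 * S = S ^ (((n : ℝ) - 2) / (n : ℝ)) := by
    rw [q2, ← Real.rpow_natCast (S ^ (-1 / (n : ℝ))) 2, ← Real.rpow_mul hS.le]
    nth_rewrite 2 [← Real.rpow_one S]
    rw [← Real.rpow_add hS]
    congr 1
    push_cast
    field_simp
    ring
  have e3 : S = S ^ (2 / (n : ℝ)) * S ^ (((n : ℝ) - 2) / (n : ℝ)) := by
    rw [← Real.rpow_add hS]
    have : 2 / (n : ℝ) + ((n : ℝ) - 2) / (n : ℝ) = 1 := by
      field_simp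
      ring
    rw [this, Real.rpow_one]
  have e4 : V ^ (2 / pp n - 1) * S = (S ^ (2 / (n : ℝ)) * V ^ (-2 / ((n : ℝ) + 1))) *
      S ^ (((n : ℝ) - 2) / (n : ℝ)) := by
    rw [p2]
    nth_rewrite 1 [e3]
    ring
  rw [e1]
  refine le_of_mul_le_mul_right ?_ hSp
  calc Y * S ^ (((n : ℝ) - 2) / (n : ℝ)) ≤
      ((n : ℝ) - 1) / (4 * (n : ℝ)) * (b * S ^ (2 / qq n - 1)) ^ 2 * S +
      ((n : ℝ) - 1) / ((n : ℝ) + 1) * (a * V ^ (2 / pp n - 1)) * S := h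
    _ = ((n : ℝ) - 1) / (4 * (n : ℝ)) * b ^ 2 * ((S ^ (2 / qq n - 1)) ^ 2 * S) +
      ((n : ℝ) - 1) / ((n : ℝ) + 1) * a * (V ^ (2 / pp n - 1) * S) := by ring
    _ = _ := by rw [e2, e4]; ring

theorem min_ineq (hn : 3 ≤ n) (hS : IsSob n μ σ A D) (hσ : σ univ ≠ 0) {R H : X → ℝ} (hR : Measurable R)
    (hH : Measurable H) {M : ℝ} (hRM : ∀ x, |R x| ≤ M) (hHM : ∀ x, |H x| ≤ M)
    {Y : ℝ} (hreg : RegIneq n μ σ R H A D Y) {a b : ℝ} (hK : InK n μ σ R H A D a b) {w τ : X → ℝ} {ζ : X → F}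
    (h : IsMin n μ σ R H A D a b w ζ τ) :
    0 < PP n μ w ∧ 0 < QQ n σ τ ∧
    Y ≤ ((n : ℝ) - 1) / (4 * (n : ℝ)) * b ^ 2 +
      ((n : ℝ) - 1) / ((n : ℝ) + 1) * a * (QQ n σ τ / PP n μ w) ^ (2 / ((n : ℝ) - 1)) := by
  have hne := mi_ne hn hS h
  have hμ : μ univ ≠ 0 := by
    intro h0
    apply hne
    have : μ = 0 := Measure.measure_univ_eq_zero.mp h0
    rw [this, ae_zero]
    exact Filter.eventually_bot
  obtain ⟨hp2, -, -, -, -⟩ := pp_facts (n := n) hn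
  obtain ⟨hq2, -, -, -, -⟩ := qq_facts (n := n) hn
  obtain ⟨mw, mt⟩ := h.inH.memLp hn hS
  have hE := euler hn hS hR hH hRM hHM hK h
  obtain ⟨C, hC1, hC2⟩ := upper_bound hn hS hR hH hRM hHM h.inH hE h.nonneg_w h.nonneg_t
  obtain ⟨c, hc, hc1, hc2⟩ := lower_bound_w hn hS hR hH hRM hHM h.inH hE h.nonneg_w h.nonneg_t C
    hC1 hC2 hne
  have hV : 0 < ∫ x, |w x| ^ pp n ∂μ := mi_pos hS.fin_μ hμ (by linarith) hc mw hc1
  have hSS : 0 < ∫ x, |τ x| ^ qq n ∂σ := mi_pos hS.fin_σ hσ (by linarith) hc mt hc2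
  refine ⟨Real.rpow_pos_of_pos hV _, Real.rpow_pos_of_pos hSS _, ?_⟩
  have hr := hreg _ _ w ζ τ c C h.inH hc (hc1.and hC1) (hc2.and hC2) hE
  exact mi_alg hn Y _ _ a b hSS hV hr

end Pool.Agent.CY
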