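import Pool.Agent.CY.S2.Exit
import Pool.Agent.CY.S2.MinIneq
import Pool.Agent.CY.S2.CurveY

/-!
CY-S2-Core. The main theorem of part S2.

Fix `0 < Y' < Y` (so `Y' < Y_n`).  Three applications of `exit_argument`:
(1) `a` from `-A₀` to `0`, `b = 0` (`Sub` by the first alternative; `InK.start`): a minimiser at `(a, 0)`,
`a ≤ 0`, contradicts `min_ineq` (`Y ≤ 0`).
(2) `(0, b)`, `0 ≤ b ≤ bY 0` (`Sub`: second alternative with `t = 0` and `curve_gap`): at a minimiser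
`Y ≤ ((n-1)/(4n)) b² ≤ Y' < Y`.
(3) `(aY t, bY t)`, `0 ≤ t ≤ π/2`: at `t = 0` as in (2), at `0 < t < π/2` `curve_strict`.
So `((Y'/Y_n)^{n/(n+1)} A_n, 0)` is admissible; let `Y' → Y` (continuity); `nonneg_reduction` with
`InH.of_mem` for general `u ∈ A`.
-/

set_option autoImplicit false

open scoped ENNReal ContDiff
open MeasureTheory Set Filter Topology

namespace Pool.Agent.CY

variable {X : Type} [TopologicalSpace X] [CompactSpace X] [MeasurableSpace X] [BorelSpace X]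
  {F : Type} [NormedAddCommGroup F] [InnerProductSpace ℝ F] [FiniteDimensional ℝ F]
  {n : ℕ} {μ σ : Measure X} {A : Set (X → ℝ)} {D : (X → ℝ) → X → F}

/-- the three paths, for a fixed `Y' < Y` -/
private theorem core_aux (hn : 3 ≤ n) (hS : IsSob n μ σ A D) (hAI : HasAI n μ σ A D)
    (hσ : σ univ ≠ 0) {R H : X → ℝ} (hR : Measurable R) (hH : Measurable H) {M : ℝ}
    (hRM : ∀ x, |R x| ≤ M) (hHM : ∀ x, |H x| ≤ M) {Y : ℝ} (hY : 0 < Y) (hY1 : Y ≤ Yn n)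
    (hreg : RegIneq n μ σ R H A D Y) {Y' : ℝ} (hY' : 0 < Y') (hYY : Y' < Y) :
    InK n μ σ R H A D (aY n Y' (Real.pi / 2)) (bY n Y' (Real.pi / 2)) := by
  have hn3 : (3 : ℝ) ≤ n := by exact_mod_cast hn
  have hn0 : (0 : ℝ) < n := by linarith
  have hn1 : (0 : ℝ) < (n : ℝ) - 1 := by linarith
  have hn2 : (0 : ℝ) < (n : ℝ) + 1 := by linarith
  have hpi : (0 : ℝ) < Real.pi / 2 := by positivity
  have hYn := Yn_pos n hn
  have h0mem : (0 : ℝ) ∈ Icc (0 : ℝ) (Real.pi / 2) := ⟨le_refl _, hpi.le⟩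
  obtain ⟨δ, hδ, hgap⟩ := curve_gap n hn Y' hY' (hYY.trans_le hY1)
  have hs0 : 0 ≤ Y' / Yn n := (div_pos hY' hYn).le
  have ha0 : ∀ t ∈ Icc (0 : ℝ) (Real.pi / 2), 0 ≤ aY n Y' t := fun t ht =>
    mul_nonneg (Real.rpow_nonneg hs0 _) (amod_nonneg n t ht)
  have hb0 : ∀ t ∈ Icc (0 : ℝ) (Real.pi / 2), 0 ≤ bY n Y' t := fun t ht =>
    mul_nonneg (Real.rpow_nonneg hs0 _) (bmod_nonneg n t ht)
  have haz : aY n Y' 0 = 0 := by
    unfold aY
    rw [amod_zero, mul_zero]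
  have hbz : ((n : ℝ) - 1) / (4 * (n : ℝ)) * bY n Y' 0 ^ 2 = Y' := by
    rw [bY_sq n hn Y' hY' 0, Real.cos_zero]
    ring
  have hc0 : 0 < ((n : ℝ) - 1) / (4 * (n : ℝ)) := by positivity
  have hc1 : 0 < ((n : ℝ) - 1) / ((n : ℝ) + 1) := by positivity
  -- first path
  have step1 : InK n μ σ R H A D 0 0 := by
    obtain ⟨A₀, hA0, hstart⟩ := InK.start hn hS hR hH hRM hHM
    have h1 := exit_argument hn hS hAI hR hH hRM hHM (fun s => s) (fun _ => 0) (-A₀) 0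
      (by linarith) continuousOn_id continuousOn_const (fun s hs => Or.inl ⟨hs.2, rfl⟩) hstart
      (fun s hs w ζ τ hK hmin => by
        exfalso
        obtain ⟨hP, hQ, h2⟩ := min_ineq hn hS hσ hR hH hRM hHM hreg hK hmin
        have h3 : 0 ≤ (QQ n σ τ / PP n μ w) ^ (2 / ((n : ℝ) - 1)) :=
          Real.rpow_nonneg (div_pos hQ hP).le _
        have h4 : ((n : ℝ) - 1) / ((n : ℝ) + 1) * s * (QQ n σ τ / PP n μ w) ^ (2 / ((n : ℝ) - 1)) ≤ 0 :=
          mul_nonpos_of_nonpos_of_nonneg (mul_nonpos_of_nonneg_of_nonpos hc1.le hs.2.le) h3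
        have h5 : ((n : ℝ) - 1) / (4 * (n : ℝ)) * (0 : ℝ) ^ 2 = 0 := by ring
        rw [h5] at h2
        linarith)
    exact h1
  -- second path
  have step2 : InK n μ σ R H A D 0 (bY n Y' 0) := by
    refine exit_argument hn hS hAI hR hH hRM hHM (fun _ => 0) (fun s => s) 0 (bY n Y' 0)
      (hb0 0 h0mem) continuousOn_const continuousOn_id (fun s hs => Or.inr ⟨le_refl _, hs.1, 0,
        h0mem, δ, hδ, ?_, ?_⟩) step1 (fun s hs w ζ τ hK hmin => ?_)
    · rw [amod_zero, mul_zero]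
    · exact (mul_le_mul_of_nonneg_left hs.2 (by linarith)).trans (hgap 0 h0mem).2
    · exfalso
      obtain ⟨hP, hQ, h2⟩ := min_ineq hn hS hσ hR hH hRM hHM hreg hK hmin
      have h3 : s ^ 2 ≤ bY n Y' 0 ^ 2 := pow_le_pow_left₀ hs.1 hs.2.le 2
      have h4 := mul_le_mul_of_nonneg_left h3 hc0.le
      rw [hbz] at h4
      rw [mul_zero, zero_mul, add_zero] at h2
      linarith
  -- third path
  refine exit_argument hn hS hAI hR hH hRM hHM (aY n Y') (bY n Y') 0 (Real.pi / 2) hpi.le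
    (continuous_const.mul (amod_cont n)).continuousOn
    (continuous_const.mul (bmod_cont n)).continuousOn
    (fun t ht => Or.inr ⟨ha0 t ht, hb0 t ht, t, ht, δ, hδ, hgap t ht⟩)
    (by rw [haz]; exact step2) (fun t ht w ζ τ hK hmin => ?_)
  obtain ⟨hP, hQ, h2⟩ := min_ineq hn hS hσ hR hH hRM hHM hreg hK hmin
  rcases ht.1.eq_or_lt with h3 | h3
  · exfalso
    rw [← h3, hbz, haz, mul_zero, zero_mul, add_zero] at h2
    linarith
  · obtain ⟨a', b', hda, hdb, hneg⟩ := curve_strict n hn Y' Y hY' hYY t ⟨h3, ht.2⟩ _ _ hP hQ h2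
    exact ⟨a', b', hda.hasDerivWithinAt, hdb.hasDerivWithinAt, hneg⟩

theorem core (n : ℕ) (hn : 3 ≤ n) (μ σ : Measure X) (A : Set (X → ℝ)) (D : (X → ℝ) → X → F)
    (hS : IsSob n μ σ A D) (hAI : HasAI n μ σ A D) (hσ : σ univ ≠ 0)
    (R H : X → ℝ) (hR : Measurable R) (hH : Measurable H) (M : ℝ) (hRM : ∀ x, |R x| ≤ M)
    (hHM : ∀ x, |H x| ≤ M) (Y : ℝ) (hY : 0 < Y) (hY1 : Y ≤ Yn n)
    (hreg : RegIneq n μ σ R H A D Y) (u : X → ℝ) (hu : u ∈ A) :
    An n * (Y / Yn n) ^ ((n : ℝ) / ((n : ℝ) + 1)) * PP n μ u ≤ EE n μ σ R H u (D u) u := by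
  have key : ∀ Y' : ℝ, 0 < Y' → Y' < Y →
      An n * (Y' / Yn n) ^ ((n : ℝ) / ((n : ℝ) + 1)) * PP n μ u ≤ EE n μ σ R H u (D u) u := by
    intro Y' hY' hYY
    have h1 := nonneg_reduction_A hn hS hR hH hRM hHM
      (core_aux hn hS hAI hσ hR hH hRM hHM hY hY1 hreg hY' hYY) hu
    unfold aY bY at h1
    rw [amod_pi, bmod_pi, mul_zero, zero_mul, add_zero] at h1
    rw [mul_comm (An n)]
    exact h1
  have hcont : ContinuousAt (fun Y' : ℝ => An n * (Y' / Yn n) ^ ((n : ℝ) / ((n : ℝ) + 1)) *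
      PP n μ u) Y := by
    refine ContinuousAt.mul (continuousAt_const.mul ?_) continuousAt_const
    exact (continuousAt_id.div_const _).rpow_const (Or.inr (by positivity))
  refine le_of_tendsto (hcont.tendsto.mono_left (nhdsWithin_le_nhds (s := Iio Y))) ?_
  filter_upwards [Ioo_mem_nhdsLT hY] with Y' hY'
  exact key Y' hY'.1 hY'.2

end Pool.Agent.CY
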