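import Pool.Agent.CY.Sob

/-!
CY-S2-Curve. The model curve.

`I(t) = ∫_0^t sin^n` is positive for `t > 0`, `I' = sin^n`.  `amod_pi`: `ω_n ∫_0^{π/2} sin^n = ω_{n+1}/2`:
`∫_0^{π/2} sin^n = (√π/2) Γ((n+1)/2)/Γ((n+2)/2)` by induction from `integral_sin_pow` (or Mathlib's Wallis
products / Beta function), `Real.Gamma_add_one`.
-/

set_option autoImplicit false

open scoped ENNReal ContDiff
open MeasureTheory Set Filter Topology

namespace Pool.Agent.CY

theorem om_pos (k : ℕ) : 0 < om k := by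
  unfold om
  have h : (0 : ℝ) < ((k : ℝ) + 1) / 2 := by positivity
  have h1 := Real.Gamma_pos_of_pos h
  have h2 := Real.pi_pos
  positivity

private theorem om_step (k : ℕ) : om (k + 2) = om k * (2 * Real.pi / ((k : ℝ) + 1)) := by
  unfold om
  have h : (0 : ℝ) < ((k : ℝ) + 1) / 2 := by positivity
  have h0 : (0 : ℝ) < (k : ℝ) + 1 := by positivity
  have h1 := Real.Gamma_pos_of_pos h
  have e1 : (((k + 2 : ℕ) : ℝ) + 1) / 2 = ((k : ℝ) + 1) / 2 + 1 := by push_cast; ring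
  rw [e1, Real.Gamma_add_one h.ne', Real.rpow_add_one Real.pi_pos.ne']
  field_simp

private theorem sin_step (n : ℕ) : ∫ s in (0 : ℝ)..(Real.pi / 2), Real.sin s ^ (n + 2) =
    ((n : ℝ) + 1) / ((n : ℝ) + 2) * ∫ s in (0 : ℝ)..(Real.pi / 2), Real.sin s ^ n := by
  rw [integral_sin_pow]
  simp

theorem wallis (n : ℕ) : om n * ∫ s in (0 : ℝ)..(Real.pi / 2), Real.sin s ^ n = om (n + 1) / 2 := by
  induction n using Nat.twoStepInduction with
  | zero =>
    unfold om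
    norm_num
    rw [Real.Gamma_one_half_eq, ← Real.sqrt_eq_rpow]
    have h : Real.sqrt Real.pi ≠ 0 := (Real.sqrt_pos.2 Real.pi_pos).ne'
    field_simp
  | one =>
    unfold om
    have e : ((((1 + 1 : ℕ) : ℝ)) + 1) / 2 = 1 / 2 + 1 := by norm_num
    rw [e, Real.Gamma_add_one (by norm_num), Real.Gamma_one_half_eq,
      Real.rpow_add_one Real.pi_pos.ne', ← Real.sqrt_eq_rpow]
    have h : Real.sqrt Real.pi ≠ 0 := (Real.sqrt_pos.2 Real.pi_pos).ne'
    norm_num
    field_simp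
  | more n ih _ =>
    rw [sin_step, om_step, show n + 2 + 1 = (n + 1) + 2 from rfl, om_step]
    have h1 : (0 : ℝ) < (n : ℝ) + 1 := by positivity
    have h2 : (0 : ℝ) < (n : ℝ) + 2 := by positivity
    have e : om n * (2 * Real.pi / ((n : ℝ) + 1)) *
        (((n : ℝ) + 1) / ((n : ℝ) + 2) * ∫ s in (0 : ℝ)..(Real.pi / 2), Real.sin s ^ n) =
        (om n * ∫ s in (0 : ℝ)..(Real.pi / 2), Real.sin s ^ n) * (2 * Real.pi / ((n : ℝ) + 2)) := by
      field_simp
    rw [e, ih]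
    push_cast
    have e2 : ((n : ℝ) + 1 + 1) = (n : ℝ) + 2 := by ring
    rw [e2]
    ring

theorem amod_pi (n : ℕ) : amod n (Real.pi / 2) = An n := by
  unfold amod An
  rw [wallis]

theorem amod_zero (n : ℕ) : amod n 0 = 0 := by
  unfold amod
  rw [intervalIntegral.integral_same, mul_zero, Real.zero_rpow (by positivity), mul_zero]

theorem bmod_pi (n : ℕ) : bmod n (Real.pi / 2) = 0 := by
  unfold bmod
  rw [Real.cos_pi_div_two, mul_zero]

private theorem I_nonneg (n : ℕ) (t : ℝ) (ht : t ∈ Icc (0 : ℝ) (Real.pi / 2)) :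
    0 ≤ ∫ s in (0 : ℝ)..t, Real.sin s ^ n := by
  apply intervalIntegral.integral_nonneg ht.1
  intro u hu
  exact pow_nonneg (Real.sin_nonneg_of_nonneg_of_le_pi hu.1 (by
    have := Real.pi_pos
    linarith [hu.2, ht.2])) _

private theorem I_pos (n : ℕ) (t : ℝ) (ht : t ∈ Ioc (0 : ℝ) (Real.pi / 2)) :
    0 < ∫ s in (0 : ℝ)..t, Real.sin s ^ n := by
  apply intervalIntegral.intervalIntegral_pos_of_pos_on _ _ ht.1
  · exact (Real.continuous_sin.pow n).intervalIntegrable _ _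
  · intro u hu
    exact pow_pos (Real.sin_pos_of_pos_of_lt_pi hu.1 (by
      have := Real.pi_pos
      linarith [hu.2, ht.2])) _

theorem amod_nonneg (n : ℕ) (t : ℝ) (ht : t ∈ Icc (0 : ℝ) (Real.pi / 2)) : 0 ≤ amod n t := by
  unfold amod
  have := I_nonneg n t ht
  have := om_pos n
  positivity

theorem amod_pos (n : ℕ) (hn : 3 ≤ n) (t : ℝ) (ht : t ∈ Ioc (0 : ℝ) (Real.pi / 2)) : 0 < amod n t := by
  unfold amod
  have := I_pos n t ht
  have := om_pos n
  have : (0 : ℝ) < n := by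
    have : 0 < n := by omega
    exact_mod_cast this
  positivity

theorem bmod_nonneg (n : ℕ) (t : ℝ) (ht : t ∈ Icc (0 : ℝ) (Real.pi / 2)) : 0 ≤ bmod n t := by
  unfold bmod
  have h := Real.cos_nonneg_of_neg_pi_div_two_le_of_le (x := t) (by
    have := Real.pi_pos
    linarith [ht.1]) ht.2
  have := om_pos n
  positivity

theorem amod_cont (n : ℕ) : Continuous (amod n) := by
  unfold amod
  refine continuous_const.mul (Continuous.rpow_const (continuous_const.mul ?_) fun x => Or.inr (by positivity))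
  exact intervalIntegral.continuous_primitive
    (fun a b => (Real.continuous_sin.pow n).intervalIntegrable _ _) 0

theorem bmod_cont (n : ℕ) : Continuous (bmod n) := by
  unfold bmod
  exact continuous_const.mul Real.continuous_cos

/-- `((n-1)/(4n)) bmod² = Y_n cos² t`. -/
theorem bmod_sq (n : ℕ) (hn : 3 ≤ n) (t : ℝ) :
    ((n : ℝ) - 1) / (4 * (n : ℝ)) * bmod n t ^ 2 = Yn n * Real.cos t ^ 2 := by
  unfold bmod Yn
  have h0 : (0 : ℝ) < n := by
    have : 0 < n := by omega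
    exact_mod_cast this
  have e : om n ^ ((2 : ℝ) / (n : ℝ)) = (om n ^ ((1 : ℝ) / (n : ℝ))) ^ 2 := by
    rw [← Real.rpow_natCast, ← Real.rpow_mul (om_pos n).le]
    congr 1
    push_cast
    ring
  rw [e]
  field_simp
  ring

theorem Yn_pos (n : ℕ) (hn : 3 ≤ n) : 0 < Yn n := by
  unfold Yn
  have h0 : (3 : ℝ) ≤ n := by exact_mod_cast hn
  have h1 : (0 : ℝ) < n := by linarith
  have h2 : (0 : ℝ) < (n : ℝ) - 1 := by linarith
  have := om_pos n
  positivity

/-- The derivatives: `a' > 0`, and `-b'/a' = ((n-1) a / ((n+1) Y_n sin² t))^{(n-1)/2}`. -/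
theorem curve_deriv (n : ℕ) (hn : 3 ≤ n) (t : ℝ) (ht : t ∈ Ioo (0 : ℝ) (Real.pi / 2)) :
    ∃ a' b' : ℝ, HasDerivAt (amod n) a' t ∧ HasDerivAt (bmod n) b' t ∧ 0 < a' ∧
      -b' = a' * (((n : ℝ) - 1) * amod n t / (((n : ℝ) + 1) * Yn n * Real.sin t ^ 2)) ^ (((n : ℝ) - 1) / 2) := by
  have h0 : (3 : ℝ) ≤ n := by exact_mod_cast hn
  have h1 : (0 : ℝ) < n := by linarith
  have h2 : (0 : ℝ) < (n : ℝ) - 1 := by linarith
  have h3 : (0 : ℝ) < (n : ℝ) + 1 := by linarith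
  have hom := om_pos n
  have hI := I_pos n t ⟨ht.1, ht.2.le⟩
  have hs : 0 < Real.sin t := Real.sin_pos_of_pos_of_lt_pi ht.1 (by
    have := Real.pi_pos
    linarith [ht.2])
  have hdI : HasDerivAt (fun t => ∫ s in (0 : ℝ)..t, Real.sin s ^ n) (Real.sin t ^ n) t :=
    intervalIntegral.integral_hasDerivAt_right
      ((Real.continuous_sin.pow n).intervalIntegrable _ _)
      ((Real.continuous_sin.pow n).stronglyMeasurableAtFilter _ _)
      (Real.continuous_sin.pow n).continuousAt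
  have hda := (((hdI.const_mul (om n)).rpow_const (p := (2 : ℝ) / ((n : ℝ) + 1))
    (Or.inl (mul_pos hom hI).ne')).const_mul ((n : ℝ) * ((n : ℝ) + 1)))
  have hdb := ((Real.hasDerivAt_cos t).const_mul (2 * (n : ℝ) * om n ^ ((1 : ℝ) / (n : ℝ))))
  refine ⟨_, _, hda, hdb, ?_, ?_⟩
  · positivity
  · unfold amod Yn
    set I := ∫ s in (0 : ℝ)..t, Real.sin s ^ n with hIdef
    set S := Real.sin t with hSdef
    have e1 : ((n : ℝ) - 1) * ((n : ℝ) * ((n : ℝ) + 1) * (om n * I) ^ ((2 : ℝ) / ((n : ℝ) + 1))) /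
        (((n : ℝ) + 1) * ((n : ℝ) * ((n : ℝ) - 1) * om n ^ ((2 : ℝ) / (n : ℝ))) * S ^ 2) =
        (om n * I) ^ ((2 : ℝ) / ((n : ℝ) + 1)) / (om n ^ ((2 : ℝ) / (n : ℝ)) * S ^ 2) := by
      have h4 : om n ^ ((2 : ℝ) / (n : ℝ)) ≠ 0 := (Real.rpow_pos_of_pos hom _).ne'
      field_simp
    rw [e1, Real.div_rpow (by positivity) (by positivity),
      Real.mul_rpow (x := om n ^ ((2 : ℝ) / (n : ℝ))) (y := S ^ 2) (by positivity) (by positivity),
      ← Real.rpow_mul (mul_pos hom hI).le, ← Real.rpow_mul hom.le, ← Real.rpow_natCast S 2,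
      ← Real.rpow_mul hs.le]
    have e2 : (2 : ℝ) / ((n : ℝ) + 1) * (((n : ℝ) - 1) / 2) = ((n : ℝ) - 1) / ((n : ℝ) + 1) := by
      field_simp
    have e3 : (2 : ℝ) / (n : ℝ) * (((n : ℝ) - 1) / 2) = ((n : ℝ) - 1) / (n : ℝ) := by
      field_simp
    have e4 : ((2 : ℕ) : ℝ) * (((n : ℝ) - 1) / 2) = (n : ℝ) - 1 := by
      push_cast; ring
    have e5 : (2 : ℝ) / ((n : ℝ) + 1) - 1 = -(((n : ℝ) - 1) / ((n : ℝ) + 1)) := by
      field_simp
      ring
    rw [e2, e3, e4, e5, Real.rpow_neg (mul_pos hom hI).le]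
    have e6 : om n ^ ((1 : ℝ) / (n : ℝ)) * om n ^ (((n : ℝ) - 1) / (n : ℝ)) = om n := by
      rw [← Real.rpow_add hom]
      have : (1 : ℝ) / (n : ℝ) + ((n : ℝ) - 1) / (n : ℝ) = 1 := by field_simp; ring
      rw [this, Real.rpow_one]
    have e7 : S ^ n = S * S ^ ((n : ℝ) - 1) := by
      rw [Real.rpow_sub_one hs.ne', Real.rpow_natCast]
      field_simp
    rw [e7]
    have p1 : (0 : ℝ) < (om n * I) ^ (((n : ℝ) - 1) / ((n : ℝ) + 1)) :=
      Real.rpow_pos_of_pos (mul_pos hom hI) _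
    have p2 : (0 : ℝ) < om n ^ (((n : ℝ) - 1) / (n : ℝ)) := Real.rpow_pos_of_pos hom _
    have p3 : (0 : ℝ) < S ^ ((n : ℝ) - 1) := Real.rpow_pos_of_pos hs _
    set P := (om n * I) ^ (((n : ℝ) - 1) / ((n : ℝ) + 1))
    set Q := om n ^ (((n : ℝ) - 1) / (n : ℝ))
    set T := S ^ ((n : ℝ) - 1)
    set L := om n ^ ((1 : ℝ) / (n : ℝ))
    rw [← e6]
    field_simp

end Pool.Agent.CY
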