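import Mathlib

/-!
CY-S2-Deriv. The derivative of `t ↦ (∫ |w + t φ|^r)^{2/r}` at `t = 0`, for `w ≥ 0`.

`x ↦ |x|^r` is `C^1` for `r > 1`, with derivative `r |x|^{r-1} sign x`.  Differentiation under the integral
sign for `|t| ≤ 1`: `||w + tφ|^r - |w|^r| ≤ |t| r (|w| + |φ|)^{r-1} |φ|`, integrable.  At `w ≥ 0` a.e. the
derivative is `r ∫ |w|^{r-1} φ` (where `w = 0` the integrand is `0` since `r > 1`).  If `∫ |w|^r > 0`, chain
rule for the power `2/r`.  If `∫ |w|^r = 0`, then `w = 0` a.e., the function is `t² (∫|φ|^r)^{2/r}`, with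
derivative `0`, and `0 ^ (2/r - 1) = 0` in Lean as `2/r - 1 ≠ 0`.
-/

set_option autoImplicit false

open scoped ENNReal ContDiff
open MeasureTheory Set Filter Topology

namespace Pool.Agent.CY

variable {Z : Type} [MeasurableSpace Z]

private theorem int_rpow (ν : Measure Z) (r : ℝ) (hr : 2 < r) (w : Z → ℝ)
    (hw : MemLp w (ENNReal.ofReal r) ν) : Integrable (fun x => |w x| ^ r) ν := by
  have h := hw.integrable_norm_rpow (by simpa using (by linarith : (0 : ℝ) < r)) ENNReal.ofReal_ne_top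
  simpa only [ENNReal.toReal_ofReal (by linarith : (0 : ℝ) ≤ r), Real.norm_eq_abs] using h

private theorem abs_pow_mul (y : ℝ) (r : ℝ) (hr : 2 < r) : |y| ^ (r - 2) * |y| = |y| ^ (r - 1) := by
  rcases eq_or_lt_of_le (abs_nonneg y) with h | h
  · rw [← h, mul_zero, Real.zero_rpow (by linarith)]
  · rw [← Real.rpow_add_one h.ne']
    congr 1; ring

private theorem deriv_int (ν : Measure Z) (r : ℝ) (hr : 2 < r) (w φ : Z → ℝ)
    (hw : MemLp w (ENNReal.ofReal r) ν) (hφ : MemLp φ (ENNReal.ofReal r) ν) (h0 : ∀ᵐ x ∂ν, 0 ≤ w x) :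
    HasDerivAt (fun t : ℝ => ∫ x, |w x + t * φ x| ^ r ∂ν) (r * ∫ x, |w x| ^ (r - 1) * φ x ∂ν) 0 := by
  have hB : MemLp (fun x => |w x| + |φ x|) (ENNReal.ofReal r) ν := hw.abs.add hφ.abs
  have hBi : Integrable (fun x => (|w x| + |φ x|) ^ r) ν := by
    have h := int_rpow ν r hr _ hB
    refine h.congr (Filter.Eventually.of_forall fun x => ?_)
    change |(|w x| + |φ x|)| ^ r = (|w x| + |φ x|) ^ r
    rw [abs_of_nonneg (by positivity)]
  have hmeas : ∀ t : ℝ, AEStronglyMeasurable (fun x => w x + t * φ x) ν := fun t =>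
    hw.1.add (hφ.1.const_mul t)
  have habsm : ∀ (t q : ℝ), 0 ≤ q → AEStronglyMeasurable (fun x => |w x + t * φ x| ^ q) ν := fun t q hq =>
    ((Real.continuous_rpow_const hq).comp continuous_abs).comp_aestronglyMeasurable (hmeas t)
  have key := hasDerivAt_integral_of_dominated_loc_of_deriv_le (μ := ν) (𝕜 := ℝ)
    (F := fun (t : ℝ) x => |w x + t * φ x| ^ r)
    (F' := fun (t : ℝ) x => r * |w x + t * φ x| ^ (r - 2) * (w x + t * φ x) * φ x)
    (x₀ := (0 : ℝ)) (s := Metric.ball (0 : ℝ) 1)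
    (bound := fun x => r * (|w x| + |φ x|) ^ r)
    (Metric.ball_mem_nhds 0 one_pos)
    (Filter.Eventually.of_forall fun t => habsm t r (by linarith))
    (by
      have h := int_rpow ν r hr w hw
      refine h.congr (Filter.Eventually.of_forall fun x => ?_)
      simp)
    (by
      refine ((((habsm 0 (r - 2) (by linarith)).const_mul r).mul (hmeas 0)).mul hφ.1))
    (Filter.Eventually.of_forall fun x t ht => by
      have ht1 : |t| ≤ 1 := by
        have := mem_ball_zero_iff.mp ht
        rw [Real.norm_eq_abs] at this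
        exact this.le
      have hy : |w x + t * φ x| ≤ |w x| + |φ x| := by
        calc |w x + t * φ x| ≤ |w x| + |t * φ x| := abs_add_le _ _
          _ = |w x| + |t| * |φ x| := by rw [abs_mul]
          _ ≤ |w x| + 1 * |φ x| := by gcongr
          _ = |w x| + |φ x| := by ring
      have hb0 : 0 ≤ |w x| + |φ x| := by positivity
      rw [norm_mul, norm_mul, norm_mul, Real.norm_of_nonneg (by linarith : (0 : ℝ) ≤ r),
        Real.norm_of_nonneg (Real.rpow_nonneg (abs_nonneg _) _), Real.norm_eq_abs, Real.norm_eq_abs,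
        mul_assoc r, abs_pow_mul _ r hr, mul_assoc]
      refine mul_le_mul_of_nonneg_left ?_ (by linarith)
      calc |w x + t * φ x| ^ (r - 1) * |φ x|
          ≤ (|w x| + |φ x|) ^ (r - 1) * (|w x| + |φ x|) := by
            refine mul_le_mul (Real.rpow_le_rpow (abs_nonneg _) hy (by linarith))
              (by linarith [abs_nonneg (w x)]) (abs_nonneg _) (Real.rpow_nonneg hb0 _)
        _ = (|w x| + |φ x|) ^ r := by
            rcases eq_or_lt_of_le hb0 with h | h
            · rw [← h, mul_zero, Real.zero_rpow (by linarith)]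
            · rw [← Real.rpow_add_one h.ne']
              congr 1; ring)
    (hBi.const_mul r)
    (Filter.Eventually.of_forall fun x t _ => by
      have h1 : HasDerivAt (fun t : ℝ => w x + t * φ x) (φ x) t := by
        simpa using ((hasDerivAt_id t).mul_const (φ x)).const_add (w x)
      have h2 := (hasDerivAt_abs_rpow (w x + t * φ x) (p := r) (by linarith)).comp t h1
      exact h2)
  refine key.2.congr_deriv ?_
  rw [← integral_const_mul]
  refine integral_congr_ae ?_
  filter_upwards [h0] with x hx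
  simp only [zero_mul, add_zero]
  have h3 : |w x| ^ (r - 2) * w x = |w x| ^ (r - 1) := by
    have h4 := abs_pow_mul (w x) r hr
    rwa [abs_of_nonneg hx] at h4 ⊢
  calc r * |w x| ^ (r - 2) * w x * φ x = r * (|w x| ^ (r - 2) * w x) * φ x := by ring
    _ = r * (|w x| ^ (r - 1) * φ x) := by rw [h3]; ring

theorem hasDerivAt_norm_sq (ν : Measure Z) (r : ℝ) (hr : 2 < r) (w φ : Z → ℝ)
    (hw : MemLp w (ENNReal.ofReal r) ν) (hφ : MemLp φ (ENNReal.ofReal r) ν) (h0 : ∀ᵐ x ∂ν, 0 ≤ w x) :
    HasDerivAt (fun t : ℝ => (∫ x, |w x + t * φ x| ^ r ∂ν) ^ (2 / r))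
      (2 * ((∫ x, |w x| ^ r ∂ν) ^ (2 / r - 1) * ∫ x, |w x| ^ (r - 1) * φ x ∂ν)) 0 := by
  have hI0 : 0 ≤ ∫ x, |w x| ^ r ∂ν := integral_nonneg fun x => Real.rpow_nonneg (abs_nonneg _) _
  have hd := deriv_int ν r hr w φ hw hφ h0
  rcases eq_or_lt_of_le hI0 with h | h
  · -- degenerate case
    have hw0 : ∀ᵐ x ∂ν, w x = 0 := by
      have h1 := (integral_eq_zero_iff_of_nonneg (μ := ν) (f := fun x => |w x| ^ r)
        (fun x => Real.rpow_nonneg (abs_nonneg _) _) (int_rpow ν r hr w hw)).mp h.symm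
      filter_upwards [h1] with x hx
      have hx' : |w x| ^ r = 0 := hx
      rw [Real.rpow_eq_zero (abs_nonneg _) (by linarith)] at hx'
      exact abs_eq_zero.mp hx'
    have hfun : (fun t : ℝ => (∫ x, |w x + t * φ x| ^ r ∂ν) ^ (2 / r)) =
        fun t : ℝ => t ^ 2 * (∫ x, |φ x| ^ r ∂ν) ^ (2 / r) := by
      funext t
      have h1 : ∫ x, |w x + t * φ x| ^ r ∂ν = |t| ^ r * ∫ x, |φ x| ^ r ∂ν := by
        rw [← integral_const_mul]
        refine integral_congr_ae ?_
        filter_upwards [hw0] with x hx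
        rw [hx, zero_add, abs_mul, Real.mul_rpow (abs_nonneg _) (abs_nonneg _)]
      rw [h1, Real.mul_rpow (Real.rpow_nonneg (abs_nonneg _) _)
        (integral_nonneg fun x => Real.rpow_nonneg (abs_nonneg _) _), ← Real.rpow_mul (abs_nonneg _)]
      have h2 : r * (2 / r) = ((2 : ℕ) : ℝ) := by
        have : r ≠ 0 := by linarith
        push_cast
        field_simp
      rw [h2, Real.rpow_natCast, sq_abs]
    rw [hfun, ← h]
    have hne : 2 / r - 1 ≠ 0 := by
      have : 2 / r < 1 := by rw [div_lt_one (by linarith)]; exact hr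
      linarith
    rw [Real.zero_rpow hne, zero_mul, mul_zero]
    have h5 := ((hasDerivAt_pow 2 (0 : ℝ)).mul_const ((∫ x, |φ x| ^ r ∂ν) ^ (2 / r)))
    simpa using h5
  · have hne : (∫ x, |w x + (0 : ℝ) * φ x| ^ r ∂ν) ≠ 0 := by
      simp only [zero_mul, add_zero]; exact h.ne'
    have h1 := hd.rpow_const (p := 2 / r) (Or.inl hne)
    refine h1.congr_deriv ?_
    simp only [zero_mul, add_zero]
    have : r ≠ 0 := by linarith
    field_simp

end Pool.Agent.CY
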