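import Pool.Agent.CY.S2.Compact
import Pool.Agent.CY.S2.Deriv

/-!
CY-S2-Euler. The Euler-Lagrange equation of a minimiser.

`J(t) = E(w + tφ) - a P(w + tφ) - b Q(τ + tφ) ≥ 0 = J(0)` for `φ ∈ A` (`nonneg_reduction` for
`(w + tφ, ζ + t Dφ, τ + tφ) ∈ H^1`), and `J` is differentiable at `0` (`hasDerivAt_norm_sq`; `E` is a
quadratic polynomial in `t`), so `J'(0) = 0`.  Divide by 2.
-/

set_option autoImplicit false

open scoped ENNReal ContDiff
open MeasureTheory Set Filter Topology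

namespace Pool.Agent.CY

variable {X : Type} [TopologicalSpace X] [CompactSpace X] [MeasurableSpace X] [BorelSpace X]
  {F : Type} [NormedAddCommGroup F] [InnerProductSpace ℝ F] [FiniteDimensional ℝ F]
  {n : ℕ} {μ σ : Measure X} {A : Set (X → ℝ)} {D : (X → ℝ) → X → F}

private theorem eu_mul {Z : Type} [MeasurableSpace Z] {ν : Measure Z} {R f g : Z → ℝ}
    (hR : Measurable R) {M : ℝ} (hRM : ∀ x, |R x| ≤ M) (hf : MemLp f 2 ν) (hg : MemLp g 2 ν) :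
    Integrable (fun x => R x * (f x * g x)) ν := by
  have h1 : Integrable (fun x => f x * g x) ν := hf.integrable_mul hg
  exact h1.bdd_mul hR.aestronglyMeasurable (Eventually.of_forall fun x => by simpa using hRM x)

/-- `∫ R (f + t g)²` as a polynomial in `t` -/
private theorem eu_quad {Z : Type} [MeasurableSpace Z] {ν : Measure Z} {R f g : Z → ℝ}
    (hR : Measurable R) {M : ℝ} (hRM : ∀ x, |R x| ≤ M) (hf : MemLp f 2 ν) (hg : MemLp g 2 ν)
    (t : ℝ) :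
    ∫ x, R x * (f x + t * g x) ^ 2 ∂ν = ∫ x, R x * (f x * f x) ∂ν +
      t * (2 * ∫ x, R x * f x * g x ∂ν) + t ^ 2 * ∫ x, R x * (g x * g x) ∂ν := by
  have i1 := eu_mul hR hRM hf hf
  have i2 : Integrable (fun x => R x * f x * g x) ν :=
    (eu_mul hR hRM hf hg).congr (Eventually.of_forall fun x => by ring)
  have i3 := eu_mul hR hRM hg hg
  have e : ∀ x, R x * (f x + t * g x) ^ 2 = (R x * (f x * f x) + (t * 2) * (R x * f x * g x)) +
      t ^ 2 * (R x * (g x * g x)) := fun x => by ring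
  have i4 : Integrable (fun x => R x * (f x * f x) + (t * 2) * (R x * f x * g x)) ν :=
    i1.add (i2.const_mul _)
  calc ∫ x, R x * (f x + t * g x) ^ 2 ∂ν
      = ∫ x, ((R x * (f x * f x) + (t * 2) * (R x * f x * g x)) + t ^ 2 * (R x * (g x * g x))) ∂ν := by
        simp_rw [e]
    _ = _ := by
        rw [integral_add i4 (i3.const_mul _), integral_add i1 (i2.const_mul _), integral_const_mul,
          integral_const_mul]
        ring

private theorem eu_inner {Z : Type} [MeasurableSpace Z] {F : Type} [NormedAddCommGroup F]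
    [InnerProductSpace ℝ F] {ν : Measure Z} {f g : Z → F} (hf : MemLp f 2 ν) (hg : MemLp g 2 ν) :
    Integrable (fun x => inner ℝ (f x) (g x)) ν := by
  have h1 := hf.norm
  have h2 := hg.norm
  have h3 : Integrable (fun x => ‖f x‖ * ‖g x‖) ν := h1.integrable_mul h2
  exact h3.mono (hf.1.inner hg.1) (Eventually.of_forall fun x => by
    rw [Real.norm_eq_abs, Real.norm_eq_abs, abs_of_nonneg (by positivity : (0:ℝ) ≤ ‖f x‖ * ‖g x‖)]
    exact abs_real_inner_le_norm _ _)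

private theorem eu_dd {Z : Type} [MeasurableSpace Z] {F : Type} [NormedAddCommGroup F]
    [InnerProductSpace ℝ F] {ν : Measure Z} {f g : Z → F} (hf : MemLp f 2 ν) (hg : MemLp g 2 ν)
    (t : ℝ) :
    ∫ x, ‖f x + t • g x‖ ^ 2 ∂ν = ∫ x, ‖f x‖ ^ 2 ∂ν +
      t * (2 * ∫ x, inner ℝ (f x) (g x) ∂ν) + t ^ 2 * ∫ x, ‖g x‖ ^ 2 ∂ν := by
  have i1 : Integrable (fun x => ‖f x‖ ^ 2) ν := (memLp_two_iff_integrable_sq_norm hf.1).1 hf
  have i3 : Integrable (fun x => ‖g x‖ ^ 2) ν := (memLp_two_iff_integrable_sq_norm hg.1).1 hg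
  have i2 := eu_inner hf hg
  have e : ∀ x, ‖f x + t • g x‖ ^ 2 = (‖f x‖ ^ 2 + (t * 2) * inner ℝ (f x) (g x)) +
      t ^ 2 * ‖g x‖ ^ 2 := fun x => by
    rw [norm_add_sq_real, inner_smul_right, norm_smul, mul_pow, Real.norm_eq_abs, sq_abs]
    ring
  have i4 : Integrable (fun x => ‖f x‖ ^ 2 + (t * 2) * inner ℝ (f x) (g x)) ν :=
    i1.add (i2.const_mul _)
  calc ∫ x, ‖f x + t • g x‖ ^ 2 ∂ν
      = ∫ x, ((‖f x‖ ^ 2 + (t * 2) * inner ℝ (f x) (g x)) + t ^ 2 * ‖g x‖ ^ 2) ∂ν := by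
        simp_rw [e]
    _ = _ := by
        rw [integral_add i4 (i3.const_mul _), integral_add i1 (i2.const_mul _), integral_const_mul,
          integral_const_mul]
        ring

private theorem eu_poly (a b c : ℝ) : HasDerivAt (fun t : ℝ => a + t * b + t ^ 2 * c) b 0 := by
  have h1 : HasDerivAt (fun t : ℝ => t * b) (1 * b) 0 := (hasDerivAt_id (0 : ℝ)).mul_const b
  have h2 : HasDerivAt (fun t : ℝ => t ^ 2 * c) (((2 : ℕ) * (0 : ℝ) ^ (2 - 1)) * c) 0 :=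
    (hasDerivAt_pow 2 (0 : ℝ)).mul_const c
  have h3 : HasDerivAt (fun t : ℝ => a + t * b + t ^ 2 * c)
      (1 * b + ((2 : ℕ) * (0 : ℝ) ^ (2 - 1)) * c) 0 := (h1.const_add a).add h2
  have e : (1 * b + ((2 : ℕ) * (0 : ℝ) ^ (2 - 1)) * c) = b := by simp
  rwa [e] at h3

theorem euler (hn : 3 ≤ n) (hS : IsSob n μ σ A D) {R H : X → ℝ} (hR : Measurable R)
    (hH : Measurable H) {M : ℝ} (hRM : ∀ x, |R x| ≤ M) (hHM : ∀ x, |H x| ≤ M)
    {a b : ℝ} (hK : InK n μ σ R H A D a b) {w τ : X → ℝ} {ζ : X → F} (h : IsMin n μ σ R H A D a b w ζ τ) :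
    WeakEq n μ σ R H A D (a * (∫ x, |w x| ^ pp n ∂μ) ^ (2 / pp n - 1))
      (b * (∫ x, |τ x| ^ qq n ∂σ) ^ (2 / qq n - 1)) w ζ τ := by
  intro φ hφ
  obtain ⟨mw, mt⟩ := h.inH.memLp hn hS
  have cφ := hS.cont φ hφ
  have mφ : ∀ r : ℝ≥0∞, MemLp φ r μ := fun r => memLp_of_continuous μ hS.fin_μ φ cφ r
  have mφσ : ∀ r : ℝ≥0∞, MemLp φ r σ := fun r => memLp_of_continuous σ hS.fin_σ φ cφ r
  have hIφ := InH.of_mem hS hφ
  have mDφ : MemLp (D φ) 2 μ := hIφ.memz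
  have w2 : MemLp w 2 μ := h.inH.memw
  have t2 : MemLp τ 2 σ := h.inH.memt
  have z2 : MemLp ζ 2 μ := h.inH.memz
  -- derivatives
  have dP := hasDerivAt_norm_sq μ (pp n) (pp_facts hn).1 w φ mw (mφ _) h.nonneg_w
  have dQ := hasDerivAt_norm_sq σ (qq n) (qq_facts hn).1 τ φ mt (mφσ _) h.nonneg_t
  have dE1 := eu_poly (∫ x, ‖ζ x‖ ^ 2 ∂μ) (2 * ∫ x, inner ℝ (ζ x) (D φ x) ∂μ) (∫ x, ‖D φ x‖ ^ 2 ∂μ)
  have dE2 := eu_poly (∫ x, R x * (w x * w x) ∂μ) (2 * ∫ x, R x * w x * φ x ∂μ)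
    (∫ x, R x * (φ x * φ x) ∂μ)
  have dE3 := eu_poly (∫ x, H x * (τ x * τ x) ∂σ) (2 * ∫ x, H x * τ x * φ x ∂σ)
    (∫ x, H x * (φ x * φ x) ∂σ)
  have dE : HasDerivAt (fun t : ℝ => EE n μ σ R H (fun x => w x + t * φ x)
      (fun x => ζ x + t • D φ x) (fun x => τ x + t * φ x))
      (cn n * (2 * ∫ x, inner ℝ (ζ x) (D φ x) ∂μ) + 2 * ∫ x, R x * w x * φ x ∂μ +
        2 * (2 * ∫ x, H x * τ x * φ x ∂σ)) 0 := by
    have h1 := ((dE1.const_mul (cn n)).add dE2).add (dE3.const_mul 2)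
    refine h1.congr_of_eventuallyEq (Eventually.of_forall fun t => ?_)
    show cn n * ∫ x, ‖ζ x + t • D φ x‖ ^ 2 ∂μ + ∫ x, R x * (w x + t * φ x) ^ 2 ∂μ +
      2 * ∫ x, H x * (τ x + t * φ x) ^ 2 ∂σ = _
    rw [eu_dd z2 mDφ t, eu_quad hR hRM w2 (mφ 2) t, eu_quad hH hHM t2 (mφσ 2) t]
    rfl
  have dJ := (dE.sub (dP.const_mul a)).sub (dQ.const_mul b)
  -- minimum
  have hmin : IsLocalMin (fun t : ℝ => EE n μ σ R H (fun x => w x + t * φ x)
      (fun x => ζ x + t • D φ x) (fun x => τ x + t * φ x) -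
      a * (∫ x, |w x + t * φ x| ^ pp n ∂μ) ^ (2 / pp n) -
      b * (∫ x, |τ x + t * φ x| ^ qq n ∂σ) ^ (2 / qq n)) 0 := by
    refine Eventually.of_forall fun t => ?_
    have h1 : InH μ σ A D (fun x => w x + t * φ x) (fun x => ζ x + t • D φ x)
        (fun x => τ x + t * φ x) := InH.add hS h.inH (InH.smul hS t hIφ)
    have h2 := nonneg_reduction hn hS hR hH hRM hHM hK h1
    have h3 := h.eq
    unfold PP QQ at h2 h3
    have e0 : EE n μ σ R H (fun x => w x + 0 * φ x) (fun x => ζ x + (0 : ℝ) • D φ x)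
        (fun x => τ x + 0 * φ x) = EE n μ σ R H w ζ τ := by
      simp only [zero_mul, add_zero, zero_smul]
    show EE n μ σ R H (fun x => w x + 0 * φ x) (fun x => ζ x + (0 : ℝ) • D φ x)
        (fun x => τ x + 0 * φ x) - a * (∫ x, |w x + 0 * φ x| ^ pp n ∂μ) ^ (2 / pp n) -
        b * (∫ x, |τ x + 0 * φ x| ^ qq n ∂σ) ^ (2 / qq n) ≤ _
    rw [e0, h3]
    simp only [zero_mul, add_zero]
    linarith
  have hz := hmin.hasDerivAt_eq_zero dJ
  linarith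

end Pool.Agent.CY
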