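import Pool.Agent.CY.S2.Compact

/-!
CY-S2-Exit. The exit argument along a path of pairs.

Proof. Let `T` be the set of `s ∈ [s0, s1]` such that `(a, b)(s')` is admissible for all `s' ∈ [s0, s]`, and
`s* = sup T`; `s* ∈ T` by `InK.closed` and continuity.  If `s* < s1`, there are `s_k ↓ s*` (`s_k > s*`) with
`(a, b)(s_k)` not admissible: `u_k ∈ A` nonnegative with `E(u_k) < a(s_k) P(u_k) + b(s_k) Q(u_k)`; then
`u_k ≠ 0`, more precisely `DD (D u_k) + ∫ u_k² > 0` (otherwise `P(u_k) = Q(u_k) = 0` by `hS.sob`, and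
`E(u_k) = 0` by trace interpolation), so after multiplication by a constant the norm is `1` (everything is
homogeneous of degree 2).  `compactness` gives a minimiser `(w, ζ, τ)` at `s*`.  Since `(a, b)(s*)` is
admissible, `(a(s_k) - a(s*)) P(u_k) + (b(s_k) - b(s*)) Q(u_k) > 0`; divide by `s_k - s*` and let `k → ∞`:
`a' P(w) + b' Q(τ) ≥ 0`, contradiction to `hder`.
-/

set_option autoImplicit false

open scoped ENNReal ContDiff
open MeasureTheory Set Filter Topology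

namespace Pool.Agent.CY

variable {X : Type} [TopologicalSpace X] [CompactSpace X] [MeasurableSpace X] [BorelSpace X]
  {F : Type} [NormedAddCommGroup F] [InnerProductSpace ℝ F] [FiniteDimensional ℝ F]
  {n : ℕ} {μ σ : Measure X} {A : Set (X → ℝ)} {D : (X → ℝ) → X → F}

omit [TopologicalSpace X] [CompactSpace X] [BorelSpace X] [FiniteDimensional ℝ F] in
private theorem DD_smul' (c : ℝ) (ζ : X → F) : DD μ (c • ζ) = c ^ 2 * DD μ ζ := by
  unfold DD
  rw [← integral_const_mul]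
  refine integral_congr_ae (Filter.Eventually.of_forall fun x => ?_)
  change ‖c • ζ x‖ ^ 2 = c ^ 2 * ‖ζ x‖ ^ 2
  rw [norm_smul, mul_pow, Real.norm_eq_abs, sq_abs]

omit [TopologicalSpace X] [CompactSpace X] [BorelSpace X] [FiniteDimensional ℝ F] in
private theorem EE_smul' {R H : X → ℝ} (c : ℝ) (w τ : X → ℝ) (ζ : X → F) :
    EE n μ σ R H (fun x => c * w x) (c • ζ) (fun x => c * τ x) = c ^ 2 * EE n μ σ R H w ζ τ := by
  unfold EE
  rw [DD_smul']
  have h1 : ∫ x, R x * (c * w x) ^ 2 ∂μ = c ^ 2 * ∫ x, R x * w x ^ 2 ∂μ := by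
    rw [← integral_const_mul]
    refine integral_congr_ae (Filter.Eventually.of_forall fun x => ?_)
    change R x * (c * w x) ^ 2 = c ^ 2 * (R x * w x ^ 2)
    ring
  have h2 : ∫ x, H x * (c * τ x) ^ 2 ∂σ = c ^ 2 * ∫ x, H x * τ x ^ 2 ∂σ := by
    rw [← integral_const_mul]
    refine integral_congr_ae (Filter.Eventually.of_forall fun x => ?_)
    change H x * (c * τ x) ^ 2 = c ^ 2 * (H x * τ x ^ 2)
    ring
  rw [h1, h2]
  ring

omit [TopologicalSpace X] [CompactSpace X] [BorelSpace X] in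
private theorem abs_int_le {ν : Measure X} {R : X → ℝ} {M : ℝ} (hRM : ∀ x, |R x| ≤ M) {w : X → ℝ}
    (hw : Integrable (fun x => w x ^ 2) ν) :
    |∫ x, R x * w x ^ 2 ∂ν| ≤ M * ∫ x, w x ^ 2 ∂ν := by
  rw [← integral_const_mul, ← Real.norm_eq_abs]
  refine norm_integral_le_of_norm_le (hw.const_mul M) (Filter.Eventually.of_forall fun x => ?_)
  rw [norm_mul, Real.norm_eq_abs, Real.norm_eq_abs, abs_of_nonneg (sq_nonneg (w x))]
  exact mul_le_mul_of_nonneg_right (hRM x) (sq_nonneg _)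

/-- a nonnegative violator can be normalised -/
private theorem normalise (hn : 3 ≤ n) (hS : IsSob n μ σ A D) {R H : X → ℝ} {M : ℝ}
    (hRM : ∀ x, |R x| ≤ M) (hHM : ∀ x, |H x| ≤ M) {a b : ℝ} (h : ¬ InK n μ σ R H A D a b) :
    ∃ v ∈ A, (∀ x, 0 ≤ v x) ∧ DD μ (D v) + ∫ x, v x ^ 2 ∂μ = 1 ∧
      EE n μ σ R H v (D v) v < a * PP n μ v + b * QQ n σ v := by
  unfold InK at h
  push Not at h
  obtain ⟨u, hu, hu0, hlt⟩ := h
  have hI0 : 0 ≤ ∫ x, u x ^ 2 ∂μ := integral_nonneg fun x => sq_nonneg _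
  have hD0 : 0 ≤ DD μ (D u) := DD_nonneg _
  have hN : 0 < DD μ (D u) + ∫ x, u x ^ 2 ∂μ := by
    rcases (add_nonneg hD0 hI0).lt_or_eq with h1 | h1
    · exact h1
    · exfalso
      have hD : DD μ (D u) = 0 := by linarith
      have hI : ∫ x, u x ^ 2 ∂μ = 0 := by linarith
      obtain ⟨C, hC⟩ := hS.sob
      have h2 := hC u hu
      rw [← h1, mul_zero] at h2
      have hP : PP n μ u = 0 := by linarith [PP_nonneg (n := n) (μ := μ) u, QQ_nonneg (n := n) (σ := σ) u]
      have hQ : QQ n σ u = 0 := by linarith [PP_nonneg (n := n) (μ := μ) u, QQ_nonneg (n := n) (σ := σ) u]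
      have hσ0 : 0 ≤ ∫ x, u x ^ 2 ∂σ := integral_nonneg fun x => sq_nonneg _
      obtain ⟨C', hC'⟩ := hS.tr 1 one_pos
      have h3 := hC' u hu
      rw [hD, hI, mul_zero, mul_zero, add_zero] at h3
      have hσ : ∫ x, u x ^ 2 ∂σ = 0 := le_antisymm h3 hσ0
      have h4 := abs_int_le (ν := μ) hRM
        (memLp_of_continuous μ hS.fin_μ _ (hS.cont _ hu) 2).integrable_sq
      have h5 := abs_int_le (ν := σ) hHM
        (memLp_of_continuous σ hS.fin_σ _ (hS.cont _ hu) 2).integrable_sq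
      rw [hI, mul_zero] at h4
      rw [hσ, mul_zero] at h5
      have h6 : ∫ x, R x * u x ^ 2 ∂μ = 0 := abs_eq_zero.1 (le_antisymm h4 (abs_nonneg _))
      have h7 : ∫ x, H x * u x ^ 2 ∂σ = 0 := abs_eq_zero.1 (le_antisymm h5 (abs_nonneg _))
      have h8 : EE n μ σ R H u (D u) u = 0 := by
        unfold EE
        rw [hD, h6, h7]
        ring
      rw [h8, hP, hQ] at hlt
      simp at hlt
  set N := DD μ (D u) + ∫ x, u x ^ 2 ∂μ with hNdef
  set c := (Real.sqrt N)⁻¹ with hc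
  have hs : 0 < Real.sqrt N := Real.sqrt_pos.2 hN
  have hc0 : 0 < c := inv_pos.2 hs
  have hc2 : c ^ 2 * N = 1 := by
    rw [hc, inv_pow, Real.sq_sqrt hN.le, inv_mul_cancel₀ hN.ne']
  refine ⟨fun x => c * u x, hS.smul c u hu, fun x => mul_nonneg hc0.le (hu0 x), ?_, ?_⟩
  · rw [hS.D_smul c u hu, DD_smul']
    have h1 : ∫ x, (c * u x) ^ 2 ∂μ = c ^ 2 * ∫ x, u x ^ 2 ∂μ := by
      rw [← integral_const_mul]
      refine integral_congr_ae (Filter.Eventually.of_forall fun x => ?_)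
      change (c * u x) ^ 2 = c ^ 2 * u x ^ 2
      ring
    rw [h1, ← mul_add, ← hNdef, hc2]
  · rw [hS.D_smul c u hu, EE_smul', PP_smul hn, QQ_smul hn]
    have h1 := mul_lt_mul_of_pos_left hlt (pow_pos hc0 2)
    linarith

theorem exit_argument (hn : 3 ≤ n) (hS : IsSob n μ σ A D) (hAI : HasAI n μ σ A D) {R H : X → ℝ}
    (hR : Measurable R) (hH : Measurable H) {M : ℝ} (hRM : ∀ x, |R x| ≤ M) (hHM : ∀ x, |H x| ≤ M)
    (a b : ℝ → ℝ) (s0 s1 : ℝ) (h01 : s0 ≤ s1) (ha : ContinuousOn a (Icc s0 s1))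
    (hb : ContinuousOn b (Icc s0 s1)) (hsub : ∀ s ∈ Icc s0 s1, Sub n (a s) (b s))
    (h0 : InK n μ σ R H A D (a s0) (b s0))
    (hder : ∀ s ∈ Ico s0 s1, ∀ (w : X → ℝ) (ζ : X → F) (τ : X → ℝ), InK n μ σ R H A D (a s) (b s) →
      IsMin n μ σ R H A D (a s) (b s) w ζ τ → ∃ a' b' : ℝ, HasDerivWithinAt a a' (Ici s) s ∧
        HasDerivWithinAt b b' (Ici s) s ∧ a' * PP n μ w + b' * QQ n σ τ < 0) :
    InK n μ σ R H A D (a s1) (b s1) := by
  classical
  by_contra hcon
  set N : Set ℝ := {s | s ∈ Icc s0 s1 ∧ ¬ InK n μ σ R H A D (a s) (b s)} with hNdef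
  have hne : N.Nonempty := ⟨s1, ⟨h01, le_refl _⟩, hcon⟩
  have hbdd : BddBelow N := ⟨s0, fun s hs => hs.1.1⟩
  set t := sInf N with ht
  have ht0 : s0 ≤ t := le_csInf hne fun s hs => hs.1.1
  have ht1 : t ≤ s1 := csInf_le hbdd ⟨⟨h01, le_refl _⟩, hcon⟩
  have hbelow : ∀ s, s0 ≤ s → s < t → InK n μ σ R H A D (a s) (b s) := by
    intro s hs0 hst
    by_contra hs
    exact absurd (csInf_le hbdd ⟨⟨hs0, (hst.trans_le ht1).le⟩, hs⟩) (not_le.2 hst)
  have hKt : InK n μ σ R H A D (a t) (b t) := by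
    rcases ht0.lt_or_eq with h1 | h1
    · -- a sequence from below
      set q : ℕ → ℝ := fun k => t - (t - s0) / ((k : ℝ) + 1) with hq
      have hq0 : ∀ k, s0 ≤ q k := fun k => by
        have h2 : (t - s0) / ((k : ℝ) + 1) ≤ t - s0 :=
          div_le_self (by linarith) (by have := (Nat.cast_nonneg k : (0 : ℝ) ≤ k); linarith)
        simp only [hq]; linarith
      have hq1 : ∀ k, q k < t := fun k => by
        have h2 : 0 < (t - s0) / ((k : ℝ) + 1) := div_pos (by linarith) (by positivity)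
        simp only [hq]; linarith
      have hql : Tendsto q atTop (𝓝 t) := by
        have h2 : Tendsto (fun k : ℕ => (t - s0) / ((k : ℝ) + 1)) atTop (𝓝 0) :=
          (tendsto_const_div_atTop_nhds_zero_nat (t - s0)).comp (tendsto_add_atTop_nat 1) |>.congr
            fun k => by simp
        have h3 := h2.const_sub t
        simpa using h3
      have hqw : Tendsto q atTop (𝓝[Icc s0 s1] t) := tendsto_nhdsWithin_iff.2
        ⟨hql, Filter.Eventually.of_forall fun k => ⟨hq0 k, ((hq1 k).trans_le ht1).le⟩⟩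
      exact InK.closed (fun k => a (q k)) (fun k => b (q k)) _ _ (fun k => hbelow _ (hq0 k) (hq1 k))
        ((ha t ⟨ht0, ht1⟩).tendsto.comp hqw) ((hb t ⟨ht0, ht1⟩).tendsto.comp hqw)
    · rw [← h1]; exact h0
  have htN : t ∉ N := fun h => h.2 hKt
  have htlt : t < s1 := by
    refine lt_of_le_of_ne ht1 fun h => hcon ?_
    rw [← h]; exact hKt
  -- the sequence from above
  have hex : ∀ k : ℕ, ∃ s ∈ N, s < t + 1 / ((k : ℝ) + 1) := fun k =>
    exists_lt_of_csInf_lt hne (by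
      have : (0 : ℝ) < 1 / ((k : ℝ) + 1) := by positivity
      linarith)
  choose q hqN hqlt using hex
  have hqgt : ∀ k, t < q k := fun k =>
    lt_of_le_of_ne (csInf_le hbdd (hqN k)) fun h => htN (by rw [h]; exact hqN k)
  have hql : Tendsto q atTop (𝓝 t) := by
    refine tendsto_of_tendsto_of_tendsto_of_le_of_le tendsto_const_nhds ?_ (fun k => (hqgt k).le)
      (fun k => (hqlt k).le)
    have h3 := (tendsto_one_div_add_atTop_nhds_zero_nat (𝕜 := ℝ)).const_add t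
    simpa using h3
  have hqw : Tendsto q atTop (𝓝[Icc s0 s1] t) := tendsto_nhdsWithin_iff.2
    ⟨hql, Filter.Eventually.of_forall fun k => (hqN k).1⟩
  choose v hvA hv0 hvn hvE using fun k => normalise hn hS hRM hHM (hqN k).2
  obtain ⟨φ, hφ, w, ζ, τ, hmin, hP, hQ⟩ := compactness hn hS hAI hR hH hRM hHM hKt
    (hsub t ⟨ht0, ht1⟩) (fun k => a (q k)) (fun k => b (q k))
    ((ha t ⟨ht0, ht1⟩).tendsto.comp hqw) ((hb t ⟨ht0, ht1⟩).tendsto.comp hqw) v hvA hv0 hvn
    (fun k => (hvE k).le)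
  obtain ⟨a', b', hda, hdb, hneg⟩ := hder t ⟨ht0, htlt⟩ w ζ τ hKt hmin
  have hqs : Tendsto (fun k => q (φ k)) atTop (𝓝[Ici t \ {t}] t) := tendsto_nhdsWithin_iff.2
    ⟨hql.comp hφ.tendsto_atTop, Filter.Eventually.of_forall fun k =>
      ⟨(hqgt (φ k)).le, (hqgt (φ k)).ne'⟩⟩
  have h1 := ((hasDerivWithinAt_iff_tendsto_slope.1 hda).comp hqs).mul hP
  have h2 := ((hasDerivWithinAt_iff_tendsto_slope.1 hdb).comp hqs).mul hQ
  have h3 : 0 ≤ a' * PP n μ w + b' * QQ n σ τ := by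
    refine ge_of_tendsto (h1.add h2) (Filter.Eventually.of_forall fun k => ?_)
    have h4 := hKt (v (φ k)) (hvA _) (hv0 _)
    have h5 := hvE (φ k)
    have h6 : 0 < q (φ k) - t := sub_pos.2 (hqgt _)
    simp only [Function.comp_apply, slope_def_field]
    have h7 : (a (q (φ k)) - a t) / (q (φ k) - t) * PP n μ (v (φ k)) +
        (b (q (φ k)) - b t) / (q (φ k) - t) * QQ n σ (v (φ k)) =
        ((a (q (φ k)) * PP n μ (v (φ k)) + b (q (φ k)) * QQ n σ (v (φ k))) -
          (a t * PP n μ (v (φ k)) + b t * QQ n σ (v (φ k)))) / (q (φ k) - t) := by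
      field_simp
      ring
    rw [h7]
    exact div_nonneg (by linarith) h6.le
  linarith

end Pool.Agent.CY
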