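import Pool.Agent.CY.S2.ConvH

/-!
CY-S2-ExtE. The weak equation holds for all test functions in `H^1`.

Take `φ_k ∈ A`, `φ_k → (ψ, ξ, θ)` in `H^1`.  `|w|^{p-1} ∈ L^{p/(p-1)}` (`InH.memLp`) and `φ_k → ψ` in `L^p`
(`tendH_crit`), Hölder; same on the boundary; the other terms are `L²` pairings.
-/

set_option autoImplicit false

open scoped ENNReal ContDiff
open MeasureTheory Set Filter Topology

namespace Pool.Agent.CY

variable {X : Type} [TopologicalSpace X] [CompactSpace X] [MeasurableSpace X] [BorelSpace X]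
  {F : Type} [NormedAddCommGroup F] [InnerProductSpace ℝ F] [FiniteDimensional ℝ F]
  {n : ℕ} {μ σ : Measure X} {A : Set (X → ℝ)} {D : (X → ℝ) → X → F}

private theorem two_eq : ENNReal.ofReal 2 = 2 := by
  rw [← ENNReal.ofReal_ofNat]

private theorem rpow_tend {q : ℝ} (hq : 0 < q) {a : ℕ → ℝ} (h : Tendsto a atTop (𝓝 0)) (c : ℝ) :
    Tendsto (fun k => c * a k ^ (1 / q)) atTop (𝓝 0) := by
  have h1 := h.rpow_const (p := 1 / q) (Or.inr (by positivity))
  rw [Real.zero_rpow (by positivity)] at h1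
  simpa using h1.const_mul c

private theorem tend_pair {Y : Type} [MeasurableSpace Y] {ν : Measure Y} {p q : ℝ}
    (hpq : p.HolderConjugate q) {g : Y → ℝ} {f : ℕ → Y → ℝ} {f' : Y → ℝ}
    (hg : MemLp g (ENNReal.ofReal p) ν) (hf : ∀ k, MemLp (f k) (ENNReal.ofReal q) ν)
    (hf' : MemLp f' (ENNReal.ofReal q) ν)
    (h : Tendsto (fun k => ∫ x, |f k x - f' x| ^ q ∂ν) atTop (𝓝 0)) :
    Tendsto (fun k => ∫ x, g x * f k x ∂ν) atTop (𝓝 (∫ x, g x * f' x ∂ν)) := by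
  have hI : ∀ φ : Y → ℝ, MemLp φ (ENNReal.ofReal q) ν → Integrable (fun x => g x * φ x) ν := by
    intro φ hφ
    have := hpq.ennrealOfReal
    exact hg.integrable_mul hφ
  rw [tendsto_iff_norm_sub_tendsto_zero]
  have hb : ∀ k, ‖(∫ x, g x * f k x ∂ν) - ∫ x, g x * f' x ∂ν‖ ≤
      (∫ x, ‖g x‖ ^ p ∂ν) ^ (1 / p) * (∫ x, |f k x - f' x| ^ q ∂ν) ^ (1 / q) := by
    intro k
    rw [← integral_sub (hI _ (hf k)) (hI _ hf')]
    calc ‖∫ x, (g x * f k x - g x * f' x) ∂ν‖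
        ≤ ∫ x, ‖g x * f k x - g x * f' x‖ ∂ν := norm_integral_le_integral_norm _
      _ = ∫ x, ‖g x‖ * ‖(f k - f') x‖ ∂ν := by
          refine integral_congr_ae (Eventually.of_forall fun x => ?_)
          show ‖g x * f k x - g x * f' x‖ = ‖g x‖ * ‖f k x - f' x‖
          rw [← mul_sub, norm_mul]
      _ ≤ _ := integral_mul_norm_le_Lp_mul_Lq hpq hg ((hf k).sub hf')
  exact squeeze_zero (fun k => norm_nonneg _) hb (rpow_tend hpq.symm.pos h _)

private theorem tend_inner {Y : Type} [MeasurableSpace Y] {ν : Measure Y} {E : Type}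
    [NormedAddCommGroup E] [InnerProductSpace ℝ E] {g : Y → E} {f : ℕ → Y → E} {f' : Y → E}
    (hg : MemLp g 2 ν) (hf : ∀ k, MemLp (f k) 2 ν) (hf' : MemLp f' 2 ν)
    (h : Tendsto (fun k => ∫ x, ‖f k x - f' x‖ ^ 2 ∂ν) atTop (𝓝 0)) :
    Tendsto (fun k => ∫ x, inner ℝ (g x) (f k x) ∂ν) atTop (𝓝 (∫ x, inner ℝ (g x) (f' x) ∂ν)) := by
  have hI : ∀ φ : Y → E, MemLp φ 2 ν → Integrable (fun x => inner ℝ (g x) (φ x)) ν := by
    intro φ hφ
    have h1 : Integrable (fun x => ‖g x‖ ^ 2) ν := (memLp_two_iff_integrable_sq_norm hg.1).1 hg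
    have h2 : Integrable (fun x => ‖φ x‖ ^ 2) ν := (memLp_two_iff_integrable_sq_norm hφ.1).1 hφ
    refine (h1.add h2).mono' (hg.1.inner hφ.1) (Eventually.of_forall fun x => ?_)
    have h3 := norm_inner_le_norm (𝕜 := ℝ) (g x) (φ x)
    show ‖inner ℝ (g x) (φ x)‖ ≤ ‖g x‖ ^ 2 + ‖φ x‖ ^ 2
    nlinarith [sq_nonneg (‖g x‖ - ‖φ x‖), sq_nonneg (‖g x‖), sq_nonneg (‖φ x‖)]
  rw [tendsto_iff_norm_sub_tendsto_zero]
  have hpq : (2 : ℝ).HolderConjugate 2 := Real.HolderConjugate.two_two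
  have hb : ∀ k, ‖(∫ x, inner ℝ (g x) (f k x) ∂ν) - ∫ x, inner ℝ (g x) (f' x) ∂ν‖ ≤
      (∫ x, ‖g x‖ ^ (2 : ℝ) ∂ν) ^ (1 / (2 : ℝ)) * (∫ x, ‖f k x - f' x‖ ^ 2 ∂ν) ^ (1 / (2 : ℝ)) := by
    intro k
    rw [← integral_sub (hI _ (hf k)) (hI _ hf')]
    have hi : Integrable (fun x => ‖g x‖ * ‖(f k - f') x‖) ν := by
      have h1 : MemLp (fun x => ‖g x‖) 2 ν := hg.norm
      have h2 : MemLp (fun x => ‖(f k - f') x‖) 2 ν := ((hf k).sub hf').norm
      have : ENNReal.HolderTriple 2 2 1 := by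
        have := hpq.ennrealOfReal
        rwa [two_eq] at this
      exact h1.integrable_mul h2
    calc ‖∫ x, (inner ℝ (g x) (f k x) - inner ℝ (g x) (f' x)) ∂ν‖
        ≤ ∫ x, ‖inner ℝ (g x) (f k x) - inner ℝ (g x) (f' x)‖ ∂ν := norm_integral_le_integral_norm _
      _ ≤ ∫ x, ‖g x‖ * ‖(f k - f') x‖ ∂ν := by
          refine integral_mono_of_nonneg (Eventually.of_forall fun x => norm_nonneg _) hi
            (Eventually.of_forall fun x => ?_)
          show ‖inner ℝ (g x) (f k x) - inner ℝ (g x) (f' x)‖ ≤ ‖g x‖ * ‖f k x - f' x‖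
          rw [← inner_sub_right]
          exact norm_inner_le_norm _ _
      _ ≤ (∫ x, ‖g x‖ ^ (2 : ℝ) ∂ν) ^ (1 / (2 : ℝ)) *
            (∫ x, ‖(f k - f') x‖ ^ (2 : ℝ) ∂ν) ^ (1 / (2 : ℝ)) :=
          integral_mul_norm_le_Lp_mul_Lq hpq (by rw [two_eq]; exact hg)
            (by rw [two_eq]; exact (hf k).sub hf')
      _ = _ := by
          simp only [Pi.sub_apply, Real.rpow_two]
  exact squeeze_zero (fun k => norm_nonneg _) hb (rpow_tend two_pos h _)

private theorem weight {Y : Type} [MeasurableSpace Y] {ν : Measure Y} {R : Y → ℝ}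
    (hR : Measurable R) {M : ℝ} (hRM : ∀ x, |R x| ≤ M) {g : Y → ℝ} (hg : MemLp g 2 ν) :
    MemLp (fun x => R x * g x) 2 ν := by
  refine hg.of_le_mul (c := M) (hR.aestronglyMeasurable.mul hg.1) (Eventually.of_forall fun x => ?_)
  rw [norm_mul]
  exact mul_le_mul_of_nonneg_right (by simpa using hRM x) (norm_nonneg _)

private theorem pow_mem {Y : Type} [MeasurableSpace Y] {ν : Measure Y} {r : ℝ} (hr : 1 < r)
    {g : Y → ℝ} (hg : MemLp g (ENNReal.ofReal r) ν) :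
    MemLp (fun x => |g x| ^ (r - 1)) (ENNReal.ofReal (r / (r - 1))) ν := by
  have h := hg.norm_rpow_div (ENNReal.ofReal (r - 1))
  rw [ENNReal.toReal_ofReal (by linarith), ← ENNReal.ofReal_div_of_pos (by linarith)] at h
  simpa only [Real.norm_eq_abs] using h

private theorem conj {r : ℝ} (hr : 1 < r) : (r / (r - 1)).HolderConjugate r :=
  (Real.HolderConjugate.conjExponent hr).symm

theorem weakEq_ext (hn : 3 ≤ n) (hS : IsSob n μ σ A D) {R H : X → ℝ} (hR : Measurable R)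
    (hH : Measurable H) {M : ℝ} (hRM : ∀ x, |R x| ≤ M) (hHM : ∀ x, |H x| ≤ M)
    {lam kap : ℝ} {w τ : X → ℝ} {ζ : X → F} (h : InH μ σ A D w ζ τ)
    (hE : WeakEq n μ σ R H A D lam kap w ζ τ) {ψ θ : X → ℝ} {ξ : X → F} (hψ : InH μ σ A D ψ ξ θ) :
    cn n * ∫ x, inner ℝ (ζ x) (ξ x) ∂μ + ∫ x, R x * w x * ψ x ∂μ + 2 * ∫ x, H x * τ x * θ x ∂σ
      = lam * ∫ x, |w x| ^ (pp n - 1) * ψ x ∂μ + kap * ∫ x, |τ x| ^ (qq n - 1) * θ x ∂σ := by
  obtain ⟨u, hu, ht⟩ := hψ.ex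
  obtain ⟨c1, c2⟩ := tendH_crit hn hS hψ u hu ht
  obtain ⟨m1, m2⟩ := h.memLp hn hS
  obtain ⟨m3, m4⟩ := hψ.memLp hn hS
  obtain ⟨t1, t2, t3⟩ := ht
  have hpp : 2 < pp n := (pp_facts hn).1
  have hqq : 2 < qq n := (qq_facts hn).1
  have mu : ∀ r k, MemLp (u k) r μ := fun r k => memLp_of_continuous μ hS.fin_μ _ (hS.cont _ (hu k)) r
  have mσ : ∀ r k, MemLp (u k) r σ := fun r k => memLp_of_continuous σ hS.fin_σ _ (hS.cont _ (hu k)) r
  have mD : ∀ k, MemLp (D (u k)) 2 μ := fun k =>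
    memLp_of_continuous μ hS.fin_μ _ (hS.contD _ (hu k)) 2
  have hpq : (2 : ℝ).HolderConjugate 2 := Real.HolderConjugate.two_two
  have a1 := tend_inner h.memz mD hψ.memz t2
  have a2 := tend_pair hpq (g := fun x => R x * w x) (by rw [two_eq]; exact weight hR hRM h.memw)
    (fun k => mu _ k) (by rw [two_eq]; exact hψ.memw)
    (by simpa only [Real.rpow_two, sq_abs] using t1)
  have a3 := tend_pair hpq (g := fun x => H x * τ x) (by rw [two_eq]; exact weight hH hHM h.memt)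
    (fun k => mσ _ k) (by rw [two_eq]; exact hψ.memt)
    (by simpa only [Real.rpow_two, sq_abs] using t3)
  have a4 := tend_pair (conj (by linarith : 1 < pp n)) (pow_mem (by linarith) m1)
    (fun k => mu _ k) m3 c1
  have a5 := tend_pair (conj (by linarith : 1 < qq n)) (pow_mem (by linarith) m2)
    (fun k => mσ _ k) m4 c2
  have hL := ((a1.const_mul (cn n)).add a2).add (a3.const_mul 2)
  have hR' := (a4.const_mul lam).add (a5.const_mul kap)
  refine tendsto_nhds_unique hL (hR'.congr fun k => ?_)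
  exact (hE (u k) (hu k)).symm

end Pool.Agent.CY
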