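import Mathlib

/-!
CY-S2-Hilb. Bounded sequences in a Hilbert space have weakly convergent subsequences.

Proof. Diagonal argument: the closed span of the sequence is separable, with a countable dense set
`{z_0, z_1, …}`, e.g. all rational linear combinations of the `x_k`; choose by Cantor's diagonal procedure a
subsequence such that `⟨x_{φ k}, x_j⟩` converges for all `j`; then `⟨x_{φ k}, z⟩` converges for `z` in the
closed span (bounded sequence) and for `z` in the orthogonal complement (it is `0`), so for all `z`; the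
limit is a bounded linear functional of `z`; use the Riesz representation (`InnerProductSpace.toDual`).
-/

set_option autoImplicit false

open scoped ENNReal ContDiff
open MeasureTheory Set Filter Topology

namespace Pool.Agent.CY

/-- the set of `z` for which `⟨x k, z⟩` converges -/
private def convSub {E : Type} [NormedAddCommGroup E] [InnerProductSpace ℝ E] (x : ℕ → E) :
    Submodule ℝ E where
  carrier := {z | ∃ l : ℝ, Tendsto (fun k => inner ℝ (x k) z) atTop (𝓝 l)}
  add_mem' := by
    rintro a b ⟨l, hl⟩ ⟨m, hm⟩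
    refine ⟨l + m, ?_⟩
    simp only [inner_add_right]
    exact hl.add hm
  zero_mem' := ⟨0, by simp⟩
  smul_mem' := by
    rintro c a ⟨l, hl⟩
    refine ⟨c * l, ?_⟩
    simp only [inner_smul_right]
    exact hl.const_mul c

private theorem mem_convSub {E : Type} [NormedAddCommGroup E] [InnerProductSpace ℝ E] (x : ℕ → E)
    (z : E) : z ∈ convSub x ↔ ∃ l : ℝ, Tendsto (fun k => inner ℝ (x k) z) atTop (𝓝 l) :=
  Iff.rfl

private theorem isClosed_convSub {E : Type} [NormedAddCommGroup E] [InnerProductSpace ℝ E]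
    (x : ℕ → E) (C : ℝ) (h : ∀ k, ‖x k‖ ≤ C) : IsClosed (convSub x : Set E) := by
  have hC : 0 ≤ C := (norm_nonneg _).trans (h 0)
  refine isClosed_of_closure_subset fun z hz => ?_
  change z ∈ convSub x
  rw [mem_convSub]
  refine cauchySeq_tendsto_of_complete ?_
  rw [Metric.cauchySeq_iff']
  intro ε hε
  have hδ : 0 < ε / (4 * (C + 1)) := by positivity
  obtain ⟨z', hz', hd⟩ := Metric.mem_closure_iff.1 hz _ hδ
  obtain ⟨l, hl⟩ := (mem_convSub x z').1 hz'
  obtain ⟨N, hN⟩ := Metric.cauchySeq_iff'.1 hl.cauchySeq (ε / 2) (by positivity)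
  refine ⟨N, fun n hn => ?_⟩
  have h1 := hN n hn
  rw [Real.dist_eq] at h1 ⊢
  have h2 : ∀ k, |inner ℝ (x k) z - inner ℝ (x k) z'| ≤ ε / 4 := by
    intro k
    rw [← inner_sub_right]
    refine (abs_real_inner_le_norm _ _).trans ?_
    rw [dist_eq_norm] at hd
    have h3 : ‖x k‖ * ‖z - z'‖ ≤ (C + 1) * (ε / (4 * (C + 1))) :=
      mul_le_mul ((h k).trans (by linarith)) hd.le (norm_nonneg _) (by linarith)
    refine h3.trans (le_of_eq ?_)
    field_simp
  have h3 := h2 n
  have h4 := h2 N
  rw [abs_le] at h3 h4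
  rw [abs_lt] at h1 ⊢
  constructor <;> linarith [h1.1, h1.2, h3.1, h3.2, h4.1, h4.2]

theorem exists_weak_subseq {E : Type} [NormedAddCommGroup E] [InnerProductSpace ℝ E] [CompleteSpace E]
    (x : ℕ → E) (C : ℝ) (h : ∀ k, ‖x k‖ ≤ C) :
    ∃ φ : ℕ → ℕ, StrictMono φ ∧ ∃ y : E, ∀ z : E,
      Tendsto (fun k => inner ℝ (x (φ k)) z) atTop (𝓝 (inner ℝ y z)) := by
  have hC : 0 ≤ C := (norm_nonneg _).trans (h 0)
  -- compactness of a countable product of intervals
  have hcp : IsCompact (Set.univ.pi fun _ : ℕ => Set.Icc (-(C * C)) (C * C)) :=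
    isCompact_univ_pi fun _ => isCompact_Icc
  obtain ⟨L, -, φ, hφ, hL⟩ := hcp.tendsto_subseq (x := fun k j => inner ℝ (x k) (x j)) (by
    intro k
    rw [Set.mem_univ_pi]
    intro j
    have h1 := abs_le.1 ((abs_real_inner_le_norm (x k) (x j)).trans
      (mul_le_mul (h k) (h j) (norm_nonneg _) hC))
    exact ⟨h1.1, h1.2⟩)
  rw [tendsto_pi_nhds] at hL
  refine ⟨φ, hφ, ?_⟩
  have hx' : ∀ k, ‖x (φ k)‖ ≤ C := fun k => h _
  have hcl := isClosed_convSub (fun k => x (φ k)) C hx'
  -- everything converges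
  have hall : ∀ z : E, z ∈ convSub fun k => x (φ k) := by
    intro z
    haveI : CompleteSpace (convSub fun k => x (φ k)) := hcl.completeSpace_coe
    have hperp : (convSub fun k => x (φ k))ᗮ ≤ convSub fun k => x (φ k) := by
      intro w hw
      rw [mem_convSub]
      refine ⟨0, ?_⟩
      have h1 : ∀ k, inner ℝ (x (φ k)) w = 0 := by
        intro k
        exact (Submodule.mem_orthogonal _ _).1 hw _ ⟨L (φ k), hL (φ k) |>.congr fun j => rfl⟩
      simp [h1]
    obtain ⟨a, ha, b, hb, rfl⟩ := (convSub fun k => x (φ k)).exists_add_mem_mem_orthogonal z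
    exact add_mem ha (hperp hb)
  choose f hf using fun z => (mem_convSub _ z).1 (hall z)
  have hadd : ∀ a b, f (a + b) = f a + f b := fun a b =>
    tendsto_nhds_unique (hf (a + b)) (by
      simp only [inner_add_right]
      exact (hf a).add (hf b))
  have hsmul : ∀ (c : ℝ) a, f (c • a) = c * f a := fun c a =>
    tendsto_nhds_unique (hf (c • a)) (by
      simp only [inner_smul_right]
      exact (hf a).const_mul c)
  have hbd : ∀ a, ‖f a‖ ≤ C * ‖a‖ := fun a => by
    refine le_of_tendsto (hf a).norm (Eventually.of_forall fun k => ?_)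
    exact (norm_inner_le_norm _ _).trans (mul_le_mul_of_nonneg_right (hx' k) (norm_nonneg _))
  let F : E →ₗ[ℝ] ℝ :=
    { toFun := f
      map_add' := hadd
      map_smul' := fun c a => by simpa using hsmul c a }
  refine ⟨(InnerProductSpace.toDual ℝ E).symm (F.mkContinuous C hbd), fun z => ?_⟩
  rw [InnerProductSpace.toDual_symm_apply]
  exact hf z

/-- A closed subspace is weakly sequentially closed. -/
theorem weak_limit_mem {E : Type} [NormedAddCommGroup E] [InnerProductSpace ℝ E] [CompleteSpace E]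
    (K : Submodule ℝ E) (hK : IsClosed (K : Set E)) (x : ℕ → E) (hx : ∀ k, x k ∈ K) (y : E)
    (h : ∀ z : E, Tendsto (fun k => inner ℝ (x k) z) atTop (𝓝 (inner ℝ y z))) : y ∈ K := by
  haveI : CompleteSpace K := hK.completeSpace_coe
  rw [← Submodule.orthogonal_orthogonal K, Submodule.mem_orthogonal']
  intro z hz
  have h1 : ∀ k, inner ℝ (x k) z = 0 := fun k => (Submodule.mem_orthogonal _ _).1 hz _ (hx k)
  exact tendsto_nhds_unique (h z) (by simp [h1])

end Pool.Agent.CY
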