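import Pool.Agent.CY.S2.Basic

/-!
CY-S2-InH. The space `H^1` (closure of `A`): linear structure, closedness.

All statements are elementary `L²` estimates (`(a+b)² ≤ 2a² + 2b²`); for `InH.closed` choose for each `k` an
element `u_k ∈ A` with distance `< 1/(k+1)` to the `k`-th member.
-/

set_option autoImplicit false

open scoped ENNReal ContDiff
open MeasureTheory Set Filter Topology

namespace Pool.Agent.CY

variable {X : Type} [TopologicalSpace X] [CompactSpace X] [MeasurableSpace X] [BorelSpace X]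
  {F : Type} [NormedAddCommGroup F] [InnerProductSpace ℝ F] [FiniteDimensional ℝ F]
  {n : ℕ} {μ σ : Measure X} {A : Set (X → ℝ)} {D : (X → ℝ) → X → F}

/-! ### Elementary `L²` estimates -/

private theorem integrable_sq_norm {Y : Type*} [MeasurableSpace Y] {ν : Measure Y} {E : Type*}
    [NormedAddCommGroup E] {f : Y → E} (hf : MemLp f 2 ν) : Integrable (fun x => ‖f x‖ ^ 2) ν :=
  (memLp_two_iff_integrable_sq_norm hf.1).1 hf

private theorem sq_add_le {Y : Type*} [MeasurableSpace Y] {ν : Measure Y} {E : Type*}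
    [NormedAddCommGroup E] {f g : Y → E} (hf : MemLp f 2 ν) (hg : MemLp g 2 ν) :
    ∫ x, ‖f x + g x‖ ^ 2 ∂ν ≤ 2 * ∫ x, ‖f x‖ ^ 2 ∂ν + 2 * ∫ x, ‖g x‖ ^ 2 ∂ν := by
  rw [← integral_const_mul, ← integral_const_mul, ← integral_add
    ((integrable_sq_norm hf).const_mul 2) ((integrable_sq_norm hg).const_mul 2)]
  refine integral_mono (integrable_sq_norm (hf.add hg))
    (((integrable_sq_norm hf).const_mul 2).add ((integrable_sq_norm hg).const_mul 2)) fun x => ?_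
  have h1 : ‖f x + g x‖ ≤ ‖f x‖ + ‖g x‖ := norm_add_le _ _
  have h2 : 0 ≤ ‖f x + g x‖ := norm_nonneg _
  have h3 : ‖f x + g x‖ ^ 2 ≤ (‖f x‖ + ‖g x‖) ^ 2 := pow_le_pow_left₀ h2 h1 2
  change ‖f x + g x‖ ^ 2 ≤ 2 * ‖f x‖ ^ 2 + 2 * ‖g x‖ ^ 2
  nlinarith [sq_nonneg (‖f x‖ - ‖g x‖)]

private theorem tend_add {Y : Type*} [MeasurableSpace Y] {ν : Measure Y} {E : Type*}
    [NormedAddCommGroup E] {f g : ℕ → Y → E} (hf : ∀ k, MemLp (f k) 2 ν)
    (hg : ∀ k, MemLp (g k) 2 ν) (h1 : Tendsto (fun k => ∫ x, ‖f k x‖ ^ 2 ∂ν) atTop (𝓝 0))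
    (h2 : Tendsto (fun k => ∫ x, ‖g k x‖ ^ 2 ∂ν) atTop (𝓝 0)) :
    Tendsto (fun k => ∫ x, ‖f k x + g k x‖ ^ 2 ∂ν) atTop (𝓝 0) := by
  have h3 : Tendsto (fun k => 2 * ∫ x, ‖f k x‖ ^ 2 ∂ν + 2 * ∫ x, ‖g k x‖ ^ 2 ∂ν) atTop (𝓝 0) := by
    have := (h1.const_mul 2).add (h2.const_mul 2)
    simpa using this
  exact squeeze_zero (fun k => integral_nonneg fun x => by positivity)
    (fun k => sq_add_le (hf k) (hg k)) h3

/-- the sum of two sequences converging in `L²` -/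
private theorem tend_add' {Y : Type*} [MeasurableSpace Y] {ν : Measure Y} {E : Type*}
    [NormedAddCommGroup E] {f g : ℕ → Y → E} {f' g' : Y → E} (hf : ∀ k, MemLp (f k) 2 ν)
    (hg : ∀ k, MemLp (g k) 2 ν) (hf' : MemLp f' 2 ν) (hg' : MemLp g' 2 ν)
    (h1 : Tendsto (fun k => ∫ x, ‖f k x - f' x‖ ^ 2 ∂ν) atTop (𝓝 0))
    (h2 : Tendsto (fun k => ∫ x, ‖g k x - g' x‖ ^ 2 ∂ν) atTop (𝓝 0)) :
    Tendsto (fun k => ∫ x, ‖(f k x + g k x) - (f' x + g' x)‖ ^ 2 ∂ν) atTop (𝓝 0) := by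
  have h := tend_add (fun k => (hf k).sub hf') (fun k => (hg k).sub hg') h1 h2
  refine h.congr fun k => integral_congr_ae (Eventually.of_forall fun x => ?_)
  change ‖f k x - f' x + (g k x - g' x)‖ ^ 2 = ‖(f k x + g k x) - (f' x + g' x)‖ ^ 2
  congr 2
  abel

/-- passing from the distance to `f k` to the distance to `f'` -/
private theorem tend_trans {Y : Type*} [MeasurableSpace Y] {ν : Measure Y} {E : Type*}
    [NormedAddCommGroup E] {f g : ℕ → Y → E} {f' : Y → E} (hf : ∀ k, MemLp (f k) 2 ν)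
    (hg : ∀ k, MemLp (g k) 2 ν) (hf' : MemLp f' 2 ν)
    (h1 : Tendsto (fun k => ∫ x, ‖g k x - f k x‖ ^ 2 ∂ν) atTop (𝓝 0))
    (h2 : Tendsto (fun k => ∫ x, ‖f k x - f' x‖ ^ 2 ∂ν) atTop (𝓝 0)) :
    Tendsto (fun k => ∫ x, ‖g k x - f' x‖ ^ 2 ∂ν) atTop (𝓝 0) := by
  have h := tend_add (fun k => (hg k).sub (hf k)) (fun k => (hf k).sub hf') h1 h2
  refine h.congr fun k => integral_congr_ae (Eventually.of_forall fun x => ?_)
  change ‖g k x - f k x + (f k x - f' x)‖ ^ 2 = ‖g k x - f' x‖ ^ 2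
  congr 2
  abel

private theorem tend_smul {Y : Type*} [MeasurableSpace Y] {ν : Measure Y} {E : Type*}
    [NormedAddCommGroup E] [NormedSpace ℝ E] {f : ℕ → Y → E} {f' : Y → E} (c : ℝ)
    (h1 : Tendsto (fun k => ∫ x, ‖f k x - f' x‖ ^ 2 ∂ν) atTop (𝓝 0)) :
    Tendsto (fun k => ∫ x, ‖c • f k x - c • f' x‖ ^ 2 ∂ν) atTop (𝓝 0) := by
  have h := h1.const_mul (c ^ 2)
  rw [mul_zero] at h
  refine h.congr fun k => ?_
  rw [← integral_const_mul]
  refine integral_congr_ae (Eventually.of_forall fun x => ?_)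
  change c ^ 2 * ‖f k x - f' x‖ ^ 2 = ‖c • f k x - c • f' x‖ ^ 2
  rw [← smul_sub, norm_smul, mul_pow, Real.norm_eq_abs, sq_abs]

private theorem to_norm {Y : Type*} [MeasurableSpace Y] {ν : Measure Y} {f g : ℕ → Y → ℝ}
    (h : Tendsto (fun k => ∫ x, (f k x - g k x) ^ 2 ∂ν) atTop (𝓝 0)) :
    Tendsto (fun k => ∫ x, ‖f k x - g k x‖ ^ 2 ∂ν) atTop (𝓝 0) := by
  simpa only [Real.norm_eq_abs, sq_abs] using h

private theorem of_norm {Y : Type*} [MeasurableSpace Y] {ν : Measure Y} {f g : ℕ → Y → ℝ}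
    (h : Tendsto (fun k => ∫ x, ‖f k x - g k x‖ ^ 2 ∂ν) atTop (𝓝 0)) :
    Tendsto (fun k => ∫ x, (f k x - g k x) ^ 2 ∂ν) atTop (𝓝 0) := by
  simpa only [Real.norm_eq_abs, sq_abs] using h

private theorem memLp_A (hS : IsSob n μ σ A D) {u : X → ℝ} (hu : u ∈ A) :
    MemLp u 2 μ ∧ MemLp (D u) 2 μ ∧ MemLp u 2 σ := by
  refine ⟨?_, ?_, ?_⟩
  · exact memLp_of_continuous μ hS.fin_μ u (hS.cont u hu) 2
  · have : IsFiniteMeasure μ := ⟨hS.fin_μ⟩
    obtain ⟨C, hC⟩ := (isCompact_univ (X := X)).exists_bound_of_continuousOn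
      (hS.contD u hu).continuousOn
    refine MemLp.of_bound (hS.contD u hu).aestronglyMeasurable C
      (Eventually.of_forall fun x => hC x (mem_univ x))
  · exact memLp_of_continuous σ hS.fin_σ u (hS.cont u hu) 2

theorem InH.of_mem (hS : IsSob n μ σ A D) {u : X → ℝ} (hu : u ∈ A) : InH μ σ A D u (D u) u := by
  obtain ⟨h1, h2, h3⟩ := memLp_A hS hu
  refine ⟨h1, h2, h3, fun _ => u, fun _ => hu, ?_, ?_, ?_⟩
  · simp
  · simp
  · simp

theorem InH.add (hS : IsSob n μ σ A D) {w w' τ τ' : X → ℝ} {ζ ζ' : X → F} (h : InH μ σ A D w ζ τ)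
    (h' : InH μ σ A D w' ζ' τ') :
    InH μ σ A D (fun x => w x + w' x) (fun x => ζ x + ζ' x) (fun x => τ x + τ' x) := by
  obtain ⟨a1, a2, a3, u, hu, b1, b2, b3⟩ := h
  obtain ⟨a1', a2', a3', v, hv, b1', b2', b3'⟩ := h'
  refine ⟨a1.add a1', a2.add a2', a3.add a3', fun k => fun x => u k x + v k x,
    fun k => hS.add _ (hu k) _ (hv k), ?_, ?_, ?_⟩
  · exact of_norm (tend_add' (fun k => (memLp_A hS (hu k)).1) (fun k => (memLp_A hS (hv k)).1)
      a1 a1' (to_norm b1) (to_norm b1'))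
  · have h := tend_add' (fun k => (memLp_A hS (hu k)).2.1) (fun k => (memLp_A hS (hv k)).2.1)
      a2 a2' b2 b2'
    refine h.congr fun k => ?_
    rw [hS.D_add _ (hu k) _ (hv k)]
    rfl
  · exact of_norm (tend_add' (fun k => (memLp_A hS (hu k)).2.2)
      (fun k => (memLp_A hS (hv k)).2.2) a3 a3' (to_norm b3) (to_norm b3'))

theorem InH.smul (hS : IsSob n μ σ A D) (c : ℝ) {w τ : X → ℝ} {ζ : X → F} (h : InH μ σ A D w ζ τ) :
    InH μ σ A D (fun x => c * w x) (fun x => c • ζ x) (fun x => c * τ x) := by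
  obtain ⟨a1, a2, a3, u, hu, b1, b2, b3⟩ := h
  refine ⟨a1.const_mul c, a2.const_smul c, a3.const_mul c, fun k => fun x => c * u k x,
    fun k => hS.smul c _ (hu k), ?_, ?_, ?_⟩
  · exact of_norm (tend_smul c (to_norm b1))
  · refine (tend_smul c b2).congr fun k => ?_
    rw [hS.D_smul c _ (hu k)]
    rfl
  · exact of_norm (tend_smul c (to_norm b3))

theorem InH.congr {w w' τ τ' : X → ℝ} {ζ ζ' : X → F} (h : InH μ σ A D w ζ τ) (h1 : w =ᵐ[μ] w')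
    (h2 : ζ =ᵐ[μ] ζ') (h3 : τ =ᵐ[σ] τ') : InH μ σ A D w' ζ' τ' := by
  obtain ⟨a1, a2, a3, u, hu, b1, b2, b3⟩ := h
  refine ⟨(memLp_congr_ae h1).1 a1, (memLp_congr_ae h2).1 a2, (memLp_congr_ae h3).1 a3, u, hu,
    ?_, ?_, ?_⟩
  · refine b1.congr fun k => integral_congr_ae ?_
    filter_upwards [h1] with x hx
    rw [hx]
  · refine b2.congr fun k => integral_congr_ae ?_
    filter_upwards [h2] with x hx
    rw [hx]
  · refine b3.congr fun k => integral_congr_ae ?_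
    filter_upwards [h3] with x hx
    rw [hx]

theorem InH.closed (hS : IsSob n μ σ A D) (w : ℕ → X → ℝ) (ζ : ℕ → X → F) (τ : ℕ → X → ℝ) (w' τ' : X → ℝ)
    (ζ' : X → F) (h : ∀ k, InH μ σ A D (w k) (ζ k) (τ k)) (hw : MemLp w' 2 μ) (hζ : MemLp ζ' 2 μ)
    (hτ : MemLp τ' 2 σ) (h1 : Tendsto (fun k => ∫ x, (w k x - w' x) ^ 2 ∂μ) atTop (𝓝 0))
    (h2 : Tendsto (fun k => ∫ x, ‖ζ k x - ζ' x‖ ^ 2 ∂μ) atTop (𝓝 0))
    (h3 : Tendsto (fun k => ∫ x, (τ k x - τ' x) ^ 2 ∂σ) atTop (𝓝 0)) : InH μ σ A D w' ζ' τ' := by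
  have key : ∀ k : ℕ, ∃ v ∈ A, ∫ x, (v x - w k x) ^ 2 ∂μ < 1 / ((k : ℝ) + 1) ∧
      ∫ x, ‖D v x - ζ k x‖ ^ 2 ∂μ < 1 / ((k : ℝ) + 1) ∧
      ∫ x, (v x - τ k x) ^ 2 ∂σ < 1 / ((k : ℝ) + 1) := by
    intro k
    obtain ⟨u, hu, b1, b2, b3⟩ := (h k).ex
    have hk : (0 : ℝ) < 1 / ((k : ℝ) + 1) := by positivity
    obtain ⟨m, hm1, hm2, hm3⟩ := ((b1.eventually_lt_const hk).and
      ((b2.eventually_lt_const hk).and (b3.eventually_lt_const hk))).exists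
    exact ⟨u m, hu m, hm1, hm2, hm3⟩
  choose v hv c1 c2 c3 using key
  have hz : Tendsto (fun k : ℕ => 1 / ((k : ℝ) + 1)) atTop (𝓝 0) :=
    tendsto_one_div_add_atTop_nhds_zero_nat
  refine ⟨hw, hζ, hτ, v, hv, ?_, ?_, ?_⟩
  · have d1 : Tendsto (fun k => ∫ x, (v k x - w k x) ^ 2 ∂μ) atTop (𝓝 0) :=
      squeeze_zero (fun k => integral_nonneg fun x => sq_nonneg _) (fun k => (c1 k).le) hz
    exact of_norm (tend_trans (fun k => (h k).memw) (fun k => (memLp_A hS (hv k)).1) hw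
      (to_norm d1) (to_norm h1))
  · have d2 : Tendsto (fun k => ∫ x, ‖D (v k) x - ζ k x‖ ^ 2 ∂μ) atTop (𝓝 0) :=
      squeeze_zero (fun k => integral_nonneg fun x => by positivity) (fun k => (c2 k).le) hz
    exact tend_trans (fun k => (h k).memz) (fun k => (memLp_A hS (hv k)).2.1) hζ d2 h2
  · have d3 : Tendsto (fun k => ∫ x, (v k x - τ k x) ^ 2 ∂σ) atTop (𝓝 0) :=
      squeeze_zero (fun k => integral_nonneg fun x => sq_nonneg _) (fun k => (c3 k).le) hz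
    exact of_norm (tend_trans (fun k => (h k).memt) (fun k => (memLp_A hS (hv k)).2.2) hτ
      (to_norm d3) (to_norm h3))

end Pool.Agent.CY
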