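import Mathlib

/-!
CY-S2-Stamp. Stampacchia's lemma.

`d = 2^{γ/(γ-1)} C Φ(k0)^{γ-1}`; put `k_j = k0 + d (1 - 2^{-j})`; by induction
`Φ(k_j) ≤ Φ(k0) 2^{-j/(γ-1)}`; so `Φ(k0 + d) ≤ Φ(k_j) → 0`.
-/

set_option autoImplicit false

open scoped ENNReal ContDiff
open MeasureTheory Set Filter Topology

namespace Pool.Agent.CY

/-- Stampacchia's lemma.  (`0 < C` is needed: for `C = 0` the hypothesis says nothing about `Φ k0`.) -/
theorem stampacchia (Φ : ℝ → ℝ) (k0 C γ B : ℝ) (hγ : 1 < γ) (hC : 0 < C) (hB : 0 ≤ B) (h0 : ∀ k, 0 ≤ Φ k)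
    (hmono : ∀ k h, k ≤ h → Φ h ≤ Φ k) (hΦ : Φ k0 ≤ B)
    (h : ∀ k h, k0 ≤ k → k < h → (h - k) * Φ h ≤ C * Φ k ^ γ) :
    Φ (k0 + 2 ^ (γ / (γ - 1)) * C * B ^ (γ - 1)) = 0 := by
  have hg : 0 < γ - 1 := by linarith
  obtain ⟨g, hgdef⟩ : ∃ g, g = γ - 1 := ⟨_, rfl⟩
  rw [← hgdef] at hg ⊢
  have hγg : γ = g + 1 := by linarith
  rcases hB.eq_or_lt with hB0 | hBpos
  · rw [← hB0, Real.zero_rpow hg.ne', mul_zero, add_zero]
    exact le_antisymm (hΦ.trans hB0.symm.le) (h0 _)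
  -- the ratio
  obtain ⟨r, hr⟩ : ∃ r : ℝ, r = (2 : ℝ) ^ (-1 / g) := ⟨_, rfl⟩
  have hr0 : 0 < r := by rw [hr]; positivity
  have hr1 : r < 1 := by
    rw [hr]
    exact Real.rpow_lt_one_of_one_lt_of_neg (by norm_num) (div_neg_of_neg_of_pos (by norm_num) hg)
  have hrg : r ^ g = 1 / 2 := by
    rw [hr, ← Real.rpow_mul (by norm_num)]
    have h1 : -1 / g * g = -1 := by field_simp
    rw [h1, Real.rpow_neg_one]
    norm_num
  have h2r : (2 : ℝ) ^ (γ / g) = 2 / r := by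
    have h1 : γ / g = 1 - (-1 / g) := by
      rw [hγg]
      field_simp
      ring
    rw [h1, Real.rpow_sub (by norm_num), Real.rpow_one, hr]
  rw [h2r]
  obtain ⟨d, hd⟩ : ∃ d, d = 2 / r * C * B ^ g := ⟨_, rfl⟩
  rw [← hd]
  have hBg : 0 < B ^ g := Real.rpow_pos_of_pos hBpos g
  have hdpos : 0 < d := by rw [hd]; positivity
  -- the induction
  have key : ∀ j : ℕ, Φ (k0 + d * (1 - (1 / 2) ^ j)) ≤ B * r ^ j := by
    intro j
    induction j with
    | zero => simpa using hΦ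
    | succ j ih =>
      have hp : (0 : ℝ) < (1 / 2) ^ j := by positivity
      have hp1 : (1 / 2 : ℝ) ^ j ≤ 1 := pow_le_one₀ (by norm_num) (by norm_num)
      have hlt : k0 + d * (1 - (1 / 2) ^ j) < k0 + d * (1 - (1 / 2) ^ (j + 1)) := by
        rw [pow_succ]
        nlinarith [mul_pos hdpos hp]
      have hle : k0 ≤ k0 + d * (1 - (1 / 2) ^ j) := by
        have := mul_nonneg hdpos.le (sub_nonneg.2 hp1)
        linarith
      have h1 := h _ _ hle hlt
      have h2 : k0 + d * (1 - (1 / 2) ^ (j + 1)) - (k0 + d * (1 - (1 / 2) ^ j)) =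
          d * (1 / 2) ^ j / 2 := by
        rw [pow_succ]; ring
      rw [h2] at h1
      have h3 : Φ (k0 + d * (1 - (1 / 2) ^ j)) ^ γ ≤ B * r ^ j * (B ^ g * (1 / 2) ^ j) := by
        refine (Real.rpow_le_rpow (h0 _) ih (by linarith)).trans (le_of_eq ?_)
        have hBr : 0 < B * r ^ j := by positivity
        rw [hγg, Real.rpow_add_one hBr.ne', Real.mul_rpow hBpos.le (pow_nonneg hr0.le j),
          ← Real.rpow_natCast r j, ← Real.rpow_mul hr0.le, mul_comm (j : ℝ) g,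
          Real.rpow_mul hr0.le, hrg, Real.rpow_natCast]
        ring
      have h4 := h1.trans (mul_le_mul_of_nonneg_left h3 hC.le)
      have h5 : C * (B * r ^ j * (B ^ g * (1 / 2) ^ j)) = d * (1 / 2) ^ j / 2 * (B * r ^ (j + 1)) := by
        rw [hd, pow_succ]
        field_simp
      rw [h5] at h4
      exact le_of_mul_le_mul_left h4 (by positivity)
  have hlim : Tendsto (fun j : ℕ => B * r ^ j) atTop (𝓝 0) := by
    have h1 := (tendsto_pow_atTop_nhds_zero_of_lt_one hr0.le hr1).const_mul B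
    rwa [mul_zero] at h1
  refine le_antisymm (ge_of_tendsto' hlim fun j => ?_) (h0 _)
  refine (hmono _ _ ?_).trans (key j)
  have hp : (0 : ℝ) < (1 / 2) ^ j := by positivity
  nlinarith [mul_pos hdpos hp]

end Pool.Agent.CY
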