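import Pool.Agent.CY.S2.ConvH
import Pool.Agent.CY.S2.Stamp

/-!
CY-S2-Level. The level set lemma: an upper bound for a function whose truncations satisfy an energy
inequality.

Let `r = 2n`, `θ_k = (v - k)^+` (trace `(t - k)^+`), `A_k = μ{v > k}`, `B_k = σ{t > k}`.  Hölder with three
exponents: `∫ f θ_k ≤ ‖f‖_r ‖θ_k‖_p A_k^{1 - 1/p - 1/r}`, same on `σ` with `q`.  With `N = ‖θ_k‖_p + ‖θ_k‖_q`,
`InH.sob` and the hypothesis: `N² ≤ C K N (A_k^α + B_k^β)`.  For `h > k`: `(h - k) A_h^{1/p} ≤ ‖θ_k‖_p`,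
`(h - k) B_h^{1/q} ≤ ‖θ_k‖_q`.  So `Φ(k) = A_k^{1/p} + B_k^{1/q}` satisfies
`(h - k) Φ(h) ≤ C' (Φ(k)^{pα} + Φ(k)^{qβ})`, `pα = p - 1 - p/r > 1`, `qβ = q - 1 - q/r > 1`, and `Φ ≤ B`
is bounded, so the right side is `≤ C'' Φ(k)^γ`, `γ = min`.  `stampacchia` gives `Φ(k0 + d) = 0` with `d`
depending on the constants only.
-/

set_option autoImplicit false

open scoped ENNReal ContDiff
open MeasureTheory Set Filter Topology

namespace Pool.Agent.CY

variable {X : Type} [TopologicalSpace X] [CompactSpace X] [MeasurableSpace X] [BorelSpace X]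
  {F : Type} [NormedAddCommGroup F] [InnerProductSpace ℝ F] [FiniteDimensional ℝ F]
  {n : ℕ} {μ σ : Measure X} {A : Set (X → ℝ)} {D : (X → ℝ) → X → F}

section aux

variable {Y : Type} [MeasurableSpace Y] {ν : Measure Y}

/-- Hölder's inequality with three exponents, for a function vanishing off a set -/
private theorem hol3 [IsFiniteMeasure ν] {p p' r : ℝ} (hpp : p'.HolderConjugate p) (hr : p' ≤ r)
    {f θ : Y → ℝ} (hf0 : ∀ x, 0 ≤ f x) (hθ0 : ∀ x, 0 ≤ θ x) (hf : MemLp f (ENNReal.ofReal r) ν)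
    (hθ : MemLp θ (ENNReal.ofReal p) ν) (S : Set Y) (hS : ∀ x ∉ S, θ x = 0) :
    ∫ x, f x * θ x ∂ν ≤ (∫ x, |f x| ^ r ∂ν) ^ (1 / r) * (ν.real S) ^ (1 / p' - 1 / r) *
      (∫ x, |θ x| ^ p ∂ν) ^ (1 / p) := by
  have hp0 : 0 < p := hpp.symm.pos
  have hp'0 : 0 < p' := hpp.pos
  have hr0 : 0 < r := hp'0.trans_le hr
  have habs : ∀ x, |f x| = f x := fun x => abs_of_nonneg (hf0 x)
  have habsθ : ∀ x, |θ x| = θ x := fun x => abs_of_nonneg (hθ0 x)
  rw [← setIntegral_eq_integral_of_forall_compl_eq_zero (s := S)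
    (f := fun x => f x * θ x) (fun x hx => by rw [hS x hx, mul_zero])]
  have hf' : MemLp f (ENNReal.ofReal r) (ν.restrict S) := hf.restrict S
  have hf'' : MemLp f (ENNReal.ofReal p') (ν.restrict S) :=
    hf'.mono_exponent (ENNReal.ofReal_le_ofReal hr)
  have h1 := integral_mul_le_Lp_mul_Lq_of_nonneg (μ := ν.restrict S) hpp
    (Filter.Eventually.of_forall hf0) (Filter.Eventually.of_forall hθ0) hf'' (hθ.restrict S)
  have h2 : ∫ x in S, θ x ^ p ∂ν = ∫ x, |θ x| ^ p ∂ν := by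
    rw [setIntegral_eq_integral_of_forall_compl_eq_zero (s := S)
      (f := fun x => θ x ^ p) (fun x hx => by rw [hS x hx, Real.zero_rpow hp0.ne'])]
    simp_rw [habsθ]
  have h3 : (∫ x in S, f x ^ p' ∂ν) ^ (1 / p') ≤
      (∫ x in S, f x ^ r ∂ν) ^ (1 / r) * (ν.real S) ^ (1 / p' - 1 / r) := by
    have h4 := eLpNorm_le_eLpNorm_mul_rpow_measure_univ (μ := ν.restrict S) (f := f)
      (ENNReal.ofReal_le_ofReal hr) hf'.1
    rw [hf''.eLpNorm_eq_integral_rpow_norm (by simpa using hp'0) ENNReal.ofReal_ne_top,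
      hf'.eLpNorm_eq_integral_rpow_norm (by simpa using hr0) ENNReal.ofReal_ne_top,
      ENNReal.toReal_ofReal hp'0.le, ENNReal.toReal_ofReal hr0.le] at h4
    have e1 : ∀ x, ‖f x‖ = f x := fun x => by rw [Real.norm_eq_abs, habs]
    simp_rw [e1] at h4
    have hn1 : 0 ≤ (∫ x in S, f x ^ p' ∂ν) ^ p'⁻¹ :=
      Real.rpow_nonneg (integral_nonneg fun x => Real.rpow_nonneg (hf0 x) _) _
    have hn2 : 0 ≤ (∫ x in S, f x ^ r ∂ν) ^ r⁻¹ :=
      Real.rpow_nonneg (integral_nonneg fun x => Real.rpow_nonneg (hf0 x) _) _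
    have hex : 0 ≤ 1 / p' - 1 / r := by
      rw [sub_nonneg]
      exact one_div_le_one_div_of_le hp'0 hr
    have hfin : (ν.restrict S) univ ^ (1 / p' - 1 / r) ≠ ⊤ :=
      ENNReal.rpow_ne_top_of_nonneg hex (measure_ne_top _ _)
    have h5 := ENNReal.toReal_mono (ENNReal.mul_ne_top ENNReal.ofReal_ne_top hfin) h4
    rw [ENNReal.toReal_mul, ENNReal.toReal_ofReal hn1, ENNReal.toReal_ofReal hn2,
      ← ENNReal.toReal_rpow] at h5
    have e2 : ((ν.restrict S) univ).toReal = ν.real S := by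
      rw [Measure.restrict_apply_univ]; rfl
    rw [e2] at h5
    rw [one_div, one_div]
    rw [one_div, one_div] at h5
    exact h5
  have h4 : ∫ x in S, f x ^ r ∂ν ≤ ∫ x, |f x| ^ r ∂ν := by
    simp_rw [habs]
    refine setIntegral_le_integral ?_ (Filter.Eventually.of_forall fun x => Real.rpow_nonneg (hf0 x) _)
    have := hf.integrable_norm_rpow (by simpa using hr0) ENNReal.ofReal_ne_top
    rw [ENNReal.toReal_ofReal hr0.le] at this
    simpa only [Real.norm_eq_abs, habs] using this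
  rw [h2] at h1
  refine h1.trans (mul_le_mul_of_nonneg_right (h3.trans (mul_le_mul_of_nonneg_right ?_
    (Real.rpow_nonneg measureReal_nonneg _))) (Real.rpow_nonneg
      (integral_nonneg fun x => Real.rpow_nonneg (abs_nonneg _) _) _))
  exact Real.rpow_le_rpow (integral_nonneg fun x => Real.rpow_nonneg (hf0 x) _) h4 (by positivity)

/-- Chebyshev's inequality for a truncation -/
private theorem cheb [IsFiniteMeasure ν] {p : ℝ} (hp : 0 < p) {v : Y → ℝ} {k h : ℝ} (hkh : k < h)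
    (hv : MemLp (fun x => max (v x - k) 0) (ENNReal.ofReal p) ν) :
    (h - k) * (ν.real {x | h < v x}) ^ (1 / p) ≤
      (∫ x, |max (v x - k) 0| ^ p ∂ν) ^ (1 / p) := by
  have h0 : 0 ≤ h - k := by linarith
  have hint : Integrable (fun x => |max (v x - k) 0| ^ p) ν := by
    have := hv.integrable_norm_rpow (by simpa using hp) ENNReal.ofReal_ne_top
    rw [ENNReal.toReal_ofReal hp.le] at this
    simpa only [Real.norm_eq_abs] using this
  have h1 := mul_meas_ge_le_integral_of_nonneg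
    (Filter.Eventually.of_forall fun x => Real.rpow_nonneg (abs_nonneg (max (v x - k) 0)) p)
    hint ((h - k) ^ p)
  have h2 : (h - k) ^ p * ν.real {x | h < v x} ≤ ∫ x, |max (v x - k) 0| ^ p ∂ν := by
    refine le_trans (mul_le_mul_of_nonneg_left (measureReal_mono ?_ (measure_ne_top _ _))
      (Real.rpow_nonneg h0 _)) h1
    intro x hx
    have hx' : h < v x := hx
    refine Real.rpow_le_rpow h0 ?_ hp.le
    rw [abs_of_nonneg (le_max_right _ _)]
    exact (by linarith : h - k ≤ v x - k).trans (le_max_left _ _)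
  have h3 := Real.rpow_le_rpow (mul_nonneg (Real.rpow_nonneg h0 _) measureReal_nonneg) h2
    (by positivity : 0 ≤ 1 / p)
  rwa [Real.mul_rpow (Real.rpow_nonneg h0 _) measureReal_nonneg, ← Real.rpow_mul h0,
    mul_one_div_cancel hp.ne', Real.rpow_one] at h3

/-- raising a bounded nonnegative number to a smaller power -/
private theorem pow_cmp {x B e g : ℝ} (hx : 0 ≤ x) (hxB : x ≤ B) (hg : 0 < g) (hge : g ≤ e) :
    x ^ e ≤ B ^ (e - g) * x ^ g := by
  rcases hx.lt_or_eq with h | h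
  · have h1 : x ^ e = x ^ (e - g) * x ^ g := by
      rw [← Real.rpow_add h]; congr 1; ring
    rw [h1]
    exact mul_le_mul_of_nonneg_right (Real.rpow_le_rpow hx hxB (by linarith))
      (Real.rpow_nonneg hx _)
  · rw [← h, Real.zero_rpow (by linarith), Real.zero_rpow hg.ne', mul_zero]

private theorem num1 {x : ℝ} (hx : 3 ≤ x) : 0 < x ^ 2 + 2 * x - 1 := by nlinarith

private theorem num2 {x : ℝ} (hx : 3 ≤ x) :
    x * (x * (x - 1)) ≤ (x ^ 2 + 2 * x - 1) * (x - 1) := by nlinarith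

private theorem num3 (x y : ℝ) : (x + y) ^ 2 ≤ 2 * (x ^ 2 + y ^ 2) := by
  nlinarith [sq_nonneg (x - y)]

private theorem num4 {a b x y : ℝ} (ha : 0 ≤ a) (hb : 0 ≤ b) (hx : 0 ≤ x) (hy : 0 ≤ y) :
    a * x + b * y ≤ (a + b) * (x + y) := by
  have h1 := mul_nonneg ha hy
  have h2 := mul_nonneg hb hx
  linarith [add_mul a b (x + y), mul_add a x y, mul_add b x y]

private theorem num5 {C K a b x y : ℝ} (hC : 0 ≤ C) (hK : 0 ≤ K) (ha : 0 ≤ a) (hb : 0 ≤ b)
    (hx : 0 ≤ x) (hy : 0 ≤ y) (h : x ^ 2 + y ^ 2 ≤ C * (K * a * x + K * b * y)) :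
    (x + y) ^ 2 ≤ 2 * C * K * (a + b) * (x + y) := by
  have h1 := num3 x y
  have h2 := mul_le_mul_of_nonneg_left (num4 ha hb hx hy) (mul_nonneg hC hK)
  have h3 : C * (K * a * x + K * b * y) = C * K * (a * x + b * y) := by ring
  have h4 : 2 * C * K * (a + b) * (x + y) = 2 * (C * K * ((a + b) * (x + y))) := by ring
  rw [h4]
  linarith

private theorem PP_sq_aux {p I : ℝ} (hI : 0 ≤ I) : I ^ (2 / p) = (I ^ (1 / p)) ^ 2 := by
  rw [← Real.rpow_natCast, ← Real.rpow_mul hI]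
  congr 1
  push_cast
  ring

end aux

theorem level_lemma (hn : 3 ≤ n) (hS : IsSob n μ σ A D) (K : ℝ) (hK : 0 ≤ K) :
    ∃ d : ℝ, 0 ≤ d ∧ ∀ (v t f g : X → ℝ) (k0 : ℝ), AEStronglyMeasurable v μ → AEStronglyMeasurable t σ →
      (∀ x, 0 ≤ f x) → (∀ x, 0 ≤ g x) →
      MemLp f (ENNReal.ofReal (2 * n)) μ → MemLp g (ENNReal.ofReal (2 * n)) σ →
      (∫ x, |f x| ^ (2 * (n : ℝ)) ∂μ ≤ K) → (∫ x, |g x| ^ (2 * (n : ℝ)) ∂σ ≤ K) →
      (∀ k, k0 ≤ k → ∃ ξ : X → F, InH μ σ A D (fun x => max (v x - k) 0) ξ (fun x => max (t x - k) 0) ∧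
        DD μ ξ + ∫ x, (max (v x - k) 0) ^ 2 ∂μ ≤
          ∫ x, f x * max (v x - k) 0 ∂μ + ∫ x, g x * max (t x - k) 0 ∂σ) →
      (∀ᵐ x ∂μ, v x ≤ k0 + d) ∧ (∀ᵐ x ∂σ, t x ≤ k0 + d) := by
  have : IsFiniteMeasure μ := ⟨hS.fin_μ⟩
  have : IsFiniteMeasure σ := ⟨hS.fin_σ⟩
  have hx3 : (3 : ℝ) ≤ n := by exact_mod_cast hn
  -- exponents
  set p := pp n with hp
  set q := qq n with hq
  set r : ℝ := 2 * (n : ℝ) with hr
  have hp2 : 2 < p := (pp_facts hn).1
  have hq2 : 2 < q := (qq_facts hn).1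
  have hp0 : 0 < p := by linarith
  have hq0 : 0 < q := by linarith
  have hr0 : 0 < r := by rw [hr]; linarith
  have hpp : (p.conjExponent).HolderConjugate p := (Real.HolderConjugate.conjExponent (by linarith)).symm
  have hqq : (q.conjExponent).HolderConjugate q := (Real.HolderConjugate.conjExponent (by linarith)).symm
  set p' := p.conjExponent with hp'
  set q' := q.conjExponent with hq'
  have ep' : 1 / p' = 1 - 1 / p := by
    have := hpp.inv_add_inv_eq_one
    rw [one_div, one_div]; linarith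
  have eq' : 1 / q' = 1 - 1 / q := by
    have := hqq.inv_add_inv_eq_one
    rw [one_div, one_div]; linarith
  set α := 1 / p' - 1 / r with hα
  set β := 1 / q' - 1 / r with hβ
  set γ : ℝ := (n : ℝ) / ((n : ℝ) - 1) with hγ
  have hn1 : (0 : ℝ) < (n : ℝ) - 1 := by linarith
  have hn0 : (0 : ℝ) < n := by linarith
  have hnp : (0 : ℝ) < (n : ℝ) + 1 := by linarith
  have hγ1 : 1 < γ := by rw [hγ, lt_div_iff₀ hn1]; linarith
  have eβ : β = 1 / 2 := by
    rw [hβ, eq', hq, hr]; unfold qq; field_simp; ring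
  have eqβ : β * q = γ := by
    rw [eβ, hq, hγ]; unfold qq; field_simp
  have eα : α = ((n : ℝ) ^ 2 + 2 * n - 1) / (2 * n * (n + 1)) := by
    rw [hα, ep', hp, hr]; unfold pp; field_simp; ring
  have hα0 : 0 < α := by
    rw [eα]
    exact div_pos (num1 hx3) (by positivity)
  have epα : α * p = ((n : ℝ) ^ 2 + 2 * n - 1) / (n * (n - 1)) := by
    rw [eα, hp]; unfold pp; field_simp
  have hγα : γ ≤ α * p := by
    rw [epα, hγ, div_le_div_iff₀ hn1 (by positivity)]
    exact num2 hx3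
  have hp'r : p' ≤ r := by
    have h1 : 1 / r ≤ 1 / p' := by rw [hα] at hα0; linarith
    exact (one_div_le_one_div hr0 hpp.pos).1 h1
  have hq'r : q' ≤ r := by
    have h1 : 1 / r ≤ 1 / q' := by
      have : 0 < β := by rw [eβ]; norm_num
      rw [hβ] at this; linarith
    exact (one_div_le_one_div hr0 hqq.pos).1 h1
  -- constants
  obtain ⟨C0, hC0⟩ := hS.sob
  set C := |C0| with hC
  have hCs : ∀ u ∈ A, PP n μ u + QQ n σ u ≤ C * (DD μ (D u) + ∫ x, u x ^ 2 ∂μ) := fun u hu =>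
    (hC0 u hu).trans (mul_le_mul_of_nonneg_right (le_abs_self _)
      (add_nonneg (DD_nonneg _) (integral_nonneg fun x => sq_nonneg _)))
  have hCnn : 0 ≤ C := abs_nonneg _
  set K1 := K ^ (1 / r) with hK1
  have hK1nn : 0 ≤ K1 := Real.rpow_nonneg hK _
  set B := (μ.real univ) ^ (1 / p) + (σ.real univ) ^ (1 / q) with hB
  have hBnn : 0 ≤ B := add_nonneg (Real.rpow_nonneg measureReal_nonneg _)
    (Real.rpow_nonneg measureReal_nonneg _)
  set C2 := 2 * C * K1 * (B ^ (α * p - γ) + 1) + 1 with hC2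
  have hBp : 0 ≤ B ^ (α * p - γ) := Real.rpow_nonneg hBnn _
  have hC2nn : 0 < C2 := by rw [hC2]; positivity
  refine ⟨2 ^ (γ / (γ - 1)) * C2 * B ^ (γ - 1), by positivity, ?_⟩
  intro v t f g k0 hv ht hf0 hg0 hf hg hfK hgK hlev
  set Φ : ℝ → ℝ := fun k => (μ.real {x | k < v x}) ^ (1 / p) + (σ.real {x | k < t x}) ^ (1 / q)
    with hΦ
  have hΦ0 : ∀ k, 0 ≤ Φ k := fun k => add_nonneg (Real.rpow_nonneg measureReal_nonneg _)
    (Real.rpow_nonneg measureReal_nonneg _)
  have hΦm : ∀ k h, k ≤ h → Φ h ≤ Φ k := by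
    intro k h hkh
    refine add_le_add (Real.rpow_le_rpow measureReal_nonneg
      (measureReal_mono (fun x hx => lt_of_le_of_lt hkh hx) (measure_ne_top _ _)) (by positivity))
      (Real.rpow_le_rpow measureReal_nonneg
      (measureReal_mono (fun x hx => lt_of_le_of_lt hkh hx) (measure_ne_top _ _)) (by positivity))
  have hΦB : ∀ k, Φ k ≤ B := by
    intro k
    exact add_le_add (Real.rpow_le_rpow measureReal_nonneg
      (measureReal_mono (subset_univ _) (measure_ne_top _ _)) (by positivity))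
      (Real.rpow_le_rpow measureReal_nonneg
      (measureReal_mono (subset_univ _) (measure_ne_top _ _)) (by positivity))
  have hmain : ∀ k h, k0 ≤ k → k < h → (h - k) * Φ h ≤ C2 * Φ k ^ γ := by
    intro k h hk hkh
    obtain ⟨ξ, hξ, hen⟩ := hlev k hk
    obtain ⟨m1, m2⟩ := hξ.memLp hn hS
    have hsob := hξ.sob hn hS hCs
    set a := μ.real {x | k < v x} with ha
    set b := σ.real {x | k < t x} with hb
    have ha0 : 0 ≤ a := measureReal_nonneg
    have hb0 : 0 ≤ b := measureReal_nonneg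
    set I := ∫ x, |max (v x - k) 0| ^ p ∂μ with hI
    set J := ∫ x, |max (t x - k) 0| ^ q ∂σ with hJ
    have hI0 : 0 ≤ I := integral_nonneg fun x => Real.rpow_nonneg (abs_nonneg _) _
    have hJ0 : 0 ≤ J := integral_nonneg fun x => Real.rpow_nonneg (abs_nonneg _) _
    have h1 := hol3 (ν := μ) hpp hp'r hf0 (fun x => le_max_right (v x - k) 0) hf m1
      {x | k < v x} (fun x hx => by
        have hx' : ¬ k < v x := hx
        exact max_eq_right (by linarith))
    have h2 := hol3 (ν := σ) hqq hq'r hg0 (fun x => le_max_right (t x - k) 0) hg m2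
      {x | k < t x} (fun x hx => by
        have hx' : ¬ k < t x := hx
        exact max_eq_right (by linarith))
    have eP : PP n μ (fun x => max (v x - k) 0) = (I ^ (1 / p)) ^ 2 := PP_sq_aux hI0
    have eQ : QQ n σ (fun x => max (t x - k) 0) = (J ^ (1 / q)) ^ 2 := PP_sq_aux hJ0
    rw [eP, eQ] at hsob
    set P1 := I ^ (1 / p) with hP1
    set Q1 := J ^ (1 / q) with hQ1
    have hP0 : 0 ≤ P1 := Real.rpow_nonneg hI0 _
    have hQ0 : 0 ≤ Q1 := Real.rpow_nonneg hJ0 _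
    have haα : 0 ≤ a ^ α := Real.rpow_nonneg ha0 _
    have hbβ : 0 ≤ b ^ β := Real.rpow_nonneg hb0 _
    have h1' : ∫ x, f x * max (v x - k) 0 ∂μ ≤ K1 * a ^ α * P1 := by
      refine h1.trans (mul_le_mul_of_nonneg_right (mul_le_mul_of_nonneg_right ?_ haα) hP0)
      exact Real.rpow_le_rpow (integral_nonneg fun x => Real.rpow_nonneg (abs_nonneg _) _) hfK
        (by positivity)
    have h2' : ∫ x, g x * max (t x - k) 0 ∂σ ≤ K1 * b ^ β * Q1 := by
      refine h2.trans (mul_le_mul_of_nonneg_right (mul_le_mul_of_nonneg_right ?_ hbβ) hQ0)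
      exact Real.rpow_le_rpow (integral_nonneg fun x => Real.rpow_nonneg (abs_nonneg _) _) hgK
        (by positivity)
    have h3 : P1 ^ 2 + Q1 ^ 2 ≤ C * (K1 * a ^ α * P1 + K1 * b ^ β * Q1) :=
      hsob.trans (mul_le_mul_of_nonneg_left (hen.trans (add_le_add h1' h2')) hCnn)
    have h4 : (P1 + Q1) ^ 2 ≤ 2 * C * K1 * (a ^ α + b ^ β) * (P1 + Q1) :=
      num5 hCnn hK1nn haα hbβ hP0 hQ0 h3
    have h5 : P1 + Q1 ≤ 2 * C * K1 * (a ^ α + b ^ β) := by
      rcases (add_nonneg hP0 hQ0).lt_or_eq with h6 | h6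
      · rw [sq] at h4
        exact le_of_mul_le_mul_right h4 h6
      · rw [← h6]; positivity
    have h6 := cheb hp0 hkh m1
    have h7 := cheb hq0 hkh m2
    have h8 : (h - k) * Φ h ≤ 2 * C * K1 * (a ^ α + b ^ β) := by
      refine le_trans ?_ h5
      have : (h - k) * Φ h = (h - k) * (μ.real {x | h < v x}) ^ (1 / p) +
        (h - k) * (σ.real {x | h < t x}) ^ (1 / q) := by rw [hΦ]; ring
      rw [this]
      exact add_le_add h6 h7
    refine h8.trans ?_
    have hak : a ^ (1 / p) ≤ Φ k := le_add_of_nonneg_right (Real.rpow_nonneg hb0 _)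
    have hbk : b ^ (1 / q) ≤ Φ k := le_add_of_nonneg_left (Real.rpow_nonneg ha0 _)
    have h9 : a ^ α ≤ B ^ (α * p - γ) * Φ k ^ γ := by
      have e : a ^ α = (a ^ (1 / p)) ^ (α * p) := by
        rw [← Real.rpow_mul ha0]
        congr 1
        field_simp
      rw [e]
      refine (Real.rpow_le_rpow (Real.rpow_nonneg ha0 _) hak (by positivity)).trans ?_
      exact pow_cmp (hΦ0 k) (hΦB k) (by linarith) hγα
    have h10 : b ^ β ≤ Φ k ^ γ := by
      have e : b ^ β = (b ^ (1 / q)) ^ γ := by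
        rw [← Real.rpow_mul hb0, ← eqβ]
        congr 1
        field_simp
      rw [e]
      exact Real.rpow_le_rpow (Real.rpow_nonneg hb0 _) hbk (by linarith)
    have h11 : a ^ α + b ^ β ≤ (B ^ (α * p - γ) + 1) * Φ k ^ γ := by
      rw [add_mul, one_mul]; exact add_le_add h9 h10
    have h12 := mul_le_mul_of_nonneg_left h11 (mul_nonneg (mul_nonneg two_pos.le hCnn) hK1nn)
    have h13 : 0 ≤ Φ k ^ γ := Real.rpow_nonneg (hΦ0 k) _
    rw [hC2]
    linarith
  have hst := stampacchia Φ k0 C2 γ B hγ1 hC2nn hBnn hΦ0 hΦm (hΦB k0) hmain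
  set k1 := k0 + 2 ^ (γ / (γ - 1)) * C2 * B ^ (γ - 1) with hk1
  have hz1 : (μ.real {x | k1 < v x}) ^ (1 / p) = 0 := by
    have h1 : 0 ≤ (μ.real {x | k1 < v x}) ^ (1 / p) := Real.rpow_nonneg measureReal_nonneg _
    have h2 : 0 ≤ (σ.real {x | k1 < t x}) ^ (1 / q) := Real.rpow_nonneg measureReal_nonneg _
    have h3 : (μ.real {x | k1 < v x}) ^ (1 / p) + (σ.real {x | k1 < t x}) ^ (1 / q) = 0 := hst
    linarith
  have hz2 : (σ.real {x | k1 < t x}) ^ (1 / q) = 0 := by
    have h3 : (μ.real {x | k1 < v x}) ^ (1 / p) + (σ.real {x | k1 < t x}) ^ (1 / q) = 0 := hst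
    rw [hz1, zero_add] at h3
    exact h3
  have hm1 : μ {x | k1 < v x} = 0 := by
    have h1 := (Real.rpow_eq_zero measureReal_nonneg (by positivity)).1 hz1
    exact (measureReal_eq_zero_iff (measure_ne_top _ _)).1 h1
  have hm2 : σ {x | k1 < t x} = 0 := by
    have h1 := (Real.rpow_eq_zero measureReal_nonneg (by positivity)).1 hz2
    exact (measureReal_eq_zero_iff (measure_ne_top _ _)).1 h1
  refine ⟨?_, ?_⟩
  · rw [ae_iff]
    simpa only [not_le] using hm1
  · rw [ae_iff]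
    simpa only [not_le] using hm2

end Pool.Agent.CY
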