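import Mathlib

/-!
CY-S2-Phi. The truncations `φ_M(t) = t / (1 + t/M)` on `[0, ∞)`.

`φ_M` is increasing in `t` and in `M`, `0 ≤ φ_M ≤ min(t, M)`, `φ_M(t) → t` as `M → ∞`, `t φ_M'(t) ≤ φ_M(t)`.
The two functions `t φ_M(t)^{2s}` (test function) and `t φ_M(t)^s`.
-/

set_option autoImplicit false

open scoped ENNReal ContDiff
open MeasureTheory Set Filter Topology

namespace Pool.Agent.CY

/-- `φ_M(t) = t / (1 + t / M)`. -/
noncomputable def trc (M t : ℝ) : ℝ := t / (1 + t / M)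

theorem tr_bounds (M : ℝ) (hM : 0 < M) (t : ℝ) (ht : 0 ≤ t) : 0 ≤ trc M t ∧ trc M t ≤ t ∧ trc M t ≤ M := by
  unfold trc
  have h1 : 0 ≤ t / M := by positivity
  have h2 : 0 < 1 + t / M := by positivity
  refine ⟨by positivity, ?_, ?_⟩
  · rw [div_le_iff₀ h2]
    nlinarith
  · rw [div_le_iff₀ h2]
    have : M * (1 + t / M) = M + t := by field_simp
    rw [this]
    linarith

theorem tr_tendsto (t : ℝ) (ht : 0 ≤ t) : Tendsto (fun k : ℕ => trc (k + 1) t) atTop (𝓝 t) := by
  have h1 : Tendsto (fun k : ℕ => t * (1 / ((k : ℝ) + 1))) atTop (𝓝 (t * 0)) :=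
    tendsto_one_div_add_atTop_nhds_zero_nat.const_mul t
  have h2 : Tendsto (fun k : ℕ => t / (1 + t * (1 / ((k : ℝ) + 1)))) atTop (𝓝 (t / (1 + t * 0))) :=
    tendsto_const_nhds.div (tendsto_const_nhds.add h1) (by simp)
  rw [mul_zero, add_zero, div_one] at h2
  refine h2.congr fun k => ?_
  unfold trc
  rw [mul_one_div]

theorem tr_mono (t : ℝ) (ht : 0 ≤ t) : Monotone (fun k : ℕ => trc (k + 1) t) := by
  intro k l hkl
  unfold trc
  have h1 : (0 : ℝ) < (k : ℝ) + 1 := by positivity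
  have h2 : (k : ℝ) + 1 ≤ (l : ℝ) + 1 := by
    have : (k : ℝ) ≤ l := Nat.cast_le.2 hkl
    linarith
  have h3 : t / ((l : ℝ) + 1) ≤ t / ((k : ℝ) + 1) := div_le_div_of_nonneg_left ht h1 h2
  exact div_le_div_of_nonneg_left ht (by positivity) (by linarith)

/-- derivative of `trc` -/
theorem tr_hasDerivAt (M : ℝ) (hM : 0 < M) (t : ℝ) (ht : -M < t) :
    HasDerivAt (trc M) (1 / (1 + t / M) ^ 2) t := by
  have h2 : 0 < 1 + t / M := by
    rw [show 1 + t / M = (M + t) / M by field_simp]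
    exact div_pos (by linarith) hM
  have h3 : HasDerivAt (fun t : ℝ => 1 + t / M) (1 / M) t :=
    ((hasDerivAt_id t).div_const M).const_add 1
  have h4 := (hasDerivAt_id t).div h3 h2.ne'
  have e : (1 * (1 + t / M) - id t * (1 / M)) / (1 + t / M) ^ 2 = 1 / (1 + t / M) ^ 2 := by
    congr 1
    simp only [id]
    ring
  rw [e] at h4
  exact h4

theorem tr_continuousOn (M : ℝ) (hM : 0 < M) : ContinuousOn (trc M) (Ici 0) := fun t ht =>
  (tr_hasDerivAt M hM t (by have : 0 ≤ t := ht; linarith)).continuousAt.continuousWithinAt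

/-- the common computation: `g(t) = t φ(t)^a` on `[0, ∞)` -/
theorem gen_C1 (M a : ℝ) (hM : 0 < M) (ha : 0 < a) :
    ContDiffOn ℝ 1 (fun t => t * trc M t ^ a) (Ici 0) ∧
    ∀ t ∈ Ici (0 : ℝ), derivWithin (fun t => t * trc M t ^ a) (Ici 0) t =
      trc M t ^ a * (1 + a / (1 + t / M)) := by
  have hU : UniqueDiffOn ℝ (Ici (0 : ℝ)) := uniqueDiffOn_Ici 0
  have hder : ∀ t ∈ Ici (0 : ℝ), HasDerivWithinAt (fun t => t * trc M t ^ a)
      (trc M t ^ a * (1 + a / (1 + t / M))) (Ici 0) t := by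
    intro t ht
    have ht' : 0 ≤ t := ht
    rcases ht'.eq_or_lt with h0 | hpos
    · subst h0
      have e0 : trc M 0 = 0 := by simp [trc]
      rw [e0, Real.zero_rpow ha.ne', zero_mul, hasDerivWithinAt_iff_tendsto_slope]
      have hc : ContinuousWithinAt (fun t => trc M t ^ a) (Ici 0) 0 :=
        (tr_continuousOn M hM 0 (by simp)).rpow_const (Or.inr ha.le)
      have hc' : Tendsto (fun t => trc M t ^ a) (𝓝[Ici 0 \ {0}] 0) (𝓝 0) := by
        have := hc.tendsto
        rw [e0, Real.zero_rpow ha.ne'] at this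
        exact this.mono_left (nhdsWithin_mono _ diff_subset)
      refine hc'.congr' ?_
      filter_upwards [self_mem_nhdsWithin] with t ht
      have ht0 : t ≠ 0 := ht.2
      rw [slope_def_field]
      field_simp
      ring
    · obtain ⟨b0, b1, b2⟩ := tr_bounds M hM t ht'
      have hd : (0 : ℝ) < 1 + t / M := by positivity
      have htr : 0 < trc M t := by
        unfold trc
        positivity
      have h1 := tr_hasDerivAt M hM t (by linarith)
      have h2 := (hasDerivAt_id t).mul (h1.rpow_const (p := a) (Or.inl htr.ne'))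
      have e : 1 * trc M t ^ a + id t * (1 / (1 + t / M) ^ 2 * a * trc M t ^ (a - 1)) =
          trc M t ^ a * (1 + a / (1 + t / M)) := by
        have e1 : trc M t ^ a = trc M t ^ (a - 1) * trc M t := by
          rw [Real.rpow_sub_one htr.ne']
          field_simp
        have e2 : t = trc M t * (1 + t / M) := by
          unfold trc
          field_simp
        rw [e1]
        have e3 : id t * (1 / (1 + t / M) ^ 2 * a * trc M t ^ (a - 1)) =
            (trc M t * (1 + t / M)) * (1 / (1 + t / M) ^ 2 * a * trc M t ^ (a - 1)) := by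
          rw [← e2]
          rfl
        rw [e3]
        field_simp
      rw [e] at h2
      exact h2.hasDerivWithinAt
  have hdw : ∀ t ∈ Ici (0 : ℝ), derivWithin (fun t => t * trc M t ^ a) (Ici 0) t =
      trc M t ^ a * (1 + a / (1 + t / M)) := fun t ht => (hder t ht).derivWithin (hU t ht)
  refine ⟨?_, hdw⟩
  rw [contDiffOn_one_iff_derivWithin hU]
  refine ⟨fun t ht => (hder t ht).differentiableWithinAt, ?_⟩
  refine ContinuousOn.congr ?_ hdw
  refine ContinuousOn.mul ?_ ?_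
  · exact (tr_continuousOn M hM).rpow_const fun t _ => Or.inr ha.le
  · refine continuousOn_const.add (continuousOn_const.div ?_ ?_)
    · fun_prop
    · intro t ht
      have ht' : 0 ≤ t := ht
      positivity

/-- The test function: `C^1` on `[0, ∞)`, derivative between `φ^{2s}` and `(1 + 2s) M^{2s}`. -/
theorem test_C1 (M s : ℝ) (hM : 0 < M) (hs : 0 < s) :
    ContDiffOn ℝ 1 (fun t => t * trc M t ^ (2 * s)) (Ici 0) ∧
    (∀ t ∈ Ici (0 : ℝ), trc M t ^ (2 * s) ≤ derivWithin (fun t => t * trc M t ^ (2 * s)) (Ici 0) t ∧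
      derivWithin (fun t => t * trc M t ^ (2 * s)) (Ici 0) t ≤ (1 + 2 * s) * M ^ (2 * s)) := by
  obtain ⟨h1, h2⟩ := gen_C1 M (2 * s) hM (by positivity)
  refine ⟨h1, fun t ht => ?_⟩
  have ht' : 0 ≤ t := ht
  obtain ⟨b0, b1, b2⟩ := tr_bounds M hM t ht
  have hd : (0 : ℝ) < 1 + t / M := by positivity
  have hd1 : (1 : ℝ) ≤ 1 + t / M := by
    have : 0 ≤ t / M := by positivity
    linarith
  have e1 : 0 ≤ 2 * s / (1 + t / M) := by positivity
  have e2 : 2 * s / (1 + t / M) ≤ 2 * s := div_le_self (by positivity) hd1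
  have e3 : 0 ≤ trc M t ^ (2 * s) := Real.rpow_nonneg b0 _
  have e4 : trc M t ^ (2 * s) ≤ M ^ (2 * s) := Real.rpow_le_rpow b0 b2 (by positivity)
  rw [h2 t ht]
  refine ⟨by nlinarith, ?_⟩
  calc trc M t ^ (2 * s) * (1 + 2 * s / (1 + t / M)) ≤ M ^ (2 * s) * (1 + 2 * s) := by
        apply mul_le_mul e4 (by linarith) (by positivity) (by positivity)
    _ = _ := by ring

/-- The function `t φ^s`: `0 ≤` derivative `≤ (1 + s) φ^s ≤ (1 + s) M^s`. -/
theorem half_C1 (M s : ℝ) (hM : 0 < M) (hs : 0 < s) :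
    ContDiffOn ℝ 1 (fun t => t * trc M t ^ s) (Ici 0) ∧
    (∀ t ∈ Ici (0 : ℝ), 0 ≤ derivWithin (fun t => t * trc M t ^ s) (Ici 0) t ∧
      derivWithin (fun t => t * trc M t ^ s) (Ici 0) t ≤ (1 + s) * trc M t ^ s ∧
      derivWithin (fun t => t * trc M t ^ s) (Ici 0) t ≤ (1 + s) * M ^ s) := by
  obtain ⟨h1, h2⟩ := gen_C1 M s hM hs
  refine ⟨h1, fun t ht => ?_⟩
  have ht' : 0 ≤ t := ht
  obtain ⟨b0, b1, b2⟩ := tr_bounds M hM t ht
  have hd1 : (1 : ℝ) ≤ 1 + t / M := by
    have : 0 ≤ t / M := by positivity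
    linarith
  have e1 : 0 ≤ s / (1 + t / M) := by positivity
  have e2 : s / (1 + t / M) ≤ s := div_le_self (by positivity) hd1
  have e3 : 0 ≤ trc M t ^ s := Real.rpow_nonneg b0 _
  have e4 : trc M t ^ s ≤ M ^ s := Real.rpow_le_rpow b0 b2 (by positivity)
  rw [h2 t ht]
  refine ⟨by positivity, ?_, ?_⟩
  · rw [mul_comm]
    exact mul_le_mul_of_nonneg_right (by linarith) e3
  · have h5 : trc M t ^ s * (1 + s / (1 + t / M)) ≤ M ^ s * (1 + s) :=
      mul_le_mul e4 (by linarith) (by positivity) (by positivity)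
    linarith

end Pool.Agent.CY
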