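import Pool.Agent.CY.S2.ExtE
import Pool.Agent.CY.S2.Comp2
import Pool.Agent.CY.S2.Phi

/-!
CY-S2-M1a. One step of the Trudinger / Brezis-Kato argument.

Test with `w φ_M(w)^{2s}` (`InH.comp_right` with `k = 0`; `w ≥ 0` a.e.; where `w = 0` the factor is `0`
anyway since `s > 0`).  Let `ψ = w φ_M(w)^s`.  `c_n ∫ φ^{2s} ‖ζ‖² ≤ ∫ (M₀ + |lam| w^{p-2}) ψ² +
∫_σ (2 M₀ + |kap| τ^{q-2}) ψ²` and `DD (grad ψ) ≤ (1+s)² ∫ φ^{2s} ‖ζ‖²`.  Split
`w^{p-2} ≤ N^{p-2} + w^{p-2} 1_{w > N}` and use Hölder: `∫_{w > N} w^{p-2} ψ² ≤ (∫_{w > N} w^p)^{(p-2)/p} P(ψ)`,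
which is absorbed by `InH.sob` for `N` large (independent of `M`).  Same on the boundary; the remaining
boundary term `∫_σ ψ²` is absorbed by trace interpolation.  Result: `DD (grad ψ) + ∫ ψ² ≤ C ∫ w^{2(1+s)}` with
`C` independent of `M`, so `P(ψ) + Q(ψ) ≤ C'`; let `M → ∞` (monotone convergence).
-/

set_option autoImplicit false

open scoped ENNReal ContDiff
open MeasureTheory Set Filter Topology

namespace Pool.Agent.CY

variable {X : Type} [TopologicalSpace X] [CompactSpace X] [MeasurableSpace X] [BorelSpace X]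
  {F : Type} [NormedAddCommGroup F] [InnerProductSpace ℝ F] [FiniteDimensional ℝ F]
  {n : ℕ} {μ σ : Measure X} {A : Set (X → ℝ)} {D : (X → ℝ) → X → F}

section general

variable {α : Type} [MeasurableSpace α] {ν : Measure α}

/-- The cut power `t ↦ |t|^r 1_{|t| > N}`. -/
noncomputable def cutp (N r t : ℝ) : ℝ := if N < |t| then |t| ^ r else 0

theorem cutp_meas (N r : ℝ) : Measurable (cutp N r) := by
  unfold cutp
  exact Measurable.ite (measurableSet_lt measurable_const measurable_norm)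
    (measurable_norm.pow_const r) measurable_const

theorem cutp_nonneg (N r t : ℝ) : 0 ≤ cutp N r t := by
  unfold cutp; split_ifs
  · positivity
  · exact le_rfl

theorem cutp_le (N r t : ℝ) : cutp N r t ≤ |t| ^ r := by
  unfold cutp; split_ifs
  · exact le_rfl
  · positivity

theorem integrable_rpow_of_memLp {r : ℝ} (hr : 0 < r) {w : α → ℝ} (hw : MemLp w (ENNReal.ofReal r) ν) :
    Integrable (fun x => |w x| ^ r) ν := by
  have h := hw.integrable_norm_rpow (by simpa using hr) ENNReal.ofReal_ne_top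
  rw [ENNReal.toReal_ofReal hr.le] at h
  exact h

theorem tail_int {r : ℝ} (hr : 0 < r) {w : α → ℝ} (hw : MemLp w (ENNReal.ofReal r) ν) {ε : ℝ} (hε : 0 < ε) :
    ∃ N : ℝ, 0 ≤ N ∧ ∫ x, cutp N r (w x) ∂ν ≤ ε := by
  have hint := integrable_rpow_of_memLp hr hw
  have ht : Tendsto (fun k : ℕ => ∫ x, cutp (k : ℝ) r (w x) ∂ν) atTop (𝓝 (∫ x, (0 : ℝ) ∂ν)) := by
    refine tendsto_integral_of_dominated_convergence (fun x => |w x| ^ r) (fun k => ?_) hint (fun k => ?_) ?_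
    · exact ((cutp_meas _ _).comp_aemeasurable hw.1.aemeasurable).aestronglyMeasurable
    · refine Eventually.of_forall fun x => ?_
      rw [Real.norm_eq_abs, abs_of_nonneg (cutp_nonneg _ _ _)]
      exact cutp_le _ _ _
    · refine Eventually.of_forall fun x => ?_
      refine tendsto_const_nhds.congr' ?_
      filter_upwards [Filter.tendsto_atTop.1 tendsto_natCast_atTop_atTop (|w x|)] with k hk
      unfold cutp
      rw [if_neg (not_lt.2 hk)]
  rw [integral_zero] at ht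
  obtain ⟨k, hk⟩ := ((ht.eventually_lt_const hε)).exists
  exact ⟨k, Nat.cast_nonneg k, hk.le⟩

theorem split_int {r : ℝ} (hr : 2 < r) {w Ψ : α → ℝ} (hw : MemLp w (ENNReal.ofReal r) ν)
    (hΨ : MemLp Ψ (ENNReal.ofReal r) ν) (hΨ2 : Integrable (fun x => Ψ x ^ 2) ν) {N : ℝ} (hN : 0 ≤ N) :
    ∫ x, |w x| ^ (r - 2) * Ψ x ^ 2 ∂ν ≤ N ^ (r - 2) * ∫ x, Ψ x ^ 2 ∂ν +
      (∫ x, cutp N r (w x) ∂ν) ^ ((r - 2) / r) * (∫ x, |Ψ x| ^ r ∂ν) ^ (2 / r) := by
  have hr0 : 0 < r := by linarith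
  have hr2 : 0 < r - 2 := by linarith
  have hconj : (r / (r - 2)).HolderConjugate (r / 2) := by
    rw [Real.holderConjugate_iff]
    refine ⟨by rw [lt_div_iff₀ hr2]; linarith, ?_⟩
    field_simp
    ring
  -- the two factors
  have hf1 : AEStronglyMeasurable (fun x => cutp N (r - 2) (w x)) ν :=
    ((cutp_meas _ _).comp_aemeasurable hw.1.aemeasurable).aestronglyMeasurable
  have hfp : MemLp (fun x => cutp N (r - 2) (w x)) (ENNReal.ofReal (r / (r - 2))) ν := by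
    have h1 := hw.norm_rpow_div (ENNReal.ofReal (r - 2))
    rw [← ENNReal.ofReal_div_of_pos hr2, ENNReal.toReal_ofReal hr2.le] at h1
    refine h1.mono hf1 (Eventually.of_forall fun x => ?_)
    rw [Real.norm_eq_abs, abs_of_nonneg (cutp_nonneg _ _ _), Real.norm_eq_abs, Real.norm_eq_abs,
      abs_of_nonneg (by positivity)]
    exact cutp_le _ _ _
  have hgp : MemLp (fun x => Ψ x ^ 2) (ENNReal.ofReal (r / 2)) ν := by
    have h1 := hΨ.norm_rpow_div (ENNReal.ofReal 2)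
    rw [← ENNReal.ofReal_div_of_pos (by norm_num : (0 : ℝ) < 2), ENNReal.toReal_ofReal (by norm_num)] at h1
    refine h1.ae_eq (Eventually.of_forall fun x => ?_)
    simp only [Real.norm_eq_abs]
    rw [Real.rpow_two, sq_abs]
  have hH := integral_mul_le_Lp_mul_Lq_of_nonneg hconj
    (Eventually.of_forall fun x => cutp_nonneg N (r - 2) (w x))
    (Eventually.of_forall fun x => sq_nonneg (Ψ x)) hfp hgp
  have e1 : ∀ x, cutp N (r - 2) (w x) ^ (r / (r - 2)) = cutp N r (w x) := by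
    intro x
    unfold cutp
    split_ifs with h
    · rw [← Real.rpow_mul (abs_nonneg _)]
      congr 1
      field_simp
    · rw [Real.zero_rpow (by positivity)]
  have e2 : ∀ x, (Ψ x ^ 2) ^ (r / 2) = |Ψ x| ^ r := by
    intro x
    rw [← sq_abs, ← Real.rpow_natCast, ← Real.rpow_mul (abs_nonneg _)]
    congr 1
    push_cast
    field_simp
  have e3 : 1 / (r / (r - 2)) = (r - 2) / r := by field_simp
  have e4 : 1 / (r / 2) = 2 / r := by field_simp
  simp only [e1, e2] at hH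
  rw [e3, e4] at hH
  -- integrability of the product
  have hprod : Integrable (fun x => cutp N (r - 2) (w x) * Ψ x ^ 2) ν := by
    have : ENNReal.HolderTriple (ENNReal.ofReal (r / (r - 2))) (ENNReal.ofReal (r / 2)) 1 := by
      have := hconj.ennrealOfReal
      exact this
    have h := hgp.mul hfp (r := 1)
    exact memLp_one_iff_integrable.1 h
  have hle : ∫ x, |w x| ^ (r - 2) * Ψ x ^ 2 ∂ν ≤
      ∫ x, (N ^ (r - 2) * Ψ x ^ 2 + cutp N (r - 2) (w x) * Ψ x ^ 2) ∂ν := by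
    refine integral_mono_of_nonneg (Eventually.of_forall fun x => by positivity)
      ((hΨ2.const_mul _).add hprod) (Eventually.of_forall fun x => ?_)
    simp only
    rw [← add_mul]
    refine mul_le_mul_of_nonneg_right ?_ (sq_nonneg _)
    unfold cutp
    split_ifs with h
    · have : 0 ≤ N ^ (r - 2) := by positivity
      linarith
    · rw [add_zero]
      exact Real.rpow_le_rpow (abs_nonneg _) (not_lt.1 h) hr2.le
  rw [integral_add (hΨ2.const_mul _) hprod, integral_const_mul] at hle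
  linarith

theorem tail_int' {r : ℝ} (hr : 2 < r) {w : α → ℝ} (hw : MemLp w (ENNReal.ofReal r) ν) {ε : ℝ} (hε : 0 < ε) :
    ∃ N : ℝ, 0 ≤ N ∧ (∫ x, cutp N r (w x) ∂ν) ^ ((r - 2) / r) ≤ ε := by
  have hr0 : 0 < r := by linarith
  have hr2 : 0 < r - 2 := by linarith
  obtain ⟨N, hN, hle⟩ := tail_int hr0 hw (ε := ε ^ (r / (r - 2))) (by positivity)
  refine ⟨N, hN, ?_⟩
  have h0 : 0 ≤ ∫ x, cutp N r (w x) ∂ν := integral_nonneg fun x => cutp_nonneg _ _ _
  refine (Real.rpow_le_rpow h0 hle (by positivity)).trans (le_of_eq ?_)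
  rw [← Real.rpow_mul hε.le]
  have : r / (r - 2) * ((r - 2) / r) = 1 := by field_simp
  rw [this, Real.rpow_one]

theorem tr_meas (K : ℝ) : Measurable (trc K) := by
  unfold trc
  fun_prop

theorem half_meas (K s : ℝ) : Measurable (fun t : ℝ => max t 0 * trc K (max t 0) ^ s) :=
  (measurable_id.max measurable_const).mul
    (((tr_meas K).comp (measurable_id.max measurable_const)).pow_const s)

/-- Bounds for the truncations imply the bound for the function. -/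
theorem memLp_of_trunc {r s : ℝ} (hr : 0 < r) (hs : 0 < s) {w : α → ℝ} (hwm : AEStronglyMeasurable w ν)
    (h0 : ∀ᵐ x ∂ν, 0 ≤ w x) {C : ℝ≥0∞} (hC : C ≠ ⊤)
    (h : ∀ k : ℕ, ∫⁻ x, ENNReal.ofReal ((max (w x) 0 * trc (k + 1) (max (w x) 0) ^ s) ^ r) ∂ν ≤ C) :
    MemLp w (ENNReal.ofReal (r * (1 + s))) ν := by
  have hrs : 0 < r * (1 + s) := by positivity
  refine ⟨hwm, ?_⟩
  rw [eLpNorm_lt_top_iff_lintegral_rpow_enorm_lt_top (by simpa using hrs) ENNReal.ofReal_ne_top,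
    ENNReal.toReal_ofReal hrs.le]
  have hlim : ∀ᵐ x ∂ν, ‖w x‖ₑ ^ (r * (1 + s)) =
      liminf (fun k : ℕ => ENNReal.ofReal ((max (w x) 0 * trc (k + 1) (max (w x) 0) ^ s) ^ r)) atTop := by
    filter_upwards [h0] with x hx
    have h1 : Tendsto (fun k : ℕ => (max (w x) 0 * trc (k + 1) (max (w x) 0) ^ s) ^ r) atTop
        (𝓝 ((w x * w x ^ s) ^ r)) := by
      have h2 := tr_tendsto (max (w x) 0) (le_max_right _ _)
      rw [max_eq_left hx] at h2 ⊢
      exact ((h2.rpow_const (Or.inr hs.le)).const_mul (w x)).rpow_const (Or.inr hr.le)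
    have h3 := (ENNReal.continuous_ofReal.tendsto _).comp h1
    have h4 : liminf (fun k : ℕ => ENNReal.ofReal ((max (w x) 0 * trc (k + 1) (max (w x) 0) ^ s) ^ r)) atTop
        = ENNReal.ofReal ((w x * w x ^ s) ^ r) := h3.liminf_eq
    rw [h4, Real.enorm_eq_ofReal hx, ENNReal.ofReal_rpow_of_nonneg hx hrs.le]
    congr 1
    have h5 : w x * w x ^ s = w x ^ (1 + s) := by
      rw [Real.rpow_add_of_nonneg hx zero_le_one hs.le, Real.rpow_one]
    rw [h5, ← Real.rpow_mul hx]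
    congr 1
    ring
  rw [lintegral_congr_ae hlim]
  refine lt_of_le_of_lt (lintegral_liminf_le' fun k => ?_) ?_
  · exact (((half_meas (k + 1) s).pow_const r).comp_aemeasurable hwm.aemeasurable).ennreal_ofReal
  · refine lt_of_le_of_lt ?_ hC.lt_top
    refine liminf_le_of_le (by isBoundedDefault) ?_
    intro b hb
    obtain ⟨k, hk⟩ := hb.exists
    exact hk.trans (h k)

theorem pt_sq (K s t : ℝ) (ht : 0 ≤ t) (hK : 0 < K) :
    t * (t * trc K t ^ (2 * s)) = (t * trc K t ^ s) ^ 2 := by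
  have h := (tr_bounds K hK t ht).1
  have e : trc K t ^ (2 * s) = (trc K t ^ s) ^ 2 := by
    rw [← Real.rpow_natCast, ← Real.rpow_mul h]
    congr 1
    push_cast
    ring
  rw [e]
  ring

theorem pt_pow (K s t r : ℝ) (ht : 0 ≤ t) (hK : 0 < K) :
    |t| ^ (r - 1) * (t * trc K t ^ (2 * s)) = |t| ^ (r - 2) * (t * trc K t ^ s) ^ 2 := by
  rw [← pt_sq K s t ht hK]
  rcases ht.eq_or_lt with h0 | h0
  · rw [← h0]; simp
  · have : |t| ^ (r - 1) = |t| ^ (r - 2) * t := by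
      rw [abs_of_nonneg ht, ← Real.rpow_add_one h0.ne']
      congr 1
      ring
    rw [this]
    ring

end general

/-- The arithmetic of the absorption. -/
theorem absorb {D0 I0 J0 P0 Q0 κ lam kap a1 a2 e1 e2 Cs Ct ε' M I : ℝ} (hκ : 0 < κ) (hD : 0 ≤ D0) (hI : 0 ≤ I0)
    (hP : 0 ≤ P0) (hQ : 0 ≤ Q0) (hlam : 0 ≤ lam) (hkap : 0 ≤ kap) (ha2 : 0 ≤ a2)
    (hM : 0 ≤ M) (hsob : P0 + Q0 ≤ Cs * (D0 + I0)) (htr : J0 ≤ ε' * D0 + Ct * I0)
    (hc : D0 ≤ κ * (lam * (a1 * I0 + e1 * P0) + kap * (a2 * J0 + e2 * Q0) + M * I0 + 2 * (M * J0)))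
    (he1 : e1 ≤ 1 / (4 * (|Cs| + 1)) / (κ * lam + 1)) (he2 : e2 ≤ 1 / (4 * (|Cs| + 1)) / (κ * kap + 1))
    (hε' : ε' ≤ 1 / (4 * (κ * (kap * a2 + 2 * M) + 1)))
    (hII : I0 ≤ I) :
    P0 + Q0 ≤ |Cs| * (2 * (|κ * (lam * a1 + M)| + |κ * (kap * a2 + 2 * M) * Ct| + 1) + 1) * I := by
  set δ : ℝ := 1 / (4 * (|Cs| + 1)) with hδ
  have hCs := abs_nonneg Cs
  have hδ0 : 0 < δ := by positivity
  have hδCs : δ * |Cs| ≤ 1 / 4 := by
    rw [hδ, div_mul_eq_mul_div, one_mul, div_le_div_iff₀ (by positivity) (by norm_num)]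
    linarith
  have hk1 : κ * lam * e1 ≤ δ := by
    have h1 : κ * lam * e1 ≤ κ * lam * (δ / (κ * lam + 1)) :=
      mul_le_mul_of_nonneg_left he1 (by positivity)
    refine h1.trans ?_
    rw [mul_div_assoc', div_le_iff₀ (by positivity)]
    nlinarith [mul_nonneg hκ.le hlam]
  have hk2 : κ * kap * e2 ≤ δ := by
    have h1 : κ * kap * e2 ≤ κ * kap * (δ / (κ * kap + 1)) :=
      mul_le_mul_of_nonneg_left he2 (by positivity)
    refine h1.trans ?_
    rw [mul_div_assoc', div_le_iff₀ (by positivity)]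
    nlinarith [mul_nonneg hκ.le hkap]
  set b : ℝ := κ * (kap * a2 + 2 * M) with hb
  have hb0 : 0 ≤ b := by positivity
  have hk3 : b * ε' ≤ 1 / 4 := by
    have h1 : b * ε' ≤ b * (1 / (4 * (b + 1))) := mul_le_mul_of_nonneg_left hε' hb0
    refine h1.trans ?_
    rw [mul_one_div, div_le_div_iff₀ (by positivity) (by norm_num)]
    linarith
  have hPQ : P0 + Q0 ≤ |Cs| * (D0 + I0) :=
    hsob.trans (mul_le_mul_of_nonneg_right (le_abs_self _) (by positivity))
  have hJ : b * J0 ≤ b * ε' * D0 + b * Ct * I0 := by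
    have := mul_le_mul_of_nonneg_left htr hb0
    linarith
  have hstep : D0 ≤ κ * (lam * a1 + M) * I0 + κ * lam * e1 * P0 + κ * kap * e2 * Q0 + b * J0 := by
    refine hc.trans (le_of_eq ?_)
    rw [hb]; ring
  have h1 : κ * lam * e1 * P0 ≤ δ * P0 := mul_le_mul_of_nonneg_right hk1 hP
  have h2 : κ * kap * e2 * Q0 ≤ δ * Q0 := mul_le_mul_of_nonneg_right hk2 hQ
  have h3 : b * ε' * D0 ≤ 1 / 4 * D0 := mul_le_mul_of_nonneg_right hk3 hD
  have h4 : δ * (P0 + Q0) ≤ 1 / 4 * (D0 + I0) := by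
    have := mul_le_mul_of_nonneg_left hPQ hδ0.le
    rw [← mul_assoc] at this
    exact this.trans (mul_le_mul_of_nonneg_right hδCs (by positivity))
  have h5 : κ * (lam * a1 + M) * I0 ≤ |κ * (lam * a1 + M)| * I0 :=
    mul_le_mul_of_nonneg_right (le_abs_self _) hI
  have h6 : b * Ct * I0 ≤ |b * Ct| * I0 := mul_le_mul_of_nonneg_right (le_abs_self _) hI
  set B1 := |κ * (lam * a1 + M)| with hB1
  set B2 := |b * Ct| with hB2
  have hB1n : 0 ≤ B1 := abs_nonneg _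
  have hB2n : 0 ≤ B2 := abs_nonneg _
  have h7 : D0 ≤ 2 * (B1 + B2 + 1) * I0 := by nlinarith
  have h8 : D0 + I0 ≤ (2 * (B1 + B2 + 1) + 1) * I0 := by linarith
  have h9 : (2 * (B1 + B2 + 1) + 1) * I0 ≤ (2 * (B1 + B2 + 1) + 1) * I :=
    mul_le_mul_of_nonneg_left hII (by positivity)
  calc P0 + Q0 ≤ |Cs| * (D0 + I0) := hPQ
    _ ≤ |Cs| * ((2 * (B1 + B2 + 1) + 1) * I) := mul_le_mul_of_nonneg_left (h8.trans h9) hCs
    _ = _ := by ring

/-- The bound for the truncated functions, uniform in the truncation level. -/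
theorem step_bound (hn : 3 ≤ n) (hS : IsSob n μ σ A D) {R H : X → ℝ} (hR : Measurable R)
    (hH : Measurable H) {M : ℝ} (hRM : ∀ x, |R x| ≤ M) (hHM : ∀ x, |H x| ≤ M)
    {lam kap : ℝ} {w τ : X → ℝ} {ζ : X → F} (h : InH μ σ A D w ζ τ)
    (hE : WeakEq n μ σ R H A D lam kap w ζ τ) (hw : ∀ᵐ x ∂μ, 0 ≤ w x) (hτ : ∀ᵐ x ∂σ, 0 ≤ τ x) (s : ℝ)
    (hs : 0 < s) (hint : MemLp w (ENNReal.ofReal (2 * (1 + s))) μ) :
    ∃ C : ℝ, 0 ≤ C ∧ ∀ K : ℝ, 0 < K →
      (MemLp (fun x => max (w x) 0 * trc K (max (w x) 0) ^ s) (ENNReal.ofReal (pp n)) μ ∧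
      MemLp (fun x => max (τ x) 0 * trc K (max (τ x) 0) ^ s) (ENNReal.ofReal (qq n)) σ) ∧
      PP n μ (fun x => max (w x) 0 * trc K (max (w x) 0) ^ s) +
      QQ n σ (fun x => max (τ x) 0 * trc K (max (τ x) 0) ^ s) ≤ C := by
  obtain ⟨hp2, -, -, -, -⟩ := pp_facts (n := n) hn
  obtain ⟨hq2, -, -, -, -⟩ := qq_facts (n := n) hn
  have hcn := cn_pos (n := n) hn
  obtain ⟨hwp, hτq⟩ := h.memLp hn hS
  obtain ⟨Cs, hCs⟩ := hS.sob
  set κ : ℝ := (1 + s) ^ 2 / cn n with hκd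
  have hκ : 0 < κ := by positivity
  set δ : ℝ := 1 / (4 * (|Cs| + 1)) with hδd
  have hδ : 0 < δ := by positivity
  have hM0 : 0 ≤ |M| := abs_nonneg M
  obtain ⟨N1, hN1, ht1⟩ := tail_int' hp2 hwp (ε := δ / (κ * |lam| + 1)) (by positivity)
  obtain ⟨N2, hN2, ht2⟩ := tail_int' hq2 hτq (ε := δ / (κ * |kap| + 1)) (by positivity)
  set e1 := (∫ x, cutp N1 (pp n) (w x) ∂μ) ^ ((pp n - 2) / pp n) with he1
  set e2 := (∫ x, cutp N2 (qq n) (τ x) ∂σ) ^ ((qq n - 2) / qq n) with he2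
  set a1 := N1 ^ (pp n - 2) with ha1
  set a2 := N2 ^ (qq n - 2) with ha2
  have ha2n : 0 ≤ a2 := by positivity
  obtain ⟨Ct, hCt⟩ := hS.tr (1 / (4 * (κ * (|kap| * a2 + 2 * |M|) + 1))) (by positivity)
  set I : ℝ := ∫ x, |w x| ^ (2 * (1 + s)) ∂μ with hI
  have hI0 : 0 ≤ I := integral_nonneg fun x => by positivity
  refine ⟨|Cs| * (2 * (|κ * (|lam| * a1 + |M|)| + |κ * (|kap| * a2 + 2 * |M|) * Ct| + 1) + 1) * I,
    by positivity, fun K hK => ?_⟩
  obtain ⟨hf, hf'⟩ := test_C1 K s hK hs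
  obtain ⟨hg, hg'⟩ := half_C1 K s hK hs
  have hψ := h.comp_right hS 0 _ hf ((1 + 2 * s) * K ^ (2 * s)) (fun t ht => by
    rw [abs_of_nonneg]
    · exact (hf' t ht).2
    · exact le_trans (Real.rpow_nonneg (tr_bounds K hK t ht).1 _) (hf' t ht).1)
  have hΨ := h.comp_right hS 0 _ hg ((1 + s) * K ^ s) (fun t ht => by
    rw [abs_of_nonneg (hg' t ht).1]
    exact (hg' t ht).2.2)
  obtain ⟨hΨp, hΘq⟩ := hΨ.memLp hn hS
  refine ⟨⟨hΨp, hΘq⟩, ?_⟩
  have hsobK := hΨ.sob hn hS hCs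
  have htrK := hΨ.tr hn hS hCt
  have hext := weakEq_ext hn hS hR hH hRM hHM h hE hψ
  have hΨ2 : Integrable (fun x => (max (w x) 0 * trc K (max (w x) 0) ^ s) ^ 2) μ := hΨ.memw.integrable_sq
  have hΘ2 : Integrable (fun x => (max (τ x) 0 * trc K (max (τ x) 0) ^ s) ^ 2) σ := hΨ.memt.integrable_sq
  have hs1 := split_int hp2 hwp hΨp hΨ2 hN1
  have hs2 := split_int hq2 hτq hΘq hΘ2 hN2
  -- the terms of the weak equation
  have t1 : ∫ x, |w x| ^ (pp n - 1) * (max (w x) 0 * trc K (max (w x) 0) ^ (2 * s)) ∂μ =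
      ∫ x, |w x| ^ (pp n - 2) * (max (w x) 0 * trc K (max (w x) 0) ^ s) ^ 2 ∂μ := by
    refine integral_congr_ae ?_
    filter_upwards [hw] with x hx
    rw [max_eq_left hx]
    exact pt_pow K s (w x) (pp n) hx hK
  have t2 : ∫ x, |τ x| ^ (qq n - 1) * (max (τ x) 0 * trc K (max (τ x) 0) ^ (2 * s)) ∂σ =
      ∫ x, |τ x| ^ (qq n - 2) * (max (τ x) 0 * trc K (max (τ x) 0) ^ s) ^ 2 ∂σ := by
    refine integral_congr_ae ?_
    filter_upwards [hτ] with x hx
    rw [max_eq_left hx]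
    exact pt_pow K s (τ x) (qq n) hx hK
  have t3 : |∫ x, R x * w x * (max (w x) 0 * trc K (max (w x) 0) ^ (2 * s)) ∂μ| ≤
      |M| * ∫ x, (max (w x) 0 * trc K (max (w x) 0) ^ s) ^ 2 ∂μ := by
    rw [← integral_const_mul, ← Real.norm_eq_abs]
    refine norm_integral_le_of_norm_le (hΨ2.const_mul _) ?_
    filter_upwards [hw] with x hx
    rw [max_eq_left hx, mul_assoc, pt_sq K s (w x) hx hK, Real.norm_eq_abs, abs_mul,
      abs_of_nonneg (sq_nonneg (w x * trc K (w x) ^ s))]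
    exact mul_le_mul_of_nonneg_right ((hRM x).trans (le_abs_self _)) (sq_nonneg _)
  have t4 : |∫ x, H x * τ x * (max (τ x) 0 * trc K (max (τ x) 0) ^ (2 * s)) ∂σ| ≤
      |M| * ∫ x, (max (τ x) 0 * trc K (max (τ x) 0) ^ s) ^ 2 ∂σ := by
    rw [← integral_const_mul, ← Real.norm_eq_abs]
    refine norm_integral_le_of_norm_le (hΘ2.const_mul _) ?_
    filter_upwards [hτ] with x hx
    rw [max_eq_left hx, mul_assoc, pt_sq K s (τ x) hx hK, Real.norm_eq_abs, abs_mul,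
      abs_of_nonneg (sq_nonneg (τ x * trc K (τ x) ^ s))]
    exact mul_le_mul_of_nonneg_right ((hHM x).trans (le_abs_self _)) (sq_nonneg _)
  -- the gradient term
  have hinner : Integrable (fun x => inner ℝ (ζ x)
      ((if 0 < w x then derivWithin (fun t => t * trc K t ^ (2 * s)) (Ici 0) (w x) else 0) • ζ x)) μ := by
    have hz2 : Integrable (fun x => ‖ζ x‖ ^ 2) μ := h.memz.norm.integrable_sq
    have hm2 := hψ.memz.norm.integrable_sq
    refine (hz2.add hm2).mono (h.memz.1.inner hψ.memz.1) (Eventually.of_forall fun x => ?_)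
    refine (norm_inner_le_norm _ _).trans ?_
    rw [Real.norm_eq_abs]
    refine le_trans ?_ (le_abs_self _)
    simp only [Pi.add_apply]
    nlinarith [sq_nonneg (‖ζ x‖ - ‖(if 0 < w x then derivWithin (fun t => t * trc K t ^ (2 * s)) (Ici 0) (w x)
      else 0) • ζ x‖), sq_nonneg ‖ζ x‖, sq_nonneg ‖(if 0 < w x then
      derivWithin (fun t => t * trc K t ^ (2 * s)) (Ici 0) (w x) else 0) • ζ x‖]
  have t5 : DD μ (fun x => (if 0 < w x then derivWithin (fun t => t * trc K t ^ s) (Ici 0) (w x) else 0) • ζ x)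
      ≤ (1 + s) ^ 2 * ∫ x, inner ℝ (ζ x)
      ((if 0 < w x then derivWithin (fun t => t * trc K t ^ (2 * s)) (Ici 0) (w x) else 0) • ζ x) ∂μ := by
    unfold DD
    rw [← integral_const_mul]
    refine integral_mono_of_nonneg (Eventually.of_forall fun x => by positivity) (hinner.const_mul _)
      (Eventually.of_forall fun x => ?_)
    simp only
    split_ifs with h0
    · rw [norm_smul, inner_smul_right, real_inner_self_eq_norm_sq, mul_pow, Real.norm_eq_abs, sq_abs,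
        ← mul_assoc]
      refine mul_le_mul_of_nonneg_right ?_ (sq_nonneg _)
      have hb := tr_bounds K hK (w x) h0.le
      have h1 := (hg' (w x) h0.le).1
      have h2 := (hg' (w x) h0.le).2.1
      have h3 := (hf' (w x) h0.le).1
      have e : trc K (w x) ^ (2 * s) = (trc K (w x) ^ s) ^ 2 := by
        rw [← Real.rpow_natCast, ← Real.rpow_mul hb.1]
        congr 1
        push_cast
        ring
      calc derivWithin (fun t => t * trc K t ^ s) (Ici 0) (w x) ^ 2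
          ≤ ((1 + s) * trc K (w x) ^ s) ^ 2 := pow_le_pow_left₀ h1 h2 2
        _ = (1 + s) ^ 2 * trc K (w x) ^ (2 * s) := by rw [e]; ring
        _ ≤ _ := mul_le_mul_of_nonneg_left h3 (by positivity)
    · simp
  -- assemble
  have hc : DD μ (fun x => (if 0 < w x then derivWithin (fun t => t * trc K t ^ s) (Ici 0) (w x) else 0) • ζ x)
      ≤ κ * (|lam| * (a1 * ∫ x, (max (w x) 0 * trc K (max (w x) 0) ^ s) ^ 2 ∂μ +
        e1 * PP n μ (fun x => max (w x) 0 * trc K (max (w x) 0) ^ s)) +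
        |kap| * (a2 * ∫ x, (max (τ x) 0 * trc K (max (τ x) 0) ^ s) ^ 2 ∂σ +
        e2 * QQ n σ (fun x => max (τ x) 0 * trc K (max (τ x) 0) ^ s)) +
        |M| * ∫ x, (max (w x) 0 * trc K (max (w x) 0) ^ s) ^ 2 ∂μ +
        2 * (|M| * ∫ x, (max (τ x) 0 * trc K (max (τ x) 0) ^ s) ^ 2 ∂σ)) := by
    set G := ∫ x, inner ℝ (ζ x)
      ((if 0 < w x then derivWithin (fun t => t * trc K t ^ (2 * s)) (Ici 0) (w x) else 0) • ζ x) ∂μ with hG
    set T1 := ∫ x, |w x| ^ (pp n - 2) * (max (w x) 0 * trc K (max (w x) 0) ^ s) ^ 2 ∂μ with hT1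
    set T2 := ∫ x, |τ x| ^ (qq n - 2) * (max (τ x) 0 * trc K (max (τ x) 0) ^ s) ^ 2 ∂σ with hT2
    rw [t1, t2] at hext
    have hT1n : 0 ≤ T1 := integral_nonneg fun x => by positivity
    have hT2n : 0 ≤ T2 := integral_nonneg fun x => by positivity
    have u1 : lam * T1 ≤ |lam| * T1 := mul_le_mul_of_nonneg_right (le_abs_self _) hT1n
    have u2 : kap * T2 ≤ |kap| * T2 := mul_le_mul_of_nonneg_right (le_abs_self _) hT2n
    have u3 : |lam| * T1 ≤ |lam| * (a1 * ∫ x, (max (w x) 0 * trc K (max (w x) 0) ^ s) ^ 2 ∂μ +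
        e1 * PP n μ (fun x => max (w x) 0 * trc K (max (w x) 0) ^ s)) :=
      mul_le_mul_of_nonneg_left hs1 (abs_nonneg _)
    have u4 : |kap| * T2 ≤ |kap| * (a2 * ∫ x, (max (τ x) 0 * trc K (max (τ x) 0) ^ s) ^ 2 ∂σ +
        e2 * QQ n σ (fun x => max (τ x) 0 * trc K (max (τ x) 0) ^ s)) :=
      mul_le_mul_of_nonneg_left hs2 (abs_nonneg _)
    have u5 := (abs_le.1 t3).1
    have u6 := (abs_le.1 t4).1
    have u7 : cn n * G ≤ |lam| * (a1 * ∫ x, (max (w x) 0 * trc K (max (w x) 0) ^ s) ^ 2 ∂μ +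
        e1 * PP n μ (fun x => max (w x) 0 * trc K (max (w x) 0) ^ s)) +
        |kap| * (a2 * ∫ x, (max (τ x) 0 * trc K (max (τ x) 0) ^ s) ^ 2 ∂σ +
        e2 * QQ n σ (fun x => max (τ x) 0 * trc K (max (τ x) 0) ^ s)) +
        |M| * ∫ x, (max (w x) 0 * trc K (max (w x) 0) ^ s) ^ 2 ∂μ +
        2 * (|M| * ∫ x, (max (τ x) 0 * trc K (max (τ x) 0) ^ s) ^ 2 ∂σ) := by
      linarith
    refine t5.trans ?_
    have hGe : (1 + s) ^ 2 * G = κ * (cn n * G) := by
      rw [hκd]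
      field_simp
    rw [hGe]
    exact mul_le_mul_of_nonneg_left u7 hκ.le
  have hIle : ∫ x, (max (w x) 0 * trc K (max (w x) 0) ^ s) ^ 2 ∂μ ≤ I := by
    refine integral_mono_of_nonneg (Eventually.of_forall fun x => sq_nonneg _)
      (integrable_rpow_of_memLp (by positivity) hint) ?_
    filter_upwards [hw] with x hx
    rw [max_eq_left hx]
    have hb := tr_bounds K hK (w x) hx
    have h1 : w x * trc K (w x) ^ s ≤ w x ^ (1 + s) := by
      rw [Real.rpow_add_of_nonneg hx zero_le_one hs.le, Real.rpow_one]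
      exact mul_le_mul_of_nonneg_left (Real.rpow_le_rpow hb.1 hb.2.1 hs.le) hx
    have h2 : 0 ≤ w x * trc K (w x) ^ s := mul_nonneg hx (Real.rpow_nonneg hb.1 _)
    calc (w x * trc K (w x) ^ s) ^ 2 ≤ (w x ^ (1 + s)) ^ 2 := pow_le_pow_left₀ h2 h1 2
      _ = |w x| ^ (2 * (1 + s)) := by
        rw [abs_of_nonneg hx, ← Real.rpow_natCast, ← Real.rpow_mul hx]
        congr 1
        push_cast
        ring
  exact absorb hκ (DD_nonneg _) (integral_nonneg fun x => sq_nonneg _) (PP_nonneg _) (QQ_nonneg _)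
    (abs_nonneg _) (abs_nonneg _) ha2n hM0 hsobK htrK hc ht1 ht2 le_rfl hIle

omit [TopologicalSpace X] [CompactSpace X] [BorelSpace X] in
theorem lint_of_bound {ν : Measure X} {r C : ℝ} (hr : 0 < r) {f : X → ℝ} (hf : ∀ x, 0 ≤ f x)
    (hm : MemLp f (ENNReal.ofReal r) ν) (h : (∫ x, |f x| ^ r ∂ν) ^ (2 / r) ≤ C) :
    ∫⁻ x, ENNReal.ofReal (f x ^ r) ∂ν ≤ ENNReal.ofReal (C ^ (r / 2)) := by
  have hi := integrable_rpow_of_memLp hr hm
  have h0 : 0 ≤ ∫ x, |f x| ^ r ∂ν := integral_nonneg fun x => by positivity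
  have e : ∫⁻ x, ENNReal.ofReal (f x ^ r) ∂ν = ENNReal.ofReal (∫ x, |f x| ^ r ∂ν) := by
    rw [ofReal_integral_eq_lintegral_ofReal hi (Eventually.of_forall fun x => by positivity)]
    refine lintegral_congr fun x => ?_
    rw [abs_of_nonneg (hf x)]
  rw [e]
  refine ENNReal.ofReal_le_ofReal ?_
  calc ∫ x, |f x| ^ r ∂ν = ((∫ x, |f x| ^ r ∂ν) ^ (2 / r)) ^ (r / 2) := by
        rw [← Real.rpow_mul h0]
        have : 2 / r * (r / 2) = 1 := by field_simp
        rw [this, Real.rpow_one]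
    _ ≤ C ^ (r / 2) := Real.rpow_le_rpow (by positivity) h (by positivity)

theorem step_int (hn : 3 ≤ n) (hS : IsSob n μ σ A D) {R H : X → ℝ} (hR : Measurable R)
    (hH : Measurable H) {M : ℝ} (hRM : ∀ x, |R x| ≤ M) (hHM : ∀ x, |H x| ≤ M)
    {lam kap : ℝ} {w τ : X → ℝ} {ζ : X → F} (h : InH μ σ A D w ζ τ)
    (hE : WeakEq n μ σ R H A D lam kap w ζ τ) (hw : ∀ᵐ x ∂μ, 0 ≤ w x) (hτ : ∀ᵐ x ∂σ, 0 ≤ τ x) (s : ℝ)
    (hs : 0 < s) (hint : MemLp w (ENNReal.ofReal (2 * (1 + s))) μ) :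
    MemLp w (ENNReal.ofReal (pp n * (1 + s))) μ ∧ MemLp τ (ENNReal.ofReal (qq n * (1 + s))) σ := by
  obtain ⟨hp2, -, -, -, -⟩ := pp_facts (n := n) hn
  obtain ⟨hq2, -, -, -, -⟩ := qq_facts (n := n) hn
  obtain ⟨C, hC0, hC⟩ := step_bound hn hS hR hH hRM hHM h hE hw hτ s hs hint
  have hnn : ∀ (K : ℝ) (_ : 0 < K) (t : ℝ), 0 ≤ max t 0 * trc K (max t 0) ^ s := fun K hK t =>
    mul_nonneg (le_max_right _ _) (Real.rpow_nonneg (tr_bounds K hK _ (le_max_right _ _)).1 _)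
  constructor
  · refine memLp_of_trunc (by linarith) hs h.memw.1 hw ENNReal.ofReal_ne_top
      (C := ENNReal.ofReal (C ^ (pp n / 2))) fun k => ?_
    have hk : (0 : ℝ) < (k : ℝ) + 1 := by positivity
    obtain ⟨⟨h1, h2⟩, h3⟩ := hC (k + 1) hk
    refine lint_of_bound (by linarith) (fun x => hnn _ hk _) h1 ?_
    have := QQ_nonneg (n := n) (σ := σ) (fun x => max (τ x) 0 * trc (k + 1) (max (τ x) 0) ^ s)
    have h4 : PP n μ (fun x => max (w x) 0 * trc (k + 1) (max (w x) 0) ^ s) ≤ C := by linarith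
    exact h4
  · refine memLp_of_trunc (by linarith) hs h.memt.1 hτ ENNReal.ofReal_ne_top
      (C := ENNReal.ofReal (C ^ (qq n / 2))) fun k => ?_
    have hk : (0 : ℝ) < (k : ℝ) + 1 := by positivity
    obtain ⟨⟨h1, h2⟩, h3⟩ := hC (k + 1) hk
    refine lint_of_bound (by linarith) (fun x => hnn _ hk _) h2 ?_
    have := PP_nonneg (n := n) (μ := μ) (fun x => max (w x) 0 * trc (k + 1) (max (w x) 0) ^ s)
    have h4 : QQ n σ (fun x => max (τ x) 0 * trc (k + 1) (max (τ x) 0) ^ s) ≤ C := by linarith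
    exact h4

end Pool.Agent.CY
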