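import Pool.Agent.CY.S2.M1a

/-!
CY-S2-M1b. Iteration: `w ∈ L^r(μ)`, `τ ∈ L^r(σ)` for all finite `r`.

`w ∈ L^p` (`InH.memLp`).  With `2(1 + s) = r_j` the step gives `r_{j+1} = (p/2) r_j`, `r_0 = p > 2`, so
`r_j → ∞` (`p/2 > 1`), and `τ ∈ L^{(q/2) r_j}`.  Finite measures: smaller exponents follow.
-/

set_option autoImplicit false

open scoped ENNReal ContDiff
open MeasureTheory Set Filter Topology

namespace Pool.Agent.CY

variable {X : Type} [TopologicalSpace X] [CompactSpace X] [MeasurableSpace X] [BorelSpace X]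
  {F : Type} [NormedAddCommGroup F] [InnerProductSpace ℝ F] [FiniteDimensional ℝ F]
  {n : ℕ} {μ σ : Measure X} {A : Set (X → ℝ)} {D : (X → ℝ) → X → F}

theorem all_int (hn : 3 ≤ n) (hS : IsSob n μ σ A D) {R H : X → ℝ} (hR : Measurable R)
    (hH : Measurable H) {M : ℝ} (hRM : ∀ x, |R x| ≤ M) (hHM : ∀ x, |H x| ≤ M)
    {lam kap : ℝ} {w τ : X → ℝ} {ζ : X → F} (h : InH μ σ A D w ζ τ)
    (hE : WeakEq n μ σ R H A D lam kap w ζ τ) (hw : ∀ᵐ x ∂μ, 0 ≤ w x) (hτ : ∀ᵐ x ∂σ, 0 ≤ τ x) (r : ℝ)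
    (hr : 1 ≤ r) : MemLp w (ENNReal.ofReal r) μ ∧ MemLp τ (ENNReal.ofReal r) σ := by
  haveI : IsFiniteMeasure μ := ⟨hS.fin_μ⟩
  haveI : IsFiniteMeasure σ := ⟨hS.fin_σ⟩
  obtain ⟨hp2, -, -, -, -⟩ := pp_facts (n := n) hn
  obtain ⟨hq2, -, -, -, -⟩ := qq_facts (n := n) hn
  have hp1 : 1 < pp n / 2 := by linarith
  have hpj : ∀ j : ℕ, 1 ≤ (pp n / 2) ^ j := fun j => one_le_pow₀ hp1.le
  have hrj : ∀ j : ℕ, 2 < pp n * (pp n / 2) ^ j := by
    intro j
    nlinarith [hpj j]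
  have hwj : ∀ j : ℕ, MemLp w (ENNReal.ofReal (pp n * (pp n / 2) ^ j)) μ := by
    intro j
    induction j with
    | zero => simpa using (InH.memLp hn hS h).1
    | succ j ih =>
      have e : 2 * (1 + (pp n * (pp n / 2) ^ j / 2 - 1)) = pp n * (pp n / 2) ^ j := by ring
      have := (step_int hn hS hR hH hRM hHM h hE hw hτ (pp n * (pp n / 2) ^ j / 2 - 1)
        (by linarith [hrj j]) (by rw [e]; exact ih)).1
      convert this using 2
      ring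
  obtain ⟨j, hj⟩ := pow_unbounded_of_one_lt r hp1
  have hj2 : r ≤ pp n * (pp n / 2) ^ j := by nlinarith [hpj j]
  refine ⟨(hwj j).mono_exponent (ENNReal.ofReal_le_ofReal hj2), ?_⟩
  have e : 2 * (1 + (pp n * (pp n / 2) ^ j / 2 - 1)) = pp n * (pp n / 2) ^ j := by ring
  have := (step_int hn hS hR hH hRM hHM h hE hw hτ (pp n * (pp n / 2) ^ j / 2 - 1)
    (by linarith [hrj j]) (by rw [e]; exact hwj j)).2
  refine this.mono_exponent (ENNReal.ofReal_le_ofReal ?_)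
  nlinarith [hpj j, hrj j]

end Pool.Agent.CY
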