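import Pool.Agent.CY.S2.M1b
import Pool.Agent.CY.S2.Level

/-!
CY-S2-M2. The upper bound.

Test the equation (`weakEq_ext`) with `(w - k)^+`, `k ≥ 0` (`InH.comp_right` with `f(t) = t - k`; the
gradient is `1_{w > k} ζ`): `c_n DD = c_n ∫_{w > k} ‖ζ‖² ≤ ∫ (M w + |lam| w^{p-1}) (w - k)^+ +
∫_σ (2 M τ + |kap| τ^{q-1}) (τ - k)^+`; add `∫ ((w-k)^+)² ≤ ∫ w (w - k)^+`; divide by `min(c_n, 1)`, so the
hypothesis of `level_lemma` holds with `k0 = 0` and `f = C (w + w^{p-1})`, `g = C (τ + τ^{q-1})`, which are in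
`L^{2n}` by `all_int`.
-/

set_option autoImplicit false

open scoped ENNReal ContDiff
open MeasureTheory Set Filter Topology

namespace Pool.Agent.CY

variable {X : Type} [TopologicalSpace X] [CompactSpace X] [MeasurableSpace X] [BorelSpace X]
  {F : Type} [NormedAddCommGroup F] [InnerProductSpace ℝ F] [FiniteDimensional ℝ F]
  {n : ℕ} {μ σ : Measure X} {A : Set (X → ℝ)} {D : (X → ℝ) → X → F}

private theorem aux_int {ν : Measure X} {v : X → ℝ} (hv : ∀ r : ℝ, 1 ≤ r → MemLp v (ENNReal.ofReal r) ν)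
    {p : ℝ} (hp : 2 < p) {k : ℝ} (hk : 0 ≤ k) :
    Integrable (fun x => |v x| ^ (p - 1) * max (v x - k) 0) ν ∧
      Integrable (fun x => |v x| * max (v x - k) 0) ν := by
  have hm : AEStronglyMeasurable v ν := (hv 1 le_rfl).1
  have hmax : AEStronglyMeasurable (fun x => max (v x - k) 0) ν :=
    ((hm.aemeasurable.sub_const k).max aemeasurable_const).aestronglyMeasurable
  have habs : AEStronglyMeasurable (fun x => |v x|) ν := by
    have := hm.norm
    simpa only [Real.norm_eq_abs] using this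
  have hle : ∀ x, max (v x - k) 0 ≤ |v x| := fun x =>
    max_le (by linarith [le_abs_self (v x)]) (abs_nonneg _)
  have h0 : ∀ x, 0 ≤ max (v x - k) 0 := fun x => le_max_right _ _
  constructor
  · have hint : Integrable (fun x => |v x| ^ p) ν := by
      have h := (hv p (by linarith)).integrable_norm_rpow (by simp; linarith) (by simp)
      rw [ENNReal.toReal_ofReal (by linarith)] at h
      simpa only [Real.norm_eq_abs] using h
    refine hint.mono' ((habs.aemeasurable.pow_const _).aestronglyMeasurable.mul hmax)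
      (Eventually.of_forall fun x => ?_)
    have h1 : 0 ≤ |v x| ^ (p - 1) := Real.rpow_nonneg (abs_nonneg _) _
    rw [Real.norm_of_nonneg (mul_nonneg h1 (h0 x))]
    rcases eq_or_lt_of_le (abs_nonneg (v x)) with h | h
    · rw [← h, Real.zero_rpow (by linarith), Real.zero_rpow (by linarith), zero_mul]
    · calc |v x| ^ (p - 1) * max (v x - k) 0 ≤ |v x| ^ (p - 1) * |v x| :=
            mul_le_mul_of_nonneg_left (hle x) h1
        _ = |v x| ^ p := by
            rw [← Real.rpow_add_one h.ne']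
            congr 1
            ring
  · have hint : Integrable (fun x => |v x| ^ (2 : ℝ)) ν := by
      have h := (hv 2 (by norm_num)).integrable_norm_rpow (by simp) (by simp)
      rw [ENNReal.toReal_ofReal (by norm_num)] at h
      simpa only [Real.norm_eq_abs] using h
    refine hint.mono' (habs.mul hmax) (Eventually.of_forall fun x => ?_)
    rw [Real.norm_of_nonneg (mul_nonneg (abs_nonneg _) (h0 x)), Real.rpow_two, sq]
    exact mul_le_mul_of_nonneg_left (hle x) (abs_nonneg _)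

private theorem aux_mem {ν : Measure X} {v : X → ℝ} (hv : ∀ r : ℝ, 1 ≤ r → MemLp v (ENNReal.ofReal r) ν)
    {p : ℝ} (hp : 2 < p) (a b : ℝ) {N : ℝ} (hN : 1 ≤ N) :
    MemLp (fun x => a * |v x| ^ (p - 1) + b * |v x|) (ENNReal.ofReal N) ν := by
  refine MemLp.add ?_ ?_
  · refine MemLp.const_mul ?_ a
    have h1 : 1 ≤ N * (p - 1) := by nlinarith
    have h := (hv (N * (p - 1)) h1).norm_rpow_div (ENNReal.ofReal (p - 1))
    rw [ENNReal.toReal_ofReal (by linarith), ← ENNReal.ofReal_div_of_pos (by linarith)] at h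
    have h2 : N * (p - 1) / (p - 1) = N := by
      field_simp [show p - 1 ≠ 0 by linarith]
    rw [h2] at h
    simpa only [Real.norm_eq_abs] using h
  · refine MemLp.const_mul ?_ b
    have h := (hv N hN).norm
    simpa only [Real.norm_eq_abs] using h

private theorem aux_inH (hS : IsSob n μ σ A D) {w τ : X → ℝ} {ζ : X → F} (h : InH μ σ A D w ζ τ)
    (k : ℝ) : InH μ σ A D (fun x => max (w x - k) 0) (fun x => (if k < w x then (1 : ℝ) else 0) • ζ x)
      (fun x => max (τ x - k) 0) := by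
  have hd : ∀ t ∈ Ici k, derivWithin (fun t : ℝ => t - k) (Ici k) t = 1 := by
    intro t ht
    have h1 : HasDerivWithinAt (fun t : ℝ => t - k) 1 (Ici k) t :=
      ((hasDerivAt_id t).sub_const k).hasDerivWithinAt
    exact h1.derivWithin ((uniqueDiffOn_Ici k) t ht)
  have h1 := h.comp_right hS k (fun t => t - k) (contDiff_id.sub contDiff_const).contDiffOn 1
    (fun t ht => by rw [hd t ht]; simp)
  have e : ∀ a : ℝ, max a k - k = max (a - k) 0 := by
    intro a
    rcases le_total a k with h | h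
    · rw [max_eq_right h, max_eq_right (by linarith)]
      ring
    · rw [max_eq_left h, max_eq_left (by linarith)]
  simp only [e] at h1
  have e2 : (fun x => (if k < w x then derivWithin (fun t : ℝ => t - k) (Ici k) (w x) else 0) • ζ x) =
      fun x => (if k < w x then (1 : ℝ) else 0) • ζ x := by
    funext x
    split_ifs with hx
    · rw [hd _ hx.le]
    · rfl
  rw [e2] at h1
  exact h1

theorem upper_bound (hn : 3 ≤ n) (hS : IsSob n μ σ A D) {R H : X → ℝ} (hR : Measurable R)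
    (hH : Measurable H) {M : ℝ} (hRM : ∀ x, |R x| ≤ M) (hHM : ∀ x, |H x| ≤ M)
    {lam kap : ℝ} {w τ : X → ℝ} {ζ : X → F} (h : InH μ σ A D w ζ τ)
    (hE : WeakEq n μ σ R H A D lam kap w ζ τ) (hw : ∀ᵐ x ∂μ, 0 ≤ w x) (hτ : ∀ᵐ x ∂σ, 0 ≤ τ x) :
    ∃ C : ℝ, (∀ᵐ x ∂μ, w x ≤ C) ∧ (∀ᵐ x ∂σ, τ x ≤ C) := by
  have hmem := fun (r : ℝ) (hr : 1 ≤ r) => all_int hn hS hR hH hRM hHM h hE hw hτ r hr
  have hwm : ∀ r : ℝ, 1 ≤ r → MemLp w (ENNReal.ofReal r) μ := fun r hr => (hmem r hr).1
  have hτm : ∀ r : ℝ, 1 ≤ r → MemLp τ (ENNReal.ofReal r) σ := fun r hr => (hmem r hr).2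
  have hp : 2 < pp n := (pp_facts hn).1
  have hq : 2 < qq n := (qq_facts hn).1
  have hn' : (3 : ℝ) ≤ n := by exact_mod_cast hn
  set f : X → ℝ := fun x => |lam| * |w x| ^ (pp n - 1) + (|M| + 1) * |w x| with hf
  set g : X → ℝ := fun x => |kap| * |τ x| ^ (qq n - 1) + 2 * |M| * |τ x| with hg
  set K : ℝ := max (∫ x, |f x| ^ (2 * (n : ℝ)) ∂μ) (∫ x, |g x| ^ (2 * (n : ℝ)) ∂σ) with hK
  have hK0 : 0 ≤ K := le_max_of_le_left (integral_nonneg fun x => Real.rpow_nonneg (abs_nonneg _) _)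
  obtain ⟨d, hd0, hd⟩ := level_lemma hn hS K hK0
  have h2n : (1 : ℝ) ≤ 2 * (n : ℝ) := by linarith
  have hcn : 1 ≤ cn n := by
    unfold cn
    rw [le_div_iff₀ (by linarith)]
    linarith
  refine ⟨0 + d, hd w τ f g 0 h.memw.1 h.memt.1 (fun x => by positivity) (fun x => by positivity)
    (aux_mem hwm hp _ _ h2n) (aux_mem hτm hq _ _ h2n) (le_max_left _ _) (le_max_right _ _)
    fun k hk => ⟨_, aux_inH hS h k, ?_⟩⟩
  have hE' := weakEq_ext hn hS hR hH hRM hHM h hE (aux_inH hS h k)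
  obtain ⟨i1, i2⟩ := aux_int hwm hp hk
  obtain ⟨j1, j2⟩ := aux_int hτm hq hk
  have e1 : ∫ x, inner ℝ (ζ x) ((if k < w x then (1 : ℝ) else 0) • ζ x) ∂μ =
      DD μ (fun x => (if k < w x then (1 : ℝ) else 0) • ζ x) := by
    refine integral_congr_ae (Eventually.of_forall fun x => ?_)
    change inner ℝ (ζ x) ((if k < w x then (1 : ℝ) else 0) • ζ x) =
      ‖(if k < w x then (1 : ℝ) else 0) • ζ x‖ ^ 2
    split_ifs
    · rw [one_smul, real_inner_self_eq_norm_sq]
    · simp
  rw [e1] at hE'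
  have hDD : 0 ≤ DD μ (fun x => (if k < w x then (1 : ℝ) else 0) • ζ x) :=
    integral_nonneg fun x => by positivity
  have b1 : ‖∫ x, R x * w x * max (w x - k) 0 ∂μ‖ ≤
      |M| * ∫ x, |w x| * max (w x - k) 0 ∂μ := by
    rw [← integral_const_mul]
    refine norm_integral_le_of_norm_le (i2.const_mul _) (Eventually.of_forall fun x => ?_)
    rw [norm_mul, norm_mul, Real.norm_eq_abs, Real.norm_eq_abs,
      Real.norm_of_nonneg (le_max_right (w x - k) 0), mul_assoc]
    exact mul_le_mul_of_nonneg_right ((hRM x).trans (le_abs_self M))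
      (mul_nonneg (abs_nonneg _) (le_max_right _ _))
  have b2 : ‖∫ x, H x * τ x * max (τ x - k) 0 ∂σ‖ ≤
      |M| * ∫ x, |τ x| * max (τ x - k) 0 ∂σ := by
    rw [← integral_const_mul]
    refine norm_integral_le_of_norm_le (j2.const_mul _) (Eventually.of_forall fun x => ?_)
    rw [norm_mul, norm_mul, Real.norm_eq_abs, Real.norm_eq_abs,
      Real.norm_of_nonneg (le_max_right (τ x - k) 0), mul_assoc]
    exact mul_le_mul_of_nonneg_right ((hHM x).trans (le_abs_self M))
      (mul_nonneg (abs_nonneg _) (le_max_right _ _))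
  have n1 : 0 ≤ ∫ x, |w x| ^ (pp n - 1) * max (w x - k) 0 ∂μ :=
    integral_nonneg fun x => mul_nonneg (Real.rpow_nonneg (abs_nonneg _) _) (le_max_right _ _)
  have n2 : 0 ≤ ∫ x, |τ x| ^ (qq n - 1) * max (τ x - k) 0 ∂σ :=
    integral_nonneg fun x => mul_nonneg (Real.rpow_nonneg (abs_nonneg _) _) (le_max_right _ _)
  have b3 : lam * ∫ x, |w x| ^ (pp n - 1) * max (w x - k) 0 ∂μ ≤
      |lam| * ∫ x, |w x| ^ (pp n - 1) * max (w x - k) 0 ∂μ :=
    mul_le_mul_of_nonneg_right (le_abs_self _) n1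
  have b4 : kap * ∫ x, |τ x| ^ (qq n - 1) * max (τ x - k) 0 ∂σ ≤
      |kap| * ∫ x, |τ x| ^ (qq n - 1) * max (τ x - k) 0 ∂σ :=
    mul_le_mul_of_nonneg_right (le_abs_self _) n2
  have b5 : ∫ x, (max (w x - k) 0) ^ 2 ∂μ ≤ ∫ x, |w x| * max (w x - k) 0 ∂μ := by
    refine integral_mono_of_nonneg (Eventually.of_forall fun x => sq_nonneg _) i2
      (Eventually.of_forall fun x => ?_)
    change (max (w x - k) 0) ^ 2 ≤ |w x| * max (w x - k) 0
    rw [sq]
    exact mul_le_mul_of_nonneg_right (max_le (by linarith [le_abs_self (w x)]) (abs_nonneg _))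
      (le_max_right _ _)
  have s1 : ∫ x, f x * max (w x - k) 0 ∂μ =
      |lam| * ∫ x, |w x| ^ (pp n - 1) * max (w x - k) 0 ∂μ +
        (|M| + 1) * ∫ x, |w x| * max (w x - k) 0 ∂μ := by
    rw [← integral_const_mul, ← integral_const_mul,
      ← integral_add (i1.const_mul _) (i2.const_mul _)]
    refine integral_congr_ae (Eventually.of_forall fun x => ?_)
    simp only [hf]
    ring
  have s2 : ∫ x, g x * max (τ x - k) 0 ∂σ =
      |kap| * ∫ x, |τ x| ^ (qq n - 1) * max (τ x - k) 0 ∂σ +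
        2 * |M| * ∫ x, |τ x| * max (τ x - k) 0 ∂σ := by
    rw [← integral_const_mul, ← integral_const_mul,
      ← integral_add (j1.const_mul _) (j2.const_mul _)]
    refine integral_congr_ae (Eventually.of_forall fun x => ?_)
    simp only [hg]
    ring
  rw [s1, s2]
  rw [Real.norm_eq_abs] at b1 b2
  have c1 := (abs_le.1 b1).1
  have c2 := (abs_le.1 b2).1
  have c3 : DD μ (fun x => (if k < w x then (1 : ℝ) else 0) • ζ x) ≤
      cn n * DD μ (fun x => (if k < w x then (1 : ℝ) else 0) • ζ x) :=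
    le_mul_of_one_le_left hDD hcn
  nlinarith

end Pool.Agent.CY
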