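import Pool.Agent.CY.S2.InH

/-!
CY-S2-SobH. Sobolev inequality for members of `H^1`, and convergence in the critical norms.

Proof. For `u, v ∈ A`: `‖u - v‖²_{L^p} + ‖u - v‖²_{L^q(σ)} ≤ C (DD (D u - D v) + ∫ (u - v)²)` (`hS.sob` for
`u - v ∈ A`).  So if `u_k → (w, ζ, τ)` in `H^1` then `u_k` is a Cauchy sequence in `L^p(μ)` and `L^q(σ)`;
along a subsequence `u_k → w` a.e. and `u_k → τ` a.e., and Fatou's lemma gives
`∫ |u_k - w|^p ≤ liminf_j ∫ |u_k - u_j|^p`, so `u_k → w` in `L^p`.  Work with `eLpNorm` or with integrals.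
-/

set_option autoImplicit false
set_option linter.unusedSectionVars false

open scoped ENNReal ContDiff
open MeasureTheory Set Filter Topology

namespace Pool.Agent.CY

variable {X : Type} [TopologicalSpace X] [CompactSpace X] [MeasurableSpace X] [BorelSpace X]
  {F : Type} [NormedAddCommGroup F] [InnerProductSpace ℝ F] [FiniteDimensional ℝ F]
  {n : ℕ} {μ σ : Measure X} {A : Set (X → ℝ)} {D : (X → ℝ) → X → F}

private theorem eLpNorm_eq' {ν : Measure X} (f : X → ℝ) (r : ℝ) (hr : 0 < r)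
    (hf : MemLp f (ENNReal.ofReal r) ν) :
    eLpNorm f (ENNReal.ofReal r) ν = ENNReal.ofReal ((∫ x, |f x| ^ r ∂ν) ^ (1 / r)) := by
  have h := MemLp.eLpNorm_eq_integral_rpow_norm (by simp [hr]) (by simp) hf
  rw [h, ENNReal.toReal_ofReal hr.le]
  simp only [Real.norm_eq_abs, one_div]

private theorem eLpNorm_two_le {ν : Measure X} (f : X → ℝ) (hf : MemLp f 2 ν) :
    eLpNorm f 2 ν = ENNReal.ofReal (Real.sqrt (∫ x, f x ^ 2 ∂ν)) := by
  have h := MemLp.eLpNorm_eq_integral_rpow_norm (by simp) (by simp) hf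
  rw [h, Real.sqrt_eq_rpow]
  congr 2
  · refine integral_congr_ae (Eventually.of_forall fun x => ?_)
    simp
  · simp

private theorem crit_lim {ν : Measure X} (r : ℝ) (hr : 0 < r) (f : ℕ → X → ℝ) (w : X → ℝ)
    (hf : ∀ k, MemLp (f k) (ENNReal.ofReal r) ν) (hf2 : ∀ k, MemLp (f k) 2 ν) (hw : MemLp w 2 ν)
    (h2 : Tendsto (fun k => ∫ x, (f k x - w x) ^ 2 ∂ν) atTop (𝓝 0))
    (e : ℕ → ℝ) (he : Tendsto e atTop (𝓝 0))
    (hc : ∀ k j, (∫ x, |f k x - f j x| ^ r ∂ν) ^ (2 / r) ≤ e k + e j) :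
    MemLp w (ENNReal.ofReal r) ν ∧ Tendsto (fun k => ∫ x, |f k x - w x| ^ r ∂ν) atTop (𝓝 0) := by
  have hT : Tendsto (fun k => eLpNorm (f k - w) 2 ν) atTop (𝓝 0) := by
    have h3 : ∀ k, eLpNorm (f k - w) 2 ν = ENNReal.ofReal (Real.sqrt (∫ x, (f k x - w x) ^ 2 ∂ν)) :=
      fun k => eLpNorm_two_le _ ((hf2 k).sub hw)
    simp only [h3]
    have h4 : Tendsto (fun k => ENNReal.ofReal (Real.sqrt (∫ x, (f k x - w x) ^ 2 ∂ν))) atTop
        (𝓝 (ENNReal.ofReal (Real.sqrt 0))) :=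
      (ENNReal.continuous_ofReal.tendsto _).comp ((Real.continuous_sqrt.tendsto _).comp h2)
    simpa using h4
  have hM : TendstoInMeasure ν f atTop w :=
    tendstoInMeasure_of_tendsto_eLpNorm two_ne_zero (fun k => (hf2 k).1) hw.1 hT
  obtain ⟨ns, hns, hae⟩ := hM.exists_seq_tendsto_ae
  have hkj : ∀ k j, eLpNorm (f k - f j) (ENNReal.ofReal r) ν ≤
      ENNReal.ofReal (Real.sqrt (e k + e j)) := by
    intro k j
    rw [eLpNorm_eq' _ r hr ((hf k).sub (hf j))]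
    refine ENNReal.ofReal_le_ofReal ?_
    have h0 : 0 ≤ ∫ x, |f k x - f j x| ^ r ∂ν :=
      integral_nonneg fun x => Real.rpow_nonneg (abs_nonneg _) _
    refine Real.le_sqrt_of_sq_le ?_
    have h5 : ((∫ x, |(f k - f j) x| ^ r ∂ν) ^ (1 / r)) ^ 2 =
        (∫ x, |f k x - f j x| ^ r ∂ν) ^ (2 / r) := by
      simp only [Pi.sub_apply]
      rw [← Real.rpow_natCast, ← Real.rpow_mul h0]
      congr 1
      push_cast; ring
    rw [h5]; exact hc k j
  have hlim : ∀ k, eLpNorm (f k - w) (ENNReal.ofReal r) ν ≤ ENNReal.ofReal (Real.sqrt (e k)) := by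
    intro k
    have h6 := Lp.eLpNorm_lim_le_liminf_eLpNorm (p := ENNReal.ofReal r) (μ := ν)
      (f := fun j => f k - f (ns j)) (fun j => ((hf k).sub (hf (ns j))).1) (f k - w) (by
        filter_upwards [hae] with x hx
        exact tendsto_const_nhds.sub hx)
    have h7 : Tendsto (fun j => ENNReal.ofReal (Real.sqrt (e k + e (ns j)))) atTop
        (𝓝 (ENNReal.ofReal (Real.sqrt (e k)))) := by
      have h8 : Tendsto (fun j => e k + e (ns j)) atTop (𝓝 (e k + 0)) :=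
        tendsto_const_nhds.add (he.comp hns.tendsto_atTop)
      rw [add_zero] at h8
      exact (ENNReal.continuous_ofReal.tendsto _).comp ((Real.continuous_sqrt.tendsto _).comp h8)
    refine h6.trans ?_
    rw [← h7.liminf_eq]
    exact liminf_le_liminf (Eventually.of_forall fun j => hkj k (ns j))
  have hmem : ∀ k, MemLp (f k - w) (ENNReal.ofReal r) ν := fun k =>
    ⟨((hf2 k).sub hw).1, (hlim k).trans_lt ENNReal.ofReal_lt_top⟩
  refine ⟨?_, ?_⟩
  · have h9 := (hf 0).sub (hmem 0)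
    have h10 : f 0 - (f 0 - w) = w := by simp
    rwa [h10] at h9
  · have hb : ∀ k, ∫ x, |f k x - w x| ^ r ∂ν ≤ Real.sqrt (e k) ^ r := by
      intro k
      have h11 := hlim k
      rw [eLpNorm_eq' _ r hr (hmem k), ENNReal.ofReal_le_ofReal_iff (Real.sqrt_nonneg _)] at h11
      have h0 : 0 ≤ ∫ x, |f k x - w x| ^ r ∂ν :=
        integral_nonneg fun x => Real.rpow_nonneg (abs_nonneg _) _
      have h12 := Real.rpow_le_rpow (Real.rpow_nonneg h0 _) h11 hr.le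
      rw [← Real.rpow_mul (by exact h0)] at h12
      rw [one_div, inv_mul_cancel₀ hr.ne', Real.rpow_one] at h12
      exact h12
    have hz : Tendsto (fun k => Real.sqrt (e k) ^ r) atTop (𝓝 0) := by
      have h13 : Tendsto (fun k => Real.sqrt (e k)) atTop (𝓝 0) := by
        have := (Real.continuous_sqrt.tendsto _).comp he
        rw [Real.sqrt_zero] at this
        exact this
      have h14 := h13.rpow_const (p := r) (Or.inr hr.le)
      rwa [Real.zero_rpow hr.ne'] at h14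
    exact squeeze_zero (fun k => integral_nonneg fun x => Real.rpow_nonneg (abs_nonneg _) _) hb hz

private theorem int_sq_tri {ν : Measure X} {E : Type} [NormedAddCommGroup E] (a b c : X → E)
    (ha : MemLp a 2 ν) (hb : MemLp b 2 ν) (hc : MemLp c 2 ν) :
    ∫ x, ‖a x - b x‖ ^ 2 ∂ν ≤ 2 * ∫ x, ‖a x - c x‖ ^ 2 ∂ν + 2 * ∫ x, ‖b x - c x‖ ^ 2 ∂ν := by
  have h1 : Integrable (fun x => ‖a x - c x‖ ^ 2) ν :=
    (memLp_two_iff_integrable_sq_norm (ha.sub hc).1).1 (ha.sub hc)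
  have h2 : Integrable (fun x => ‖b x - c x‖ ^ 2) ν :=
    (memLp_two_iff_integrable_sq_norm (hb.sub hc).1).1 (hb.sub hc)
  have h3 : Integrable (fun x => ‖a x - b x‖ ^ 2) ν :=
    (memLp_two_iff_integrable_sq_norm (ha.sub hb).1).1 (ha.sub hb)
  rw [← integral_const_mul, ← integral_const_mul, ← integral_add (h1.const_mul 2) (h2.const_mul 2)]
  refine integral_mono h3 ((h1.const_mul 2).add (h2.const_mul 2)) fun x => ?_
  have h4 : ‖a x - b x‖ ≤ ‖a x - c x‖ + ‖b x - c x‖ := by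
    have : a x - b x = (a x - c x) - (b x - c x) := by abel
    rw [this]; exact norm_sub_le _ _
  have h5 : ‖a x - b x‖ ^ 2 ≤ (‖a x - c x‖ + ‖b x - c x‖) ^ 2 :=
    pow_le_pow_left₀ (norm_nonneg _) h4 2
  show ‖a x - b x‖ ^ 2 ≤ 2 * ‖a x - c x‖ ^ 2 + 2 * ‖b x - c x‖ ^ 2
  nlinarith [sq_nonneg (‖a x - c x‖ - ‖b x - c x‖)]

private theorem key (hn : 3 ≤ n) (hS : IsSob n μ σ A D) {w τ : X → ℝ} {ζ : X → F}
    (h : InH μ σ A D w ζ τ) (u : ℕ → X → ℝ) (hu : ∀ k, u k ∈ A) (ht : TendH μ σ D u w ζ τ) :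
    (MemLp w (ENNReal.ofReal (pp n)) μ ∧
      Tendsto (fun k => ∫ x, |u k x - w x| ^ pp n ∂μ) atTop (𝓝 0)) ∧
    (MemLp τ (ENNReal.ofReal (qq n)) σ ∧
      Tendsto (fun k => ∫ x, |u k x - τ x| ^ qq n ∂σ) atTop (𝓝 0)) := by
  obtain ⟨C, hC⟩ := hS.sob
  obtain ⟨t1, t2, t3⟩ := ht
  set e : ℕ → ℝ := fun k => |C| * (2 * (∫ x, ‖D (u k) x - ζ x‖ ^ 2 ∂μ) +
    2 * ∫ x, (u k x - w x) ^ 2 ∂μ) with he
  have he0 : Tendsto e atTop (𝓝 0) := by
    have h1 := ((t2.const_mul 2).add (t1.const_mul 2)).const_mul |C|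
    simpa using h1
  have hpq : ∀ k j, PP n μ (fun x => u k x - u j x) + QQ n σ (fun x => u k x - u j x) ≤ e k + e j := by
    intro k j
    obtain ⟨s1, s2⟩ := hS.sub (hu k) (hu j)
    have h1 := hC _ s1
    rw [s2] at h1
    have h2 : DD μ (D (u k) - D (u j)) ≤ 2 * ∫ x, ‖D (u k) x - ζ x‖ ^ 2 ∂μ +
        2 * ∫ x, ‖D (u j) x - ζ x‖ ^ 2 ∂μ :=
      int_sq_tri (D (u k)) (D (u j)) ζ
        (memLp_of_continuous μ hS.fin_μ _ (hS.contD _ (hu k)) 2)
        (memLp_of_continuous μ hS.fin_μ _ (hS.contD _ (hu j)) 2) h.memz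
    have h3 : ∫ x, (u k x - u j x) ^ 2 ∂μ ≤ 2 * ∫ x, (u k x - w x) ^ 2 ∂μ +
        2 * ∫ x, (u j x - w x) ^ 2 ∂μ := by
      have := int_sq_tri (u k) (u j) w
        (memLp_of_continuous μ hS.fin_μ _ (hS.cont _ (hu k)) 2)
        (memLp_of_continuous μ hS.fin_μ _ (hS.cont _ (hu j)) 2) h.memw
      simpa only [Real.norm_eq_abs, sq_abs] using this
    have h4 : 0 ≤ DD μ (D (u k) - D (u j)) := DD_nonneg _
    have h5 : 0 ≤ ∫ x, (u k x - u j x) ^ 2 ∂μ := integral_nonneg fun x => sq_nonneg _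
    calc PP n μ (fun x => u k x - u j x) + QQ n σ (fun x => u k x - u j x)
        ≤ C * (DD μ (D (u k) - D (u j)) + ∫ x, (u k x - u j x) ^ 2 ∂μ) := h1
      _ ≤ |C| * (DD μ (D (u k) - D (u j)) + ∫ x, (u k x - u j x) ^ 2 ∂μ) :=
          mul_le_mul_of_nonneg_right (le_abs_self C) (by positivity)
      _ ≤ |C| * ((2 * ∫ x, ‖D (u k) x - ζ x‖ ^ 2 ∂μ + 2 * ∫ x, ‖D (u j) x - ζ x‖ ^ 2 ∂μ) +
            (2 * ∫ x, (u k x - w x) ^ 2 ∂μ + 2 * ∫ x, (u j x - w x) ^ 2 ∂μ)) :=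
          mul_le_mul_of_nonneg_left (add_le_add h2 h3) (abs_nonneg C)
      _ = e k + e j := by simp only [he]; ring
  have hpp : 2 < pp n := (pp_facts hn).1
  have hqq : 2 < qq n := (qq_facts hn).1
  constructor
  · refine crit_lim (pp n) (by linarith) u w
      (fun k => memLp_of_continuous μ hS.fin_μ _ (hS.cont _ (hu k)) _)
      (fun k => memLp_of_continuous μ hS.fin_μ _ (hS.cont _ (hu k)) _) h.memw t1 e he0 ?_
    intro k j
    have h1 := hpq k j
    have h2 : 0 ≤ QQ n σ (fun x => u k x - u j x) := QQ_nonneg _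
    have h3 : PP n μ (fun x => u k x - u j x) = (∫ x, |u k x - u j x| ^ pp n ∂μ) ^ (2 / pp n) := rfl
    linarith
  · refine crit_lim (qq n) (by linarith) u τ
      (fun k => memLp_of_continuous σ hS.fin_σ _ (hS.cont _ (hu k)) _)
      (fun k => memLp_of_continuous σ hS.fin_σ _ (hS.cont _ (hu k)) _) h.memt t3 e he0 ?_
    intro k j
    have h1 := hpq k j
    have h2 : 0 ≤ PP n μ (fun x => u k x - u j x) := PP_nonneg _
    have h3 : QQ n σ (fun x => u k x - u j x) = (∫ x, |u k x - u j x| ^ qq n ∂σ) ^ (2 / qq n) := rfl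
    linarith

/-- Members of `H^1` have finite critical norms. -/
theorem InH.memLp (hn : 3 ≤ n) (hS : IsSob n μ σ A D) {w τ : X → ℝ} {ζ : X → F} (h : InH μ σ A D w ζ τ) :
    MemLp w (ENNReal.ofReal (pp n)) μ ∧ MemLp τ (ENNReal.ofReal (qq n)) σ := by
  obtain ⟨u, hu, ht⟩ := h.ex
  exact ⟨(key hn hS h u hu ht).1.1, (key hn hS h u hu ht).2.1⟩

/-- Convergence in `H^1` implies convergence in the critical norms. -/
theorem tendH_crit (hn : 3 ≤ n) (hS : IsSob n μ σ A D) {w τ : X → ℝ} {ζ : X → F} (h : InH μ σ A D w ζ τ)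
    (u : ℕ → X → ℝ) (hu : ∀ k, u k ∈ A) (ht : TendH μ σ D u w ζ τ) :
    Tendsto (fun k => ∫ x, |u k x - w x| ^ pp n ∂μ) atTop (𝓝 0) ∧
    Tendsto (fun k => ∫ x, |u k x - τ x| ^ qq n ∂σ) atTop (𝓝 0) :=
  ⟨(key hn hS h u hu ht).1.2, (key hn hS h u hu ht).2.2⟩

end Pool.Agent.CY
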