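import Pool.Agent.CY.S2.Weak
import Pool.Agent.CY.S2.BL

/-!
CY-S2-SubAdd. Subadditivity of `P` and `Q` along weakly convergent sequences.

`brezis_lieb` with `r = pp n` and `(x + y)^{2/p} ≤ x^{2/p} + y^{2/p}` (`Real.add_rpow_le_...` / concavity,
`0 < 2/p < 1`), uniform continuity of `x ↦ x^{2/p}` on bounded sets.  The critical norms of `u_k` are bounded
by `hS.sob`.  The lower bound `P(w) ≤ liminf P(u_k)` is Fatou.
-/

set_option autoImplicit false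

open scoped ENNReal ContDiff
open MeasureTheory Set Filter Topology

namespace Pool.Agent.CY

variable {X : Type} [TopologicalSpace X] [CompactSpace X] [MeasurableSpace X] [BorelSpace X]
  {F : Type} [NormedAddCommGroup F] [InnerProductSpace ℝ F] [FiniteDimensional ℝ F]
  {n : ℕ} {μ σ : Measure X} {A : Set (X → ℝ)} {D : (X → ℝ) → X → F}

/-- the abstract estimate: subadditivity of `x ↦ x ^ s` -/
private theorem subadd_aux (a b : ℕ → ℝ) (c s : ℝ) (ha : ∀ k, 0 ≤ a k) (hb : ∀ k, 0 ≤ b k)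
    (hc : 0 ≤ c) (hs : 0 < s) (hs1 : s ≤ 1) (h : Tendsto (fun k => a k - b k) atTop (𝓝 c)) :
    ∃ o : ℕ → ℝ, Tendsto o atTop (𝓝 0) ∧ (∀ k, a k ^ s ≤ c ^ s + b k ^ s + o k) ∧
      (∀ k, c ^ s ≤ a k ^ s + o k) := by
  have hsub : ∀ x y : ℝ, 0 ≤ x → 0 ≤ y → (x + y) ^ s ≤ x ^ s + y ^ s := by
    intro x y hx hy
    have h1 := NNReal.rpow_add_le_add_rpow ⟨x, hx⟩ ⟨y, hy⟩ hs.le hs1
    exact_mod_cast h1
  have hd : Tendsto (fun k => |a k - b k - c|) atTop (𝓝 0) := by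
    have h1 := (h.sub_const c).abs
    simpa using h1
  refine ⟨fun k => |a k - b k - c| ^ s, ?_, ?_, ?_⟩
  · have h1 := hd.rpow_const (p := s) (Or.inr hs.le)
    rwa [Real.zero_rpow hs.ne'] at h1
  · intro k
    have h1 : a k ≤ c + b k + |a k - b k - c| := by
      have := le_abs_self (a k - b k - c)
      linarith
    calc a k ^ s ≤ (c + b k + |a k - b k - c|) ^ s := Real.rpow_le_rpow (ha k) h1 hs.le
      _ ≤ (c + b k) ^ s + |a k - b k - c| ^ s := hsub _ _ (add_nonneg hc (hb k)) (abs_nonneg _)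
      _ ≤ c ^ s + b k ^ s + |a k - b k - c| ^ s := by
        have := hsub _ _ hc (hb k)
        linarith
  · intro k
    have h1 : c ≤ a k + |a k - b k - c| := by
      have := neg_abs_le (a k - b k - c)
      have := hb k
      linarith
    exact (Real.rpow_le_rpow hc h1 hs.le).trans (hsub _ _ (ha k) (abs_nonneg _))

private theorem subadd_gen (ν : Measure X) (r : ℝ) (hr : 2 < r) (u : ℕ → X → ℝ) (w : X → ℝ)
    (hu : ∀ k, MemLp (u k) (ENNReal.ofReal r) ν) (hw : MemLp w (ENNReal.ofReal r) ν) (B : ℝ)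
    (hB : ∀ k, (∫ x, |u k x| ^ r ∂ν) ^ (2 / r) ≤ B)
    (hae : ∀ᵐ x ∂ν, Tendsto (fun k => u k x) atTop (𝓝 (w x))) :
    ∃ o : ℕ → ℝ, Tendsto o atTop (𝓝 0) ∧
      (∀ k, (∫ x, |u k x| ^ r ∂ν) ^ (2 / r) ≤ (∫ x, |w x| ^ r ∂ν) ^ (2 / r) +
        (∫ x, |u k x - w x| ^ r ∂ν) ^ (2 / r) + o k) ∧
      (∀ k, (∫ x, |w x| ^ r ∂ν) ^ (2 / r) ≤ (∫ x, |u k x| ^ r ∂ν) ^ (2 / r) + o k) := by
  have hr0 : 0 < r := by linarith
  have hnn : ∀ v : X → ℝ, 0 ≤ ∫ x, |v x| ^ r ∂ν := fun v =>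
    integral_nonneg fun x => Real.rpow_nonneg (abs_nonneg _) _
  refine subadd_aux (fun k => ∫ x, |u k x| ^ r ∂ν) (fun k => ∫ x, |u k x - w x| ^ r ∂ν)
    (∫ x, |w x| ^ r ∂ν) (2 / r) (fun k => hnn _) (fun k => hnn fun x => u k x - w x) (hnn w)
    (by positivity) ?_ ?_
  · rw [div_le_one hr0]; exact hr.le
  · refine brezis_lieb ν r (by linarith) u w hu hw (B ^ (r / 2)) (fun k => ?_) hae
    have h1 := Real.rpow_le_rpow (Real.rpow_nonneg (hnn (u k)) _) (hB k)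
      (show (0 : ℝ) ≤ r / 2 by positivity)
    rw [← Real.rpow_mul (hnn (u k))] at h1
    have h2 : 2 / r * (r / 2) = 1 := by field_simp
    rwa [h2, Real.rpow_one] at h1

/-- `P(u_k) ≤ P(w) + P(u_k - w) + o(1)`. -/
theorem PP_subadd (hn : 3 ≤ n) (hS : IsSob n μ σ A D) (u : ℕ → X → ℝ) (hu : ∀ k, u k ∈ A) (C : ℝ)
    (hC : ∀ k, DD μ (D (u k)) + ∫ x, u k x ^ 2 ∂μ ≤ C) {w τ : X → ℝ} {ζ : X → F} (h : InH μ σ A D w ζ τ)
    (hae : ∀ᵐ x ∂μ, Tendsto (fun k => u k x) atTop (𝓝 (w x))) :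
    ∃ o : ℕ → ℝ, Tendsto o atTop (𝓝 0) ∧
      (∀ k, PP n μ (u k) ≤ PP n μ w + PP n μ (fun x => u k x - w x) + o k) ∧
      (∀ k, PP n μ w ≤ PP n μ (u k) + o k) := by
  obtain ⟨C1, hC1⟩ := hS.sob
  have hE : ∀ k, 0 ≤ DD μ (D (u k)) + ∫ x, u k x ^ 2 ∂μ := fun k =>
    add_nonneg (DD_nonneg _) (integral_nonneg fun x => sq_nonneg _)
  refine subadd_gen μ (pp n) (pp_facts hn).1 u w (fun k => memLp_of_continuous μ hS.fin_μ _
    (hS.cont _ (hu k)) _) (h.memLp hn hS).1 (|C1| * C) (fun k => ?_) hae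
  have h1 := hC1 _ (hu k)
  have h2 := QQ_nonneg (n := n) (σ := σ) (u k)
  have h3 : C1 * (DD μ (D (u k)) + ∫ x, u k x ^ 2 ∂μ) ≤ |C1| * C :=
    mul_le_mul (le_abs_self _) (hC k) (hE k) (abs_nonneg _)
  change PP n μ (u k) ≤ _
  linarith

theorem QQ_subadd (hn : 3 ≤ n) (hS : IsSob n μ σ A D) (u : ℕ → X → ℝ) (hu : ∀ k, u k ∈ A) (C : ℝ)
    (hC : ∀ k, DD μ (D (u k)) + ∫ x, u k x ^ 2 ∂μ ≤ C) {w τ : X → ℝ} {ζ : X → F} (h : InH μ σ A D w ζ τ)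
    (hae : ∀ᵐ x ∂σ, Tendsto (fun k => u k x) atTop (𝓝 (τ x))) :
    ∃ o : ℕ → ℝ, Tendsto o atTop (𝓝 0) ∧
      (∀ k, QQ n σ (u k) ≤ QQ n σ τ + QQ n σ (fun x => u k x - τ x) + o k) := by
  obtain ⟨C1, hC1⟩ := hS.sob
  have hE : ∀ k, 0 ≤ DD μ (D (u k)) + ∫ x, u k x ^ 2 ∂μ := fun k =>
    add_nonneg (DD_nonneg _) (integral_nonneg fun x => sq_nonneg _)
  obtain ⟨o, ho, h1, -⟩ := subadd_gen σ (qq n) (qq_facts hn).1 u τ
    (fun k => memLp_of_continuous σ hS.fin_σ _ (hS.cont _ (hu k)) _) (h.memLp hn hS).2 (|C1| * C)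
    (fun k => by
      have h1 := hC1 _ (hu k)
      have h2 := PP_nonneg (n := n) (μ := μ) (u k)
      have h3 : C1 * (DD μ (D (u k)) + ∫ x, u k x ^ 2 ∂μ) ≤ |C1| * C :=
        mul_le_mul (le_abs_self _) (hC k) (hE k) (abs_nonneg _)
      change QQ n σ (u k) ≤ _
      linarith) hae
  exact ⟨o, ho, h1⟩

end Pool.Agent.CY
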