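import Pool.Agent.CY.S2.ConvH
import Pool.Agent.CY.S2.Hilb

/-!
CY-S2-Weak. Weak compactness in `H^1`.

`hS.rel` gives a subsequence which is Cauchy in `L²(μ)`; by trace interpolation (`hS.tr` for the differences,
whose `DD` is bounded) it is Cauchy in `L²(σ)`; so `u_k → w`, `u_k → τ` for some `w, τ` (completeness of
`L²`); pass to subsequences with a.e. convergence.  `D u_k` is bounded in the Hilbert space `Lp F 2 μ`; by
`exists_weak_subseq` there is a weakly convergent subsequence with limit `ζ`.  The sequence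
`(u_k, D u_k, u_k)` converges weakly in the product Hilbert space `L²(μ) × L²(μ; F) × L²(σ)` (`WithLp 2`),
and lies in the closure of the image of `A`, so by `weak_limit_mem` the limit lies in this closure: `InH`.
-/

set_option autoImplicit false

open scoped ENNReal ContDiff
open MeasureTheory Set Filter Topology

namespace Pool.Agent.CY

variable {X : Type} [TopologicalSpace X] [CompactSpace X] [MeasurableSpace X] [BorelSpace X]
  {F : Type} [NormedAddCommGroup F] [InnerProductSpace ℝ F] [FiniteDimensional ℝ F]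
  {n : ℕ} {μ σ : Measure X} {A : Set (X → ℝ)} {D : (X → ℝ) → X → F}

/-! ### The Hilbert space `L²(μ) × L²(μ; F) × L²(σ)` -/

private theorem Lp_norm_sq {Y E : Type} [MeasurableSpace Y] {ν : Measure Y} [NormedAddCommGroup E]
    [InnerProductSpace ℝ E] (f : Lp E 2 ν) : ‖f‖ ^ 2 = ∫ x, ‖f x‖ ^ 2 ∂ν := by
  rw [← real_inner_self_eq_norm_sq, L2.inner_def]
  simp only [real_inner_self_eq_norm_sq]

private theorem Lp_sub_norm_sq {Y E : Type} [MeasurableSpace Y] {ν : Measure Y}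
    [NormedAddCommGroup E] [InnerProductSpace ℝ E] (f g : Lp E 2 ν) (f' g' : Y → E)
    (hf : f =ᵐ[ν] f') (hg : g =ᵐ[ν] g') : ‖f - g‖ ^ 2 = ∫ x, ‖f' x - g' x‖ ^ 2 ∂ν := by
  rw [Lp_norm_sq]
  refine integral_congr_ae ?_
  filter_upwards [Lp.coeFn_sub f g, hf, hg] with x h1 h2 h3
  rw [h1, Pi.sub_apply, h2, h3]

private abbrev HH (μ σ : Measure X) (F : Type) [NormedAddCommGroup F] [InnerProductSpace ℝ F] :
    Type := WithLp 2 (Lp ℝ 2 μ × WithLp 2 (Lp F 2 μ × Lp ℝ 2 σ))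

private theorem HH_norm_sq (x : HH μ σ F) :
    ‖x‖ ^ 2 = ‖x.fst‖ ^ 2 + (‖x.snd.fst‖ ^ 2 + ‖x.snd.snd‖ ^ 2) := by
  rw [WithLp.prod_norm_sq_eq_of_L2, WithLp.prod_norm_sq_eq_of_L2]

private theorem memLp_A3 (hS : IsSob n μ σ A D) {u : X → ℝ} (hu : u ∈ A) :
    MemLp u 2 μ ∧ MemLp (D u) 2 μ ∧ MemLp u 2 σ := by
  refine ⟨?_, ?_, ?_⟩
  · exact memLp_of_continuous μ hS.fin_μ u (hS.cont u hu) 2
  · have : IsFiniteMeasure μ := ⟨hS.fin_μ⟩
    obtain ⟨C, hC⟩ := (isCompact_univ (X := X)).exists_bound_of_continuousOn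
      (hS.contD u hu).continuousOn
    refine MemLp.of_bound (hS.contD u hu).aestronglyMeasurable C
      (Eventually.of_forall fun x => hC x (mem_univ x))
  · exact memLp_of_continuous σ hS.fin_σ u (hS.cont u hu) 2

/-- the predicate `y = (v, D v, v)` -/
private def isJ (D : (X → ℝ) → X → F) (v : X → ℝ) (y : HH μ σ F) : Prop :=
  (y.fst =ᵐ[μ] v) ∧ (y.snd.fst =ᵐ[μ] D v) ∧ (y.snd.snd =ᵐ[σ] v)

private theorem exists_isJ (hS : IsSob n μ σ A D) {u : X → ℝ} (hu : u ∈ A) :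
    ∃ y : HH μ σ F, isJ D u y := by
  obtain ⟨h1, h2, h3⟩ := memLp_A3 hS hu
  exact ⟨WithLp.toLp 2 (h1.toLp u, WithLp.toLp 2 (h2.toLp (D u), h3.toLp u)),
    h1.coeFn_toLp, h2.coeFn_toLp, h3.coeFn_toLp⟩

/-- the image of `A` in the Hilbert space -/
private def SS (hS : IsSob n μ σ A D) : Submodule ℝ (HH μ σ F) where
  carrier := {y | ∃ v ∈ A, isJ D v y}
  zero_mem' := by
    refine ⟨fun _ => 0, hS.const 0, ?_, ?_, ?_⟩
    · exact Lp.coeFn_zero ℝ 2 μ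
    · rw [hS.D_const]
      exact Lp.coeFn_zero F 2 μ
    · exact Lp.coeFn_zero ℝ 2 σ
  add_mem' := by
    rintro y z ⟨v, hv, a1, a2, a3⟩ ⟨v', hv', b1, b2, b3⟩
    refine ⟨fun x => v x + v' x, hS.add v hv v' hv', ?_, ?_, ?_⟩
    · filter_upwards [Lp.coeFn_add y.fst z.fst, a1, b1] with x h1 h2 h3
      change (y.fst + z.fst : Lp ℝ 2 μ) x = _
      rw [h1, Pi.add_apply, h2, h3]
    · rw [hS.D_add v hv v' hv']
      filter_upwards [Lp.coeFn_add y.snd.fst z.snd.fst, a2, b2] with x h1 h2 h3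
      change (y.snd.fst + z.snd.fst : Lp F 2 μ) x = _
      rw [h1, Pi.add_apply, h2, h3]
      rfl
    · filter_upwards [Lp.coeFn_add y.snd.snd z.snd.snd, a3, b3] with x h1 h2 h3
      change (y.snd.snd + z.snd.snd : Lp ℝ 2 σ) x = _
      rw [h1, Pi.add_apply, h2, h3]
  smul_mem' := by
    rintro c y ⟨v, hv, a1, a2, a3⟩
    refine ⟨fun x => c * v x, hS.smul c v hv, ?_, ?_, ?_⟩
    · filter_upwards [Lp.coeFn_smul c y.fst, a1] with x h1 h2
      change (c • y.fst : Lp ℝ 2 μ) x = _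
      rw [h1, Pi.smul_apply, h2]
      rfl
    · rw [hS.D_smul c v hv]
      filter_upwards [Lp.coeFn_smul c y.snd.fst, a2] with x h1 h2
      change (c • y.snd.fst : Lp F 2 μ) x = _
      rw [h1, Pi.smul_apply, h2]
      rfl
    · filter_upwards [Lp.coeFn_smul c y.snd.snd, a3] with x h1 h2
      change (c • y.snd.snd : Lp ℝ 2 σ) x = _
      rw [h1, Pi.smul_apply, h2]
      rfl

private theorem isJ_dist {v : X → ℝ} {y z : HH μ σ F} (hy : isJ D v y) :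
    ‖y - z‖ ^ 2 = ∫ x, (v x - z.fst x) ^ 2 ∂μ +
      (∫ x, ‖D v x - z.snd.fst x‖ ^ 2 ∂μ + ∫ x, (v x - z.snd.snd x) ^ 2 ∂σ) := by
  obtain ⟨a1, a2, a3⟩ := hy
  rw [HH_norm_sq]
  have e1 : ‖(y - z).fst‖ ^ 2 = ∫ x, (v x - z.fst x) ^ 2 ∂μ := by
    have h := Lp_sub_norm_sq y.fst z.fst v z.fst a1 (ae_eq_refl _)
    simp only [Real.norm_eq_abs, sq_abs] at h
    exact h
  have e2 : ‖(y - z).snd.fst‖ ^ 2 = ∫ x, ‖D v x - z.snd.fst x‖ ^ 2 ∂μ :=
    Lp_sub_norm_sq y.snd.fst z.snd.fst (D v) z.snd.fst a2 (ae_eq_refl _)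
  have e3 : ‖(y - z).snd.snd‖ ^ 2 = ∫ x, (v x - z.snd.snd x) ^ 2 ∂σ := by
    have h := Lp_sub_norm_sq y.snd.snd z.snd.snd v z.snd.snd a3 (ae_eq_refl _)
    simp only [Real.norm_eq_abs, sq_abs] at h
    exact h
  rw [e1, e2, e3]

/-- members of the closure of the image of `A` are in `H^1` -/
private theorem inH_of_closure (hS : IsSob n μ σ A D) (y : HH μ σ F)
    (hy : y ∈ (SS hS).topologicalClosure) : InH μ σ A D y.fst y.snd.fst y.snd.snd := by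
  have hy' : y ∈ closure ((SS hS : Submodule ℝ (HH μ σ F)) : Set (HH μ σ F)) := hy
  obtain ⟨x, hx, hlim⟩ := mem_closure_iff_seq_limit.1 hy'
  choose v hv hJ using hx
  have h0 : Tendsto (fun k => ‖x k - y‖ ^ 2) atTop (𝓝 0) := by
    have h := (tendsto_iff_norm_sub_tendsto_zero.1 hlim).pow 2
    simpa using h
  have hd := fun k => isJ_dist (z := y) (hJ k)
  have n1 : ∀ k, 0 ≤ ∫ x, (v k x - y.fst x) ^ 2 ∂μ := fun k => integral_nonneg fun x => sq_nonneg _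
  have n2 : ∀ k, 0 ≤ ∫ x, ‖D (v k) x - y.snd.fst x‖ ^ 2 ∂μ :=
    fun k => integral_nonneg fun x => by positivity
  have n3 : ∀ k, 0 ≤ ∫ x, (v k x - y.snd.snd x) ^ 2 ∂σ :=
    fun k => integral_nonneg fun x => sq_nonneg _
  refine ⟨Lp.memLp _, Lp.memLp _, Lp.memLp _, v, hv, ?_, ?_, ?_⟩
  · exact squeeze_zero n1 (fun k => by linarith [hd k, n2 k, n3 k]) h0
  · exact squeeze_zero n2 (fun k => by linarith [hd k, n1 k, n3 k]) h0
  · exact squeeze_zero n3 (fun k => by linarith [hd k, n1 k, n2 k]) h0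

/-- a sequence which is Cauchy in `L²` and weakly convergent converges in `L²` -/
private theorem strong_of_weak {E : Type} [NormedAddCommGroup E] [InnerProductSpace ℝ E]
    [CompleteSpace E] (a : ℕ → E) (b : E) (hc : CauchySeq a)
    (hw : ∀ z : E, Tendsto (fun k => inner ℝ (a k) z) atTop (𝓝 (inner ℝ b z))) :
    Tendsto a atTop (𝓝 b) := by
  obtain ⟨c, hc'⟩ := cauchySeq_tendsto_of_complete hc
  have h : c = b := by
    refine ext_inner_right ℝ fun z => ?_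
    exact tendsto_nhds_unique (hc'.inner tendsto_const_nhds) (hw z)
  rwa [h] at hc'

private theorem cauchy_of_int {Y : Type} [MeasurableSpace Y] {ν : Measure Y} (a : ℕ → Lp ℝ 2 ν)
    (f : ℕ → Y → ℝ) (hf : ∀ k, a k =ᵐ[ν] f k)
    (h : ∀ ε > 0, ∃ N, ∀ j ≥ N, ∀ k ≥ N, ∫ x, (f j x - f k x) ^ 2 ∂ν ≤ ε) : CauchySeq a := by
  rw [Metric.cauchySeq_iff]
  intro ε hε
  obtain ⟨N, hN⟩ := h (ε ^ 2 / 2) (by positivity)
  refine ⟨N, fun j hj k hk => ?_⟩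
  have h1 := Lp_sub_norm_sq (a j) (a k) (f j) (f k) (hf j) (hf k)
  simp only [Real.norm_eq_abs, sq_abs] at h1
  have h2 := hN j hj k hk
  rw [← h1] at h2
  rw [dist_eq_norm]
  have h3 : ‖a j - a k‖ ^ 2 < ε ^ 2 := by
    have : 0 < ε ^ 2 := by positivity
    linarith
  exact lt_of_pow_lt_pow_left₀ 2 hε.le h3

private theorem ae_subseq {Y : Type} [MeasurableSpace Y] {ν : Measure Y} (a : ℕ → Lp ℝ 2 ν)
    (b : Lp ℝ 2 ν) (f : ℕ → Y → ℝ) (hf : ∀ k, a k =ᵐ[ν] f k) (h : Tendsto a atTop (𝓝 b)) :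
    ∃ φ : ℕ → ℕ, StrictMono φ ∧ ∀ᵐ x ∂ν, Tendsto (fun k => f (φ k) x) atTop (𝓝 (b x)) := by
  obtain ⟨φ, hφ, h1⟩ := (tendstoInMeasure_of_tendsto_Lp h).exists_seq_tendsto_ae
  refine ⟨φ, hφ, ?_⟩
  filter_upwards [h1, ae_all_iff.2 hf] with x h2 h3
  refine h2.congr fun k => ?_
  rw [h3]

private theorem int_tendsto {Y : Type} [MeasurableSpace Y] {ν : Measure Y} (a : ℕ → Lp ℝ 2 ν)
    (b : Lp ℝ 2 ν) (f : ℕ → Y → ℝ) (hf : ∀ k, a k =ᵐ[ν] f k) (h : Tendsto a atTop (𝓝 b)) :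
    Tendsto (fun k => ∫ x, (f k x - b x) ^ 2 ∂ν) atTop (𝓝 0) := by
  have h1 := (tendsto_iff_norm_sub_tendsto_zero.1 h).pow 2
  rw [zero_pow two_ne_zero] at h1
  refine h1.congr fun k => ?_
  have h2 := Lp_sub_norm_sq (a k) b (f k) b (hf k) (ae_eq_refl _)
  simp only [Real.norm_eq_abs, sq_abs] at h2
  exact h2

theorem weak_compact (hn : 3 ≤ n) (hS : IsSob n μ σ A D) (u : ℕ → X → ℝ) (hu : ∀ k, u k ∈ A) (C : ℝ)
    (hC : ∀ k, DD μ (D (u k)) + ∫ x, u k x ^ 2 ∂μ ≤ C) :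
    ∃ φ : ℕ → ℕ, StrictMono φ ∧ ∃ (w : X → ℝ) (ζ : X → F) (τ : X → ℝ), InH μ σ A D w ζ τ ∧
      Tendsto (fun k => ∫ x, (u (φ k) x - w x) ^ 2 ∂μ) atTop (𝓝 0) ∧
      Tendsto (fun k => ∫ x, (u (φ k) x - τ x) ^ 2 ∂σ) atTop (𝓝 0) ∧
      (∀ᵐ x ∂μ, Tendsto (fun k => u (φ k) x) atTop (𝓝 (w x))) ∧
      (∀ᵐ x ∂σ, Tendsto (fun k => u (φ k) x) atTop (𝓝 (τ x))) ∧
      ∀ ξ : X → F, MemLp ξ 2 μ →
        Tendsto (fun k => ∫ x, inner ℝ (D (u (φ k)) x) (ξ x) ∂μ) atTop (𝓝 (∫ x, inner ℝ (ζ x) (ξ x) ∂μ)) := by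
  have : CompleteSpace F := FiniteDimensional.complete ℝ F
  have dd0 : ∀ v, 0 ≤ DD μ (D v) := fun v => integral_nonneg fun x => by positivity
  have w0 : ∀ k, 0 ≤ ∫ x, u k x ^ 2 ∂μ := fun k => integral_nonneg fun x => sq_nonneg _
  -- a subsequence which is Cauchy in `L²(μ)`
  obtain ⟨φ0, hφ0, hc0⟩ := hS.rel u hu ⟨C, hC⟩
  -- it is Cauchy in `L²(σ)`
  have hC0 : 0 ≤ C := le_trans (add_nonneg (dd0 (u 0)) (w0 0)) (hC 0)
  have hdif : ∀ j k, DD μ (D (fun x => u j x - u k x)) ≤ 4 * C := by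
    intro j k
    have h1 : D (fun x => u j x - u k x) = D (u j) - D (u k) := (hS.sub (hu j) (hu k)).2
    rw [h1]
    have i1 : Integrable (fun x => ‖D (u j) x‖ ^ 2) μ :=
      (memLp_two_iff_integrable_sq_norm (memLp_A3 hS (hu j)).2.1.1).1 (memLp_A3 hS (hu j)).2.1
    have i2 : Integrable (fun x => ‖D (u k) x‖ ^ 2) μ :=
      (memLp_two_iff_integrable_sq_norm (memLp_A3 hS (hu k)).2.1.1).1 (memLp_A3 hS (hu k)).2.1
    have i3 : MemLp (D (u j) - D (u k)) 2 μ :=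
      (memLp_A3 hS (hu j)).2.1.sub (memLp_A3 hS (hu k)).2.1
    have h2 : DD μ (D (u j) - D (u k)) ≤ 2 * DD μ (D (u j)) + 2 * DD μ (D (u k)) := by
      unfold DD
      rw [← integral_const_mul, ← integral_const_mul, ← integral_add (i1.const_mul 2)
        (i2.const_mul 2)]
      refine integral_mono ((memLp_two_iff_integrable_sq_norm i3.1).1 i3)
        ((i1.const_mul 2).add (i2.const_mul 2)) fun x => ?_
      change ‖D (u j) x - D (u k) x‖ ^ 2 ≤ 2 * ‖D (u j) x‖ ^ 2 + 2 * ‖D (u k) x‖ ^ 2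
      have h1 : ‖D (u j) x - D (u k) x‖ ≤ ‖D (u j) x‖ + ‖D (u k) x‖ := norm_sub_le _ _
      have h3 : ‖D (u j) x - D (u k) x‖ ^ 2 ≤ (‖D (u j) x‖ + ‖D (u k) x‖) ^ 2 :=
        pow_le_pow_left₀ (norm_nonneg _) h1 2
      nlinarith [sq_nonneg (‖D (u j) x‖ - ‖D (u k) x‖)]
    have h3 := hC j
    have h4 := hC k
    have h5 := w0 j
    have h6 := w0 k
    linarith
  have hc1 : ∀ ε > 0, ∃ N, ∀ j ≥ N, ∀ k ≥ N,
      ∫ x, (u (φ0 j) x - u (φ0 k) x) ^ 2 ∂σ ≤ ε := by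
    intro ε hε
    obtain ⟨K, hK⟩ := hS.tr (ε / (8 * (C + 1))) (by positivity)
    obtain ⟨N, hN⟩ := hc0 (ε / (2 * (|K| + 1))) (by positivity)
    refine ⟨N, fun j hj k hk => ?_⟩
    have h1 := hK (fun x => u (φ0 j) x - u (φ0 k) x) (hS.sub (hu _) (hu _)).1
    have h2 := hdif (φ0 j) (φ0 k)
    have h3 := hN j hj k hk
    have h4 : 0 ≤ ∫ x, (u (φ0 j) x - u (φ0 k) x) ^ 2 ∂μ := integral_nonneg fun x => sq_nonneg _
    have h5 : ε / (8 * (C + 1)) * DD μ (D (fun x => u (φ0 j) x - u (φ0 k) x)) ≤ ε / 2 := by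
      calc ε / (8 * (C + 1)) * DD μ (D (fun x => u (φ0 j) x - u (φ0 k) x))
          ≤ ε / (8 * (C + 1)) * (4 * (C + 1)) := by
            refine mul_le_mul_of_nonneg_left (by linarith) (by positivity)
        _ = ε / 2 := by
            field_simp
            norm_num
    have h6 : K * ∫ x, (u (φ0 j) x - u (φ0 k) x) ^ 2 ∂μ ≤ ε / 2 := by
      calc K * ∫ x, (u (φ0 j) x - u (φ0 k) x) ^ 2 ∂μ
          ≤ (|K| + 1) * ∫ x, (u (φ0 j) x - u (φ0 k) x) ^ 2 ∂μ :=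
            mul_le_mul_of_nonneg_right (by linarith [le_abs_self K]) h4
        _ ≤ (|K| + 1) * (ε / (2 * (|K| + 1))) :=
            mul_le_mul_of_nonneg_left h3 (by positivity)
        _ = ε / 2 := by
            field_simp
    linarith
  -- the sequence in the Hilbert space
  choose J hJ using fun k => exists_isJ (D := D) hS (hu (φ0 k))
  have hJS : ∀ k, J k ∈ SS hS := fun k => ⟨u (φ0 k), hu _, hJ k⟩
  obtain ⟨K1, hK1⟩ := hS.tr 1 one_pos
  have hbd : ∀ k, ‖J k‖ ≤ 1 + (3 + |K1|) * C := by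
    intro k
    have h1 := isJ_dist (z := (0 : HH μ σ F)) (hJ k)
    have e1 : ∫ x, (u (φ0 k) x - (0 : HH μ σ F).fst x) ^ 2 ∂μ = ∫ x, u (φ0 k) x ^ 2 ∂μ := by
      refine integral_congr_ae ?_
      filter_upwards [Lp.coeFn_zero ℝ 2 μ] with x hx
      change (u (φ0 k) x - (0 : Lp ℝ 2 μ) x) ^ 2 = _
      rw [hx, Pi.zero_apply, sub_zero]
    have e2 : ∫ x, ‖D (u (φ0 k)) x - (0 : HH μ σ F).snd.fst x‖ ^ 2 ∂μ = DD μ (D (u (φ0 k))) := by
      refine integral_congr_ae ?_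
      filter_upwards [Lp.coeFn_zero F 2 μ] with x hx
      change ‖D (u (φ0 k)) x - (0 : Lp F 2 μ) x‖ ^ 2 = _
      rw [hx, Pi.zero_apply, sub_zero]
    have e3 : ∫ x, (u (φ0 k) x - (0 : HH μ σ F).snd.snd x) ^ 2 ∂σ = ∫ x, u (φ0 k) x ^ 2 ∂σ := by
      refine integral_congr_ae ?_
      filter_upwards [Lp.coeFn_zero ℝ 2 σ] with x hx
      change (u (φ0 k) x - (0 : Lp ℝ 2 σ) x) ^ 2 = _
      rw [hx, Pi.zero_apply, sub_zero]
    rw [sub_zero, e1, e2, e3] at h1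
    have h2 := hK1 (u (φ0 k)) (hu _)
    have h3 := hC (φ0 k)
    have h4 := w0 (φ0 k)
    have h5 := dd0 (u (φ0 k))
    have h6 : K1 * ∫ x, u (φ0 k) x ^ 2 ∂μ ≤ |K1| * C :=
      calc K1 * ∫ x, u (φ0 k) x ^ 2 ∂μ ≤ |K1| * ∫ x, u (φ0 k) x ^ 2 ∂μ :=
            mul_le_mul_of_nonneg_right (le_abs_self K1) h4
        _ ≤ |K1| * C := mul_le_mul_of_nonneg_left (by linarith) (abs_nonneg _)
    have h7 : ‖J k‖ ^ 2 ≤ (3 + |K1|) * C := by nlinarith
    nlinarith [norm_nonneg (J k), sq_nonneg (‖J k‖ - 1)]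
  obtain ⟨φ1, hφ1, y, hy⟩ := exists_weak_subseq J _ hbd
  have hyS : y ∈ (SS hS).topologicalClosure :=
    weak_limit_mem _ (Submodule.isClosed_topologicalClosure _) (fun k => J (φ1 k))
      (fun k => Submodule.le_topologicalClosure _ (hJS _)) y hy
  have hInH := inH_of_closure hS y hyS
  -- strong convergence in `L²(μ)`
  have s1 : Tendsto (fun k => (J (φ1 k)).fst) atTop (𝓝 y.fst) := by
    refine strong_of_weak _ _ ?_ fun z => ?_
    · refine cauchy_of_int _ (fun k => u (φ0 (φ1 k))) (fun k => (hJ (φ1 k)).1) fun ε hε => ?_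
      obtain ⟨N, hN⟩ := hc0 ε hε
      exact ⟨N, fun j hj k hk => hN _ (le_trans hj (hφ1.id_le j)) _ (le_trans hk (hφ1.id_le k))⟩
    · have h := hy (WithLp.toLp 2 (z, 0))
      simp only [WithLp.prod_inner_apply] at h
      simpa using h
  have s3 : Tendsto (fun k => (J (φ1 k)).snd.snd) atTop (𝓝 y.snd.snd) := by
    refine strong_of_weak _ _ ?_ fun z => ?_
    · refine cauchy_of_int _ (fun k => u (φ0 (φ1 k))) (fun k => (hJ (φ1 k)).2.2) fun ε hε => ?_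
      obtain ⟨N, hN⟩ := hc1 ε hε
      exact ⟨N, fun j hj k hk => hN _ (le_trans hj (hφ1.id_le j)) _ (le_trans hk (hφ1.id_le k))⟩
    · have h := hy (WithLp.toLp 2 (0, WithLp.toLp 2 (0, z)))
      simp only [WithLp.prod_inner_apply] at h
      simpa using h
  obtain ⟨φ2, hφ2, ha2⟩ := ae_subseq _ _ (fun k => u (φ0 (φ1 k))) (fun k => (hJ (φ1 k)).1) s1
  obtain ⟨φ3, hφ3, ha3⟩ := ae_subseq _ _ (fun k => u (φ0 (φ1 (φ2 k))))
    (fun k => (hJ (φ1 (φ2 k))).2.2) (s3.comp hφ2.tendsto_atTop)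
  refine ⟨fun k => φ0 (φ1 (φ2 (φ3 k))), fun i j hij => hφ0 (hφ1 (hφ2 (hφ3 hij))), y.fst,
    y.snd.fst, y.snd.snd, hInH, ?_, ?_, ?_, ?_, ?_⟩
  · exact (int_tendsto _ _ (fun k => u (φ0 (φ1 k))) (fun k => (hJ (φ1 k)).1) s1).comp
      (hφ2.comp hφ3).tendsto_atTop
  · exact (int_tendsto _ _ (fun k => u (φ0 (φ1 k))) (fun k => (hJ (φ1 k)).2.2) s3).comp
      (hφ2.comp hφ3).tendsto_atTop
  · filter_upwards [ha2] with x hx
    exact hx.comp hφ3.tendsto_atTop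
  · exact ha3
  · intro ξ hξ
    have h := hy (WithLp.toLp 2 (0, WithLp.toLp 2 (hξ.toLp ξ, 0)))
    simp only [WithLp.prod_inner_apply] at h
    have h' : Tendsto (fun k => inner ℝ (J (φ1 k)).snd.fst (hξ.toLp ξ)) atTop
        (𝓝 (inner ℝ y.snd.fst (hξ.toLp ξ))) := by
      simpa using h
    have e0 : inner ℝ y.snd.fst (hξ.toLp ξ) = ∫ x, inner ℝ (y.snd.fst x) (ξ x) ∂μ := by
      rw [L2.inner_def]
      refine integral_congr_ae ?_
      filter_upwards [hξ.coeFn_toLp] with x hx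
      rw [hx]
    have ek : ∀ k, inner ℝ (J (φ1 k)).snd.fst (hξ.toLp ξ) =
        ∫ x, inner ℝ (D (u (φ0 (φ1 k))) x) (ξ x) ∂μ := by
      intro k
      rw [L2.inner_def]
      refine integral_congr_ae ?_
      filter_upwards [hξ.coeFn_toLp, (hJ (φ1 k)).2.1] with x hx hx'
      rw [hx, hx']
    rw [e0] at h'
    have h'' := (h'.congr ek).comp (hφ2.comp hφ3).tendsto_atTop
    exact h''

end Pool.Agent.CY
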